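import Pool.Agent.Work.MP_a2bf38_gt.I.NatFlow2
import Pool.Agent.Work.MP_a2bf38_gt.I.ABP
import Pool.Agent.Work.MP_a2bf38_gt.I.Sect
import Pool.Agent.Work.MP_a2bf38_gt.K.NatTop

/-!
# Blow-up coordinates: the positivity of the Fubini-Study form

Calculus for the modification of the base: `g ∘ σ = (monomial) γ` with `γ` without zeros.
-/

open scoped ContDiff ENNReal ComplexOrder Topology
open Set Filter Pool.Agent.ToricKRF Pool.Agent.ToricKRF.G Pool.Agent.KRFS Pool.Agent.KRFF
  Pool.Agent.KRFG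

namespace Pool.Agent.KRFX

namespace NC

open Pool.Agent.KRFS.ABP (ip ip_self)

variable {m l : ℕ}

/-! ### The Fubini-Study form -/

theorem D_nsq (z u : Cn l) : D u nsq z = 2 * ip z u := by
  have h1 : HasFDerivAt (nsq : Cn l → ℝ) (fderiv ℝ nsq z) z := by
    have : Differentiable ℝ (nsq : Cn l → ℝ) := by
      unfold nsq dotProduct
      fun_prop
    exact (this z).hasFDerivAt
  have h2 : HasDerivAt (fun t : ℝ => nsq (z + t • u)) (fderiv ℝ nsq z u) 0 := by
    have h3 : HasDerivAt (fun t : ℝ => z + t • u) u 0 := by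
      simpa using ((hasDerivAt_id (0 : ℝ)).smul_const u).const_add z
    have h4 : HasFDerivAt (nsq : Cn l → ℝ) (fderiv ℝ nsq z) (z + (0 : ℝ) • u) := by simpa using h1
    exact h4.comp_hasDerivAt 0 h3
  have h5 : (fun t : ℝ => nsq (z + t • u)) = fun t => nsq z + t * (2 * ip z u) + t ^ 2 * nsq u := by
    funext t
    simp only [nsq, ip, Prod.fst_add, Prod.snd_add, Prod.smul_fst, Prod.smul_snd, add_dotProduct,
      dotProduct_add, smul_dotProduct, dotProduct_smul, smul_eq_mul, dotProduct_comm u.1 z.1,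
      dotProduct_comm u.2 z.2]
    ring
  have h6 : HasDerivAt (fun t : ℝ => nsq z + t * (2 * ip z u) + t ^ 2 * nsq u) (2 * ip z u) 0 := by
    have h7 := (((hasDerivAt_id (0 : ℝ)).mul_const (2 * ip z u)).const_add (nsq z)).fun_add
      (((hasDerivAt_id (0 : ℝ)).pow 2).mul_const (nsq u))
    simpa using h7
  rw [h5] at h2
  exact h2.unique h6

theorem ip_J_J (u : Cn l) : ip (J u) (J u) = ip u u := by
  simp only [ip, J, neg_dotProduct, dotProduct_neg, neg_neg]
  ring

theorem ip_add (a b u : Cn l) : ip (a + b) u = ip a u + ip b u := by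
  simp only [ip, Prod.fst_add, Prod.snd_add, add_dotProduct]
  ring

theorem ip_smul (r : ℝ) (a u : Cn l) : ip (r • a) u = r * ip a u := by
  simp only [ip, Prod.smul_fst, Prod.smul_snd, smul_dotProduct, smul_eq_mul]
  ring

theorem ip_comm (a b : Cn l) : ip a b = ip b a := by
  simp only [ip, dotProduct_comm]

theorem D_ip (z u w : Cn l) : D w (fun z => ip z u) z = ip w u := by
  have h1 : Differentiable ℝ (fun z : Cn l => ip z u) := by
    unfold ip dotProduct
    fun_prop
  have h3 : HasDerivAt (fun t : ℝ => z + t • w) w 0 := by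
    simpa using ((hasDerivAt_id (0 : ℝ)).smul_const w).const_add z
  have h4 : HasFDerivAt (fun z : Cn l => ip z u) (fderiv ℝ (fun z => ip z u) z)
    (z + (0 : ℝ) • w) := by simpa using (h1 z).hasFDerivAt
  have h2 := h4.comp_hasDerivAt 0 h3
  have h5 : ((fun z : Cn l => ip z u) ∘ fun t : ℝ => z + t • w) =
      fun t => ip z u + t * ip w u := by
    funext t
    simp only [Function.comp_apply, ip_add, ip_smul]
  rw [h5] at h2
  have h6 : HasDerivAt (fun t : ℝ => ip z u + t * ip w u) (ip w u) 0 := by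
    simpa using ((hasDerivAt_id (0 : ℝ)).mul_const (ip w u)).const_add (ip z u)
  exact h2.unique h6

/-- the numerator of the Fubini-Study form -/
noncomputable def fs (z u : Cn l) : ℝ := nsq u * nsq z - ip z u ^ 2 - ip z (J u) ^ 2

theorem contDiff_nsq : ContDiff ℝ ∞ (nsq : Cn l → ℝ) := by
  unfold nsq dotProduct
  fun_prop

theorem contDiff_ip (u : Cn l) : ContDiff ℝ ∞ (fun z : Cn l => ip z u) := by
  unfold ip dotProduct
  fun_prop

theorem isOpen_ne : IsOpen {z : Cn l | nsq z ≠ 0} :=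
  isOpen_ne_fun contDiff_nsq.continuous continuous_const

theorem contDiffOn_log_nsq : ContDiffOn ℝ ∞ (fun z : Cn l => Real.log (nsq z)) {z | nsq z ≠ 0} :=
  fun _ hz => (contDiff_nsq.contDiffAt.log hz).contDiffWithinAt

theorem D_log_nsq {z : Cn l} (hz : nsq z ≠ 0) (u : Cn l) :
    D u (fun z => Real.log (nsq z)) z = 2 * ip z u / nsq z := by
  have h1 : HasFDerivAt (nsq : Cn l → ℝ) (fderiv ℝ nsq z) z :=
    (contDiff_nsq.differentiable (by simp) z).hasFDerivAt
  have h2 := (h1.log hz).fderiv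
  unfold D
  rw [h2]
  have h3 := D_nsq z u
  unfold D at h3
  simp only [smul_apply, smul_eq_mul, h3]
  field_simp

theorem DD_log_nsq {z : Cn l} (hz : nsq z ≠ 0) (u : Cn l) :
    D u (D u fun z => Real.log (nsq z)) z =
      (2 * nsq u * nsq z - 4 * ip z u ^ 2) / nsq z ^ 2 := by
  have h1 : (D u fun z : Cn l => Real.log (nsq z)) =ᶠ[𝓝 z] fun z => 2 * ip z u / nsq z := by
    filter_upwards [isOpen_ne.mem_nhds hz] with z' hz'
    exact D_log_nsq hz' u
  unfold D at h1 ⊢
  rw [h1.fderiv_eq]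
  have h2 : HasFDerivAt (nsq : Cn l → ℝ) (fderiv ℝ nsq z) z :=
    (contDiff_nsq.differentiable (by simp) z).hasFDerivAt
  have h3 : HasFDerivAt (fun z : Cn l => ip z u) (fderiv ℝ (fun z => ip z u) z) z :=
    ((contDiff_ip u).differentiable (by simp) z).hasFDerivAt
  have h8 : HasFDerivAt (fun z : Cn l => (nsq z)⁻¹) (-(nsq z ^ 2)⁻¹ • fderiv ℝ nsq z) z :=
    (hasDerivAt_inv hz).comp_hasFDerivAt z h2
  have h4 := ((h3.const_mul 2).fun_mul h8).fderiv
  have h7 : (fun z : Cn l => 2 * ip z u / nsq z) = fun z => 2 * ip z u * (nsq z)⁻¹ := by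
    funext z
    rw [div_eq_mul_inv]
  rw [h7, h4]
  have h5 := D_nsq z u
  have h6 := D_ip z u u
  unfold D at h5 h6
  simp only [smul_apply, add_apply, smul_eq_mul, h5, h6, ip_self]
  field_simp
  ring

theorem levz_log_nsq {z : Cn l} (hz : nsq z ≠ 0) (u : Cn l) :
    levz (fun z => Real.log (nsq z)) u z = fs z u / nsq z ^ 2 := by
  unfold levz
  rw [DD_log_nsq hz, DD_log_nsq hz]
  have h1 : nsq (J u) = nsq u := by
    rw [← ip_self, ← ip_self, ip_J_J]
  rw [h1, fs]
  field_simp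
  ring

/-- the vector `|z|^2 u - <z,u> z` (hermitian product) -/
theorem fs_identity (z u : Cn l) :
    nsq (nsq z • u - ip z u • z - ip (J z) u • J z) = nsq z * fs z u := by
  have e1 : ip z (J u) = - ip (J z) u := by
    simp only [ip, J, neg_dotProduct, dotProduct_neg]
    ring
  have e2 : ip (J z) z = 0 := by
    simp only [ip, J, neg_dotProduct, dotProduct_comm z.2 z.1]
    ring
  have e3 : ip z (J z) = 0 := by rw [ip_comm, e2]
  have h : ∀ a b c : Cn l, ∀ p q r : ℝ, nsq (p • a - q • b - r • c) =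
      p ^ 2 * ip a a + q ^ 2 * ip b b + r ^ 2 * ip c c - 2 * p * q * ip a b - 2 * p * r * ip a c +
        2 * q * r * ip b c := by
    intro a b c p q r
    simp only [nsq, ip, Prod.fst_sub, Prod.snd_sub, Prod.smul_fst, Prod.smul_snd, sub_dotProduct,
      dotProduct_sub, smul_dotProduct, dotProduct_smul, smul_eq_mul, dotProduct_comm b.1 a.1,
      dotProduct_comm b.2 a.2, dotProduct_comm c.1 a.1, dotProduct_comm c.2 a.2,
      dotProduct_comm c.1 b.1, dotProduct_comm c.2 b.2]
    ring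
  rw [h, ip_J_J, e3, ip_comm u z, ip_comm u (J z), ip_self, ip_self, fs, e1]
  ring

theorem nsq_nonneg (z : Cn l) : 0 ≤ nsq z := by
  rw [NK.nsq_eq_sum]
  positivity

theorem nsq_eq_zero {z : Cn l} : nsq z = 0 ↔ z = 0 := by
  rw [NK.nsq_eq_sum]
  constructor
  · intro h
    refine NK.cc_ext fun i => ?_
    have h1 := (Finset.sum_eq_zero_iff_of_nonneg fun i _ => sq_nonneg ‖cc z i‖).1 h i
      (Finset.mem_univ i)
    have h2 : ‖cc z i‖ = 0 := pow_eq_zero_iff (two_ne_zero) |>.1 h1
    rw [norm_eq_zero.1 h2, NK.cc_zero]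
  · rintro rfl
    simp [NK.cc_zero]

theorem fs_nonneg (z u : Cn l) : 0 ≤ fs z u := by
  rcases eq_or_ne (nsq z) 0 with h0 | h0
  · rw [nsq_eq_zero] at h0
    subst h0
    simp [fs, ip, nsq]
  · have h1 := fs_identity z u
    have h2 := nsq_nonneg (nsq z • u - ip z u • z - ip (J z) u • J z)
    rw [h1] at h2
    exact nonneg_of_mul_nonneg_right h2 (lt_of_le_of_ne (nsq_nonneg z) h0.symm)

theorem fs_eq_zero {z u : Cn l} (hz : z ≠ 0) (h : fs z u = 0) : ∃ a b : ℝ, u = a • z + b • J z := by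
  have h0 : nsq z ≠ 0 := fun h => hz (nsq_eq_zero.1 h)
  have h1 := fs_identity z u
  rw [h, mul_zero, nsq_eq_zero] at h1
  refine ⟨(nsq z)⁻¹ * ip z u, (nsq z)⁻¹ * ip (J z) u, ?_⟩
  have h2 : nsq z • u = ip z u • z + ip (J z) u • J z := by
    rw [sub_eq_zero, sub_eq_iff_eq_add] at h1
    rw [h1]
    abel
  calc u = (nsq z)⁻¹ • (nsq z • u) := by rw [smul_smul, inv_mul_cancel₀ h0, one_smul]
    _ = _ := by rw [h2, smul_add, smul_smul, smul_smul]

end NC

end Pool.Agent.KRFX
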