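import Pool.Agent.Work.MP_a2bf38_gt.K.Mollify
import Pool.Agent.Work.MP_a2bf38_gt.K.Visc
import Pool.Agent.Work.MP_a2bf38_gt.I.Line

/-!
# Continuous psh functions: composition with holomorphic maps
-/

open scoped ContDiff ENNReal ComplexOrder Topology
open Set MeasureTheory Filter Pool.Agent.ToricKRF Pool.Agent.ToricKRF.G Pool.Agent.KRFS
  Pool.Agent.KRFF Pool.Agent.KRFG

namespace Pool.Agent.KRFX

theorem pshC_comp {n m : ℕ} {u : Cn m → ℝ} {V : Set (Cn m)} (hV : IsOpen V) (hu : PshC u V)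
    {H : Cn n → Cn m} {V' : Set (Cn n)} (hV' : IsOpen V') (hH : HolOn H V')
    (hm : MapsTo H V' V) : PshC (fun x => u (H x)) V' := by
  have hHc : ContinuousOn H V' := hH.1.continuousOn
  have huH : ContinuousOn (fun x => u (H x)) V' := hu.1.comp hHc hm
  refine ⟨huH, fun z v hzv => ?_⟩
  have hlc : Continuous (line z v) := (contDiff_line z v).continuous
  have hmem : ∀ ζ ∈ Metric.closedBall (0 : ℂ) 1, line z v ζ ∈ V' := fun ζ hζ =>
    hzv ζ (by simpa using hζ)
  set A : Set (Cn m) := (fun ζ => H (line z v ζ)) '' Metric.closedBall (0 : ℂ) 1 with hA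
  have hcont : ContinuousOn (fun ζ => H (line z v ζ)) (Metric.closedBall (0 : ℂ) 1) :=
    hHc.comp hlc.continuousOn hmem
  have hAc : IsCompact A := (isCompact_closedBall (0 : ℂ) 1).image_of_continuousOn hcont
  have hAV : A ⊆ V := by
    rintro _ ⟨ζ, hζ, rfl⟩
    exact hm (hmem ζ hζ)
  have hg : ContinuousOn (fun ζ => u (H (line z v ζ))) (Metric.closedBall (0 : ℂ) 1) :=
    huH.comp hlc.continuousOn hmem
  refine le_of_forall_pos_le_add fun ε hε => ?_
  obtain ⟨u', V₁, hV₁, hAV₁, hV₁V, hu's, hu'l, hu'e⟩ := pshC_mollify hV hu hAc hAV (half_pos hε)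
  have hcl : ∀ ζ ∈ Metric.closedBall (0 : ℂ) 1, H (line z v ζ) ∈ V₁ := fun ζ hζ =>
    hAV₁ ⟨ζ, hζ, rfl⟩
  -- the open set on which the composition is smooth
  have hW : IsOpen (V' ∩ H ⁻¹' V₁) := hHc.isOpen_inter_preimage hV' hV₁
  have hcs : ContDiffOn ℝ ∞ (fun x => u' (H x)) (V' ∩ H ⁻¹' V₁) :=
    hu's.comp (hH.1.mono inter_subset_left) fun x hx => hx.2
  have hW2 : IsOpen ((univ : Set ℝ) ×ˢ (V' ∩ H ⁻¹' V₁)) := isOpen_univ.prod hW
  have hcs2 : ContDiffOn ℝ ∞ (fun q : ℝ × Cn n => u' (H q.2)) (univ ×ˢ (V' ∩ H ⁻¹' V₁)) :=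
    hcs.comp contDiffOn_snd fun q hq => hq.2
  have hsub : u' (H (line z v 0)) ≤ cavg (fun ζ => u' (H (line z v ζ))) 1 := by
    refine visc (u := fun ζ => u' (H (line z v ζ))) (r := 1) one_pos ?_ (S := ∅) finite_empty ?_
    · exact (hcs.continuousOn).comp hlc.continuousOn fun ζ hζ => ⟨hmem ζ hζ, hcl ζ hζ⟩
    · intro ζ hζ _
      have hζ' := Metric.ball_subset_closedBall hζ
      have hin : line z v ζ ∈ V' ∩ H ⁻¹' V₁ := ⟨hmem ζ hζ', hcl ζ hζ'⟩
      refine ⟨fun ζ => u' (H (line z v ζ)), ?_, rfl, Filter.Eventually.of_forall fun _ => le_rfl, ?_⟩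
      · have h1 : ContDiffAt ℝ ∞ (fun x => u' (H x)) (line z v ζ) := hcs.contDiffAt (hW.mem_nhds hin)
        exact (h1.comp ζ (contDiff_line z v).contDiffAt).of_le two_le_infty
      · have h2 := lapC_line (f := fun q : ℝ × Cn n => u' (H q.2)) hW2 hcs2 (t := 0) (z := z)
          (v := v) (ζ := ζ) ⟨mem_univ _, hin⟩
        have h3 : lapC (fun ζ => u' (H (line z v ζ))) ζ =
            4 * lev (fun q : ℝ × Cn n => u' (H q.2)) v (0, line z v ζ) := h2
        rw [h3, lev_snd (g := fun x => u' (H x)) hW hcs hin,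
          levz_comp hV₁ hu's hV' hH (hmem ζ hζ') (hcl ζ hζ')]
        exact mul_nonneg (by norm_num) (hu'l _ (hcl ζ hζ') _)
  have h0 : (0 : ℂ) ∈ Metric.closedBall (0 : ℂ) 1 := by simp
  have e1 := abs_le.mp (hu'e _ (hcl 0 h0))
  have e2 : cavg (fun ζ => u' (H (line z v ζ))) 1 ≤
      cavg (fun ζ => u (H (line z v ζ))) 1 + ε / 2 := by
    have hcirc : ∀ θ : ℝ, ((1 : ℝ) : ℂ) * Complex.exp (θ * Complex.I) ∈
        Metric.closedBall (0 : ℂ) 1 := by
      intro θ
      simp [Complex.norm_exp_ofReal_mul_I]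
    have hc0 : Continuous fun θ : ℝ => ((1 : ℝ) : ℂ) * Complex.exp (θ * Complex.I) := by fun_prop
    have hc1 : Continuous fun θ : ℝ => u (H (line z v (((1 : ℝ) : ℂ) *
        Complex.exp (θ * Complex.I)))) := hg.comp_continuous hc0 hcirc
    have hc2 : Continuous fun θ : ℝ => u' (H (line z v (((1 : ℝ) : ℂ) *
        Complex.exp (θ * Complex.I)))) := by
      have : ContinuousOn (fun ζ => u' (H (line z v ζ))) (Metric.closedBall (0 : ℂ) 1) :=
        (hcs.continuousOn).comp hlc.continuousOn fun ζ hζ => ⟨hmem ζ hζ, hcl ζ hζ⟩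
      exact this.comp_continuous hc0 hcirc
    have h5 : ∫ θ in (0 : ℝ)..2 * Real.pi,
          u' (H (line z v (((1 : ℝ) : ℂ) * Complex.exp (θ * Complex.I)))) ≤
        ∫ θ in (0 : ℝ)..2 * Real.pi,
          (u (H (line z v (((1 : ℝ) : ℂ) * Complex.exp (θ * Complex.I)))) + ε / 2) := by
      refine intervalIntegral.integral_mono (by positivity) (hc2.intervalIntegrable _ _)
        ((hc1.add continuous_const).intervalIntegrable _ _) fun θ => ?_
      have := abs_le.mp (hu'e _ (hcl _ (hcirc θ)))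
      simp only
      linarith [this.2]
    rw [intervalIntegral.integral_add (hc1.intervalIntegrable _ _) (by simp)] at h5
    simp only [intervalIntegral.integral_const, sub_zero, smul_eq_mul] at h5
    have hpi : (2 * Real.pi)⁻¹ * (2 * Real.pi) = 1 := inv_mul_cancel₀ (by positivity)
    unfold cavg
    calc (2 * Real.pi)⁻¹ * ∫ θ in (0 : ℝ)..2 * Real.pi,
          u' (H (line z v (((1 : ℝ) : ℂ) * Complex.exp (θ * Complex.I))))
        ≤ (2 * Real.pi)⁻¹ * ((∫ θ in (0 : ℝ)..2 * Real.pi,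
          u (H (line z v (((1 : ℝ) : ℂ) * Complex.exp (θ * Complex.I))))) +
            2 * Real.pi * (ε / 2)) := mul_le_mul_of_nonneg_left h5 (by positivity)
      _ = _ := by rw [mul_add, ← mul_assoc, hpi, one_mul]
  rw [line_zero] at e1 hsub
  linarith [e1.1, e1.2]

end Pool.Agent.KRFX
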