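import Pool.Agent.Work.MP_a2bf38_gt.K.Setup
import Pool.Agent.Work.MP_a2bf38_gt.I.PshBase
import Pool.Agent.Work.MP_a2bf38_gt.I.ABP
import Mathlib.Analysis.SpecialFunctions.Integrals.PosLogEqCircleAverage

/-!
# The three circles theorem for continuous functions with the sub-mean value property
-/

open scoped ContDiff ENNReal ComplexOrder Topology
open Set MeasureTheory Filter Pool.Agent.ToricKRF Pool.Agent.ToricKRF.G Pool.Agent.KRFS
  Pool.Agent.KRFF Pool.Agent.KRFG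

namespace Pool.Agent.KRFX.RegK

/-- the mean value property of `log ‖ζ‖` off `0` -/
theorem cavg_log_norm {ζ₀ : ℂ} {s : ℝ} (hs : 0 < s) (h : s ≤ ‖ζ₀‖) :
    cavg (fun ζ => Real.log ‖ζ₀ + ζ‖) s = Real.log ‖ζ₀‖ := by
  have h1 := circleAverage_log_norm_sub_const_eq_log_radius_add_posLog (a := 0) (c := ζ₀)
    (R := s) hs.ne'
  have h2 : 1 ≤ s⁻¹ * ‖ζ₀‖ := by
    rw [← div_eq_inv_mul, le_div_iff₀ hs, one_mul]
    exact h
  have h0 : ‖ζ₀‖ ≠ 0 := (hs.trans_le h).ne'
  simp only [sub_zero] at h1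
  rw [Real.posLog_eq_log (by rw [abs_of_nonneg (by positivity)]; exact h2),
    Real.log_mul (by positivity) h0, Real.log_inv] at h1
  rw [cavg]
  rw [Real.circleAverage_def, smul_eq_mul] at h1
  simp only [circleMap] at h1
  rw [h1]
  ring

/-- **Maximum principle** on an annulus. -/
theorem annulus_max {w : ℂ → ℝ} {r R : ℝ}
    (hw : ContinuousOn w {ζ : ℂ | r ≤ ‖ζ‖ ∧ ‖ζ‖ ≤ R})
    (hs : ∀ ζ₀ : ℂ, r < ‖ζ₀‖ → ‖ζ₀‖ < R → ∀ᶠ s in 𝓝[>] (0 : ℝ),
      w ζ₀ ≤ cavg (fun ζ => w (ζ₀ + ζ)) s)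
    (hA : ∀ ζ, ‖ζ‖ = r → w ζ ≤ 0) (hB : ∀ ζ, ‖ζ‖ = R → w ζ ≤ 0) {ζ : ℂ} (h1 : r ≤ ‖ζ‖)
    (h2 : ‖ζ‖ ≤ R) : w ζ ≤ 0 := by
  have hpi := Real.pi_pos
  set K : Set ℂ := {ζ : ℂ | r ≤ ‖ζ‖ ∧ ‖ζ‖ ≤ R} with hK
  have hKcl : IsClosed K :=
    (isClosed_le continuous_const continuous_norm).inter
      (isClosed_le continuous_norm continuous_const)
  have hKc : IsCompact K := by
    apply (isCompact_closedBall (0 : ℂ) R).of_isClosed_subset hKcl
    intro z hz
    rw [mem_closedBall_zero_iff]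
    exact hz.2
  obtain ⟨ζ₁, hζ₁, hmax⟩ := hKc.exists_isMaxOn ⟨ζ, h1, h2⟩ hw
  have hM : ∀ z ∈ K, w z ≤ w ζ₁ := fun z hz => hmax hz
  refine (hM ζ ⟨h1, h2⟩).trans ?_
  by_contra hpos
  push Not at hpos
  have hZ : IsCompact (K ∩ w ⁻¹' {w ζ₁}) :=
    hKc.of_isClosed_subset (hw.preimage_isClosed_of_isClosed hKcl isClosed_singleton)
      inter_subset_left
  obtain ⟨ζ₀, hζ₀, hre⟩ := hZ.exists_isMaxOn ⟨ζ₁, hζ₁, rfl⟩ Complex.continuous_re.continuousOn
  have hw0 : w ζ₀ = w ζ₁ := hζ₀.2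
  have hr0 : r < ‖ζ₀‖ := by
    rcases hζ₀.1.1.lt_or_eq with h | h
    · exact h
    · have := hA ζ₀ h.symm
      linarith
  have hR0 : ‖ζ₀‖ < R := by
    rcases hζ₀.1.2.lt_or_eq with h | h
    · exact h
    · have := hB ζ₀ h
      linarith
  have hsm : ∀ᶠ s in 𝓝[>] (0 : ℝ), s < min (‖ζ₀‖ - r) (R - ‖ζ₀‖) :=
    (eventually_lt_nhds (lt_min (by linarith) (by linarith))).filter_mono nhdsWithin_le_nhds
  obtain ⟨s, hs1, hs2, hs3⟩ := ((hs ζ₀ hr0 hR0).and (hsm.and self_mem_nhdsWithin)).exists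
  have hs0 : (0 : ℝ) < s := hs3
  have hs4 : s < ‖ζ₀‖ - r := hs2.trans_le (min_le_left _ _)
  have hs5 : s < R - ‖ζ₀‖ := hs2.trans_le (min_le_right _ _)
  have hc : ∀ θ : ℝ, ‖(s : ℂ) * Complex.exp (θ * Complex.I)‖ = s := by
    intro θ
    rw [norm_mul, Complex.norm_exp_ofReal_mul_I, mul_one, Complex.norm_real,
      Real.norm_of_nonneg hs0.le]
  have hmem : ∀ θ : ℝ, ζ₀ + (s : ℂ) * Complex.exp (θ * Complex.I) ∈ K := by
    intro θ
    have k1 := norm_sub_le (ζ₀ + (s : ℂ) * Complex.exp (θ * Complex.I))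
      ((s : ℂ) * Complex.exp (θ * Complex.I))
    have k2 := norm_add_le ζ₀ ((s : ℂ) * Complex.exp (θ * Complex.I))
    rw [add_sub_cancel_right, hc] at k1
    rw [hc] at k2
    constructor <;> [skip; skip] <;> linarith
  have hcont : Continuous fun θ : ℝ => w (ζ₀ + (s : ℂ) * Complex.exp (θ * Complex.I)) :=
    hw.comp_continuous (by fun_prop) hmem
  have hposI : 0 < ∫ θ in (0 : ℝ)..2 * Real.pi,
      (w ζ₁ - w (ζ₀ + (s : ℂ) * Complex.exp (θ * Complex.I))) := by
    apply intervalIntegral.integral_pos (by positivity)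
    · exact (continuous_const.sub hcont).continuousOn
    · intro θ _
      have := hM _ (hmem θ)
      linarith
    · refine ⟨0, ⟨le_rfl, by positivity⟩, ?_⟩
      have k1 := hM _ (hmem 0)
      rcases k1.lt_or_eq with k2 | k2
      · linarith
      · exfalso
        have k3 := hre (show ζ₀ + (s : ℂ) * Complex.exp ((0 : ℝ) * Complex.I) ∈
          K ∩ w ⁻¹' {w ζ₁} from ⟨hmem 0, k2⟩)
        simp at k3
        linarith
  rw [intervalIntegral.integral_sub (continuous_const.intervalIntegrable _ _)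
    (hcont.intervalIntegrable _ _), intervalIntegral.integral_const, smul_eq_mul] at hposI
  rw [cavg, inv_mul_eq_div, le_div_iff₀ (by positivity), hw0] at hs1
  linarith

/-- **The three circles theorem.** -/
theorem three_circles {g : ℂ → ℝ} {r R A B : ℝ} (hr : 0 < r) (hrR : r < R)
    (hg : ContinuousOn g {ζ : ℂ | r ≤ ‖ζ‖ ∧ ‖ζ‖ ≤ R})
    (hs : ∀ ζ₀ : ℂ, r < ‖ζ₀‖ → ‖ζ₀‖ < R → ∀ᶠ s in 𝓝[>] (0 : ℝ),
      g ζ₀ ≤ cavg (fun ζ => g (ζ₀ + ζ)) s)
    (hA : ∀ ζ, ‖ζ‖ = r → g ζ ≤ A) (hB : ∀ ζ, ‖ζ‖ = R → g ζ ≤ B) {ζ : ℂ} (h1 : r ≤ ‖ζ‖)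
    (h2 : ‖ζ‖ ≤ R) : g ζ ≤ A + (B - A) * (Real.log (‖ζ‖ / r) / Real.log (R / r)) := by
  have hpi := Real.pi_pos
  have hL : 0 < Real.log (R / r) := Real.log_pos (by rw [one_lt_div hr]; exact hrR)
  set c := (B - A) / Real.log (R / r) with hc
  have hlogc : ContinuousOn (fun ζ : ℂ => Real.log ‖ζ‖) {ζ : ℂ | r ≤ ‖ζ‖ ∧ ‖ζ‖ ≤ R} := by
    intro z hz
    have : ‖z‖ ≠ 0 := (hr.trans_le hz.1).ne'
    exact (continuous_norm.continuousAt.log this).continuousWithinAt
  set w : ℂ → ℝ := fun ζ => g ζ - A - c * (Real.log ‖ζ‖ - Real.log r) with hw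
  have key := annulus_max (w := w) (r := r) (R := R)
    ((hg.sub continuousOn_const).sub
      (continuousOn_const.mul (hlogc.sub continuousOn_const))) ?_ ?_ ?_ h1 h2
  · have h0 : ‖ζ‖ ≠ 0 := (hr.trans_le h1).ne'
    rw [Real.log_div h0 hr.ne']
    have e : (B - A) * ((Real.log ‖ζ‖ - Real.log r) / Real.log (R / r)) =
        c * (Real.log ‖ζ‖ - Real.log r) := by
      rw [hc]
      ring
    rw [e]
    simp only [hw] at key
    linarith
  · intro ζ₀ hr0 hR0
    have hsm : ∀ᶠ s in 𝓝[>] (0 : ℝ), s < min (‖ζ₀‖ - r) (R - ‖ζ₀‖) :=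
      (eventually_lt_nhds (lt_min (by linarith) (by linarith))).filter_mono nhdsWithin_le_nhds
    filter_upwards [hs ζ₀ hr0 hR0, hsm, self_mem_nhdsWithin] with s hs1 hs2 hs3
    have hs0 : (0 : ℝ) < s := hs3
    have hs4 : s < ‖ζ₀‖ - r := hs2.trans_le (min_le_left _ _)
    have hs5 : s < R - ‖ζ₀‖ := hs2.trans_le (min_le_right _ _)
    have hcn : ∀ θ : ℝ, ‖(s : ℂ) * Complex.exp (θ * Complex.I)‖ = s := by
      intro θ
      rw [norm_mul, Complex.norm_exp_ofReal_mul_I, mul_one, Complex.norm_real,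
        Real.norm_of_nonneg hs0.le]
    have hmem : ∀ θ : ℝ, ζ₀ + (s : ℂ) * Complex.exp (θ * Complex.I) ∈
        {ζ : ℂ | r ≤ ‖ζ‖ ∧ ‖ζ‖ ≤ R} := by
      intro θ
      have k1 := norm_sub_le (ζ₀ + (s : ℂ) * Complex.exp (θ * Complex.I))
        ((s : ℂ) * Complex.exp (θ * Complex.I))
      have k2 := norm_add_le ζ₀ ((s : ℂ) * Complex.exp (θ * Complex.I))
      rw [add_sub_cancel_right, hcn] at k1
      rw [hcn] at k2
      constructor <;> [skip; skip] <;> linarith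
    have c1 : Continuous fun θ : ℝ => g (ζ₀ + (s : ℂ) * Complex.exp (θ * Complex.I)) :=
      hg.comp_continuous (by fun_prop) hmem
    have c2 : Continuous fun θ : ℝ =>
        Real.log ‖ζ₀ + (s : ℂ) * Complex.exp (θ * Complex.I)‖ :=
      hlogc.comp_continuous (by fun_prop) hmem
    have hlog := cavg_log_norm (ζ₀ := ζ₀) hs0 (by linarith)
    have e : cavg (fun ζ => w (ζ₀ + ζ)) s = cavg (fun ζ => g (ζ₀ + ζ)) s - A -
        c * (cavg (fun ζ => Real.log ‖ζ₀ + ζ‖) s - Real.log r) := by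
      simp only [cavg, hw]
      rw [intervalIntegral.integral_sub, intervalIntegral.integral_sub,
        intervalIntegral.integral_const_mul, intervalIntegral.integral_sub,
        intervalIntegral.integral_const, intervalIntegral.integral_const, smul_eq_mul,
        smul_eq_mul]
      · generalize (∫ θ in (0 : ℝ)..2 * Real.pi,
          g (ζ₀ + (s : ℂ) * Complex.exp (θ * Complex.I))) = X
        generalize (∫ θ in (0 : ℝ)..2 * Real.pi,
          Real.log ‖ζ₀ + (s : ℂ) * Complex.exp (θ * Complex.I)‖) = Y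
        field_simp
        ring
      · exact c2.intervalIntegrable _ _
      · exact continuous_const.intervalIntegrable _ _
      · exact c1.intervalIntegrable _ _
      · exact continuous_const.intervalIntegrable _ _
      · exact (c1.sub continuous_const).intervalIntegrable _ _
      · exact (continuous_const.mul (c2.sub continuous_const)).intervalIntegrable _ _
    rw [e, hlog]
    simp only [hw]
    linarith
  · intro z hz
    simp only [hw]
    rw [hz]
    have := hA z hz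
    linarith
  · intro z hz
    simp only [hw]
    rw [hz, ← Real.log_div (hr.trans hrR).ne' hr.ne', hc, div_mul_cancel₀ _ hL.ne']
    have := hB z hz
    linarith

theorem nsq_lineL {m : ℕ} (v : Cn m) (ζ : ℂ) : nsq (lineL v ζ) = ‖ζ‖ ^ 2 * nsq v := by
  rw [← Complex.normSq_eq_norm_sq, Complex.normSq_apply]
  simp only [nsq, lineL_apply, J, dotProduct, ← Finset.sum_add_distrib, Finset.mul_sum]
  apply Finset.sum_congr rfl
  intro i _
  simp
  ring

theorem line_line {m : ℕ} (z v : Cn m) (ζ₀ ζ : ℂ) (s : ℝ) :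
    line (line z v ζ₀) (s • v) ζ = line z v (ζ₀ + s * ζ) := by
  rw [line_add, line, lineL_apply]
  simp only [J_smul, Complex.re_ofReal_mul, Complex.im_ofReal_mul, smul_smul]
  rw [add_assoc, mul_comm s, mul_comm s]

/-- the sub-mean value property along a line -/
theorem pshC_line {m : ℕ} {u : Cn m → ℝ} {V : Set (Cn m)} (hV : IsOpen V) (hu : PshC u V)
    {z v : Cn m} {ζ₀ : ℂ} (h : line z v ζ₀ ∈ V) :
    ∀ᶠ s in 𝓝[>] (0 : ℝ), u (line z v ζ₀) ≤ cavg (fun ζ => u (line z v (ζ₀ + ζ))) s := by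
  have hev : ∀ᶠ ζ in 𝓝 ζ₀, line z v ζ ∈ V :=
    (contDiff_line z v).continuous.continuousAt.eventually_mem (hV.mem_nhds h)
  obtain ⟨r, hr, hrs⟩ := Metric.nhds_basis_closedBall.eventually_iff.mp hev
  have hsm : ∀ᶠ s in 𝓝[>] (0 : ℝ), s < r :=
    (eventually_lt_nhds hr).filter_mono nhdsWithin_le_nhds
  filter_upwards [hsm, self_mem_nhdsWithin] with s hs1 hs2
  have hs0 : (0 : ℝ) < s := hs2
  have k := hu.2 (line z v ζ₀) (s • v) fun ζ hζ => by
    rw [line_line]
    apply hrs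
    rw [Metric.mem_closedBall, dist_eq_norm, add_sub_cancel_left, norm_mul, Complex.norm_real,
      Real.norm_of_nonneg hs0.le]
    calc s * ‖ζ‖ ≤ s * 1 := mul_le_mul_of_nonneg_left hζ hs0.le
      _ ≤ r := by rw [mul_one]; exact hs1.le
  refine k.trans (le_of_eq ?_)
  simp only [cavg, line_line, Complex.ofReal_one, one_mul]

/-- **The three balls theorem** for continuous psh functions. -/
theorem three_balls {m : ℕ} {u : Cn m → ℝ} {V : Set (Cn m)} (hV : IsOpen V) (hu : PshC u V)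
    {y : Cn m} {r R A B : ℝ} (hr : 0 < r) (hrR : r < R)
    (hsub : ∀ x, nsq (x - y) ≤ R ^ 2 → x ∈ V)
    (hA : ∀ x, nsq (x - y) ≤ r ^ 2 → u x ≤ A) (hB : ∀ x, nsq (x - y) ≤ R ^ 2 → u x ≤ B)
    (hAB : A ≤ B) {x : Cn m} {t : ℝ} (hrt : r ≤ t) (htR : t ≤ R)
    (hx : nsq (x - y) ≤ t ^ 2) :
    u x ≤ A + (B - A) * (Real.log (t / r) / Real.log (R / r)) := by
  have hL : 0 < Real.log (R / r) := Real.log_pos (by rw [one_lt_div hr]; exact hrR)
  have hn0 : ∀ z : Cn m, 0 ≤ nsq z := fun z => by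
    unfold nsq
    exact add_nonneg (Finset.sum_nonneg fun i _ => mul_self_nonneg _)
      (Finset.sum_nonneg fun i _ => mul_self_nonneg _)
  set d := √(nsq (x - y)) with hd
  have hd2 : d ^ 2 = nsq (x - y) := Real.sq_sqrt (hn0 _)
  have hd0 : 0 ≤ d := Real.sqrt_nonneg _
  have hdt : d ≤ t := by
    refine (abs_le_of_sq_le_sq' ?_ (hr.le.trans hrt)).2
    rw [hd2]
    exact hx
  have hBA : 0 ≤ B - A := by linarith
  have hlt : 0 ≤ Real.log (t / r) := Real.log_nonneg (by rw [one_le_div hr]; exact hrt)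
  rcases le_or_gt d r with h | h
  · have k1 := hA x (by rw [← hd2]; exact pow_le_pow_left₀ hd0 h 2)
    have k2 : 0 ≤ (B - A) * (Real.log (t / r) / Real.log (R / r)) := by positivity
    linarith
  · have hdp : 0 < d := hr.trans h
    have hV' : ∀ ζ : ℂ, ‖ζ‖ ≤ R / d → line y (x - y) ζ ∈ V ∧ u (line y (x - y) ζ) ≤ B := by
      intro ζ hζ
      have k : nsq (line y (x - y) ζ - y) ≤ R ^ 2 := by
        rw [line_eq, add_sub_cancel_left, nsq_lineL, ← hd2, ← mul_pow]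
        apply pow_le_pow_left₀ (by positivity)
        rwa [le_div_iff₀ hdp] at hζ
      exact ⟨hsub _ k, hB _ k⟩
    have hx1 : line y (x - y) 1 = x := by
      rw [line_eq, lineL_one, add_sub_cancel]
    have key := three_circles (g := fun ζ => u (line y (x - y) ζ)) (r := r / d) (R := R / d)
      (A := A) (B := B) (by positivity) (by gcongr) ?_ ?_ ?_ ?_ (ζ := 1) ?_ ?_
    · rw [norm_one, hx1] at key
      refine key.trans ?_
      have e1 : (1 : ℝ) / (r / d) = d / r := by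
        field_simp
      have e2 : R / d / (r / d) = R / r := by
        field_simp
      rw [e1, e2]
      gcongr
    · refine hu.1.comp (contDiff_line y (x - y)).continuous.continuousOn ?_
      intro ζ hζ
      exact (hV' ζ hζ.2).1
    · intro ζ₀ _ h2
      exact pshC_line hV hu (hV' ζ₀ h2.le).1
    · intro ζ hζ
      apply hA
      rw [line_eq, add_sub_cancel_left, nsq_lineL, ← hd2, hζ, ← mul_pow, div_mul_cancel₀ _ hdp.ne']
    · intro ζ hζ
      exact (hV' ζ hζ.le).2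
    · rw [norm_one, div_le_one hdp]
      exact h.le
    · rw [norm_one, one_le_div hdp]
      exact hdt.trans htR

end Pool.Agent.KRFX.RegK
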