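import Pool.Agent.Work.MP_a2bf38_gt.K.Mollify
import Pool.Agent.Work.MP_a2bf38_gt.I.PshBase
import Pool.Agent.Work.MP_a2bf38_gt.I.PathOf
import Pool.Agent.Work.MP_a2bf38_gt.X.RegHad

/-!
# A radial smoothing kernel on `ℂ^m`
-/

open scoped ContDiff ENNReal ComplexOrder Topology
open Set MeasureTheory Filter Pool.Agent.ToricKRF Pool.Agent.ToricKRF.G Pool.Agent.KRFS
  Pool.Agent.KRFF Pool.Agent.KRFG

namespace Pool.Agent.KRFX.RegK

variable {m : ℕ}

/-! ### The norm -/

theorem nsq_tri {x y : Cn m} {a b : ℝ} (ha : 0 ≤ a) (hb : 0 ≤ b) (hx : nsq x ≤ a ^ 2)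
    (hy : nsq y ≤ b ^ 2) : nsq (x + y) ≤ (a + b) ^ 2 := by
  have e : nsq (x + y) = nsq x + 2 * ∑ i, (x.1 i * y.1 i + x.2 i * y.2 i) + nsq y := by
    simp only [nsq, dotProduct, ← Finset.sum_add_distrib, Finset.mul_sum]
    apply Finset.sum_congr rfl
    intro i _
    simp
    ring
  have cs : (∑ i, (x.1 i * y.1 i + x.2 i * y.2 i)) ^ 2 ≤ nsq x * nsq y := by
    have k1 := Finset.sum_mul_sq_le_sq_mul_sq (Finset.univ : Finset (Fin m ⊕ Fin m))
      (Sum.elim x.1 x.2) (Sum.elim y.1 y.2)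
    simp only [Fintype.sum_sum_type, Sum.elim_inl, Sum.elim_inr] at k1
    simp only [nsq, dotProduct, Finset.sum_add_distrib]
    simpa only [pow_two] using k1
  have h1 : ∑ i, (x.1 i * y.1 i + x.2 i * y.2 i) ≤ a * b := by
    refine (abs_le_of_sq_le_sq' ?_ (mul_nonneg ha hb)).2
    refine cs.trans ?_
    rw [mul_pow]
    exact mul_le_mul hx hy (nsq_nonneg y) (by positivity)
  rw [e]
  nlinarith

theorem nsq_neg' (x : Cn m) : nsq (-x) = nsq x := by
  simp [nsq]

theorem nsq_tri_sub {x y : Cn m} {a b : ℝ} (ha : 0 ≤ a) (hb : 0 ≤ b) (hx : nsq x ≤ a ^ 2)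
    (hy : nsq y ≤ b ^ 2) : nsq (x - y) ≤ (a + b) ^ 2 := by
  rw [sub_eq_add_neg]
  exact nsq_tri ha hb hx (by rwa [nsq_neg'])

theorem nsq_comm (x y : Cn m) : nsq (x - y) = nsq (y - x) := by
  rw [← nsq_neg', neg_sub]

theorem isCompact_ball (r : ℝ) : IsCompact {x : Cn m | nsq x ≤ r} := by
  apply (isCompact_closedBall (0 : Cn m) (√r)).of_isClosed_subset
    (isClosed_le nsq_continuous continuous_const)
  intro x hx
  rw [mem_closedBall_zero_iff]
  exact (norm_le_sqrt_nsq x).trans (Real.sqrt_le_sqrt hx)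

theorem isCompact_ball_sub (y : Cn m) (r : ℝ) : IsCompact {x : Cn m | nsq (x - y) ≤ r} := by
  have h := (isCompact_ball (m := m) r).image (continuous_add_const y)
  convert h using 1
  ext x
  constructor
  · intro hx
    exact ⟨x - y, hx, sub_add_cancel x y⟩
  · rintro ⟨z, hz, rfl⟩
    simpa using hz

theorem contDiff_nsq_x : ContDiff ℝ ∞ (nsq : Cn m → ℝ) := by
  unfold nsq dotProduct
  fun_prop

/-! ### Interchange of integrals -/

theorem fub {Y : Type*} [NormedAddCommGroup Y] [NormedSpace ℝ Y] [FiniteDimensional ℝ Y]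
    [MeasurableSpace Y] [BorelSpace Y] (ν : Measure Y) [IsFiniteMeasureOnCompacts ν]
    [SigmaFinite ν] {φ : Cn m → ℝ} (hφ : Continuous φ) {K : Set (Cn m)} (hK : IsCompact K)
    (hφK : ∀ x, φ x ≠ 0 → x ∈ K) {G : Y → Cn m → ℝ}
    (hG : Continuous fun p : Y × Cn m => G p.1 p.2) {B : Set Y} (hB : IsCompact B) :
    ∫ x, φ x * (∫ y in B, G y x ∂ν) = ∫ y in B, (∫ x, φ x * G y x) ∂ν := by
  have hY : FiniteDimensional ℝ Y := inferInstance
  have : ProperSpace Y := FiniteDimensional.proper_real Y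
  have hsc : SecondCountableTopology Y := inferInstance
  have hcont2 : Continuous fun p : Cn m × Y => φ p.1 * G p.2 p.1 :=
    (hφ.comp continuous_fst).mul (hG.comp (continuous_snd.prodMk continuous_fst))
  have hi : Integrable (Function.uncurry fun (x : Cn m) (y : Y) => φ x * G y x)
      (volume.prod (ν.restrict B)) := by
    have e : (volume : Measure (Cn m)).prod (ν.restrict B) =
        ((volume : Measure (Cn m)).prod ν).restrict (univ ×ˢ B) := by
      rw [← Measure.prod_restrict, Measure.restrict_univ]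
    rw [e]
    have k1 : IntegrableOn (Function.uncurry fun (x : Cn m) (y : Y) => φ x * G y x)
        (K ×ˢ B) ((volume : Measure (Cn m)).prod ν) :=
      hcont2.continuousOn.integrableOn_compact (hK.prod hB)
    refine k1.of_forall_sdiff_eq_zero (MeasurableSet.univ.prod hB.measurableSet) ?_
    rintro ⟨x, y⟩ ⟨⟨-, h2⟩, h3⟩
    by_contra hne
    apply h3
    exact ⟨hφK x (left_ne_zero_of_mul hne), h2⟩
  have hswap := integral_integral_swap hi
  rw [← hswap]
  simp only [integral_const_mul]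

theorem fub_circle {φ : Cn m → ℝ} (hφ : Continuous φ) {K : Set (Cn m)} (hK : IsCompact K)
    (hφK : ∀ x, φ x ≠ 0 → x ∈ K) {G : ℝ → Cn m → ℝ}
    (hG : Continuous fun p : ℝ × Cn m => G p.1 p.2) :
    ∫ x, φ x * ∫ θ in (0 : ℝ)..2 * Real.pi, G θ x =
      ∫ θ in (0 : ℝ)..2 * Real.pi, ∫ x, φ x * G θ x := by
  have hpi : (0 : ℝ) ≤ 2 * Real.pi := by positivity
  have h := fub (volume : Measure ℝ) hφ hK hφK hG (B := Icc 0 (2 * Real.pi)) isCompact_Icc
  simp only [intervalIntegral.integral_of_le hpi, ← integral_Icc_eq_integral_Ioc]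
  exact h

theorem integrable_of {φ : Cn m → ℝ} (hφ : Continuous φ) {K : Set (Cn m)} (hK : IsCompact K)
    (hφK : ∀ x, φ x ≠ 0 → x ∈ K) {g : Cn m → ℝ} (hg : Continuous g) :
    Integrable fun x => φ x * g x := by
  apply (hφ.mul hg).integrable_of_hasCompactSupport
  apply HasCompactSupport.of_support_subset_isCompact hK
  intro x hx
  exact hφK x (left_ne_zero_of_mul hx)

/-- the sub-mean value property of the convolution -/
theorem conv_le' {g φ : Cn m → ℝ} (hg : Continuous g) (hφ : Continuous φ)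
    (hφ0 : ∀ x, 0 ≤ φ x) {K : Set (Cn m)} (hK : IsCompact K) (hφK : ∀ x, φ x ≠ 0 → x ∈ K)
    {z v : Cn m} (h : ∀ x ∈ K, g (z - x) ≤ cavg (fun ζ => g (line (z - x) v ζ)) 1) :
    ∫ x, φ x * g (z - x) ≤ cavg (fun ζ => ∫ x, φ x * g (line z v ζ - x)) 1 := by
  obtain ⟨L, hL⟩ : ∃ L : ℝ → Cn m, L = fun θ : ℝ =>
    line z v ((1 : ℝ) * Complex.exp (θ * Complex.I)) := ⟨_, rfl⟩
  have hLc : Continuous L := by
    rw [hL]
    exact (contDiff_line z v).continuous.comp (by fun_prop)
  have hcv : ∀ F : Cn m → ℝ, cavg (fun ζ => F (line z v ζ)) 1 =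
      (2 * Real.pi)⁻¹ * ∫ θ in (0 : ℝ)..2 * Real.pi, F (L θ) := by
    intro F
    rw [hL, cavg]
  have hG : Continuous fun p : ℝ × Cn m => g (L p.1 - p.2) :=
    hg.comp ((hLc.comp continuous_fst).sub continuous_snd)
  have hin : Continuous fun x => ∫ θ in (0 : ℝ)..2 * Real.pi, g (L θ - x) :=
    intervalIntegral.continuous_parametric_intervalIntegral_of_continuous'
      (f := fun (x : Cn m) (θ : ℝ) => g (L θ - x))
      (hG.comp (continuous_snd.prodMk continuous_fst)) _ _
  have h1 : ∫ x, φ x * g (z - x) ≤ ∫ x, φ x * ((2 * Real.pi)⁻¹ *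
      ∫ θ in (0 : ℝ)..2 * Real.pi, g (L θ - x)) := by
    apply integral_mono
    · exact integrable_of hφ hK hφK (hg.comp (continuous_const.sub continuous_id))
    · exact integrable_of hφ hK hφK (continuous_const.mul hin)
    intro x
    dsimp only
    by_cases hx : φ x = 0
    · rw [hx, zero_mul, zero_mul]
    · apply mul_le_mul_of_nonneg_left _ (hφ0 x)
      have k := h x (hφK x hx)
      simp only [line_sub] at k
      rwa [hcv (fun w => g (w - x))] at k
  refine h1.trans (le_of_eq ?_)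
  have h2 := fub_circle hφ hK hφK (G := fun (θ : ℝ) (x : Cn m) => g (L θ - x)) hG
  rw [hcv (fun w => ∫ x, φ x * g (w - x)), ← h2, ← integral_const_mul]
  congr 1
  ext x
  ring

/-- the mean value inequality with a kernel which is invariant under the rotations -/
theorem mean_le {g φ : Cn m → ℝ} (hg : Continuous g) (hφ : Continuous φ)
    (hφ0 : ∀ x, 0 ≤ φ x) {K : Set (Cn m)} (hK : IsCompact K) (hφK : ∀ x, φ x ≠ 0 → x ∈ K)
    (hrot : ∀ x, ∀ ζ : ℂ, ‖ζ‖ = 1 → φ (mulC (fun _ => ζ) x) = φ x) (h1 : ∫ x, φ x = 1)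
    {z : Cn m} (h : ∀ x ∈ K, g z ≤ cavg (fun ζ => g (line z (-x) ζ)) 1) :
    g z ≤ ∫ x, φ x * g (z - x) := by
  have hpi := Real.pi_pos
  have hmul : Continuous fun p : ℝ × Cn m =>
      mulC (fun _ : Fin m => Complex.exp (p.1 * Complex.I)) p.2 :=
    continuous_mulC.comp ((continuous_pi fun _ => by fun_prop).prodMk continuous_snd)
  have hG : Continuous fun p : ℝ × Cn m =>
      g (z - mulC (fun _ : Fin m => Complex.exp (p.1 * Complex.I)) p.2) :=
    hg.comp (continuous_const.sub hmul)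
  have hin : Continuous fun x => ∫ θ in (0 : ℝ)..2 * Real.pi,
      g (z - mulC (fun _ : Fin m => Complex.exp (θ * Complex.I)) x) := by
    exact intervalIntegral.continuous_parametric_intervalIntegral_of_continuous'
      (f := fun (x : Cn m) (θ : ℝ) =>
        g (z - mulC (fun _ : Fin m => Complex.exp (θ * Complex.I)) x))
      (hG.comp (continuous_snd.prodMk continuous_fst)) _ _
  have hl : ∀ x : Cn m, cavg (fun ζ => g (line z (-x) ζ)) 1 = (2 * Real.pi)⁻¹ *
      ∫ θ in (0 : ℝ)..2 * Real.pi, g (z - mulC (fun _ : Fin m => Complex.exp (θ * Complex.I)) x) := by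
    intro x
    simp only [cavg, Complex.ofReal_one, one_mul]
    congr 1
    apply intervalIntegral.integral_congr
    intro θ _
    dsimp only
    rw [line_eq_mulC]
    congr 1
    rw [sub_eq_add_neg]
    congr 1
    refine Prod.ext ?_ ?_ <;> funext j <;> simp [mulC] <;> ring
  have hinv : ∀ θ : ℝ, ∫ x, φ x * g (z - mulC (fun _ : Fin m => Complex.exp (θ * Complex.I)) x) =
      ∫ x, φ x * g (z - x) := by
    intro θ
    have ha : ∀ _ : Fin m, ‖Complex.exp (θ * Complex.I)‖ = 1 := fun _ =>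
      Complex.norm_exp_ofReal_mul_I θ
    have k := (measurePreserving_mulC (a := fun _ : Fin m => Complex.exp (θ * Complex.I))
      ha).integral_comp (measurableEmbedding_mulC ha) (fun x => φ x * g (z - x))
    rw [← k]
    congr 1
    ext x
    rw [hrot x _ (Complex.norm_exp_ofReal_mul_I θ)]
  have h2 : g z ≤ ∫ x, φ x * ((2 * Real.pi)⁻¹ * ∫ θ in (0 : ℝ)..2 * Real.pi,
      g (z - mulC (fun _ : Fin m => Complex.exp (θ * Complex.I)) x)) := by
    have k : g z = ∫ x, φ x * g z := by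
      rw [integral_mul_const, h1, one_mul]
    refine k.le.trans ?_
    apply integral_mono
    · exact integrable_of hφ hK hφK continuous_const
    · exact integrable_of hφ hK hφK (continuous_const.mul hin)
    intro x
    dsimp only
    by_cases hx : φ x = 0
    · rw [hx, zero_mul, zero_mul]
    · apply mul_le_mul_of_nonneg_left _ (hφ0 x)
      rw [← hl]
      exact h x (hφK x hx)
  refine h2.trans (le_of_eq ?_)
  have h3 := fub_circle hφ hK hφK (G := fun (θ : ℝ) (x : Cn m) =>
    g (z - mulC (fun _ : Fin m => Complex.exp (θ * Complex.I)) x)) hG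
  simp only [hinv] at h3
  rw [intervalIntegral.integral_const, smul_eq_mul, sub_zero] at h3
  have e : ∀ x : Cn m, φ x * ((2 * Real.pi)⁻¹ * ∫ θ in (0 : ℝ)..2 * Real.pi,
      g (z - mulC (fun _ : Fin m => Complex.exp (θ * Complex.I)) x)) = (2 * Real.pi)⁻¹ *
      (φ x * ∫ θ in (0 : ℝ)..2 * Real.pi,
      g (z - mulC (fun _ : Fin m => Complex.exp (θ * Complex.I)) x)) := fun x => by ring
  simp only [e]
  rw [integral_const_mul, h3]
  field_simp

/-! ### The kernel -/

/-- a smooth function with the value `1` for `t ≤ 1/4` and `0` for `1 ≤ t` -/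
noncomputable def eta (t : ℝ) : ℝ := Real.smoothTransition ((1 - t) * (4 / 3))

theorem eta_nonneg (t : ℝ) : 0 ≤ eta t := Real.smoothTransition.nonneg _

theorem eta_le_one (t : ℝ) : eta t ≤ 1 := Real.smoothTransition.le_one _

theorem eta_zero {t : ℝ} (h : 1 ≤ t) : eta t = 0 :=
  Real.smoothTransition.zero_of_nonpos (by nlinarith)

theorem eta_one {t : ℝ} (h : t ≤ 1 / 4) : eta t = 1 :=
  Real.smoothTransition.one_of_one_le (by nlinarith)

theorem contDiff_eta : ContDiff ℝ ∞ eta := by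
  unfold eta
  exact Real.smoothTransition.contDiff.comp (by fun_prop)

/-- the mass of `η(|x|^2)` -/
noncomputable def I0 (m : ℕ) : ℝ := ∫ x : Cn m, eta (nsq x)

theorem continuous_eta_nsq : Continuous fun x : Cn m => eta (nsq x) :=
  contDiff_eta.continuous.comp nsq_continuous

theorem integrable_eta : Integrable fun x : Cn m => eta (nsq x) := by
  apply continuous_eta_nsq.integrable_of_hasCompactSupport
  apply HasCompactSupport.of_support_subset_isCompact (isCompact_ball (m := m) 1)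
  intro x hx
  by_contra h
  exact hx (eta_zero (not_le.1 h).le)

theorem I0_pos (m : ℕ) : 0 < I0 m := by
  have hH := haar_Cn m
  apply continuous_eta_nsq.integral_pos_of_hasCompactSupport_nonneg_nonzero
  · apply HasCompactSupport.of_support_subset_isCompact (isCompact_ball (m := m) 1)
    intro x hx
    by_contra h
    exact hx (eta_zero (not_le.1 h).le)
  · intro x
    exact eta_nonneg _
  · show eta (nsq (0 : Cn m)) ≠ 0
    rw [eta_one (by simp [nsq])]
    exact one_ne_zero

/-- the kernel at the scale `ρ` -/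
noncomputable def ker (m : ℕ) (ρ : ℝ) (x : Cn m) : ℝ :=
  (I0 m * ρ ^ (2 * m))⁻¹ * eta (nsq x / ρ ^ 2)

variable {ρ : ℝ}

theorem ker_nonneg (hρ : 0 < ρ) (x : Cn m) : 0 ≤ ker m ρ x := by
  have := I0_pos m
  exact mul_nonneg (by positivity) (eta_nonneg _)

theorem ker_le (hρ : 0 < ρ) (x : Cn m) : ker m ρ x ≤ (I0 m * ρ ^ (2 * m))⁻¹ := by
  have := I0_pos m
  exact mul_le_of_le_one_right (by positivity) (eta_le_one _)

theorem ker_eq (hρ : 0 < ρ) {x : Cn m} (h : nsq x ≤ (ρ / 2) ^ 2) :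
    ker m ρ x = (I0 m * ρ ^ (2 * m))⁻¹ := by
  rw [ker, eta_one, mul_one]
  rw [div_le_iff₀ (by positivity)]
  nlinarith

theorem ker_mem (hρ : 0 < ρ) {x : Cn m} (h : ker m ρ x ≠ 0) : x ∈ {x : Cn m | nsq x ≤ ρ ^ 2} := by
  by_contra hx
  apply h
  rw [ker, eta_zero, mul_zero]
  rw [one_le_div (by positivity)]
  exact (not_le.1 hx).le

theorem contDiff_ker : ContDiff ℝ ∞ (ker m ρ) := by
  unfold ker
  exact contDiff_const.mul (contDiff_eta.comp (contDiff_nsq_x.div_const _))

theorem ker_compact (hρ : 0 < ρ) : HasCompactSupport (ker m ρ) := by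
  apply HasCompactSupport.of_support_subset_isCompact (isCompact_ball (m := m) (ρ ^ 2))
  intro x hx
  exact ker_mem hρ hx

theorem ker_rot (x : Cn m) {ζ : ℂ} (hζ : ‖ζ‖ = 1) : ker m ρ (mulC (fun _ => ζ) x) = ker m ρ x := by
  have h : nsq (mulC (fun _ => ζ) x) = nsq x := by
    have k := nsq_lineL x ζ
    rw [hζ, one_pow, one_mul] at k
    rw [← k]
    have e := line_eq_mulC (0 : Cn m) x ζ
    rw [line_eq, zero_add, zero_add] at e
    rw [e]
  rw [ker, ker, h]

theorem integral_ker (hρ : 0 < ρ) : ∫ x, ker m ρ x = 1 := by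
  have hH := haar_Cn m
  have h1 := Measure.integral_comp_smul (volume : Measure (Cn m)) (fun x => eta (nsq x)) ρ⁻¹
  have h2 : ∀ x : Cn m, ker m ρ x = (I0 m * ρ ^ (2 * m))⁻¹ * eta (nsq (ρ⁻¹ • x)) := by
    intro x
    rw [ker, nsq_smul']
    congr 2
    rw [inv_pow, inv_mul_eq_div]
  simp only [h2]
  rw [integral_const_mul, h1]
  have hfin : Module.finrank ℝ (Cn m) = 2 * m := by
    rw [Module.finrank_prod, Module.finrank_fin_fun]
    ring
  have hI := I0_pos m
  rw [hfin, smul_eq_mul, inv_pow, inv_inv, abs_of_pos (by positivity)]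
  change (I0 m * ρ ^ (2 * m))⁻¹ * (ρ ^ (2 * m) * I0 m) = 1
  field_simp

end Pool.Agent.KRFX.RegK
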