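import Pool.Agent.Work.MP_a2bf38_gt.K.Defs

/-!
# Fibrations over a smooth base with a semistable model over a modification of the base

`f : M → Y` is a holomorphic map from a compact complex manifold of dimension `n` onto a complex
manifold of dimension `m`.  Over the coordinate balls `b j` of `Y` there is a modification
`σ : Y' → Y` and `f` has semistable models over the charts `z a` of `Y'`.
-/

open scoped ContDiff ENNReal ComplexOrder
open Set Pool.Agent.ToricKRF Pool.Agent.ToricKRF.G Pool.Agent.KRFS Pool.Agent.KRFF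
  Pool.Agent.KRFG

namespace Pool.Agent.KRFX

/-- The map `σ` in the charts. -/
noncomputable def sgm {Y Y' : Type} [TopologicalSpace Y] [TopologicalSpace Y'] {m : ℕ}
    {P P' : Type} (b : P → OpenPartialHomeomorph Y (Cn m))
    (z : P' → OpenPartialHomeomorph Y' (Cn m)) (σ : Y' → Y) (la : P' → P) (a : P') (x : Cn m) :
    Cn m := b (la a) (σ ((z a).symm x))

/-- Modifications of the balls `nsq y ≤ 49` of the charts `b j` of `Y`: the space `Y'` is the disjoint
union of the parts `lb y' = j`, with the charts `z a`, `la a = j`, and `σ : Y' → Y` is a map, with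
values in the chart `b j`.  It is injective and has invertible derivative off the zero set of
`g j`, `g j` and the derivative are bounded from below by powers of the coordinates of `Y'`, and
`|v|^2 ≤ A (i ∂ ∂bar log |g j ∘ σ|^2 + |dσ|^2)`. -/
structure IsModif {Y Y' : Type} [TopologicalSpace Y] [TopologicalSpace Y'] {m l : ℕ}
    {P P' : Type} (b : P → OpenPartialHomeomorph Y (Cn m))
    (z : P' → OpenPartialHomeomorph Y' (Cn m)) (σ : Y' → Y) (lb : Y' → P) (la : P' → P)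
    (g : P → Cn m → Cn l) : Prop where
  mem : ∀ y', σ y' ∈ (b (lb y')).source ∧ nsq (b (lb y') (σ y')) < 100
  target : ∀ a, {x | nsq x < 100} ⊆ (z a).target
  lb_eq : ∀ a, ∀ y' ∈ (z a).source, lb y' = la a
  cover : ∀ y', nsq (b (lb y') (σ y')) ≤ 49 → ∃ a, y' ∈ (z a).source ∧ nsq (z a y') ≤ 1
  holo : ∀ a, HolOn (sgm b z σ la a) {x | nsq x < 100}
  surj : ∀ j, ∀ y ∈ (b j).source, nsq (b j y) ≤ 49 → ∃ y', lb y' = j ∧ σ y' = y
  g_holo : ∀ j, HolOn (g j) {y | nsq y < 100}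
  inj : ∀ y₁ y₂, lb y₁ = lb y₂ → σ y₁ = σ y₂ → g (lb y₁) (b (lb y₁) (σ y₁)) ≠ 0 → y₁ = y₂
  dinj : ∀ a, ∀ x, nsq x < 100 → g (la a) (sgm b z σ la a x) ≠ 0 →
    Function.Injective (fderiv ℝ (sgm b z σ la a) x)
  pos : ∃ A : ℝ, 0 ≤ A ∧ ∀ a, ∀ x, nsq x < 100 → g (la a) (sgm b z σ la a x) ≠ 0 → ∀ v,
    nsq v ≤ A * (levz (fun x => Real.log (nsq (g (la a) (sgm b z σ la a x)))) v x +
      nsq (fderiv ℝ (sgm b z σ la a) x v))
  low : ∃ (c : ℝ) (A : ℕ), 0 < c ∧ ∀ a, ∀ x, nsq x < 100 →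
    c * (∏ i, ‖cc x i‖) ^ A ≤ nsq (g (la a) (sgm b z σ la a x)) ∧
    c * (∏ i, ‖cc x i‖) ^ A ≤ |(fderiv ℝ (sgm b z σ la a) x).det|

/-- Semistable models over the balls `nsq x ≤ 25` of the charts `z a` of `Y'`: a space `W`, the
disjoint union of the parts `lab w = a`, with maps `π : W → M`, `h : W → Y'` over `Y` and
`τ : W → ℂ^m` such that `z a (h w)_i = τ(w)_i ^ N_i`.  In the charts `a c` of `W`, with the polydisc
of radius `10` as target, `π` is holomorphic, with values in the chart `e (al c)`, and `τ_i` is a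
positive constant times the product of the coordinates `x_l` with `row c l = i`. -/
structure IsModel {M Y Y' W : Type} [TopologicalSpace M] [TopologicalSpace Y]
    [TopologicalSpace Y'] [TopologicalSpace W]
    {n m l : ℕ} {κ P P' ι : Type} (e : κ → OpenPartialHomeomorph M (Cn n))
    (b : P → OpenPartialHomeomorph Y (Cn m)) (f : M → Y)
    (z : P' → OpenPartialHomeomorph Y' (Cn m)) (σ : Y' → Y) (lb : Y' → P) (g : P → Cn m → Cn l)
    (a : ι → OpenPartialHomeomorph W (Cn n))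
    (al : ι → κ) (lab : W → P') (π : W → M) (h : W → Y') (τ : W → Cn m) (N : P' → Fin m → ℕ)
    (pc : ι → P') (s : ι → Fin m → ℝ) (row : ι → Fin n → Option (Fin m)) : Prop where
  base : ∀ w, h w ∈ (z (lab w)).source ∧ ∀ i, cc (z (lab w) (h w)) i = cc (τ w) i ^ N (lab w) i
  comm : ∀ w, σ (h w) = f (π w)
  N_pos : ∀ j i, 0 < N j i
  target : ∀ c, (a c).target = opd 10
  lab_eq : ∀ c, ∀ w ∈ (a c).source, lab w = pc c
  s_pos : ∀ c i, 0 < s c i
  row_ne : ∀ c i, ∃ l, row c l = some i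
  mono : ∀ c, ∀ w ∈ (a c).source, ∀ i, cc (τ w) i = s c i * prow (row c) i (a c w)
  mem : ∀ c, ∀ w ∈ (a c).source, π w ∈ (e (al c)).source
  holo : ∀ c, HolOn (fun x => e (al c) (π ((a c).symm x))) (opd 10)
  cover : ∀ w, nsq (z (lab w) (h w)) ≤ 25 → ∃ c, w ∈ (a c).source ∧ a c w ∈ cpd 1
  surj : ∀ a, ∀ t : Cn m, (∃ y' ∈ (z a).source, nsq (z a y') ≤ 25 ∧
    ∀ i, cc t i ^ N a i = cc (z a y') i) → ∃ w, lab w = a ∧ τ w = t
  onto : ∀ a w₀, h w₀ ∈ (z a).source → nsq (z a (h w₀)) ≤ 25 → ∀ t : Cn m,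
    (∀ i, cc t i ^ N a i = cc (z a (h w₀)) i) → ∃ w, lab w = a ∧ τ w = t ∧ π w = π w₀
  full : ∀ p y', σ y' = f p → nsq (b (lb y') (f p)) ≤ 49 → g (lb y') (b (lb y') (f p)) ≠ 0 →
    ∃ w, h w = y' ∧ π w = p
  all : ∀ j p, f p ∈ (b j).source → nsq (b j (f p)) ≤ 49 → ∃ w, lb (h w) = j ∧ π w = p
  connected : ∀ a t, (∀ i, cc t i ≠ 0) → IsPreconnected {w | lab w = a ∧ τ w = t}

end Pool.Agent.KRFX
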