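import Pool.Agent.Work.MP_a2bf38_gt.K.NatDefs
import Pool.Agent.Work.MP_a2bf38_gt.X.Defs

/-!
# Semistable models over a modification of the base, local form

`M` and `Y` are complex manifolds with the charts `e c` and `b j`, and `f : M → Y` is a map.
-/

open scoped ContDiff ENNReal ComplexOrder
open Set Pool.Agent.ToricKRF Pool.Agent.ToricKRF.G Pool.Agent.KRFS Pool.Agent.KRFF
  Pool.Agent.KRFG

namespace Pool.Agent.KRFX

section

variable {M Y : Type} [TopologicalSpace M] [TopologicalSpace Y] {n m : ℕ} {κ P : Type}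
  (e : κ → OpenPartialHomeomorph M (Cn n)) (b : P → OpenPartialHomeomorph Y (Cn m)) (f : M → Y)

/-- Let `σ : Y' → Y` be a map with values in the domain of the coordinates `b j`, let `g` be
holomorphic functions of these coordinates, and let `Γ` be a part of the fibre product of `Y'` and `M`
over `Y`.  This structure consists of coordinates `z` of `Y'` with centre `y'₀` and of a semistable
model of `Γ → Y'` in these coordinates.

The map `σ` is holomorphic in the coordinates `z`, its derivative is injective where `g` is not `0`,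
and there are `A`, `c > 0`, `B` with `|v|^2 ≤ A (i ∂ ∂bar log |g ∘ σ|^2 (v) + |dσ v|^2)` where `g` is
not `0`, and `|g ∘ σ|^2` and `|det dσ|` are at least `c |z_1 ⋯ z_m| ^ B`.

The model is a space `W` with maps `π : W → M`, `h : W → Y'` and `τ` from `W` to the polydisc of
radius `r` in `ℂ^m`, such that `z_i (h w) = τ_i(w) ^ N_i` and `(h w, π w) ∈ Γ`.  The points `(y', p)` of
`Γ` lift to the fibre of `τ` over every `t` with `t_i ^ N_i = z_i(y')`.  The map `τ` is proper, its
fibres over the points `t` with all `t_i ≠ 0` are connected, and at the points `w` with `τ w = 0`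
there are coordinates `x` of `W` with centre `w` such that `π` is holomorphic and `τ_i` is the
product of the coordinates `x_l` with `row l = i`. -/
structure SemistableOver (j : P) {q : ℕ} (g : Cn m → Cn q) {Y' : Type} [TopologicalSpace Y']
    (σ : Y' → Y) (Γ : Set (Y' × M)) (y'₀ : Y') where
  z : OpenPartialHomeomorph Y' (Cn m)
  mem : y'₀ ∈ z.source
  center : z y'₀ = 0
  holo : HolOn (fun x => b j (σ (z.symm x))) z.target
  inj : ∀ x ∈ z.target, g (b j (σ (z.symm x))) ≠ 0 →
    Function.Injective (fderiv ℝ (fun x => b j (σ (z.symm x))) x)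
  A : ℝ
  A_nonneg : 0 ≤ A
  pos : ∀ x ∈ z.target, g (b j (σ (z.symm x))) ≠ 0 → ∀ v,
    nsq v ≤ A * (levz (fun x => Real.log (nsq (g (b j (σ (z.symm x)))))) v x +
      nsq (fderiv ℝ (fun x => b j (σ (z.symm x))) x v))
  c : ℝ
  c_pos : 0 < c
  B : ℕ
  low : ∀ x ∈ z.target, c * (∏ i, ‖cc x i‖) ^ B ≤ nsq (g (b j (σ (z.symm x)))) ∧
    c * (∏ i, ‖cc x i‖) ^ B ≤ |(fderiv ℝ (fun x => b j (σ (z.symm x))) x).det|
  r : ℝ
  r_pos : 0 < r
  W : Type
  top : TopologicalSpace W
  t2 : T2Space W
  π : W → M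
  h : W → Y'
  τ : W → Cn m
  N : Fin m → ℕ
  N_pos : ∀ i, 0 < N i
  cont : Continuous τ
  range : ∀ w, τ w ∈ opd r
  base : ∀ w, h w ∈ z.source ∧ ∀ i, cc (z (h w)) i = cc (τ w) i ^ N i
  main : ∀ w, (h w, π w) ∈ Γ
  lift : ∀ y' p, (y', p) ∈ Γ → y' ∈ z.source → ∀ t ∈ (opd r : Set (Cn m)),
    (∀ i, cc (z y') i = cc t i ^ N i) → ∃ w, τ w = t ∧ π w = p
  proper : ∀ s, 0 ≤ s → s < r → IsCompact {w | τ w ∈ cpd s}
  connected : ∀ t, (∀ i, cc t i ≠ 0) → IsPreconnected {w | τ w = t}
  chart : ∀ w, τ w = 0 → ∃ (a : OpenPartialHomeomorph W (Cn n)) (c : κ)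
    (row : Fin n → Option (Fin m)), w ∈ a.source ∧ a w = 0 ∧ (∀ i, ∃ l, row l = some i) ∧
      (∀ w' ∈ a.source, π w' ∈ (e c).source) ∧
      HolOn (fun x => e c (π (a.symm x))) a.target ∧
      ∀ w' ∈ a.source, ∀ i, cc (τ w') i = prow row i (a w')

/-- A semistable model of `f`, near the point `y₀` of `Y`, over a modification of `Y`.  In the
coordinates `y = b j - b j y₀` of `Y` the modification is a proper map `σ` from a space `Y'` to the
polydisc of radius `r`, which is injective over the points at which the holomorphic functions `g` are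
not all `0`.  `Γ` is the main part of the fibre product of `Y'` and `M` over `Y`: it contains all pairs
over the points at which `g` is not `0`, and it is mapped onto `Y'` and onto the part of `M` over the
polydisc.  At every point of `Y'` there is a semistable model of `Γ → Y'`. -/
structure ModifAt (y₀ : Y) where
  j : P
  mem : y₀ ∈ (b j).source
  r : ℝ
  r_pos : 0 < r
  q : ℕ
  g : Cn m → Cn q
  holo : HolOn g {y | y ∈ (b j).target ∧ y - b j y₀ ∈ opd r}
  Y' : Type
  top : TopologicalSpace Y'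
  t2 : T2Space Y'
  σ : Y' → Y
  cont : Continuous σ
  range : ∀ y', σ y' ∈ (b j).source ∧ b j (σ y') - b j y₀ ∈ opd r
  proper : ∀ s, 0 ≤ s → s < r → IsCompact {y' | b j (σ y') - b j y₀ ∈ cpd s}
  inj : ∀ y₁ y₂, σ y₁ = σ y₂ → g (b j (σ y₁)) ≠ 0 → y₁ = y₂
  Γ : Set (Y' × M)
  comm : ∀ y' p, (y', p) ∈ Γ → σ y' = f p
  full : ∀ y' p, σ y' = f p → g (b j (f p)) ≠ 0 → (y', p) ∈ Γ
  onto_base : ∀ y', ∃ p, (y', p) ∈ Γ
  onto_top : ∀ p, f p ∈ (b j).source → b j (f p) - b j y₀ ∈ opd r → ∃ y', (y', p) ∈ Γ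
  model : ∀ y', Nonempty (SemistableOver e b j g σ Γ y')

end

end Pool.Agent.KRFX
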