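import Pool.Agent.Work.MP_a2bf38_gt.X.NatCalc
import Pool.Agent.Work.MP_a2bf38_gt.X.NatDefs

/-!
# Principalizations satisfy the hypotheses on the modification

Let `s` be a holomorphic map near `0`, such that `g ∘ s = x^α γ` with a monomial `x^α` and a map `γ`
without zeros, and `|det ds| = |x^β|^2 u` with `u` without zeros.  If `(s, [γ])` is an immersion at
`0`, then the conditions `pos` and `low` of `SemistableOver` hold near `0`.
-/

open scoped ContDiff ENNReal ComplexOrder Topology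
open Set Filter Pool.Agent.ToricKRF Pool.Agent.ToricKRF.G Pool.Agent.KRFS Pool.Agent.KRFF
  Pool.Agent.KRFG

namespace Pool.Agent.KRFX

namespace NC

open Pool.Agent.KRFS.ABP (ip ip_self)

variable {m q : ℕ}

/-- the monomial `x_1^{α_1} ⋯ x_m^{α_m}` -/
noncomputable def cmon (α : Fin m → ℕ) (x : Cn m) : ℂ := ∏ i, cc x i ^ α i

theorem holC_cc (i : Fin m) : NF.HolC (fun x : Cn m => cc x i) univ := by
  have h1 : HolOn (fun x : Cn m => x) (univ : Set (Cn m)) :=
    ⟨contDiff_id.contDiffOn, fun z _ u => by simp⟩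
  exact NF.holOn_cc isOpen_univ h1 i

theorem holC_pow {h : Cn m → ℂ} (hh : NF.HolC h univ) (k : ℕ) :
    NF.HolC (fun x => h x ^ k) univ := by
  induction k with
  | zero => simpa using NF.HolC.const 1 univ
  | succ k ih =>
    have := ih.mul isOpen_univ hh
    simpa only [pow_succ] using this

theorem holC_cmon (α : Fin m → ℕ) : NF.HolC (cmon α) univ :=
  NF.HolC.prod _ isOpen_univ fun i => holC_pow (holC_cc i) _

theorem nsq_of_cc {z w : Cn q} {a : ℂ} (h : ∀ k, cc z k = a * cc w k) :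
    nsq z = Complex.normSq a * nsq w := by
  rw [NK.nsq_eq_sum, NK.nsq_eq_sum, Finset.mul_sum]
  refine Finset.sum_congr rfl fun k _ => ?_
  rw [h k, norm_mul, mul_pow, Complex.normSq_eq_norm_sq]

theorem fs_smul (z u : Cn q) (t : ℝ) : fs z (t • u) = t ^ 2 * fs z u := by
  unfold fs
  have h1 : ip z (t • u) = t * ip z u := by rw [ip_comm, ip_smul, ip_comm]
  have h2 : ip z (J (t • u)) = t * ip z (J u) := by rw [J_smul, ip_comm, ip_smul, ip_comm]
  rw [NK.nsq_smul, h1, h2]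
  ring

theorem continuous_fs : Continuous fun p : Cn q × Cn q => fs p.1 p.2 := by
  unfold fs ip J nsq dotProduct
  fun_prop

theorem continuous_nsq' : Continuous (nsq : Cn q → ℝ) := contDiff_nsq.continuous

/-- the unit sphere is compact -/
theorem isCompact_sphere : IsCompact {v : Cn m | nsq v = 1} := by
  refine Metric.isCompact_of_isClosed_isBounded (isClosed_eq continuous_nsq' continuous_const) ?_
  refine (Metric.isBounded_closedBall (x := (0 : Cn m)) (r := 1)).subset fun v hv => ?_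
  rw [mem_closedBall_zero_iff]
  exact Pool.Agent.KRFS.ABP.norm_le_one_of_nsq (le_of_eq hv)

theorem levz_log_g {T : Set (Cn m)} (hT : IsOpen T) {g' γ : Cn m → Cn q} (hγ : HolOn γ T)
    {α : Fin m → ℕ} (hg : ∀ x ∈ T, ∀ k, cc (g' x) k = cmon α x * cc (γ x) k) {x : Cn m}
    (hx : x ∈ T) (hne : g' x ≠ 0) (v : Cn m) :
    levz (fun x => Real.log (nsq (g' x))) v x = fs (γ x) (fderiv ℝ γ x v) / nsq (γ x) ^ 2 := by
  have hcm : Continuous (cmon α : Cn m → ℂ) := by
    have h1 := (holC_cmon α).1.continuousOn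
    rwa [← continuousOn_univ]
  have hγc : ContinuousOn γ T := hγ.1.continuousOn
  have hn : nsq (g' x) = Complex.normSq (cmon α x) * nsq (γ x) := nsq_of_cc (hg x hx)
  have hn0 : nsq (g' x) ≠ 0 := fun h => hne (nsq_eq_zero.1 h)
  have hc0 : cmon α x ≠ 0 := fun h => hn0 (by rw [hn, h, map_zero, zero_mul])
  have hγ0 : nsq (γ x) ≠ 0 := fun h => hn0 (by rw [hn, h, mul_zero])
  have hopen : IsOpen {y | y ∈ T ∧ cmon α y ≠ 0 ∧ nsq (γ y) ≠ 0} := by
    have h1 : IsOpen (T ∩ (fun y => nsq (γ y)) ⁻¹' {0}ᶜ) :=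
      (continuous_nsq'.comp_continuousOn hγc).isOpen_inter_preimage hT isOpen_compl_singleton
    have h2 : IsOpen {y : Cn m | cmon α y ≠ 0} := isOpen_ne_fun hcm continuous_const
    have h3 : {y | y ∈ T ∧ cmon α y ≠ 0 ∧ nsq (γ y) ≠ 0} =
        (T ∩ (fun y => nsq (γ y)) ⁻¹' {0}ᶜ) ∩ {y : Cn m | cmon α y ≠ 0} := by
      ext y
      simp only [mem_ofPred_eq, mem_inter_iff, mem_preimage, mem_compl_iff, mem_singleton_iff]
      tauto
    rw [h3]
    exact h1.inter h2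
  have hxo : x ∈ {y | y ∈ T ∧ cmon α y ≠ 0 ∧ nsq (γ y) ≠ 0} := ⟨hx, hc0, hγ0⟩
  have hev : (fun x => Real.log (nsq (g' x))) =ᶠ[𝓝 x] fun y =>
      Real.log (Complex.normSq (cmon α y)) + Real.log (nsq (γ y)) := by
    filter_upwards [hopen.mem_nhds hxo] with y hy
    rw [nsq_of_cc (hg y hy.1), Real.log_mul _ hy.2.2]
    exact (Complex.normSq_pos.2 hy.2.1).ne'
  rw [levz_congr_ev hev]
  have hs1 : ContDiffOn ℝ ∞ (fun y => Real.log (Complex.normSq (cmon α y)))
      {y | y ∈ T ∧ cmon α y ≠ 0 ∧ nsq (γ y) ≠ 0} := by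
    have h1 : ContDiffOn ℝ ∞ (fun y => Complex.normSq (cmon α y)) univ := by
      have h2 := (holC_cmon α).1
      have h3 : ContDiffOn ℝ ∞ (fun y => (cmon α y).re) univ :=
        Complex.reCLM.contDiff.comp_contDiffOn h2
      have h4 : ContDiffOn ℝ ∞ (fun y => (cmon α y).im) univ :=
        Complex.imCLM.contDiff.comp_contDiffOn h2
      simp only [Complex.normSq_apply]
      exact (h3.mul h3).add (h4.mul h4)
    exact (h1.mono (subset_univ _)).log fun y hy => (Complex.normSq_pos.2 hy.2.1).ne'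
  have hs2 : ContDiffOn ℝ ∞ (fun y => Real.log (nsq (γ y)))
      {y | y ∈ T ∧ cmon α y ≠ 0 ∧ nsq (γ y) ≠ 0} :=
    (contDiff_nsq.comp_contDiffOn (hγ.1.mono fun y hy => hy.1)).log fun y hy => hy.2.2
  rw [levz_add_of hopen hs1 hs2 hxo, NF.levz_log_normSq isOpen_univ (holC_cmon α) (mem_univ x) hc0,
    zero_add]
  have h5 := levz_comp (f := fun z : Cn q => Real.log (nsq z)) isOpen_ne contDiffOn_log_nsq hT hγ
    hx hγ0 v
  rw [h5, levz_log_nsq hγ0]

end NC

open NC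

/-- **Principalizations satisfy `pos` and `low`.** -/
theorem pos_low_of_principal {m q : ℕ} {T : Set (Cn m)} (hT : IsOpen T) (h0 : (0 : Cn m) ∈ T)
    {s : Cn m → Cn m} (hs : HolOn s T) {g : Cn m → Cn q} {γ : Cn m → Cn q} (hγ : HolOn γ T)
    (hγ0 : γ 0 ≠ 0) {α : Fin m → ℕ}
    (hg : ∀ x ∈ T, ∀ k, cc (g (s x)) k = cmon α x * cc (γ x) k) {β : Fin m → ℕ}
    {u : Cn m → ℝ} (hu : ContinuousOn u T) (hu0 : 0 < u 0)
    (hdet : ∀ x ∈ T, |(fderiv ℝ s x).det| = ‖cmon β x‖ ^ 2 * u x)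
    (himm : ∀ v, fderiv ℝ s 0 v = 0 →
      (∃ a b : ℝ, fderiv ℝ γ 0 v = a • γ 0 + b • J (γ 0)) → v = 0) :
    ∃ T' ⊆ T, IsOpen T' ∧ (0 : Cn m) ∈ T' ∧ ∃ (A c : ℝ) (B : ℕ), 0 ≤ A ∧ 0 < c ∧
      (∀ x ∈ T', g (s x) ≠ 0 → ∀ v, nsq v ≤
        A * (levz (fun x => Real.log (nsq (g (s x)))) v x + nsq (fderiv ℝ s x v))) ∧
      ∀ x ∈ T', c * (∏ i, ‖cc x i‖) ^ B ≤ nsq (g (s x)) ∧
        c * (∏ i, ‖cc x i‖) ^ B ≤ |(fderiv ℝ s x).det| := by
  classical
  have hγc : ContinuousOn γ T := hγ.1.continuousOn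
  have hγd : ContinuousOn (fderiv ℝ γ) T := hγ.1.continuousOn_fderiv_of_isOpen hT (by simp)
  have hsd : ContinuousOn (fderiv ℝ s) T := hs.1.continuousOn_fderiv_of_isOpen hT (by simp)
  have hTn : T ∈ 𝓝 (0 : Cn m) := hT.mem_nhds h0
  have hn0 : 0 < nsq (γ 0) :=
    lt_of_le_of_ne (nsq_nonneg _) fun h => hγ0 (nsq_eq_zero.1 h.symm)
  -- the form
  set Φ : Cn m → Cn m → ℝ := fun x v =>
    fs (γ x) (fderiv ℝ γ x v) / nsq (γ x) ^ 2 + nsq (fderiv ℝ s x v) with hΦ
  have hΦc : ∀ v, ContinuousAt (fun p : Cn m × Cn m => Φ p.1 p.2) (0, v) := by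
    intro v
    have c1 : ContinuousAt (fun p : Cn m × Cn m => γ p.1) (0, v) :=
      ContinuousAt.comp (g := γ) (f := fun p : Cn m × Cn m => p.1) (hγc.continuousAt hTn)
        continuousAt_fst
    have c2 : ContinuousAt (fun p : Cn m × Cn m => fderiv ℝ γ p.1 p.2) (0, v) :=
      (ContinuousAt.comp (g := fderiv ℝ γ) (f := fun p : Cn m × Cn m => p.1)
        (hγd.continuousAt hTn) continuousAt_fst).clm_apply continuousAt_snd
    have c3 : ContinuousAt (fun p : Cn m × Cn m => fderiv ℝ s p.1 p.2) (0, v) :=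
      (ContinuousAt.comp (g := fderiv ℝ s) (f := fun p : Cn m × Cn m => p.1)
        (hsd.continuousAt hTn) continuousAt_fst).clm_apply continuousAt_snd
    have c4 : ContinuousAt (fun p : Cn m × Cn m => fs (γ p.1) (fderiv ℝ γ p.1 p.2)) (0, v) :=
      ContinuousAt.comp (g := fun p : Cn q × Cn q => fs p.1 p.2)
        (f := fun p : Cn m × Cn m => (γ p.1, fderiv ℝ γ p.1 p.2)) continuous_fs.continuousAt
        (c1.prodMk c2)
    have c5 : ContinuousAt (fun p : Cn m × Cn m => nsq (γ p.1) ^ 2) (0, v) :=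
      (ContinuousAt.comp (g := (nsq : Cn q → ℝ)) continuous_nsq'.continuousAt c1).pow 2
    have c6 : ContinuousAt (fun p : Cn m × Cn m => nsq (fderiv ℝ s p.1 p.2)) (0, v) :=
      ContinuousAt.comp (g := (nsq : Cn m → ℝ)) continuous_nsq'.continuousAt c3
    exact (c4.div c5 (by positivity)).add c6
  have hΦnn : ∀ x v, 0 ≤ Φ x v := fun x v =>
    add_nonneg (div_nonneg (fs_nonneg _ _) (sq_nonneg _)) (nsq_nonneg _)
  have hΦ0 : ∀ v, v ≠ 0 → 0 < Φ 0 v := by
    intro v hv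
    refine lt_of_le_of_ne (hΦnn 0 v) fun h => hv ?_
    have h1 := div_nonneg (fs_nonneg (γ 0) (fderiv ℝ γ 0 v)) (sq_nonneg (nsq (γ 0)))
    have h2 := nsq_nonneg (fderiv ℝ s 0 v)
    have h3 : fs (γ 0) (fderiv ℝ γ 0 v) / nsq (γ 0) ^ 2 + nsq (fderiv ℝ s 0 v) = 0 := h.symm
    have h4 : nsq (fderiv ℝ s 0 v) = 0 := by linarith
    have h5 : fs (γ 0) (fderiv ℝ γ 0 v) = 0 := by
      have h6 : fs (γ 0) (fderiv ℝ γ 0 v) / nsq (γ 0) ^ 2 = 0 := by linarith
      rcases div_eq_zero_iff.1 h6 with h7 | h7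
      · exact h7
      · exact absurd h7 (by positivity)
    exact himm v (nsq_eq_zero.1 h4) (fs_eq_zero hγ0 h5)
  have hΦh : ∀ x v (t : ℝ), Φ x (t • v) = t ^ 2 * Φ x v := by
    intro x v t
    simp only [hΦ, map_smul, fs_smul, NK.nsq_smul]
    ring
  -- the lower bound on the sphere
  obtain ⟨δ, hδ, hδ'⟩ : ∃ δ > 0, ∀ᶠ x in 𝓝 (0 : Cn m), ∀ v ∈ {v : Cn m | nsq v = 1},
      δ < Φ x v := by
    rcases ({v : Cn m | nsq v = 1}).eq_empty_or_nonempty with hemp | hne
    · refine ⟨1, one_pos, Eventually.of_forall fun x v hv => ?_⟩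
      rw [hemp] at hv
      exact absurd hv (notMem_empty v)
    · have hcont : ContinuousOn (fun v => Φ 0 v) {v : Cn m | nsq v = 1} := fun v _ =>
        (ContinuousAt.comp (g := fun p : Cn m × Cn m => Φ p.1 p.2) (f := fun v => ((0 : Cn m), v))
          (hΦc v) (by fun_prop)).continuousWithinAt
      obtain ⟨v₀, hv₀, hmin⟩ := isCompact_sphere.exists_isMinOn hne hcont
      have hv₀' : v₀ ≠ 0 := by
        rintro rfl
        have h1 : nsq (0 : Cn m) = 1 := hv₀
        rw [nsq_eq_zero.2 rfl] at h1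
        exact zero_ne_one h1
      have hpos := hΦ0 v₀ hv₀'
      refine ⟨Φ 0 v₀ / 2, by linarith, ?_⟩
      refine isCompact_sphere.eventually_forall_of_forall_eventually fun v hv => ?_
      have h1 : Φ 0 v₀ ≤ Φ 0 v := hmin hv
      exact (hΦc v).eventually_const_lt (by
        show Φ 0 v₀ / 2 < Φ 0 v
        linarith)
  have ev1 : ∀ᶠ x in 𝓝 (0 : Cn m), nsq (γ 0) / 2 < nsq (γ x) := by
    have h1 : ContinuousAt (fun x => nsq (γ x)) 0 :=
      ContinuousAt.comp (g := (nsq : Cn q → ℝ)) continuous_nsq'.continuousAt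
        (hγc.continuousAt hTn)
    exact h1.eventually_const_lt (by show nsq (γ 0) / 2 < nsq (γ 0); linarith)
  have ev2 : ∀ᶠ x in 𝓝 (0 : Cn m), u 0 / 2 < u x :=
    (hu.continuousAt hTn).eventually_const_lt (by linarith)
  have ev3 : ∀ᶠ x in 𝓝 (0 : Cn m), x ∈ (opd 1 : Set (Cn m)) :=
    (NT.isOpen_opd 1).mem_nhds (NT.zero_mem_opd one_pos)
  obtain ⟨T', hT', hT'o, hT'0⟩ := mem_nhds_iff.1
    ((hδ'.and (ev1.and (ev2.and ev3))).and (hTn : ∀ᶠ x in 𝓝 (0 : Cn m), x ∈ T))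
  set B : ℕ := 2 * ∑ i, (α i + β i) with hB
  set c : ℝ := min (nsq (γ 0) / 2) (u 0 / 2) with hc
  have hc0 : 0 < c := lt_min (by linarith) (by linarith)
  have hmon : ∀ x ∈ (opd 1 : Set (Cn m)), ∀ α' : Fin m → ℕ, (∀ i, α' i ≤ α i + β i) →
      (∏ i, ‖cc x i‖) ^ B ≤ ‖cmon α' x‖ ^ 2 := by
    intro x hx α' hα'
    have hx1 := (NK.mem_opd_iff zero_le_one).1 hx
    unfold cmon
    rw [norm_prod, ← Finset.prod_pow, ← Finset.prod_pow]
    refine Finset.prod_le_prod (fun i _ => by positivity) fun i _ => ?_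
    rw [norm_pow, ← pow_mul]
    refine pow_le_pow_of_le_one (norm_nonneg _) (hx1 i).le ?_
    have h1 : α i + β i ≤ ∑ i, (α i + β i) :=
      Finset.single_le_sum (f := fun i => α i + β i) (fun _ _ => Nat.zero_le _)
        (Finset.mem_univ i)
    have h2 := hα' i
    rw [hB]
    omega
  refine ⟨T', fun x hx => (hT' hx).2, hT'o, hT'0, 1 / δ, c, B, by positivity, hc0, ?_, ?_⟩
  · intro x hx hne v
    obtain ⟨⟨hx1, hx2, hx3, hx4⟩, hxT⟩ := hT' hx
    have h1 := levz_log_g (g' := fun x => g (s x)) hT hγ hg hxT hne v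
    have h2 : levz (fun x => Real.log (nsq (g (s x)))) v x + nsq (fderiv ℝ s x v) = Φ x v := by
      rw [hΦ, h1]
    rw [h2]
    rcases eq_or_ne v 0 with rfl | hv
    · have h3 : nsq (0 : Cn m) = 0 := nsq_eq_zero.2 rfl
      rw [h3]
      exact mul_nonneg (by positivity) (hΦnn _ _)
    · have h3 : 0 < nsq v := lt_of_le_of_ne (nsq_nonneg _) fun h => hv (nsq_eq_zero.1 h.symm)
      set t : ℝ := (√(nsq v))⁻¹ with ht
      have h4 : t ^ 2 = (nsq v)⁻¹ := by
        rw [ht, inv_pow, Real.sq_sqrt h3.le]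
      have h5 : nsq (t • v) = 1 := by
        rw [NK.nsq_smul, h4, inv_mul_cancel₀ h3.ne']
      have h6 := hx1 (t • v) h5
      rw [hΦh, h4] at h6
      rw [one_div, ← div_eq_inv_mul, le_div_iff₀ hδ]
      have h7 : δ * nsq v < Φ x v := by
        calc δ * nsq v < (nsq v)⁻¹ * Φ x v * nsq v := mul_lt_mul_of_pos_right h6 h3
          _ = Φ x v := by field_simp
      linarith
  · intro x hx
    obtain ⟨⟨hx1, hx2, hx3, hx4⟩, hxT⟩ := hT' hx
    constructor
    · rw [nsq_of_cc (hg x hxT), Complex.normSq_eq_norm_sq, mul_comm]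
      refine mul_le_mul (hmon x hx4 α fun i => Nat.le_add_right _ _)
        ((min_le_left _ _).trans hx2.le) hc0.le (by positivity)
    · rw [hdet x hxT, mul_comm]
      exact mul_le_mul (hmon x hx4 β fun i => Nat.le_add_left _ _)
        ((min_le_right _ _).trans hx3.le) hc0.le (by positivity)

end Pool.Agent.KRFX
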