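import Pool.Agent.Work.MP_a2bf38_gt.X.NatDefs
import Pool.Agent.Work.MP_a2bf38_gt.K.NatTop
import Pool.Agent.Work.MP_a2bf38_gt.K.NatSub
import Pool.Agent.Work.MP_a2bf38_gt.I.Exp

/-!
# Semistable models over `Y` are semistable models over a modification of `Y`
-/

open scoped ContDiff ENNReal ComplexOrder Topology
open Set Filter Pool.Agent.ToricKRF Pool.Agent.ToricKRF.G Pool.Agent.KRFS Pool.Agent.KRFF
  Pool.Agent.KRFG

namespace Pool.Agent.KRFX

namespace XS

variable {m : ℕ}

theorem nsq_le_norm (v : Cn m) : nsq v ≤ 2 * m * ‖v‖ ^ 2 := by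
  have h1 : ∀ i, v.1 i ^ 2 ≤ ‖v‖ ^ 2 := fun i => by
    have h2 : |v.1 i| ≤ ‖v‖ := (norm_le_pi_norm v.1 i).trans (norm_fst_le v)
    rw [← sq_abs]
    exact pow_le_pow_left₀ (abs_nonneg _) h2 2
  have h2 : ∀ i, v.2 i ^ 2 ≤ ‖v‖ ^ 2 := fun i => by
    have h2 : |v.2 i| ≤ ‖v‖ := (norm_le_pi_norm v.2 i).trans (norm_snd_le v)
    rw [← sq_abs]
    exact pow_le_pow_left₀ (abs_nonneg _) h2 2
  have h3 : nsq v = ∑ i, (v.1 i ^ 2 + v.2 i ^ 2) := by
    simp only [nsq, dotProduct, ← Finset.sum_add_distrib]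
    exact Finset.sum_congr rfl fun i _ => by ring
  rw [h3]
  calc ∑ i, (v.1 i ^ 2 + v.2 i ^ 2) ≤ ∑ _i : Fin m, (2 * ‖v‖ ^ 2) :=
        Finset.sum_le_sum fun i _ => by linarith [h1 i, h2 i]
    _ = 2 * m * ‖v‖ ^ 2 := by
        rw [Finset.sum_const, Finset.card_univ, Fintype.card_fin, nsmul_eq_mul]
        ring

/-- bounds for the derivative of a local isomorphism near a point -/
theorem local_bounds {T : Set (Cn m)} (hT : IsOpen T) (h0 : (0 : Cn m) ∈ T) {G : Cn m → Cn m}
    (hG : HolOn G T) (hinj : Function.Injective (fderiv ℝ G 0)) :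
    ∃ T' ⊆ T, IsOpen T' ∧ (0 : Cn m) ∈ T' ∧ ∃ A c : ℝ, 0 ≤ A ∧ 0 < c ∧ c ≤ 1 ∧ ∀ x ∈ T',
      Function.Injective (fderiv ℝ G x) ∧ (∀ v, nsq v ≤ A * nsq (fderiv ℝ G x v)) ∧
      c ≤ |(fderiv ℝ G x).det| := by
  have hc : ContinuousOn (fderiv ℝ G) T := hG.1.continuousOn_fderiv_of_isOpen hT (by simp)
  have hc0 : ContinuousAt (fderiv ℝ G) 0 := hc.continuousAt (hT.mem_nhds h0)
  have hker : LinearMap.ker (fderiv ℝ G 0 : Cn m →ₗ[ℝ] Cn m) = ⊥ :=
    LinearMap.ker_eq_bot.2 hinj
  obtain ⟨K, hK, hKa⟩ := LinearMap.exists_antilipschitzWith _ hker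
  have hK' : (0 : ℝ) < K := hK
  have hKv : ∀ v, ‖v‖ ≤ K * ‖fderiv ℝ G 0 v‖ := fun v => by
    have h1 := hKa.le_mul_dist v 0
    simpa using h1
  have hdet0 : (fderiv ℝ G 0).det ≠ 0 := by
    have h1 := LinearMap.isUnit_iff_ker_eq_bot (fderiv ℝ G 0 : Cn m →ₗ[ℝ] Cn m) |>.2 hker
    have h2 := LinearMap.isUnit_det _ h1
    exact h2.ne_zero
  have hcd : ContinuousAt (fun x => |(fderiv ℝ G x).det|) 0 :=
    (ContinuousLinearMap.continuous_det.continuousAt.comp hc0).abs
  set d : ℝ := |(fderiv ℝ G 0).det| with hd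
  have hdpos : 0 < d := abs_pos.2 hdet0
  have ev1 : ∀ᶠ x in 𝓝 (0 : Cn m), ‖fderiv ℝ G x - fderiv ℝ G 0‖ < 1 / (2 * K) := by
    have h1 := Metric.continuousAt_iff'.1 hc0 (1 / (2 * K)) (by positivity)
    simpa [dist_eq_norm] using h1
  have ev2 : ∀ᶠ x in 𝓝 (0 : Cn m), d / 2 < |(fderiv ℝ G x).det| :=
    hcd.eventually_const_lt (by show d / 2 < d; linarith)
  obtain ⟨T₁, hT₁, hT₁o, hT₁0⟩ := mem_nhds_iff.1
    ((ev1.and ev2).and (hT.mem_nhds h0 : ∀ᶠ x in 𝓝 (0 : Cn m), x ∈ T))
  refine ⟨T₁, fun x hx => (hT₁ hx).2, hT₁o, hT₁0, 2 * m * (2 * K) ^ 2, min (d / 2) 1, by positivity,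
    lt_min (by positivity) one_pos, min_le_right _ _, fun x hx => ?_⟩
  obtain ⟨⟨hx1, hx2⟩, hx3⟩ := hT₁ hx
  have key : ∀ v, ‖v‖ ≤ 2 * K * ‖fderiv ℝ G x v‖ := by
    intro v
    have h1 := hKv v
    have h2 : ‖fderiv ℝ G 0 v‖ ≤ ‖fderiv ℝ G x v‖ + 1 / (2 * K) * ‖v‖ := by
      have h3 : fderiv ℝ G 0 v = fderiv ℝ G x v - (fderiv ℝ G x - fderiv ℝ G 0) v := by
        simp
      rw [h3]
      refine (norm_sub_le _ _).trans (add_le_add le_rfl ?_)
      refine (ContinuousLinearMap.le_opNorm _ v).trans ?_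
      exact mul_le_mul_of_nonneg_right hx1.le (norm_nonneg v)
    have h4 : (K : ℝ) * ‖fderiv ℝ G 0 v‖ ≤ K * ‖fderiv ℝ G x v‖ + ‖v‖ / 2 := by
      calc (K : ℝ) * ‖fderiv ℝ G 0 v‖ ≤ K * (‖fderiv ℝ G x v‖ + 1 / (2 * K) * ‖v‖) :=
            mul_le_mul_of_nonneg_left h2 hK'.le
        _ = _ := by field_simp
    linarith
  refine ⟨?_, fun v => ?_, (min_le_left _ _).trans hx2.le⟩
  · intro v w hvw
    have h1 := key (v - w)
    rw [map_sub, hvw, sub_self, norm_zero, mul_zero] at h1
    exact sub_eq_zero.1 (norm_le_zero_iff.1 h1)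
  · have h1 := key v
    have h2 := nsq_le_norm v
    have h3 := Ex.norm_sq_le m (fderiv ℝ G x v)
    have h4 : ‖v‖ ^ 2 ≤ (2 * K) ^ 2 * nsq (fderiv ℝ G x v) := by
      calc ‖v‖ ^ 2 ≤ (2 * K * ‖fderiv ℝ G x v‖) ^ 2 := pow_le_pow_left₀ (norm_nonneg v) h1 2
        _ = (2 * K) ^ 2 * ‖fderiv ℝ G x v‖ ^ 2 := by ring
        _ ≤ _ := mul_le_mul_of_nonneg_left h3 (by positivity)
    calc nsq v ≤ 2 * m * ‖v‖ ^ 2 := h2
      _ ≤ 2 * m * ((2 * K) ^ 2 * nsq (fderiv ℝ G x v)) :=
          mul_le_mul_of_nonneg_left h4 (by positivity)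
      _ = _ := by ring

theorem tr_injective {Y P : Type} [TopologicalSpace Y] {b : P → OpenPartialHomeomorph Y (Cn m)}
    (hb : IsAtlas b) {j j' : P} {z : Cn m} (hz : z ∈ dom b j j') :
    Function.Injective (fderiv ℝ (tr b j j') z) := by
  have hz' : tr b j j' z ∈ dom b j' j := ⟨(b j').map_source hz.2, by
    rw [tr, (b j').left_inv hz.2]
    exact (b j).map_target hz.1⟩
  have d1 : DifferentiableAt ℝ (tr b j j') z := NF.diffAt (isOpen_dom j j') (hb.holo j j').1 hz
  have d2 : DifferentiableAt ℝ (tr b j' j) (tr b j j' z) :=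
    NF.diffAt (isOpen_dom j' j) (hb.holo j' j).1 hz'
  have h1 := d2.hasFDerivAt.comp z d1.hasFDerivAt
  have h2 : (tr b j' j ∘ tr b j j') =ᶠ[𝓝 z] id := by
    filter_upwards [(isOpen_dom j j').mem_nhds hz] with x hx
    rw [Function.comp_apply, tr, tr, (b j').left_inv hx.2, (b j).right_inv hx.1]
    rfl
  have h3 := h1.unique ((hasFDerivAt_id z).congr_of_eventuallyEq h2)
  intro v w hvw
  have h4 := congrArg (fderiv ℝ (tr b j' j) (tr b j j' z)) hvw
  have h5 : ∀ v, fderiv ℝ (tr b j' j) (tr b j j' z) (fderiv ℝ (tr b j j') z v) = v := fun v => by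
    have := congrFun (congrArg DFunLike.coe h3) v
    simpa using this
  rwa [h5, h5] at h4

/-- the map `t ↦ (t_i ^ N_i)` -/
noncomputable def pw (N : Fin m → ℕ) (t : Cn m) : Cn m :=
  (fun i => (cc t i ^ N i).re, fun i => (cc t i ^ N i).im)

theorem cc_pw (N : Fin m → ℕ) (t : Cn m) (i : Fin m) : cc (pw N t) i = cc t i ^ N i := by
  apply Complex.ext <;> simp [cc, pw]

theorem continuous_cc (i : Fin m) : Continuous fun t : Cn m => cc t i := by
  have h1 : (fun t : Cn m => cc t i) = fun t => NF.ccL i t := by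
    funext t
    rw [NF.ccL_apply]
  rw [h1]
  exact (NF.ccL i).continuous

theorem continuous_pw (N : Fin m → ℕ) : Continuous (pw N) := by
  refine Continuous.prodMk ?_ ?_
  · exact continuous_pi fun i => Complex.continuous_re.comp ((continuous_cc i).pow _)
  · exact continuous_pi fun i => Complex.continuous_im.comp ((continuous_cc i).pow _)

theorem pw_zero {N : Fin m → ℕ} (hN : ∀ i, 0 < N i) : pw N 0 = 0 := by
  refine NK.cc_ext fun i => ?_
  rw [cc_pw, NK.cc_zero, zero_pow (hN i).ne']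

end XS

open XS

theorem modifAt_of_semistable {M Y : Type} [TopologicalSpace M] [TopologicalSpace Y] [T2Space Y]
    {n m : ℕ} {κ P : Type} {e : κ → OpenPartialHomeomorph M (Cn n)}
    {b : P → OpenPartialHomeomorph Y (Cn m)} {f : M → Y} (hb : IsAtlas b)
    (hf : IsHolOnto e b f) (h : ∀ y, Nonempty (SemistableAt e b f y)) (y₀ : Y) :
    Nonempty (ModifAt e b f y₀) := by
  obtain ⟨j, hj⟩ := hb.cover y₀
  set z₀ := b j y₀ with hz₀
  obtain ⟨r, hr, hrt⟩ := NT.exists_opd (b j).open_target ((b j).map_source hj)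
  rw [← hz₀] at hrt
  have hVo : IsOpen {y : Cn m | y - z₀ ∈ opd r} := (NT.isOpen_opd r).preimage (by fun_prop)
  have hYo : IsOpen ((b j).source ∩ (b j) ⁻¹' {y : Cn m | y - z₀ ∈ opd r}) :=
    (b j).isOpen_inter_preimage hVo
  let Y' : TopologicalSpace.Opens Y :=
    ⟨(b j).source ∩ (b j) ⁻¹' {y : Cn m | y - z₀ ∈ opd r}, hYo⟩
  have hY' : ∀ p : Y', p.1 ∈ (b j).source ∧ b j p.1 - z₀ ∈ opd r := fun p => p.2
  set g : Cn m → Cn 1 := fun _ => (fun _ => 1, fun _ => 0) with hg
  have hg1 : ∀ y, nsq (g y) = 1 := fun y => by simp [hg, nsq, dotProduct]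
  have hgne : ∀ y, g y ≠ 0 := fun y h0 => by
    have h1 := hg1 y
    rw [h0] at h1
    simp [nsq] at h1
  refine ⟨{
    j := j
    mem := hj
    r := r
    r_pos := hr
    q := 1
    g := g
    holo := Ex.holOn_const _ _
    Y' := Y'
    top := inferInstance
    t2 := inferInstance
    σ := Subtype.val
    cont := continuous_subtype_val
    range := fun p => hY' p
    proper := fun s hs hsr => ?_
    inj := fun y₁ y₂ h _ => Subtype.ext h
    Γ := {q | q.1.1 = f q.2}
    comm := fun y' p h => h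
    full := fun y' p h _ => h
    onto_base := fun y' => ?_
    onto_top := fun p hp hp' => ⟨⟨f p, hp, hp'⟩, rfl⟩
    model := fun y' => ?_ }⟩
  · -- the map is proper
    have h1 : IsCompact {y : Cn m | y - z₀ ∈ cpd s} := by
      have h2 : {y : Cn m | y - z₀ ∈ cpd s} = (fun y => y + z₀) '' cpd s := by
        ext y
        constructor
        · intro hy
          exact ⟨y - z₀, hy, by simp⟩
        · rintro ⟨u, hu, rfl⟩
          simpa using hu
      rw [h2]
      exact (NSub.isCompact_cpd s).image (by fun_prop)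
    have h2 : IsCompact ((b j).symm '' {y : Cn m | y - z₀ ∈ cpd s}) :=
      h1.image_of_continuousOn ((b j).continuousOn_symm.mono fun y hy =>
        hrt y (NSub.cpd_subset_opd' hs hsr hy))
    have himg : Subtype.val '' {p : Y' | b j p.1 - z₀ ∈ cpd s} =
        (b j).symm '' {y : Cn m | y - z₀ ∈ cpd s} := by
      ext q
      constructor
      · rintro ⟨p, hp, rfl⟩
        exact ⟨b j p.1, hp, (b j).left_inv (hY' p).1⟩
      · rintro ⟨y, hy, rfl⟩
        have hyt : y ∈ (b j).target := hrt y (NSub.cpd_subset_opd' hs hsr hy)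
        have h3 : b j ((b j).symm y) = y := (b j).right_inv hyt
        refine ⟨⟨(b j).symm y, (b j).map_target hyt, ?_⟩, ?_, rfl⟩
        · change b j ((b j).symm y) - z₀ ∈ opd r
          rw [h3]
          exact NSub.cpd_subset_opd' hs hsr hy
        · change b j ((b j).symm y) - z₀ ∈ cpd s
          rw [h3]
          exact hy
    rw [Topology.IsEmbedding.subtypeVal.isCompact_iff, himg]
    exact h2
  · obtain ⟨p, hp⟩ := hf.surj y'.1
    exact ⟨p, hp.symm⟩
  · -- the local models
    obtain ⟨S⟩ := h y'.1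
    set u₁ := b S.j y'.1 with hu₁
    set T : Set (Cn m) := {x | (x + u₁ ∈ dom b S.j j) ∧ tr b S.j j (x + u₁) - z₀ ∈ opd r} with hT
    have hTo : IsOpen T := by
      have h1 : ContinuousOn (fun x : Cn m => tr b S.j j (x + u₁) - z₀)
          {x | x + u₁ ∈ dom b S.j j} :=
        (ContinuousOn.comp (g := tr b S.j j) (f := fun x : Cn m => x + u₁)
          (hb.holo S.j j).1.continuousOn (by fun_prop) fun x hx => hx).sub continuousOn_const
      exact h1.isOpen_inter_preimage ((isOpen_dom S.j j).preimage (by fun_prop))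
        (NT.isOpen_opd r)
    have hu₁s : (b S.j).symm u₁ = y'.1 := (b S.j).left_inv S.mem
    have hT0 : (0 : Cn m) ∈ T := by
      refine ⟨⟨?_, ?_⟩, ?_⟩
      · rw [zero_add]
        exact (b S.j).map_source S.mem
      · rw [zero_add, hu₁s]
        exact (hY' y').1
      · rw [zero_add, tr, hu₁s]
        exact (hY' y').2
    set G : Cn m → Cn m := fun x => tr b S.j j (x + u₁) with hG
    have hGT : HolOn G T := by
      have h1 : HolOn (fun x : Cn m => tr b S.j j (u₁ + (1 : ℝ) • x)) T :=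
        NT.hol_comp (G := tr b S.j j) (S' := dom b S.j j) hTo (isOpen_dom S.j j) (hb.holo S.j j)
          (NT.hol_scale 1 u₁ T) fun x hx => by
            rw [one_smul, add_comm]
            exact hx.1
      refine NT.hol_congr hTo h1 fun x hx => ?_
      rw [hG, one_smul, add_comm u₁ x]
    have hGinj : Function.Injective (fderiv ℝ G 0) := by
      rw [hG, fderiv_comp_add_right]
      exact tr_injective hb hT0.1
    obtain ⟨T', hT'T, hT'o, hT'0, A, c, hA, hc, hc1, hT'⟩ := local_bounds hTo hT0 hGT hGinj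
    -- the coordinates
    let E₁ : OpenPartialHomeomorph Y (Cn m) :=
      (b S.j).transHomeomorph (Homeomorph.subRight u₁)
    let E₂ : OpenPartialHomeomorph Y' (Cn m) := E₁.subtypeRestr ⟨y'⟩
    have hE₂s : ∀ p : Y', p ∈ E₂.source ↔ p.1 ∈ (b S.j).source := fun p => by
      change p ∈ (E₁.subtypeRestr ⟨y'⟩).source ↔ _
      rw [OpenPartialHomeomorph.subtypeRestr_source]
      rfl
    have hE₂a : ∀ p : Y', E₂ p = b S.j p.1 - u₁ := fun p => rfl
    let z : OpenPartialHomeomorph Y' (Cn m) := (E₂.symm.restr T').symm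
    have hzs : ∀ p : Y', p ∈ z.source ↔ p.1 ∈ (b S.j).source ∧ b S.j p.1 - u₁ ∈ T' := fun p => by
      change p ∈ (E₂.symm.restr T').target ↔ _
      rw [OpenPartialHomeomorph.restr_target, hT'o.interior_eq]
      constructor
      · rintro ⟨h1, h2⟩
        exact ⟨(hE₂s p).1 h1, h2⟩
      · rintro ⟨h1, h2⟩
        exact ⟨(hE₂s p).2 h1, h2⟩
    have hza : ∀ p : Y', z p = b S.j p.1 - u₁ := fun p => rfl
    have hzt : ∀ x ∈ z.target, x ∈ T' ∧ (z.symm x).1 = (b S.j).symm (x + u₁) := by
      intro x hx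
      have h1 := (hzs _).1 (z.map_target hx)
      have h2 : z (z.symm x) = x := z.right_inv hx
      rw [hza] at h2
      rw [h2] at h1
      refine ⟨h1.2, ?_⟩
      rw [← sub_eq_iff_eq_add.1 h2, (b S.j).left_inv h1.1]
    have hzG : ∀ x ∈ z.target, b j (z.symm x).1 = G x := by
      intro x hx
      rw [(hzt x hx).2]
      rfl
    have hzfd : ∀ x ∈ z.target, fderiv ℝ (fun x => b j (z.symm x).1) x = fderiv ℝ G x := by
      intro x hx
      refine Filter.EventuallyEq.fderiv_eq ?_
      filter_upwards [z.open_target.mem_nhds hx] with x' hx' using hzG x' hx'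
    have hy'z : y' ∈ z.source := (hzs y').2 ⟨S.mem, by rw [← hu₁, sub_self]; exact hT'0⟩
    have hzy' : z y' = 0 := by rw [hza, ← hu₁, sub_self]
    have hz0 : (0 : Cn m) ∈ z.target := by
      rw [← hzy']
      exact z.map_source hy'z
    -- the radius
    obtain ⟨r₁, hr₁, hr₁t⟩ := NT.exists_opd (z.open_target.preimage (continuous_pw S.N))
      (y := (0 : Cn m)) (by rw [mem_preimage, pw_zero S.N_pos]; exact hz0)
    set r' := min r₁ S.r with hr'
    have hr'0 : 0 < r' := lt_min hr₁ S.r_pos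
    have hr'S : r' ≤ S.r := min_le_right _ _
    have hpw : ∀ t ∈ (opd r' : Set (Cn m)), pw S.N t ∈ z.target := fun t ht =>
      hr₁t t (by rw [sub_zero]; exact NT.opd_mono hr'0.le (min_le_left _ _) ht)
    have hpwb : ∀ w, b S.j (f (S.π w)) = pw S.N (S.τ w) + u₁ := fun w => NK.cc_ext fun i => by
      have h1 := (S.base w).2 i
      rw [h1]
      have h2 : cc (pw S.N (S.τ w) + u₁) i = cc (pw S.N (S.τ w)) i + cc u₁ i := by
        apply Complex.ext <;> simp [cc]
      rw [h2, cc_pw, hu₁]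
      ring
    have hpwf : ∀ w, f (S.π w) = (b S.j).symm (pw S.N (S.τ w) + u₁) := fun w => by
      rw [← hpwb, (b S.j).left_inv (S.base w).1]
    let W : TopologicalSpace.Opens S.W := ⟨{w | S.τ w ∈ opd r'}, (NT.isOpen_opd r').preimage S.cont⟩
    have hWt : ∀ w : W, S.τ w.1 ∈ opd r' := fun w => w.2
    have hWY : ∀ w : W, f (S.π w.1) ∈ (b j).source ∧ b j (f (S.π w.1)) - z₀ ∈ opd r := by
      intro w
      have h1 := hT'T (hzt _ (hpw _ (hWt w))).1
      rw [hpwf w.1]
      exact ⟨h1.1.2, h1.2⟩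
    refine ⟨{
      z := z
      mem := hy'z
      center := hzy'
      holo := NT.hol_congr z.open_target (NT.hol_mono hGT fun x hx => hT'T (hzt x hx).1)
        fun x hx => hzG x hx
      inj := fun x hx _ => ?_
      A := A
      A_nonneg := hA
      pos := fun x hx _ v => ?_
      c := c
      c_pos := hc
      B := 0
      low := fun x hx => ?_
      r := r'
      r_pos := hr'0
      W := W
      top := inferInstance
      t2 := inferInstance
      π := fun w => S.π w.1
      h := fun w => ⟨f (S.π w.1), hWY w⟩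
      τ := fun w => S.τ w.1
      N := S.N
      N_pos := S.N_pos
      cont := S.cont.comp continuous_subtype_val
      range := hWt
      base := fun w => ⟨(hzs _).2 ⟨(S.base w.1).1, ?_⟩, fun i => ?_⟩
      main := fun w => rfl
      lift := fun y'' p hp hy'' t ht h => ?_
      proper := fun s hs hsr => ?_
      connected := fun t ht => ?_
      chart := fun w hw => ?_ }⟩
    · rw [hzfd x hx]
      exact (hT' x (hzt x hx).1).1
    · have h1 := (hT' x (hzt x hx).1).2.1 v
      have h2 : levz (fun x => Real.log (nsq (g (b j (z.symm x).1)))) v x = 0 := by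
        simp only [hg1]
        unfold levz D
        simp
      change nsq v ≤ A * (levz (fun x => Real.log (nsq (g (b j (z.symm x).1)))) v x +
        nsq (fderiv ℝ (fun x => b j (z.symm x).1) x v))
      rw [h2, hzfd x hx, zero_add]
      exact h1
    · refine ⟨?_, ?_⟩
      · rw [pow_zero, mul_one]
        exact hc1.trans_eq (hg1 (b j (z.symm x).1)).symm
      · rw [pow_zero, mul_one, hzfd x hx]
        exact (hT' x (hzt x hx).1).2.2
    · rw [hpwb, add_sub_cancel_right]
      exact (hzt _ (hpw _ (hWt w))).1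
    · rw [hza, hpwb, add_sub_cancel_right, cc_pw]
    · have h1 : y''.1 = f p := hp
      have h2 := (hzs y'').1 hy''
      rw [h1] at h2
      have h3 : ∀ i, cc (b S.j (f p)) i = cc (b S.j y'.1) i + cc t i ^ S.N i := fun i => by
        have h4 := h i
        rw [hza, h1, NK.cc_sub] at h4
        rw [← hu₁]
        linear_combination h4
      obtain ⟨w, hw1, hw2⟩ := S.lift p h2.1 t (NT.opd_mono hr'0.le hr'S ht) h3
      exact ⟨⟨w, by change S.τ w ∈ opd r'; rw [hw1]; exact ht⟩, hw1, hw2⟩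
    · have himg : Subtype.val '' {w : W | S.τ w.1 ∈ cpd s} = {w | S.τ w ∈ cpd s} := by
        ext w
        constructor
        · rintro ⟨w', hw', rfl⟩
          exact hw'
        · intro hw
          exact ⟨⟨w, NSub.cpd_subset_opd' hs hsr hw⟩, hw, rfl⟩
      rw [Topology.IsEmbedding.subtypeVal.isCompact_iff, himg]
      exact S.proper s hs (hsr.trans_le hr'S)
    · by_cases htr : t ∈ opd r'
      · have himg : Subtype.val '' {w : W | S.τ w.1 = t} = {w | S.τ w = t} := by
          ext w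
          constructor
          · rintro ⟨w', hw', rfl⟩
            exact hw'
          · intro hw
            exact ⟨⟨w, by change S.τ w ∈ opd r'; rw [show S.τ w = t from hw]; exact htr⟩, hw, rfl⟩
        have h1 := S.connected t ht
        rw [← himg] at h1
        exact Topology.IsInducing.subtypeVal.isPreconnected_image.1 h1
      · have h1 : {w : W | S.τ w.1 = t} = ∅ := by
          ext w
          simp only [mem_ofPred_eq, mem_empty_iff_false, iff_false]
          rintro rfl
          exact htr (hWt w)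
        change IsPreconnected {w : W | S.τ w.1 = t}
        rw [h1]
        exact isPreconnected_empty
    · obtain ⟨a, c', row, ha, ha0, hrow, hmem, hholo, hmono⟩ := S.chart w.1 hw
      let a' : OpenPartialHomeomorph W (Cn n) := a.subtypeRestr ⟨w⟩
      have has : ∀ w' : W, w' ∈ a'.source ↔ w'.1 ∈ a.source := fun w' => by
        change w' ∈ (a.subtypeRestr ⟨w⟩).source ↔ _
        rw [OpenPartialHomeomorph.subtypeRestr_source]
        rfl
      have haa : ∀ w' : W, a' w' = a w'.1 := fun w' => rfl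
      have hat : ∀ x ∈ a'.target, (a'.symm x).1 = a.symm x := by
        intro x hx
        have h1 := (OpenPartialHomeomorph.subtypeRestr_symm_eqOn a ⟨w⟩) hx
        exact h1.symm
      have hat' : a'.target ⊆ a.target := by
        intro x hx
        have h1 := a'.map_target hx
        have h2 : a' (a'.symm x) = x := a'.right_inv hx
        rw [haa] at h2
        rw [← h2]
        exact a.map_source ((has _).1 h1)
      refine ⟨a', c', row, (has w).2 ha, ha0, hrow, fun w' h => hmem _ ((has w').1 h), ?_,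
        fun w' h i => hmono _ ((has w').1 h) i⟩
      refine NT.hol_congr a'.open_target (NT.hol_mono hholo hat') fun x hx => ?_
      change e c' (S.π (a'.symm x).1) = _
      rw [hat x hx]

end Pool.Agent.KRFX
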