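import Pool.Agent.Work.MP_a2bf38_gt.X.GlueDefs
import Pool.Agent.Work.MP_a2bf38_gt.X.NatSub
import Pool.Agent.Work.MP_a2bf38_gt.I.Sect
import Pool.Agent.Work.MP_a2bf38_gt.I.ABP2
import Pool.Agent.Work.MP_a2bf38_gt.I.PathOf
import Pool.Agent.Work.MP_a2bf38_gt.I.GapB
import Pool.Agent.Work.MP_a2bf38_gt.K.Up
import Pool.Agent.Work.MP_a2bf38_gt.K.DropLocal

/-!
# Bounds of the potentials of the base, Lipschitz constants of the changes of charts and of `f`
-/

open scoped ContDiff ENNReal ComplexOrder Topology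
open Set MeasureTheory Filter Pool.Agent.ToricKRF Pool.Agent.ToricKRF.G Pool.Agent.KRFS
  Pool.Agent.KRFF Pool.Agent.KRFG

namespace Pool.Agent.KRFX

set_option linter.unusedSectionVars false

namespace GA

theorem nsq_eq' {n : ℕ} (z : Cn n) : nsq z = ∑ i, (z.1 i ^ 2 + z.2 i ^ 2) := by
  simp only [nsq, dotProduct, ← Finset.sum_add_distrib]
  exact Finset.sum_congr rfl fun i _ => by ring

theorem nsq_nn {n : ℕ} (z : Cn n) : 0 ≤ nsq z := by
  rw [nsq_eq']
  exact Finset.sum_nonneg fun i _ => by positivity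

theorem nsq_add_five {n : ℕ} (x y : Cn n) : nsq (x + y) ≤ 5 / 4 * nsq x + 5 * nsq y := by
  rw [nsq_eq', nsq_eq', nsq_eq', Finset.mul_sum, Finset.mul_sum, ← Finset.sum_add_distrib]
  refine Finset.sum_le_sum fun i _ => ?_
  simp only [Prod.fst_add, Prod.snd_add, Pi.add_apply]
  nlinarith [sq_nonneg (x.1 i / 2 - 2 * y.1 i), sq_nonneg (x.2 i / 2 - 2 * y.2 i)]

theorem nsq_le_25 {n : ℕ} {x y : Cn n} (h : nsq x ≤ 16) (h1 : nsq (y - x) ≤ 1) : nsq y ≤ 25 := by
  have h2 := nsq_add_five x (y - x)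
  rw [add_sub_cancel] at h2
  linarith

theorem convex_nsq {n : ℕ} (r : ℝ) : Convex ℝ {x : Cn n | nsq x ≤ r} := by
  intro x hx y hy s t hs ht hst
  have hx' : nsq x ≤ r := hx
  have hy' : nsq y ≤ r := hy
  show nsq (s • x + t • y) ≤ r
  have h1 : nsq (s • x + t • y) ≤ s * nsq x + t * nsq y := by
    rw [nsq_eq', nsq_eq', nsq_eq', Finset.mul_sum, Finset.mul_sum, ← Finset.sum_add_distrib]
    refine Finset.sum_le_sum fun i _ => ?_
    simp only [Prod.fst_add, Prod.snd_add, Pi.add_apply, Prod.smul_fst, Prod.smul_snd,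
      Pi.smul_apply, smul_eq_mul]
    have key : ∀ a b : ℝ, (s * a + t * b) ^ 2 ≤ s * a ^ 2 + t * b ^ 2 := by
      intro a b
      have h3 : s * a ^ 2 + t * b ^ 2 - (s * a + t * b) ^ 2 = s * t * (a - b) ^ 2 := by
        have : t = 1 - s := by linarith
        rw [this]
        ring
      have := mul_nonneg (mul_nonneg hs ht) (sq_nonneg (a - b))
      linarith
    have h4 := key (x.1 i) (y.1 i)
    have h5 := key (x.2 i) (y.2 i)
    linarith
  calc nsq (s • x + t • y) ≤ s * nsq x + t * nsq y := h1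
    _ ≤ s * r + t * r := by gcongr
    _ = r := by rw [← add_mul, hst, one_mul]

theorem norm_sq_le {n : ℕ} (v : Cn n) : ‖v‖ ^ 2 ≤ nsq v := by
  have h1 := norm_le_sqrt_nsq v
  calc ‖v‖ ^ 2 ≤ √(nsq v) ^ 2 := pow_le_pow_left₀ (norm_nonneg _) h1 2
    _ = nsq v := Real.sq_sqrt (nsq_nn v)

/-- a smooth map is Lipschitz near a compact set -/
theorem lip_near {n m : ℕ} {h : Cn n → Cn m} {U K : Set (Cn n)} (hU : IsOpen U)
    (hh : ContDiffOn ℝ ∞ h U) (hK : IsCompact K) (hKU : K ⊆ U) :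
    ∃ L r : ℝ, 1 ≤ L ∧ 0 < r ∧ ∀ x ∈ K, ∀ v, nsq (v - x) ≤ r ^ 2 → v ∈ U ∧
      nsq (h v - h x) ≤ L ^ 2 * nsq (v - x) := by
  obtain ⟨δ, hδ, hδU⟩ := hK.exists_cthickening_subset_open hU hKU
  have hKc : IsCompact (Metric.cthickening δ K) := hK.cthickening
  have hfd : ContinuousOn (fun x => ‖fderiv ℝ h x‖) (Metric.cthickening δ K) :=
    (((contDiffOn_infty_iff_fderiv_of_isOpen hU).1 hh).2.continuousOn.mono hδU).norm
  obtain ⟨C, hC⟩ := hKc.bddAbove_image hfd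
  set A : ℝ := max C 0 with hA
  have hA0 : 0 ≤ A := le_max_right _ _
  have hmA : (0 : ℝ) ≤ (2 * m) * A := by positivity
  refine ⟨1 + (2 * m) * A, δ, by linarith, hδ, ?_⟩
  intro x hx v hv
  have hball : Metric.closedBall x δ ⊆ Metric.cthickening δ K :=
    Metric.closedBall_subset_cthickening hx δ
  have hvb : v ∈ Metric.closedBall x δ := by
    rw [mem_closedBall_iff_norm]
    exact norm_le_of_nsq_le hδ.le hv
  refine ⟨hδU (hball hvb), ?_⟩
  have h1 : ‖h v - h x‖ ≤ A * ‖v - x‖ := by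
    refine (convex_closedBall x δ).norm_image_sub_le_of_norm_fderiv_le (𝕜 := ℝ) (f := h)
      (fun z hz => ?_) (fun z hz => ?_) (Metric.mem_closedBall_self hδ.le) hvb
    · exact (hh.differentiableOn (by simp)).differentiableAt (hU.mem_nhds (hδU (hball hz)))
    · exact (hC (mem_image_of_mem _ (hball hz))).trans (le_max_left _ _)
  have h2 := XS.nsq_le_norm (h v - h x)
  have h3 := norm_sq_le (v - x)
  have h4 : ‖h v - h x‖ ^ 2 ≤ A ^ 2 * nsq (v - x) := by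
    calc ‖h v - h x‖ ^ 2 ≤ (A * ‖v - x‖) ^ 2 := pow_le_pow_left₀ (norm_nonneg _) h1 2
      _ = A ^ 2 * ‖v - x‖ ^ 2 := by ring
      _ ≤ A ^ 2 * nsq (v - x) := mul_le_mul_of_nonneg_left h3 (by positivity)
  have hm : (2 * m : ℝ) ≤ (1 + 2 * m) ^ 2 := by
    have := Nat.cast_nonneg (α := ℝ) m
    nlinarith
  rcases Nat.eq_zero_or_pos m with h0 | h0
  · subst h0
    calc nsq (h v - h x) ≤ 0 := by simpa using h2
      _ ≤ _ := mul_nonneg (sq_nonneg _) (nsq_nn _)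
  · have hm1 : (1 : ℝ) ≤ m := by exact_mod_cast h0
    calc nsq (h v - h x) ≤ 2 * m * (A ^ 2 * nsq (v - x)) :=
          h2.trans (mul_le_mul_of_nonneg_left h4 (by positivity))
      _ = (2 * m * A ^ 2) * nsq (v - x) := by ring
      _ ≤ (1 + 2 * m * A) ^ 2 * nsq (v - x) := by
          refine mul_le_mul_of_nonneg_right ?_ (nsq_nn _)
          have h5 : 2 * m * A ^ 2 ≤ (2 * m * A) ^ 2 := by
            have : (2 * m * A) ^ 2 = (2 * m) * (2 * m * A ^ 2) := by ring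
            rw [this]
            have h6 : (0 : ℝ) ≤ 2 * m * A ^ 2 := by positivity
            nlinarith
          nlinarith

theorem isCompact_nsq_le {n : ℕ} {r : ℝ} (hr : 0 < r) : IsCompact {z : Cn n | nsq z ≤ r} := by
  have h := isCompact_nsq_sub (n := n) 0 (Real.sqrt_pos.2 hr)
  simp only [sub_zero, Real.sq_sqrt hr.le] at h
  exact h

/-- finitely many positive numbers -/
theorem exists_pos_le' {ι : Type*} [Finite ι] {f : ι → ℝ} (hf : ∀ i, 0 < f i) :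
    ∃ c > 0, ∀ i, c ≤ f i := by
  have := Fintype.ofFinite ι
  have h0 : 0 ≤ ∑ i, (f i)⁻¹ := Finset.sum_nonneg fun i _ => (inv_pos.2 (hf i)).le
  refine ⟨(∑ i, (f i)⁻¹ + 1)⁻¹, by positivity, fun i => ?_⟩
  rw [inv_le_comm₀ (by positivity) (hf i)]
  have := Finset.single_le_sum (f := fun i => (f i)⁻¹) (fun i _ => (inv_pos.2 (hf i)).le)
    (Finset.mem_univ i)
  linarith

/-- uniform Lipschitz constants -/
theorem lip_near_fin {ι : Type*} [Finite ι] {n m : ℕ} {h : ι → Cn n → Cn m} {U K : ι → Set (Cn n)}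
    (hU : ∀ i, IsOpen (U i)) (hh : ∀ i, ContDiffOn ℝ ∞ (h i) (U i)) (hK : ∀ i, IsCompact (K i))
    (hKU : ∀ i, K i ⊆ U i) :
    ∃ L : ℝ, 1 ≤ L ∧ ∀ r₀ > 0, ∃ r : ℝ, 0 < r ∧ r ≤ r₀ ∧ L * r ≤ 1 ∧ r ≤ 1 ∧
      ∀ i, ∀ x ∈ K i, ∀ v, nsq (v - x) ≤ r ^ 2 → v ∈ U i ∧
      nsq (h i v - h i x) ≤ L ^ 2 * nsq (v - x) := by
  choose L r hL hr hlip using fun i => lip_near (hU i) (hh i) (hK i) (hKU i)
  obtain ⟨L', hL'⟩ := Finite.exists_le L
  obtain ⟨r', hr', hr''⟩ := exists_pos_le' hr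
  set L₀ := max L' 1 with hL₀
  have hL₀1 : 1 ≤ L₀ := le_max_right _ _
  refine ⟨L₀, hL₀1, fun r₀ hr₀ => ?_⟩
  refine ⟨min (min r' r₀) L₀⁻¹, lt_min (lt_min hr' hr₀) (by positivity),
    (min_le_left _ _).trans (min_le_right _ _), ?_, ?_, ?_⟩
  · calc L₀ * min (min r' r₀) L₀⁻¹ ≤ L₀ * L₀⁻¹ :=
          mul_le_mul_of_nonneg_left (min_le_right _ _) (by linarith)
      _ = 1 := mul_inv_cancel₀ (by linarith)
  · exact (min_le_right _ _).trans (inv_le_one_of_one_le₀ hL₀1)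
  · intro i x hx v hv
    have h1 : nsq (v - x) ≤ r i ^ 2 := by
      refine hv.trans (pow_le_pow_left₀ (le_min (le_min hr'.le hr₀.le) (by positivity)) ?_ 2)
      exact ((min_le_left _ _).trans (min_le_left _ _)).trans (hr'' i)
    obtain ⟨h2, h3⟩ := hlip i x hx v h1
    refine ⟨h2, h3.trans (mul_le_mul_of_nonneg_right ?_ (nsq_nn _))⟩
    exact pow_le_pow_left₀ (by linarith [hL i]) ((hL' i).trans (le_max_left _ _)) 2

end GA

section Mod

variable {n m l : ℕ} {M Y Y' W : Type} [TopologicalSpace M] [CompactSpace M] [T2Space M]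
  [TopologicalSpace Y] [T2Space Y] [TopologicalSpace Y'] [T2Space Y'] [TopologicalSpace W]
  [T2Space W] {κ P P' ι : Type} [Finite P] [Finite P'] [Fintype ι] {T : ℝ}
  (F : Mod n m l M Y Y' W κ P P' ι T)

/-- bounds of the potentials of the base -/
theorem Mod.K_bound : ∃ C : ℝ, 1 ≤ C ∧ (∀ j, ∀ y : Cn m, nsq y ≤ 49 →
    |F.K j y| ≤ C ∧ nsq (F.g j y) ≤ C ∧ ∀ v, nsq v ≤ C * levz (F.K j) v y) ∧
    ∀ j, ∀ y y' : Cn m, nsq y ≤ 36 → nsq y' ≤ 36 →
      |F.K j y - F.K j y'| ≤ C * √(nsq (y - y')) := by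
  have hK49 : IsCompact {y : Cn m | nsq y ≤ 49} := GA.isCompact_nsq_le (by norm_num)
  have hsub : ∀ j, {y : Cn m | nsq y ≤ 49} ⊆ (F.b j).target := fun j y hy =>
    F.hol.target j (show nsq y < 100 from lt_of_le_of_lt hy (by norm_num))
  have hKc : ∀ j, ContinuousOn (fun y => |F.K j y|) {y : Cn m | nsq y ≤ 49} := fun j =>
    ((F.lim.smooth j).continuousOn.mono (hsub j)).abs
  have hgc : ∀ j, ContinuousOn (fun y => nsq (F.g j y)) {y : Cn m | nsq y ≤ 49} := fun j =>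
    nsq_continuous.comp_continuousOn ((F.modif.g_holo j).1.continuousOn.mono fun y hy =>
      show nsq y < 100 from lt_of_le_of_lt hy (by norm_num))
  choose C₁ hC₁ using fun j => hK49.bddAbove_image (hKc j)
  choose C₂ hC₂ using fun j => hK49.bddAbove_image (hgc j)
  have hq : ∀ j, ∃ C : ℝ, 0 ≤ C ∧ ∀ y ∈ {y : Cn m | nsq y ≤ 49}, ∀ v,
      nsq v ≤ C * levz (F.K j) v y := by
    intro j
    refine quad_le hK49 (fun _ v => nsq v) (fun y v => levz (F.K j) v y) ?_ ?_ ?_ ?_ ?_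
    · exact (nsq_continuous.comp continuous_snd).continuousOn
    · exact (levz_continuousOn (F.b j).open_target (F.lim.smooth j)).mono
        (prod_mono (hsub j) le_rfl)
    · exact fun y _ r v => nsq_smul' r v
    · exact fun y hy r v => Bd.levz_smul (F.b j).open_target (F.lim.smooth j) (hsub j hy) r v
    · exact fun y hy v hv => F.lim.psh j y (hsub j hy) v hv
  choose C₃ hC₃0 hC₃ using hq
  have hfd : ∀ j, ContinuousOn (fun y => ‖fderiv ℝ (F.K j) y‖) {y : Cn m | nsq y ≤ 49} :=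
    fun j => (((contDiffOn_infty_iff_fderiv_of_isOpen (F.b j).open_target).1
      (F.lim.smooth j)).2.continuousOn.mono (hsub j)).norm
  choose C₄ hC₄ using fun j => hK49.bddAbove_image (hfd j)
  obtain ⟨C, hC⟩ := Finite.exists_le fun j => max (max (C₁ j) (C₂ j)) (max (C₃ j) (C₄ j))
  have h1 : ∀ j, C₁ j ≤ max C 1 := fun j =>
    (((le_max_left _ _).trans (le_max_left _ _)).trans (hC j)).trans (le_max_left _ _)
  have h2 : ∀ j, C₂ j ≤ max C 1 := fun j =>
    (((le_max_right _ _).trans (le_max_left _ _)).trans (hC j)).trans (le_max_left _ _)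
  have h3 : ∀ j, C₃ j ≤ max C 1 := fun j =>
    (((le_max_left _ _).trans (le_max_right _ _)).trans (hC j)).trans (le_max_left _ _)
  have h4 : ∀ j, C₄ j ≤ max C 1 := fun j =>
    (((le_max_right _ _).trans (le_max_right _ _)).trans (hC j)).trans (le_max_left _ _)
  refine ⟨max C 1, le_max_right _ _, fun j y hy => ⟨?_, ?_, fun v => ?_⟩, ?_⟩
  · exact (hC₁ j (mem_image_of_mem _ hy)).trans (h1 j)
  · exact (hC₂ j (mem_image_of_mem _ hy)).trans (h2 j)
  · refine (hC₃ j y hy v).trans (mul_le_mul_of_nonneg_right (h3 j) ?_)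
    by_cases hv : v = 0
    · rw [hv, Gap.levz_zero_dir]
    · exact (F.lim.psh j y (hsub j hy) v hv).le
  · intro j y y' hy hy'
    have h5 : ‖F.K j y - F.K j y'‖ ≤ max C 1 * ‖y - y'‖ := by
      refine (GA.convex_nsq (n := m) 36).norm_image_sub_le_of_norm_fderiv_le (𝕜 := ℝ)
        (f := F.K j) (fun z hz => ?_) (fun z hz => ?_) hy' hy
      · have hz' : nsq z ≤ 36 := hz
        exact ((F.lim.smooth j).differentiableOn (by simp)).differentiableAt
          ((F.b j).open_target.mem_nhds (hsub j (show nsq z ≤ 49 by linarith)))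
      · have hz' : nsq z ≤ 36 := hz
        exact (hC₄ j (mem_image_of_mem _ (show nsq z ≤ 49 by linarith))).trans (h4 j)
    rw [← Real.norm_eq_abs]
    exact h5.trans (mul_le_mul_of_nonneg_left (norm_le_sqrt_nsq _)
      (le_trans zero_le_one (le_max_right _ _)))

/-- the compact balls of `Y` -/
theorem Mod.isCompact_ballY (j : P) {r : ℝ} (hr : 0 < r) (hr' : r < 100) :
    IsCompact ((F.b j).symm '' {y : Cn m | nsq y ≤ r}) :=
  (GA.isCompact_nsq_le hr).image_of_continuousOn ((F.b j).continuousOn_symm.mono fun y hy =>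
    F.hol.target j (show nsq y < 100 from lt_of_le_of_lt hy hr'))

theorem Mod.mem_ballY (j : P) {r : ℝ} (hr' : r < 100) {y : Y} :
    y ∈ (F.b j).symm '' {y : Cn m | nsq y ≤ r} ↔ y ∈ (F.b j).source ∧ nsq (F.b j y) ≤ r := by
  constructor
  · rintro ⟨z, hz, rfl⟩
    have hzt : z ∈ (F.b j).target := F.hol.target j (show nsq z < 100 from lt_of_le_of_lt hz hr')
    refine ⟨(F.b j).map_target hzt, ?_⟩
    rw [(F.b j).right_inv hzt]
    exact hz
  · rintro ⟨hy, h⟩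
    exact ⟨F.b j y, h, (F.b j).left_inv hy⟩

/-- the compact domain of the change of charts -/
theorem Mod.isCompact_dom (i j : P) {r : ℝ} (hr : 0 < r) (hr' : r < 100) :
    IsCompact {v : Cn m | nsq v ≤ r ∧ (F.b i).symm v ∈ (F.b j).source ∧
      nsq (F.b j ((F.b i).symm v)) ≤ r} := by
  have h1 : {v : Cn m | nsq v ≤ r ∧ (F.b i).symm v ∈ (F.b j).source ∧
      nsq (F.b j ((F.b i).symm v)) ≤ r} = F.b i '' ((F.b i).symm '' {y : Cn m | nsq y ≤ r} ∩
        (F.b j).symm '' {y : Cn m | nsq y ≤ r}) := by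
    ext v
    constructor
    · rintro ⟨h1, h2, h3⟩
      have hvt : v ∈ (F.b i).target := F.hol.target i (show nsq v < 100 from lt_of_le_of_lt h1 hr')
      refine ⟨(F.b i).symm v, ⟨⟨v, h1, rfl⟩, (F.mem_ballY j hr').2 ⟨h2, h3⟩⟩, ?_⟩
      exact (F.b i).right_inv hvt
    · rintro ⟨y, ⟨hy, hy'⟩, rfl⟩
      obtain ⟨h1, h2⟩ := (F.mem_ballY i hr').1 hy
      obtain ⟨h3, h4⟩ := (F.mem_ballY j hr').1 hy'
      refine ⟨h2, ?_, ?_⟩
      · rw [(F.b i).left_inv h1]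
        exact h3
      · rw [(F.b i).left_inv h1]
        exact h4
  rw [h1]
  refine ((F.isCompact_ballY i hr hr').inter (F.isCompact_ballY j hr hr')).image_of_continuousOn ?_
  exact (F.b i).continuousOn.mono fun y hy => ((F.mem_ballY i hr').1 hy.1).1

theorem Mod.isOpen_domY (i j : P) : IsOpen (dom F.b i j) :=
  (F.b i).isOpen_inter_preimage_symm (F.b j).open_source

/-- the transition maps are Lipschitz -/
theorem Mod.trans_lip : ∃ L r : ℝ, 1 ≤ L ∧ 0 < r ∧ ∀ i j, ∀ y ∈ (F.b i).source,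
    y ∈ (F.b j).source → nsq (F.b i y) ≤ 16 → nsq (F.b j y) ≤ 16 →
    ∀ v, nsq (v - F.b i y) ≤ r ^ 2 → nsq v ≤ 25 ∧ (F.b i).symm v ∈ (F.b j).source ∧
      nsq (F.b j ((F.b i).symm v)) ≤ 25 ∧
      nsq (F.b j ((F.b i).symm v) - F.b j y) ≤ L ^ 2 * nsq (v - F.b i y) := by
  obtain ⟨L, hL, h⟩ := GA.lip_near_fin (ι := P × P) (h := fun q => tr F.b q.1 q.2)
    (U := fun q => dom F.b q.1 q.2) (K := fun q => {v : Cn m | nsq v ≤ 16 ∧
      (F.b q.1).symm v ∈ (F.b q.2).source ∧ nsq (F.b q.2 ((F.b q.1).symm v)) ≤ 16})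
    (fun q => F.isOpen_domY q.1 q.2) (fun q => (F.atlasY.holo q.1 q.2).1)
    (fun q => F.isCompact_dom q.1 q.2 (by norm_num) (by norm_num))
    (fun q v hv => ⟨F.hol.target q.1 (show nsq v < 100 from lt_of_le_of_lt hv.1 (by norm_num)),
      hv.2.1⟩)
  obtain ⟨r, hr, -, hLr, hr1, h⟩ := h 1 one_pos
  refine ⟨L, r, hL, hr, fun i j y hi hj h16i h16j v hv => ?_⟩
  obtain ⟨h1, h2⟩ := h (i, j) (F.b i y) ⟨h16i, by rw [(F.b i).left_inv hi]; exact hj, by
    rw [(F.b i).left_inv hi]; exact h16j⟩ v hv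
  have h3 : tr F.b i j (F.b i y) = F.b j y := by
    unfold tr
    rw [(F.b i).left_inv hi]
  simp only at h2
  rw [h3] at h2
  have h4 : nsq (v - F.b i y) ≤ 1 := hv.trans (pow_le_one₀ hr.le hr1)
  have h5 : L ^ 2 * nsq (v - F.b i y) ≤ 1 := by
    calc L ^ 2 * nsq (v - F.b i y) ≤ L ^ 2 * r ^ 2 := mul_le_mul_of_nonneg_left hv (by positivity)
      _ = (L * r) ^ 2 := by ring
      _ ≤ 1 := pow_le_one₀ (by positivity) hLr
  exact ⟨GA.nsq_le_25 h16i h4, h1.2, GA.nsq_le_25 h16j (h2.trans h5), h2⟩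

/-- volumes and the transition maps -/
theorem Mod.trans_vol : ∃ C : ℝ, 0 ≤ C ∧ ∀ i j (A : Set (Cn m)),
    volume {v : Cn m | nsq v ≤ 25 ∧ (F.b i).symm v ∈ (F.b j).source ∧
      nsq (F.b j ((F.b i).symm v)) ≤ 25 ∧ F.b j ((F.b i).symm v) ∈ A} ≤
      ENNReal.ofReal C * volume A := by
  choose C hC0 hC using fun q : P × P => Pool.Agent.KRFG.Up.volume_image_le
    (F.isOpen_domY q.2 q.1) (F.atlasY.holo q.2 q.1).1
    (F.isCompact_dom q.2 q.1 (r := 25) (by norm_num) (by norm_num))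
    (fun v hv => ⟨F.hol.target q.2 (show nsq v < 100 from lt_of_le_of_lt hv.1 (by norm_num)),
      hv.2.1⟩)
  obtain ⟨C', hC'⟩ := Finite.exists_le C
  refine ⟨max C' 0, le_max_right _ _, fun i j A => ?_⟩
  have h1 : {v : Cn m | nsq v ≤ 25 ∧ (F.b i).symm v ∈ (F.b j).source ∧
      nsq (F.b j ((F.b i).symm v)) ≤ 25 ∧ F.b j ((F.b i).symm v) ∈ A} ⊆
      tr F.b j i '' (A ∩ {v : Cn m | nsq v ≤ 25 ∧ (F.b j).symm v ∈ (F.b i).source ∧
        nsq (F.b i ((F.b j).symm v)) ≤ 25}) := by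
    rintro v ⟨h1, h2, h3, h4⟩
    have hvt : v ∈ (F.b i).target :=
      F.hol.target i (show nsq v < 100 from lt_of_le_of_lt h1 (by norm_num))
    have h5 : (F.b j).symm (F.b j ((F.b i).symm v)) = (F.b i).symm v := (F.b j).left_inv h2
    refine ⟨F.b j ((F.b i).symm v), ⟨h4, h3, ?_, ?_⟩, ?_⟩
    · rw [h5]
      exact (F.b i).map_target hvt
    · rw [h5, (F.b i).right_inv hvt]
      exact h1
    · unfold tr
      rw [h5]
      exact (F.b i).right_inv hvt
  calc volume _ ≤ volume (tr F.b j i '' (A ∩ {v : Cn m | nsq v ≤ 25 ∧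
          (F.b j).symm v ∈ (F.b i).source ∧ nsq (F.b i ((F.b j).symm v)) ≤ 25})) :=
        measure_mono h1
    _ ≤ ENNReal.ofReal (C (i, j)) * volume (A ∩ {v : Cn m | nsq v ≤ 25 ∧
          (F.b j).symm v ∈ (F.b i).source ∧ nsq (F.b i ((F.b j).symm v)) ≤ 25}) :=
        hC (i, j) _ inter_subset_right
    _ ≤ ENNReal.ofReal (max C' 0) * volume A := by
        gcongr
        · exact (hC' (i, j)).trans (le_max_left _ _)
        · exact inter_subset_left

/-- `f` is Lipschitz in the charts -/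
theorem Mod.f_lip {c : κ} {z₀ : Cn n} (hz₀ : z₀ ∈ (F.e c).target) : ∃ L r : ℝ, 1 ≤ L ∧
    0 < r ∧ {z | nsq (z - z₀) ≤ (2 * r) ^ 2} ⊆ (F.e c).target ∧ ∀ j z, nsq (z - z₀) ≤ r ^ 2 →
      F.f ((F.e c).symm z) ∈ (F.b j).source → nsq (F.b j (F.f ((F.e c).symm z))) ≤ 16 →
      ∀ w, nsq (w - z) ≤ r ^ 2 → F.f ((F.e c).symm w) ∈ (F.b j).source ∧
        nsq (F.b j (F.f ((F.e c).symm w))) ≤ 25 ∧
        nsq (F.b j (F.f ((F.e c).symm w)) - F.b j (F.f ((F.e c).symm z))) ≤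
          L ^ 2 * nsq (w - z) := by
  obtain ⟨r₁, hr₁, hcomp, hsub⟩ := exists_ball ((F.e c).open_target.mem_nhds hz₀)
  have hfc : ContinuousOn (fun z => F.f ((F.e c).symm z)) (F.e c).target :=
    F.hol.cont.comp_continuousOn (F.e c).continuousOn_symm
  obtain ⟨L, hL, h⟩ := GA.lip_near_fin (ι := P) (h := fun j z => F.b j (F.f ((F.e c).symm z)))
    (U := fun j => {z | z ∈ (F.e c).target ∧ F.f ((F.e c).symm z) ∈ (F.b j).source})
    (K := fun j => {z : Cn n | nsq (z - z₀) ≤ r₁ ^ 2} ∩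
      (fun z => F.f ((F.e c).symm z)) ⁻¹' ((F.b j).symm '' {y : Cn m | nsq y ≤ 16}))
    (fun j => hfc.isOpen_inter_preimage (F.e c).open_target (F.b j).open_source)
    (fun j => (F.hol.holo c j).1)
    (fun j => hcomp.of_isClosed_subset ((hfc.mono hsub).preimage_isClosed_of_isClosed
      hcomp.isClosed (F.isCompact_ballY j (by norm_num) (by norm_num)).isClosed)
      inter_subset_left)
    (fun j z hz => ⟨hsub hz.1, ((F.mem_ballY j (by norm_num)).1 hz.2).1⟩)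
  obtain ⟨r, hr, hrr, hLr, hr1, h⟩ := h (r₁ / 2) (by positivity)
  refine ⟨L, r, hL, hr, ?_, fun j z hz hz1 hz2 w hw => ?_⟩
  · intro z hz
    refine hsub (le_trans (show nsq (z - z₀) ≤ (2 * r) ^ 2 from hz) ?_)
    exact pow_le_pow_left₀ (by positivity) (by linarith) 2
  · have hzK : nsq (z - z₀) ≤ r₁ ^ 2 :=
      hz.trans (pow_le_pow_left₀ hr.le (by linarith) 2)
    obtain ⟨h1, h2⟩ := h j z ⟨hzK, (F.mem_ballY j (by norm_num)).2 ⟨hz1, hz2⟩⟩ w hw
    have h5 : L ^ 2 * nsq (w - z) ≤ 1 := by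
      calc L ^ 2 * nsq (w - z) ≤ L ^ 2 * r ^ 2 := mul_le_mul_of_nonneg_left hw (by positivity)
        _ = (L * r) ^ 2 := by ring
        _ ≤ 1 := pow_le_one₀ (by positivity) hLr
    exact ⟨h1.2, GA.nsq_le_25 hz2 (h2.trans h5), h2⟩

end Mod

end Pool.Agent.KRFX
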