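import Pool.Agent.Work.MP_a2bf38_gt.X.Setup
import Pool.Agent.Work.MP_a2bf38_gt.K.Sup

/-!
# The maximum over the fibres of `W → Y'`

The image in `M` of the fibre of `W` over a point `y'` of the ball `nsq ≤ 25` of a chart `z a` is the
union of the images of finitely many compact subsets of the polydiscs of radius `1`, and the map from
a chart of `W` to the chart of `Y'` is open.
-/

open scoped ContDiff ENNReal ComplexOrder Topology
open Set Filter Pool.Agent.ToricKRF Pool.Agent.ToricKRF.G Pool.Agent.KRFS Pool.Agent.KRFF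
  Pool.Agent.KRFG

namespace Pool.Agent.KRFX

section

variable {n m l : ℕ} {M Y Y' W : Type} [TopologicalSpace M] [TopologicalSpace Y]
  [TopologicalSpace Y'] [TopologicalSpace W] {κ P P' ι : Type} {T : ℝ}
  (F : Mod n m l M Y Y' W κ P P' ι T)

namespace SupX

/-- the map from the chart `c` of `W` to the chart `a` of `Y'` -/
noncomputable def G (c : ι) (a : P') (x : Cn n) : Cn m :=
  ofC fun i => ((F.s c i : ℂ) * prow (F.row c) i x) ^ F.N a i

/-- `π` in the charts of `W` is continuous -/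
theorem pi_continuousOn (c : ι) : ContinuousOn (fun x => F.π ((F.a c).symm x)) (opd 10) := by
  have h1 : ContinuousOn (fun x => F.e (F.al c) (F.π ((F.a c).symm x))) (opd 10) :=
    (F.model.holo c).1.continuousOn
  have h2 : ∀ x ∈ opd (k := n) 10, F.π ((F.a c).symm x) ∈ (F.e (F.al c)).source := fun x hx =>
    F.model.mem c _ ((F.a c).map_target (by rw [F.model.target c]; exact hx))
  have h3 := (F.e (F.al c)).continuousOn_symm.comp h1
    (fun x hx => (F.e (F.al c)).map_source (h2 x hx))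
  exact h3.congr fun x hx => ((F.e (F.al c)).left_inv (h2 x hx)).symm

/-- the coordinates in `Y'` of the points of a chart of `W` -/
theorem base_chart (c : ι) {x : Cn n} (hx : x ∈ opd 10) :
    F.h ((F.a c).symm x) ∈ (F.z (F.pc c)).source ∧
    F.z (F.pc c) (F.h ((F.a c).symm x)) = G F c (F.pc c) x := by
  have hx' : x ∈ (F.a c).target := by rw [F.model.target c]; exact hx
  have hw := (F.a c).map_target hx'
  have h1 := F.model.base ((F.a c).symm x)
  rw [F.model.lab_eq c _ hw] at h1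
  refine ⟨h1.1, ?_⟩
  have h2 : cc (F.z (F.pc c) (F.h ((F.a c).symm x))) =
      fun i => ((F.s c i : ℂ) * prow (F.row c) i x) ^ F.N (F.pc c) i := by
    funext i
    rw [h1.2 i, F.model.mono c _ hw i, (F.a c).right_inv hx']
  unfold G
  rw [← h2, Sup.ofC_cc]

theorem G_continuous (c : ι) (a : P') : Continuous (G F c a) := by
  unfold G
  refine Sup.continuous_ofC.comp (continuous_pi fun i => ?_)
  refine (continuous_const.mul ?_).pow _
  unfold prow
  refine continuous_finsetProd _ fun l _ => ?_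
  by_cases h : F.row c l = some i
  · simp only [h, if_true]
    have h6 : (fun y : Cn n => cc y l) = fun y => ((y.1 l : ℂ) + (y.2 l : ℂ) * Complex.I) := by
      funext y
      apply Complex.ext <;> simp [cc]
    rw [h6]
    fun_prop
  · simp only [h, if_false]
    exact continuous_const

theorem G_open (c : ι) (x : Cn n) : 𝓝 (G F c (F.pc c) x) ≤ map (G F c (F.pc c)) (𝓝 x) :=
  Sup.prow_open (F.row c) (F.model.row_ne c)
    (fun i => Complex.ofReal_ne_zero.2 (F.model.s_pos c i).ne') (F.model.N_pos (F.pc c)) x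

/-- a point of `W` with the label `a` is determined over `Y'` by `τ` -/
theorem h_eq {a : P'} {y' : Y'} (hy : y' ∈ (F.z a).source) {w : W} (hw : F.lab w = a)
    (ht : ∀ i, cc (F.τ w) i ^ F.N a i = cc (F.z a y') i) : F.h w = y' := by
  have h1 := F.model.base w
  rw [hw] at h1
  refine (F.z a).injOn h1.1 hy ?_
  have h2 : cc (F.z a (F.h w)) = cc (F.z a y') := funext fun i => (h1.2 i).trans (ht i)
  rw [← Sup.ofC_cc (F.z a (F.h w)), h2, Sup.ofC_cc]

/-- every point over `y'` has a lift with the label `a` -/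
theorem lift_lab {a : P'} {y' : Y'} (hy : y' ∈ (F.z a).source) (hy' : nsq (F.z a y') ≤ 25)
    {w₀ : W} (hw₀ : F.h w₀ = y') : ∃ w, F.lab w = a ∧ F.h w = y' ∧ F.π w = F.π w₀ := by
  choose t ht using fun i => IsAlgClosed.exists_pow_nat_eq (cc (F.z a y') i)
    (F.model.N_pos a i)
  obtain ⟨w, hw1, hw2, hw3⟩ := F.model.onto a w₀ (by rw [hw₀]; exact hy)
    (by rw [hw₀]; exact hy') (ofC t) (by rw [hw₀]; exact ht)
  exact ⟨w, hw1, h_eq F hy hw1 (by rw [hw2]; exact ht), hw3⟩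

theorem exists_lift {a : P'} {y' : Y'} (hy : y' ∈ (F.z a).source) (hy' : nsq (F.z a y') ≤ 25) :
    ∃ w, F.lab w = a ∧ F.h w = y' := by
  choose t ht using fun i => IsAlgClosed.exists_pow_nat_eq (cc (F.z a y') i)
    (F.model.N_pos a i)
  obtain ⟨w, hw1, hw2⟩ := F.model.surj a (ofC t) ⟨y', hy, hy', ht⟩
  exact ⟨w, hw1, h_eq F hy hw1 (by rw [hw2]; exact ht)⟩

/-- a point with the label `a` lies in the core of a chart -/
theorem core {a : P'} {w : W} (hw : F.lab w = a) (h25 : nsq (F.z a (F.h w)) ≤ 25) :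
    ∃ c, F.pc c = a ∧ ∃ x ∈ cpd (k := n) 1, w ∈ (F.a c).source ∧ F.a c w = x ∧
      G F c a x = F.z a (F.h w) := by
  obtain ⟨c, hc1, hc2⟩ := F.model.cover w (by rw [hw]; exact h25)
  have hpc : F.pc c = a := by rw [← F.model.lab_eq c w hc1, hw]
  refine ⟨c, hpc, _, hc2, hc1, rfl, ?_⟩
  have hx₀t : F.a c w ∈ opd (k := n) 10 := Ov.cpd_subset_opd (by norm_num) (by norm_num) hc2
  have h1 := (base_chart F c hx₀t).2
  rw [(F.a c).left_inv hc1, hpc] at h1
  exact h1.symm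

/-- the image in `M` of the fibre over `y'` -/
theorem fibre_eq {a : P'} {y' : Y'} (hy : y' ∈ (F.z a).source) (hy' : nsq (F.z a y') ≤ 25) :
    F.π '' (F.h ⁻¹' {y'}) = ⋃ c : ι, ⋃ _ : F.pc c = a,
      (fun x => F.π ((F.a c).symm x)) '' (cpd 1 ∩ {x | G F c a x = F.z a y'}) := by
  ext p
  simp only [mem_iUnion, mem_image, mem_inter_iff, mem_ofPred_eq, mem_preimage,
    mem_singleton_iff, exists_prop]
  constructor
  · rintro ⟨w₀, hw₀, rfl⟩
    obtain ⟨w, hw1, hw2, hw3⟩ := lift_lab F hy hy' hw₀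
    obtain ⟨c, hc, x, hx, hwc, rfl, hG⟩ := core F hw1 (by rw [hw2]; exact hy')
    exact ⟨c, hc, _, ⟨hx, by rw [hG, hw2]⟩, by rw [(F.a c).left_inv hwc, hw3]⟩
  · rintro ⟨c, rfl, x, ⟨hx, hG⟩, rfl⟩
    have hx₀t : x ∈ opd (k := n) 10 := Ov.cpd_subset_opd (by norm_num) (by norm_num) hx
    have h1 := base_chart F c hx₀t
    refine ⟨_, (F.z (F.pc c)).injOn h1.1 hy ?_, rfl⟩
    rw [h1.2, hG]

theorem Phi_continuous {t : ℝ} (ht : t ∈ Ico 0 T) : Continuous (F.Phi t) := by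
  rw [← continuousOn_univ]
  exact ContinuousOn.comp (f := fun p : M => (t, p)) F.toFlow.Phi_continuousOn
    (by fun_prop) fun p _ => ⟨ht, mem_univ _⟩

theorem isCompact_fibre [Finite ι] {a : P'} {y' : Y'} (hy : y' ∈ (F.z a).source)
    (hy' : nsq (F.z a y') ≤ 25) : IsCompact (F.π '' (F.h ⁻¹' {y'})) := by
  rw [fibre_eq F hy hy']
  refine isCompact_iUnion fun c => isCompact_iUnion fun _ => ?_
  refine IsCompact.image_of_continuousOn ?_ ((pi_continuousOn F c).mono fun x hx =>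
    Ov.cpd_subset_opd (by norm_num) (by norm_num) hx.1)
  exact (isCompact_cpd 1).inter_right (isClosed_singleton.preimage (G_continuous F c a))

/-- the points of the chart `c` over `y'` -/
theorem le_of_spec {t : ℝ} {a : P'} {x : Cn m} {r : ℝ}
    (h : ∀ w, F.h w = (F.z a).symm x → F.Phi t (F.π w) ≤ r) {c : ι} (hc : F.pc c = a)
    {ξ : Cn n} (hξ : ξ ∈ opd (k := n) 10) (hG : G F c a ξ = x) :
    F.Phi t (F.π ((F.a c).symm ξ)) ≤ r := by
  subst hc
  have h1 := base_chart F c hξ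
  refine h _ ?_
  rw [← hG, ← h1.2, (F.z (F.pc c)).left_inv h1.1]

end SupX

theorem Mod.Mx_spec [Finite ι] {t : ℝ} (ht : t ∈ Ico 0 T) {a : P'} {y' : Y'}
    (hy : y' ∈ (F.z a).source) (hy' : nsq (F.z a y') ≤ 25) :
    (∃ w, F.lab w = a ∧ F.h w = y' ∧ F.Phi t (F.π w) = F.Mx t y') ∧
      ∀ w, F.h w = y' → F.Phi t (F.π w) ≤ F.Mx t y' := by
  have hc := SupX.isCompact_fibre F hy hy'
  obtain ⟨w₁, _, hw₁⟩ := SupX.exists_lift F hy hy'
  have hne : (F.π '' (F.h ⁻¹' {y'})).Nonempty := ⟨_, mem_image_of_mem _ hw₁⟩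
  obtain ⟨p, hp, hp2⟩ := hc.exists_isMaxOn hne (SupX.Phi_continuous F ht).continuousOn
  have hG : IsGreatest (F.Phi t '' (F.π '' (F.h ⁻¹' {y'}))) (F.Phi t p) :=
    ⟨mem_image_of_mem _ hp, by
      rintro _ ⟨q, hq, rfl⟩
      exact hp2 hq⟩
  have h1 : F.Mx t y' = F.Phi t p := hG.csSup_eq
  obtain ⟨w₀, hw₀, rfl⟩ := hp
  obtain ⟨w, hw1, hw2, hw3⟩ := SupX.lift_lab F hy hy' hw₀
  refine ⟨⟨w, hw1, hw2, by rw [hw3, h1]⟩, fun w' hw' => ?_⟩
  rw [h1]
  exact hp2 (mem_image_of_mem _ hw')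

theorem Mod.Mx_continuousOn [Finite ι] {t : ℝ} (ht : t ∈ Ico 0 T) (a : P') :
    ContinuousOn (fun x => F.Mx t ((F.z a).symm x)) {x | nsq x < 25} := by
  have htar : ∀ x : Cn m, nsq x < 25 → x ∈ (F.z a).target := fun x hx =>
    F.modif.target a (show nsq x < 100 by linarith)
  have hspec : ∀ x : Cn m, nsq x < 25 →
      (∃ w, F.lab w = a ∧ F.h w = (F.z a).symm x ∧ F.Phi t (F.π w) = F.Mx t ((F.z a).symm x)) ∧
      ∀ w, F.h w = (F.z a).symm x → F.Phi t (F.π w) ≤ F.Mx t ((F.z a).symm x) := fun x hx =>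
    F.Mx_spec ht ((F.z a).map_target (htar x hx))
      (by rw [(F.z a).right_inv (htar x hx)]; exact hx.le)
  -- the maximum is attained in the core of a chart
  have hcore : ∀ x : Cn m, nsq x < 25 → ∃ c, F.pc c = a ∧ ∃ ξ ∈ cpd (k := n) 1,
      SupX.G F c a ξ = x ∧ F.Phi t (F.π ((F.a c).symm ξ)) = F.Mx t ((F.z a).symm x) := by
    intro x hx
    obtain ⟨w, hw1, hw2, hw3⟩ := (hspec x hx).1
    have h1 : F.z a (F.h w) = x := by rw [hw2, (F.z a).right_inv (htar x hx)]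
    obtain ⟨c, hc, ξ, hξ, hwc, hξ2, hG⟩ := SupX.core F hw1 (by rw [h1]; exact hx.le)
    refine ⟨c, hc, ξ, hξ, by rw [hG, h1], ?_⟩
    rw [← hξ2, (F.a c).left_inv hwc, hw3]
  intro x₀ hx₀
  refine (tendsto_order.2 ⟨fun r hr => ?_, fun r hr => ?_⟩)
  · -- lower bound
    obtain ⟨c, hc, ξ₀, hξ₀, hG, hM⟩ := hcore x₀ hx₀
    have hξt : ξ₀ ∈ opd (k := n) 10 := Ov.cpd_subset_opd (by norm_num) (by norm_num) hξ₀
    have hnh : opd (k := n) 10 ∈ 𝓝 ξ₀ := (Ov.isOpen_opd 10).mem_nhds hξt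
    have h1 : ContinuousAt (fun ξ => F.Phi t (F.π ((F.a c).symm ξ))) ξ₀ :=
      (SupX.Phi_continuous F ht).continuousAt.comp
        ((SupX.pi_continuousOn F c).continuousAt hnh)
    have h2 : {ξ | r < F.Phi t (F.π ((F.a c).symm ξ)) ∧ ξ ∈ opd (k := n) 10} ∈ 𝓝 ξ₀ :=
      Filter.inter_mem (h1.eventually (lt_mem_nhds
        (show r < F.Phi t (F.π ((F.a c).symm ξ₀)) by rw [hM]; exact hr))) hnh
    subst hc
    have h3 := SupX.G_open F c ξ₀ (image_mem_map h2)
    rw [hG] at h3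
    have h4 : ∀ᶠ x in 𝓝[{x | nsq x < 25}] x₀, x ∈ SupX.G F c (F.pc c) ''
        {ξ | r < F.Phi t (F.π ((F.a c).symm ξ)) ∧ ξ ∈ opd (k := n) 10} :=
      mem_nhdsWithin_of_mem_nhds h3
    filter_upwards [h4, self_mem_nhdsWithin] with x hx hx25
    obtain ⟨ξ, ⟨hξ1, hξ2⟩, hξ3⟩ := hx
    exact lt_of_lt_of_le hξ1 (SupX.le_of_spec F (hspec x hx25).2 rfl hξ2 hξ3)
  · -- upper bound
    have h1 : IsCompact (⋃ c : ι, ⋃ _ : F.pc c = a, SupX.G F c a ''
        (cpd 1 ∩ (fun ξ => F.Phi t (F.π ((F.a c).symm ξ))) ⁻¹' Ici r)) := by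
      refine isCompact_iUnion fun c => isCompact_iUnion fun _ => ?_
      refine IsCompact.image ?_ (SupX.G_continuous F c a)
      have h2 : ContinuousOn (fun ξ => F.Phi t (F.π ((F.a c).symm ξ))) (cpd 1) :=
        (SupX.Phi_continuous F ht).comp_continuousOn ((SupX.pi_continuousOn F c).mono
          (Ov.cpd_subset_opd (by norm_num) (by norm_num)))
      exact (isCompact_cpd 1).of_isClosed_subset
        (h2.preimage_isClosed_of_isClosed (isCompact_cpd 1).isClosed isClosed_Ici)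
        inter_subset_left
    have h2 : x₀ ∉ (⋃ c : ι, ⋃ _ : F.pc c = a, SupX.G F c a ''
        (cpd 1 ∩ (fun ξ => F.Phi t (F.π ((F.a c).symm ξ))) ⁻¹' Ici r)) := by
      simp only [mem_iUnion, mem_image, mem_inter_iff, mem_preimage, mem_Ici, exists_prop,
        not_exists, not_and]
      rintro c hc ξ ⟨hξ1, hξ2⟩ hξ3
      have h3 := SupX.le_of_spec F (hspec x₀ hx₀).2 hc
        (Ov.cpd_subset_opd (by norm_num) (by norm_num) hξ1) hξ3
      exact absurd (hξ2.trans h3) (not_le.2 hr)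
    have h3 : ∀ᶠ x in 𝓝[{x | nsq x < 25}] x₀, x ∉ (⋃ c : ι, ⋃ _ : F.pc c = a, SupX.G F c a ''
        (cpd 1 ∩ (fun ξ => F.Phi t (F.π ((F.a c).symm ξ))) ⁻¹' Ici r)) :=
      mem_nhdsWithin_of_mem_nhds (h1.isClosed.isOpen_compl.mem_nhds h2)
    filter_upwards [h3, self_mem_nhdsWithin] with x hx hx25
    by_contra hn
    obtain ⟨c, hc, ξ, hξ, hG, hM⟩ := hcore x hx25
    refine hx ?_
    simp only [mem_iUnion, mem_image, mem_inter_iff, mem_preimage, mem_Ici, exists_prop]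
    exact ⟨c, hc, ξ, ⟨hξ, by rw [hM]; exact not_lt.1 hn⟩, hG⟩

end

end Pool.Agent.KRFX
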