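import Pool.Agent.Work.MP_a2bf38_gt.X.Sup
import Pool.Agent.Work.MP_a2bf38_gt.X.TouchOf

/-!
# The maximum over the fibres is touched from below
-/

open scoped ContDiff ENNReal ComplexOrder Topology
open Set Filter Pool.Agent.ToricKRF Pool.Agent.ToricKRF.G Pool.Agent.KRFS
  Pool.Agent.KRFF Pool.Agent.KRFG

namespace Pool.Agent.KRFX

section Mod

variable {n m l : ℕ} {M Y Y' W : Type} [TopologicalSpace M] [TopologicalSpace Y]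
  [TopologicalSpace Y'] [TopologicalSpace W] {κ P P' ι : Type} [Finite P'] [Finite ι] {T : ℝ}
  (F : Mod n m l M Y Y' W κ P P' ι T)

/-- the maximum is touched from below -/
theorem Mod.touch : ∃ C ε : ℝ, 0 ≤ C ∧ 0 < ε ∧ ε ≤ 1 ∧ ∀ t ∈ Ico 0 T, ∀ a, ∀ x : Cn m,
    nsq x < 25 → (∀ i, cc x i ≠ 0) → ∀ v : Cn m, ∃ q : ℂ → ℝ, ContDiffAt ℝ 2 q 0 ∧
      q 0 = F.Mx t ((F.z a).symm x) ∧
      (∀ᶠ ζ in 𝓝 (0 : ℂ), q ζ ≤ F.Mx t ((F.z a).symm (line x v ζ))) ∧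
      -(4 * (t / T) * levz (fun x => F.K (F.la a) (F.sg a x)) v x) - 4 * (1 - t / T) * (C *
        ∑ i, (x.1 i ^ 2 + x.2 i ^ 2) ^ (ε - 1) * (v.1 i ^ 2 + v.2 i ^ 2)) ≤ lapC q 0 :=
  F.touch_of fun _ ht _ _ h1 h2 => F.Mx_spec ht h1 h2

end Mod

end Pool.Agent.KRFX
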