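import Pool.Agent.Work.MP_a2bf38_gt.X.BaseOf
import Pool.Agent.Work.MP_a2bf38_gt.X.Touch
import Pool.Agent.Work.MP_a2bf38_gt.X.Sup

/-!
# The function on `Y'`
-/

open scoped ContDiff ENNReal ComplexOrder Topology
open Set Filter Pool.Agent.ToricKRF Pool.Agent.ToricKRF.G Pool.Agent.KRFS
  Pool.Agent.KRFF Pool.Agent.KRFG

namespace Pool.Agent.KRFX

variable {n m l : ℕ} {M Y Y' W : Type} [TopologicalSpace M] [TopologicalSpace Y]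
  [TopologicalSpace Y'] [TopologicalSpace W] {κ P P' ι : Type} [Finite P'] [Finite ι] {T : ℝ}
  (F : Mod n m l M Y Y' W κ P P' ι T)

theorem Mod.base_psh : ∃ C₁ A B C₃ ε d₀ : ℝ, 0 ≤ C₁ ∧ 0 ≤ A ∧ 0 < B ∧ 0 ≤ C₃ ∧ 0 < ε ∧
    0 < d₀ ∧
    (∀ x : Cn m, nsq x ≤ 1 → -A ≤ hB C₁ A ε x) ∧
    (∀ x : Cn m, 9 ≤ nsq x → nsq x ≤ 16 → hB C₁ A ε x < -A) ∧
    ∀ t ∈ Ico 0 T, T - t < d₀ → C₃ * (1 - t / T) ≤ 1 / 2 ∧ ∀ a,
      PshC (fun x => (1 - C₃ * (1 - t / T)) * (F.Mx t ((F.z a).symm x) +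
        (1 - t / T) * (hB C₁ A ε x + B * Real.log (nsq (F.g (F.la a) (F.sg a x))))) +
        t / T * F.K (F.la a) (F.sg a x))
        {x : Cn m | nsq x < 25 ∧ F.g (F.la a) (F.sg a x) ≠ 0} :=
  F.base_psh_of (fun _ ht a => F.Mx_continuousOn ht a) F.touch

end Pool.Agent.KRFX
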