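import Pool.Agent.Work.MP_a2bf38_gt.X.Setup
import Pool.Agent.Work.MP_a2bf38_gt.K.Base
import Pool.Agent.Work.MP_a2bf38_gt.I.NatFlow

/-!
# The function on `Y'`

From the touching functions (`X/Touch.lean`) and the continuity of the maximum (`X/Sup.lean`).
-/

open scoped ContDiff ENNReal ComplexOrder Topology
open Set Filter Pool.Agent.ToricKRF Pool.Agent.ToricKRF.G Pool.Agent.KRFS
  Pool.Agent.KRFF Pool.Agent.KRFG

namespace Pool.Agent.KRFX

variable {n m l : ℕ} {M Y Y' W : Type} [TopologicalSpace M] [TopologicalSpace Y]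
  [TopologicalSpace Y'] [TopologicalSpace W] {κ P P' ι : Type} {T : ℝ}
  (F : Mod n m l M Y Y' W κ P P' ι T)

namespace BaseX

theorem isOpen_ball (r : ℝ) : IsOpen {x : Cn m | nsq x < r} :=
  isOpen_lt BaseP.continuous_nsq continuous_const

theorem sg_mem (a : P') {x : Cn m} (hx : nsq x < 100) :
    F.sg a x ∈ (F.b (F.la a)).source.image (F.b (F.la a)) ∧ nsq (F.sg a x) < 100 := by
  have h1 : x ∈ (F.z a).target := F.modif.target a hx
  have h2 := (F.z a).map_target h1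
  have h3 := F.modif.lb_eq a _ h2
  obtain ⟨h4, h5⟩ := F.modif.mem ((F.z a).symm x)
  rw [h3] at h4 h5
  exact ⟨⟨_, h4, rfl⟩, h5⟩

theorem sg_target (a : P') {x : Cn m} (hx : nsq x < 100) :
    F.sg a x ∈ (F.b (F.la a)).target := by
  obtain ⟨⟨q, hq, hqx⟩, -⟩ := sg_mem F a hx
  rw [← hqx]
  exact (F.b (F.la a)).map_source hq

theorem sg_holOn (a : P') : HolOn (F.sg a) {x | nsq x < 100} := F.modif.holo a

theorem gsg_holOn (a : P') : HolOn (fun x => F.g (F.la a) (F.sg a x)) {x | nsq x < 100} :=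
  NF.holOn_comp (isOpen_ball 100) (F.modif.g_holo (F.la a)) (isOpen_ball 100) (sg_holOn F a)
    fun _ hx => (sg_mem F a hx).2

theorem lower_one (a : P') : ∃ C : ℝ, ∀ x : Cn m, nsq x ≤ 25 → ∀ v,
    nsq v ≤ C * levz (F.K (F.la a)) v (F.sg a x) := by
  have hnn : ∀ x : Cn m, nsq x < 100 → ∀ v, 0 ≤ levz (F.K (F.la a)) v (F.sg a x) := by
    intro x hx v
    by_cases hv : v = 0
    · rw [hv, Gap.levz_zero_dir]
    · exact (F.lim.psh _ _ (sg_target F a hx) v hv).le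
  have key : ∃ C : ℝ, ∀ x ∈ {x : Cn m | nsq x ≤ 25}, nsq x ≤ 25 → ∀ v,
      nsq v ≤ C * levz (F.K (F.la a)) v (F.sg a x) := by
    refine HB.isCompact_nsq25.induction_on (p := fun S : Set (Cn m) => ∃ C : ℝ, ∀ x ∈ S,
      nsq x ≤ 25 → ∀ v, nsq v ≤ C * levz (F.K (F.la a)) v (F.sg a x)) ?_ ?_ ?_ ?_
    · exact ⟨0, fun z hz => absurd hz (notMem_empty _)⟩
    · rintro S S' hSS' ⟨C, h⟩
      exact ⟨C, fun z hz => h z (hSS' hz)⟩
    · rintro S S' ⟨C, h⟩ ⟨C', h'⟩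
      refine ⟨max C C', fun z hz hz25 v => ?_⟩
      have hnn := hnn z (by linarith) v
      rcases hz with hz | hz
      · exact (h z hz hz25 v).trans (mul_le_mul_of_nonneg_right (le_max_left _ _) hnn)
      · exact (h' z hz hz25 v).trans (mul_le_mul_of_nonneg_right (le_max_right _ _) hnn)
    · intro x hx
      have hx' : nsq x < 100 := lt_of_le_of_lt hx (by norm_num)
      have hn : ContDiffOn ℝ ∞ (nsq (n := m)) (F.b (F.la a)).target :=
        Gap.contDiff_nsq'.contDiffOn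
      obtain ⟨C, hC, hev⟩ := Bd.levz_le_local (F.b (F.la a)).open_target hn
        (F.lim.smooth (F.la a)) (sg_target F a hx') (fun y hy u hu => F.lim.psh _ y hy u hu)
      have hc : ContinuousAt (F.sg a) x :=
        (sg_holOn F a).1.continuousOn.continuousAt ((isOpen_ball 100).mem_nhds hx')
      obtain ⟨V, hV, hVs⟩ := (hc.eventually hev).exists_mem
      refine ⟨V, mem_nhdsWithin_of_mem_nhds hV, C, fun z hz _ v => ?_⟩
      have := hVs z hz v
      rwa [Gap.levz_nsq'] at this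
  obtain ⟨C, h⟩ := key
  exact ⟨C, fun y hy => h y hy hy⟩

/-- **uniform positivity of the Kähler form of `Y` at the points of the charts of `Y'`** -/
theorem lower [Finite P'] : ∃ C : ℝ, 0 < C ∧ ∀ a, ∀ x : Cn m, nsq x ≤ 25 → ∀ v,
    nsq v ≤ C * levz (F.K (F.la a)) v (F.sg a x) := by
  refine Gap.exists_finite (Q := fun a C => ∀ x : Cn m, nsq x ≤ 25 → ∀ v,
    nsq v ≤ C * levz (F.K (F.la a)) v (F.sg a x)) (fun a => lower_one F a) ?_
  intro a C C' hCC' h x hx v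
  have hnn : 0 ≤ levz (F.K (F.la a)) v (F.sg a x) := by
    by_cases hv : v = 0
    · rw [hv, Gap.levz_zero_dir]
    · exact (F.lim.psh _ _ (sg_target F a (by linarith)) v hv).le
  exact (h x hx v).trans (mul_le_mul_of_nonneg_right hCC' hnn)

/-- `log |g|^2` -/
noncomputable def Lg (a : P') (x : Cn m) : ℝ := Real.log (nsq (F.g (F.la a) (F.sg a x)))

/-- the domain -/
def Vg (a : P') : Set (Cn m) := {x : Cn m | nsq x < 25 ∧ F.g (F.la a) (F.sg a x) ≠ 0}

theorem isOpen_Vg (a : P') : IsOpen (Vg F a) := by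
  have h1 : ContinuousOn (fun x => F.g (F.la a) (F.sg a x)) {x | nsq x < 25} :=
    (gsg_holOn F a).1.continuousOn.mono fun x (hx : nsq x < 25) => by
      change nsq x < 100
      linarith
  have h2 := h1.isOpen_inter_preimage (isOpen_ball 25) (isOpen_compl_singleton (x := (0 : Cn l)))
  exact h2

theorem Lg_smooth (a : P') : ContDiffOn ℝ ∞ (Lg F a) (Vg F a) := by
  have h1 : ContDiffOn ℝ ∞ (fun x => F.g (F.la a) (F.sg a x)) (Vg F a) :=
    (gsg_holOn F a).1.mono fun x hx => by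
      have := hx.1
      change nsq x < 100
      linarith
  have h2 : ContDiffOn ℝ ∞ (fun x => nsq (F.g (F.la a) (F.sg a x))) (Vg F a) :=
    Gap.contDiff_nsq'.comp_contDiffOn h1
  exact h2.log fun x hx => (Gap.nsq_pos hx.2).ne'

theorem Ksg_smooth (a : P') : ContDiffOn ℝ ∞ (fun x => F.K (F.la a) (F.sg a x))
    {x | nsq x < 100} :=
  (F.lim.smooth (F.la a)).comp (sg_holOn F a).1 fun _ hx => sg_target F a hx

theorem pos_of : ∃ A : ℝ, 0 < A ∧ ∀ a, ∀ x, nsq x < 100 →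
    F.g (F.la a) (sgm F.b F.z F.σ F.la a x) ≠ 0 → ∀ v, nsq v ≤
      A * (levz (fun x => Real.log (nsq (F.g (F.la a) (sgm F.b F.z F.σ F.la a x)))) v x +
      nsq (fderiv ℝ (sgm F.b F.z F.σ F.la a) x v)) := by
  obtain ⟨A, hA, h⟩ := F.modif.pos
  rcases hA.lt_or_eq with hA | hA
  · exact ⟨A, hA, h⟩
  · refine ⟨1, one_pos, fun a x hx hg v => ?_⟩
    have h1 := h a x hx hg v
    rw [← hA, zero_mul] at h1
    have hv : v = 0 := by
      by_contra hv
      exact absurd (Gap.nsq_pos hv) (not_lt.2 h1)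
    have h0 : nsq (0 : Cn m) = 0 := by simp [nsq]
    rw [hv, Gap.levz_zero_dir, map_zero, h0]
    simp

end BaseX

open BaseX

/-- the proof, from the touching functions -/
theorem Mod.base_psh_of [Finite P'] (hcont : ∀ t ∈ Ico 0 T, ∀ a,
      ContinuousOn (fun x => F.Mx t ((F.z a).symm x)) {x : Cn m | nsq x < 25})
    (htouch : ∃ C ε : ℝ, 0 ≤ C ∧ 0 < ε ∧ ε ≤ 1 ∧ ∀ t ∈ Ico 0 T, ∀ a, ∀ x : Cn m,
      nsq x < 25 → (∀ i, cc x i ≠ 0) → ∀ v : Cn m, ∃ q : ℂ → ℝ, ContDiffAt ℝ 2 q 0 ∧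
      q 0 = F.Mx t ((F.z a).symm x) ∧
      (∀ᶠ ζ in 𝓝 (0 : ℂ), q ζ ≤ F.Mx t ((F.z a).symm (line x v ζ))) ∧
      -(4 * (t / T) * levz (fun x => F.K (F.la a) (F.sg a x)) v x) - 4 * (1 - t / T) * (C *
        ∑ i, (x.1 i ^ 2 + x.2 i ^ 2) ^ (ε - 1) * (v.1 i ^ 2 + v.2 i ^ 2)) ≤ lapC q 0) :
    ∃ C₁ A B C₃ ε d₀ : ℝ, 0 ≤ C₁ ∧ 0 ≤ A ∧ 0 < B ∧ 0 ≤ C₃ ∧ 0 < ε ∧ 0 < d₀ ∧
    (∀ x : Cn m, nsq x ≤ 1 → -A ≤ hB C₁ A ε x) ∧
    (∀ x : Cn m, 9 ≤ nsq x → nsq x ≤ 16 → hB C₁ A ε x < -A) ∧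
    ∀ t ∈ Ico 0 T, T - t < d₀ → C₃ * (1 - t / T) ≤ 1 / 2 ∧ ∀ a,
      PshC (fun x => (1 - C₃ * (1 - t / T)) * (F.Mx t ((F.z a).symm x) +
        (1 - t / T) * (hB C₁ A ε x + B * Real.log (nsq (F.g (F.la a) (F.sg a x))))) +
        t / T * F.K (F.la a) (F.sg a x))
        {x : Cn m | nsq x < 25 ∧ F.g (F.la a) (F.sg a x) ≠ 0} := by
  obtain ⟨C, ε, hC, hε, hε1, htouch⟩ := htouch
  obtain ⟨c₀, hc₀, hcomp⟩ : ∃ c : ℝ, 0 < c ∧ ∀ a, ∀ x : Cn m, nsq x ≤ 25 →
      ∀ v, c * nsq v ≤ levz (F.K (F.la a)) v (F.sg a x) := by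
    obtain ⟨C', hC', h⟩ := lower F
    refine ⟨1 / C', by positivity, fun a x hx v => ?_⟩
    rw [one_div_mul_eq_div, div_le_iff₀ hC', mul_comm]
    exact h a x hx v
  obtain ⟨A', hA', hpos⟩ := pos_of F
  have hC₁ : 0 ≤ C / ε ^ 2 := by positivity
  obtain ⟨A, hA, hA1, hA2⟩ : ∃ A : ℝ, 0 < A ∧
      (∀ y : Cn m, nsq y ≤ 1 → -A ≤ hB (C / ε ^ 2) A ε y) ∧
      (∀ y : Cn m, 9 ≤ nsq y → nsq y ≤ 16 → hB (C / ε ^ 2) A ε y < -A) := by
    have h0 : 0 ≤ 2 * (m : ℝ) * (C / ε ^ 2) := by positivity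
    refine ⟨2 * (m : ℝ) * (C / ε ^ 2) + 1, by linarith, fun y hy => ?_, fun y h9 h16 => ?_⟩
    · exact HB.hB_lower hC₁ (by linarith) hy
    · exact HB.hB_upper hε hε1 hC₁ (by linarith) h9 h16
  have hC₁ε : C / ε ^ 2 * ε ^ 2 = C := by field_simp
  obtain ⟨B, hBe⟩ : ∃ B : ℝ, B = A * A' := ⟨_, rfl⟩
  have hB0 : 0 < B := by rw [hBe]; positivity
  have hC₃ : 0 ≤ 2 * B / c₀ := by positivity
  have hC₃A : 2 * B / c₀ * c₀ = 2 * B := by field_simp
  generalize hC₃' : 2 * B / c₀ = C₃ at hC₃ hC₃A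
  -- the constant `d₀`
  obtain ⟨d₀, hd₀, hd⟩ : ∃ d₀ : ℝ, 0 < d₀ ∧ ∀ t ∈ Ico 0 T, T - t < d₀ →
      1 / 2 ≤ t / T ∧ 0 ≤ 1 - t / T ∧ C₃ * (1 - t / T) ≤ 1 / 2 := by
    rcases le_or_gt T 0 with hT | hT
    · exact ⟨1, one_pos, fun t ht _ => absurd (ht.1.trans_lt ht.2) (not_lt.2 hT)⟩
    · refine ⟨T / (2 * (C₃ + 1)), by positivity, fun t ht hlt => ?_⟩
      have h1 : 1 - t / T = (T - t) / T := by field_simp
      have h0 : 0 < T - t := by linarith [ht.2]
      have h2 : (T - t) / T < 1 / (2 * (C₃ + 1)) := by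
        rw [div_lt_div_iff₀ hT (by positivity)]
        rw [lt_div_iff₀ (by positivity)] at hlt
        linarith
      have h3 : (1 : ℝ) / (2 * (C₃ + 1)) ≤ 1 / 2 := by
        apply one_div_le_one_div_of_le <;> linarith
      have h4 : 0 ≤ (T - t) / T := by positivity
      refine ⟨by linarith [h1 ▸ h2.trans_le h3], h1 ▸ h4, ?_⟩
      rw [h1]
      calc C₃ * ((T - t) / T) ≤ C₃ * (1 / (2 * (C₃ + 1))) :=
            mul_le_mul_of_nonneg_left h2.le hC₃
        _ ≤ 1 / 2 := by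
            rw [mul_one_div, div_le_div_iff₀ (by positivity) (by norm_num)]
            linarith
  refine ⟨C / ε ^ 2, A, B, C₃, ε, d₀, hC₁, hA.le, hB0, hC₃, hε, hd₀, hA1, hA2,
    fun t ht hlt => ?_⟩
  obtain ⟨hs, hδ, hk⟩ := hd t ht hlt
  refine ⟨hk, fun a => ?_⟩
  have hV25 : Vg F a ⊆ {x : Cn m | nsq x < 25} := fun x hx => hx.1
  have hV100 : Vg F a ⊆ {x : Cn m | nsq x < 100} := fun x hx => by
    have := hx.1
    change nsq x < 100
    linarith
  have hBc : Continuous (hB (m := m) (C / ε ^ 2) A ε) := HB.continuous_hB hε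
  have hL := Lg_smooth F a
  have hKs := (Ksg_smooth F a).mono hV100
  change PshC (fun x => (1 - C₃ * (1 - t / T)) * (F.Mx t ((F.z a).symm x) +
        (1 - t / T) * (hB (C / ε ^ 2) A ε x + B * Lg F a x)) +
        t / T * F.K (F.la a) (F.sg a x)) (Vg F a)
  refine pshC_of_touch (isOpen_Vg F a) ?_ ?_
  · have h1 := (hcont t ht a).mono hV25
    exact (continuousOn_const.mul (h1.add (continuousOn_const.mul
      (hBc.continuousOn.add (continuousOn_const.mul hL.continuousOn))))).add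
      (continuousOn_const.mul hKs.continuousOn)
  · intro z hz hz0 v
    obtain ⟨q, hq, hq0, hqle, hlap⟩ := htouch t ht a z (hV25 hz) hz0 v
    obtain ⟨hh, hhl⟩ := HB.hB_line (C / ε ^ 2) A ε (y := z) (v := v) hz0
    have hLl := BaseP.contDiffAt_line (isOpen_Vg F a) hL hz v
    have hKl := BaseP.contDiffAt_line (isOpen_Vg F a) hKs hz v
    have hBL : ContDiffAt ℝ 2 (fun ζ => B * Lg F a (line z v ζ)) 0 := contDiffAt_const.mul hLl
    have hin : ContDiffAt ℝ 2 (fun ζ => hB (C / ε ^ 2) A ε (line z v ζ) +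
        B * Lg F a (line z v ζ)) 0 := hh.add hBL
    have hδh : ContDiffAt ℝ 2 (fun ζ => (1 - t / T) * (hB (C / ε ^ 2) A ε (line z v ζ) +
        B * Lg F a (line z v ζ))) 0 := contDiffAt_const.mul hin
    have hqh : ContDiffAt ℝ 2 (fun ζ => q ζ + (1 - t / T) * (hB (C / ε ^ 2) A ε (line z v ζ) +
        B * Lg F a (line z v ζ))) 0 := hq.add hδh
    have hkqh : ContDiffAt ℝ 2 (fun ζ => (1 - C₃ * (1 - t / T)) *
        (q ζ + (1 - t / T) * (hB (C / ε ^ 2) A ε (line z v ζ) +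
        B * Lg F a (line z v ζ)))) 0 := contDiffAt_const.mul hqh
    have hsK : ContDiffAt ℝ 2 (fun ζ => t / T * F.K (F.la a) (F.sg a (line z v ζ))) 0 :=
      contDiffAt_const.mul hKl
    refine ⟨fun ζ => (1 - C₃ * (1 - t / T)) *
        (q ζ + (1 - t / T) * (hB (C / ε ^ 2) A ε (line z v ζ) + B * Lg F a (line z v ζ))) +
        t / T * F.K (F.la a) (F.sg a (line z v ζ)),
      hkqh.add hsK, ?_, ?_, ?_⟩
    · simp only [line_zero, hq0]
    · filter_upwards [hqle] with ζ hζ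
      have h1 : 0 ≤ 1 - C₃ * (1 - t / T) := by linarith
      have h2 := mul_le_mul_of_nonneg_left
        (add_le_add_left hζ ((1 - t / T) * (hB (C / ε ^ 2) A ε (line z v ζ) +
          B * Lg F a (line z v ζ)))) h1
      linarith
    · have e1 := BaseP.lapC_line' (isOpen_Vg F a) hL hz v
      have e2 := BaseP.lapC_line' (isOpen_Vg F a) hKs hz v
      rw [HB.lapC_add hkqh hsK, HB.lapC_const_mul _ hqh, HB.lapC_add hq hδh,
        HB.lapC_const_mul _ hin, HB.lapC_add hh hBL, HB.lapC_const_mul _ hLl,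
        HB.lapC_const_mul _ hKl, e1, e2, hhl]
      have e : 4 * (C / ε ^ 2) * ε ^ 2 = 4 * C := by rw [mul_assoc, hC₁ε]
      rw [e]
      have hz100 : nsq z < 100 := hV100 hz
      set w : Cn m := fderiv ℝ (F.sg a) z v with hw
      have hLK : levz (fun x => F.K (F.la a) (F.sg a x)) v z =
          levz (F.K (F.la a)) w (F.sg a z) :=
        levz_comp (F.b (F.la a)).open_target (F.lim.smooth (F.la a)) (isOpen_ball 100)
          (sg_holOn F a) hz100 (sg_target F a hz100) v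
      have hnw : 0 ≤ nsq w := BaseP.nsq_nonneg w
      have hk0 : 0 ≤ 1 - C₃ * (1 - t / T) := by linarith
      have hlow := hcomp a z hz.1.le w
      rw [← hLK] at hlow
      have hp : nsq v ≤ A' * (levz (Lg F a) v z + nsq w) := hpos a z hz100 hz.2 v
      have hm : A * nsq v ≤ B * levz (Lg F a) v z + B * nsq w := by
        have := mul_le_mul_of_nonneg_left hp hA.le
        rw [hBe]
        linarith
      have halg := BaseP.alg (k := 1 - C₃ * (1 - t / T)) (s := t / T) (δ := 1 - t / T)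
        (C₃ := C₃) (c₀ := c₀) (A := B) (L := levz (fun x => F.K (F.la a) (F.sg a x)) v z)
        (nv := nsq w) (C := C)
        (Q := ∑ i, (z.1 i ^ 2 + z.2 i ^ 2) ^ (ε - 1) * (v.1 i ^ 2 + v.2 i ^ 2))
        (lq := lapC q 0) hs hδ rfl hk0 (by nlinarith [mul_nonneg hC₃ hδ]) hC₃ hB0.le hC₃A
        hlow hnw hlap
      refine halg.trans (add_le_add_left (mul_le_mul_of_nonneg_left
        (add_le_add_right (mul_le_mul_of_nonneg_left ?_ hδ) _) hk0) _)
      linarith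

end Pool.Agent.KRFX
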