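import Pool.Agent.Work.MP_a2bf38_gt.X.Setup
import Pool.Agent.Work.MP_a2bf38_gt.K.Fib

/-!
# `φ` along the fibres, in the charts of `W`
-/

open scoped ContDiff ENNReal ComplexOrder Topology
open Set Filter Pool.Agent.ToricKRF Pool.Agent.ToricKRF.G Pool.Agent.KRFS Pool.Agent.KRFF
  Pool.Agent.KRFG

namespace Pool.Agent.KRFX

section

variable {n m l : ℕ} {M Y Y' W : Type} [TopologicalSpace M] [TopologicalSpace Y]
  [TopologicalSpace Y'] [TopologicalSpace W] {κ P P' ι : Type} {T : ℝ}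
  (F : Mod n m l M Y Y' W κ P P' ι T)

/-- the fibre of `W` in a chart: `h` and `σ ∘ h` in terms of the products of coordinates -/
theorem Mod.base_chart (c : ι) {x : Cn n} (hx : x ∈ opd 10) :
    F.h ((F.a c).symm x) ∈ (F.z (F.pc c)).source ∧
    F.z (F.pc c) (F.h ((F.a c).symm x)) =
      (ofC fun i => ((F.s c i : ℂ) * prow (F.row c) i x) ^ F.N (F.pc c) i) ∧
    F.σ (F.h ((F.a c).symm x)) = F.f (F.π ((F.a c).symm x)) ∧
    F.f (F.π ((F.a c).symm x)) ∈ (F.b (F.la (F.pc c))).source := by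
  have hx' : x ∈ (F.a c).target := by rw [F.model.target c]; exact hx
  have hw := (F.a c).map_target hx'
  have h1 := F.model.base ((F.a c).symm x)
  rw [F.model.lab_eq c _ hw] at h1
  have h2 : cc (F.z (F.pc c) (F.h ((F.a c).symm x))) =
      fun i => ((F.s c i : ℂ) * prow (F.row c) i x) ^ F.N (F.pc c) i := by
    funext i
    rw [h1.2 i, F.model.mono c _ hw i, (F.a c).right_inv hx']
  have h3 := F.modif.mem (F.h ((F.a c).symm x))
  rw [F.modif.lb_eq (F.pc c) _ h1.1, F.model.comm] at h3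
  exact ⟨h1.1, by rw [← h2, Sup.ofC_cc], F.model.comm _, h3.1⟩

/-- `π` in the charts `a c` and `e (al c)` -/
noncomputable def Mod.piC (c : ι) (x : Cn n) : Cn n := F.e (F.al c) (F.π ((F.a c).symm x))

theorem Mod.mem_src (c : ι) {x : Cn n} (hx : x ∈ opd 10) :
    F.π ((F.a c).symm x) ∈ (F.e (F.al c)).source :=
  F.model.mem c _ ((F.a c).map_target (by rw [F.model.target c]; exact hx))

theorem Mod.piC_mem (c : ι) {x : Cn n} (hx : x ∈ opd 10) : F.piC c x ∈ (F.e (F.al c)).target :=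
  (F.e (F.al c)).map_source (F.mem_src c hx)

theorem Mod.symm_piC (c : ι) {x : Cn n} (hx : x ∈ opd 10) :
    (F.e (F.al c)).symm (F.piC c x) = F.π ((F.a c).symm x) :=
  (F.e (F.al c)).left_inv (F.mem_src c hx)

theorem Mod.piC_hol (c : ι) : HolOn (F.piC c) (opd 10) := F.model.holo c

theorem Mod.Phi_piC {t : ℝ} (ht : t ∈ Ico 0 T) (c : ι) {x : Cn n} (hx : x ∈ opd 10) :
    F.Phi t (F.π ((F.a c).symm x)) = F.phi (F.al c) (t, F.piC c x) :=
  F.Phi_eq ht (F.mem_src c hx)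

theorem Mod.phi_slice (c : κ) {t : ℝ} (ht : t ∈ Ico 0 T) :
    ContDiffOn ℝ ∞ (fun z => F.phi c (t, z)) (F.e c).target := by
  obtain ⟨U, hU, hsub, hs⟩ := F.phi_isFun.smooth c
  exact hs.comp (contDiff_const.prodMk contDiff_id).contDiffOn fun z hz => hsub ⟨ht, hz⟩

theorem Mod.smooth_W' {t : ℝ} (ht : t ∈ Ico 0 T) (c : ι) :
    ContDiffOn ℝ ∞ (fun x => F.phi (F.al c) (t, F.piC c x)) (opd 10) :=
  (F.phi_slice (F.al c) ht).comp (F.piC_hol c).1 fun _ hx => F.piC_mem c hx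

theorem Mod.smooth_W {t : ℝ} (ht : t ∈ Ico 0 T) (c : ι) :
    ContDiffOn ℝ ∞ (fun x => F.Phi t (F.π ((F.a c).symm x))) (opd 10) :=
  (F.smooth_W' ht c).congr fun _ hx => F.Phi_piC ht c hx

/-- the pull-back of `ω(0)` to `W` is bounded in the charts -/
theorem Mod.pull_le (hT : 0 < T) (c : ι) : ∃ C : ℝ, 0 ≤ C ∧ ∀ x ∈ cpd (k := n) 9, ∀ v,
    lev (F.ψ (F.al c)) (fderiv ℝ (F.piC c) x v) (0, F.piC c x) ≤ C * nsq v := by
  have h0 : (0 : ℝ) ∈ Ico 0 T := ⟨le_rfl, hT⟩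
  obtain ⟨U, hU, hsub, hs⟩ := F.krf.smooth (F.al c)
  have hsl : ContDiffOn ℝ ∞ (fun z => F.ψ (F.al c) (0, z)) (F.e (F.al c)).target :=
    hs.comp (contDiff_const.prodMk contDiff_id).contDiffOn fun z hz => hsub ⟨h0, hz⟩
  have hcomp : ContDiffOn ℝ ∞ (fun x => F.ψ (F.al c) (0, F.piC c x)) (opd 10) :=
    hsl.comp (F.piC_hol c).1 fun _ hx => F.piC_mem c hx
  have h9 : (cpd 9 : Set (Cn n)) ⊆ opd 10 := cpd_subset_opd (by norm_num) (by norm_num)
  obtain ⟨C, hC, h⟩ := quad_le (isCompact_cpd (k := n) 9)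
    (fun x v => levz (fun x => F.ψ (F.al c) (0, F.piC c x)) v x) (fun _ v => nsq v)
    ((levz_continuousOn (isOpen_opd 10) hcomp).mono (prod_mono h9 le_rfl))
    ((Fb.contDiff_nsq.continuous.comp continuous_snd).continuousOn)
    (fun x hx r v => Bd.levz_smul (isOpen_opd 10) hcomp (h9 hx) r v)
    (fun x _ r v => by
      simp only [nsq, Prod.smul_fst, Prod.smul_snd, dotProduct_smul, smul_dotProduct, smul_eq_mul]
      ring)
    (fun x _ v hv => Fb.nsq_pos hv)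
  refine ⟨C, hC, fun x hx v => ?_⟩
  have h1 := h x hx v
  have h2 := levz_comp (F.e (F.al c)).open_target hsl (isOpen_opd 10) (F.piC_hol c) (h9 hx)
    (F.piC_mem c (h9 hx)) v
  have h3 : levz (fun z => F.ψ (F.al c) (0, z)) (fderiv ℝ (F.piC c) x v) (F.piC c x) =
      lev (F.ψ (F.al c)) (fderiv ℝ (F.piC c) x v) (0, F.piC c x) :=
    levz_slice hU hs (hsub ⟨h0, F.piC_mem c (h9 hx)⟩) _
  rw [← h3, ← h2]
  exact h1

theorem Mod.fib_psh [Fintype ι] : ∃ C : ℝ, 0 ≤ C ∧ ∀ t ∈ Ico 0 T, ∀ c, ∀ q ∈ opd (k := n) 9,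
    ∀ M₀ : ℝ,
    ∀ piv : Fin m → Fin n, (∀ i, F.row c (piv i) = some i) → ∀ w,
    Em (F.row c) piv q w ∈ opd 9 → ∀ u,
    0 ≤ levz (fun w => F.Phi t (F.π ((F.a c).symm (Em (F.row c) piv q w))) - M₀ +
      C * (1 - t / T) * (nsq (Em (F.row c) piv q w) - 81 * n)) u w := by
  by_cases hT : 0 < T
  swap
  · exact ⟨0, le_rfl, fun t ht => absurd (lt_of_le_of_lt ht.1 ht.2) hT⟩
  choose C' hC' h' using F.pull_le hT
  obtain ⟨B, hB⟩ := (Set.finite_range C').bddAbove
  set C : ℝ := max B 0 with hCdef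
  refine ⟨C, le_max_right _ _, fun t ht c q hq M₀ piv hpiv w hw u => ?_⟩
  have hC0 : 0 ≤ C := le_max_right _ _
  set E : Cn n → Cn n := Em (F.row c) piv q with hE
  have hEh : HolOn E univ := Fb.Em_holOn' q
  have hEc : Continuous E := (continuousOn_univ.1 hEh.1.continuousOn)
  set S : Set (Cn n) := E ⁻¹' opd 9 with hS
  have hSo : IsOpen S := (isOpen_opd 9).preimage hEc
  have hwS : w ∈ S := hw
  have h910 : (opd 9 : Set (Cn n)) ⊆ opd 10 := NT.opd_mono (by norm_num) (by norm_num)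
  have hES : HolOn E S := NT.hol_mono hEh (subset_univ _)
  have hH : HolOn (fun w => F.piC c (E w)) S :=
    NT.hol_comp hSo (isOpen_opd 10) (F.piC_hol c) hES fun x hx => h910 hx
  have hzt : F.piC c (E w) ∈ (F.e (F.al c)).target := F.piC_mem c (h910 hw)
  set z : Cn n := F.piC c (E w) with hz
  set V : Cn n := fderiv ℝ E w u with hV
  set X : Cn n := fderiv ℝ (F.piC c) (E w) V with hX
  have hXeq : fderiv ℝ (fun w => F.piC c (E w)) w u = X :=
    NT.fderiv_hol_comp hSo (isOpen_opd 10) (F.piC_hol c) hES hwS (h910 hw) u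
  -- the function near `w`
  have hev : (fun w => F.Phi t (F.π ((F.a c).symm (E w))) - M₀ +
      C * (1 - t / T) * (nsq (E w) - 81 * n)) =ᶠ[𝓝 w]
      fun w => F.phi (F.al c) (t, F.piC c (E w)) + (-M₀ - C * (1 - t / T) * (81 * n) +
        C * (1 - t / T) * nsq (E w)) := by
    filter_upwards [hSo.mem_nhds hwS] with x hx
    rw [F.Phi_piC ht c (h910 hx)]
    ring
  have hphi : ContDiffOn ℝ ∞ (fun w => F.phi (F.al c) (t, F.piC c (E w))) S :=
    (F.phi_slice (F.al c) ht).comp hH.1 fun x hx => F.piC_mem c (h910 hx)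
  have hnsq : ContDiff ℝ ∞ (nsq : Cn n → ℝ) := Fb.contDiff_nsq
  have hnE : ContDiffOn ℝ ∞ (fun w => nsq (E w)) S := hnsq.comp_contDiffOn hES.1
  have d1 : ContDiffAt ℝ 2 (fun w => F.phi (F.al c) (t, F.piC c (E w))) w :=
    (hphi.contDiffAt (hSo.mem_nhds hwS)).of_le two_le_infty
  have d2 : ContDiffAt ℝ 2 (fun w => nsq (E w)) w :=
    (hnE.contDiffAt (hSo.mem_nhds hwS)).of_le two_le_infty
  have d3 : ContDiffAt ℝ 2 (fun w => C * (1 - t / T) * nsq (E w)) w := contDiffAt_const.mul d2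
  have d4 : ContDiffAt ℝ 2 (fun _ : Cn n => -M₀ - C * (1 - t / T) * (81 * n)) w :=
    contDiffAt_const
  have hconst : levz (fun _ : Cn n => -M₀ - C * (1 - t / T) * (81 * n)) u w = 0 :=
    Fb.levz_const _ _ _
  have e1 : levz (fun w => F.Phi t (F.π ((F.a c).symm (E w))) - M₀ +
      C * (1 - t / T) * (nsq (E w) - 81 * n)) u w =
      levz (fun w => F.phi (F.al c) (t, F.piC c (E w))) u w +
        C * (1 - t / T) * levz (fun w => nsq (E w)) u w := by
    rw [Fb.levz_congr hev, Bd.levz_add d1 (d4.add d3), Bd.levz_add d4 d3, hconst,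
      Bd.levz_const_mul _ d2]
    ring
  -- the Levi form of `φ`
  obtain ⟨U, hU, hsub, hs⟩ := F.phi_isFun.smooth (F.al c)
  have e2 : levz (fun w => F.phi (F.al c) (t, F.piC c (E w))) u w =
      lev (F.phi (F.al c)) X (t, z) := by
    have h1 := levz_comp (F.e (F.al c)).open_target (F.phi_slice (F.al c) ht) hSo hH hwS hzt u
    rw [h1, hXeq]
    exact levz_slice hU hs (hsub ⟨ht, hzt⟩) X
  have e3 : levz (fun w => nsq (E w)) u w = nsq V := by
    rw [levz_comp isOpen_univ hnsq.contDiffOn hSo hES hwS (mem_univ _) u, Gap.levz_nsq']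
  -- `θ` vanishes along the fibre
  obtain ⟨-, -, -, hsrc⟩ := F.base_chart c (h910 hw)
  have hθ : levz (F.Θ (F.al c)) X z = 0 := by
    have h1 := F.theta (F.al c) z hzt X
    rw [← h1]
    have h2 : (F.e (F.al c)).symm z = F.π ((F.a c).symm (E w)) := F.symm_piC c (h910 hw)
    have h3 : F.f ((F.e (F.al c)).symm z) ∈ (F.b (F.la (F.pc c))).source := by
      rw [h2]
      exact hsrc
    rw [F.lim.eq (F.al c) (F.la (F.pc c)) z hzt h3 X]
    set S' : Set (Cn n) := {z | z ∈ (F.e (F.al c)).target ∧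
      F.f ((F.e (F.al c)).symm z) ∈ (F.b (F.la (F.pc c))).source} with hS'
    have hS'o : IsOpen S' := by
      have h4 : ContinuousOn (fun z => F.f ((F.e (F.al c)).symm z)) (F.e (F.al c)).target :=
        F.hol.cont.comp_continuousOn (F.e (F.al c)).continuousOn_symm
      exact h4.isOpen_inter_preimage (F.e (F.al c)).open_target (F.b (F.la (F.pc c))).open_source
    have hK : ContDiffOn ℝ ∞ (fun z => F.K (F.la (F.pc c)) (F.b (F.la (F.pc c)) (F.f ((F.e (F.al c)).symm z))))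
        S' :=
      (F.lim.smooth (F.la (F.pc c))).comp (F.hol.holo (F.al c) (F.la (F.pc c))).1
        fun x hx => (F.b (F.la (F.pc c))).map_source hx.2
    have h5 := levz_comp hS'o hK hSo hH hwS ⟨hzt, h3⟩ u
    rw [hXeq] at h5
    rw [← h5]
    have h6 : (fun x => F.K (F.la (F.pc c)) (F.b (F.la (F.pc c)) (F.f ((F.e (F.al c)).symm (F.piC c (E x))))))
        =ᶠ[𝓝 w] fun _ => F.K (F.la (F.pc c)) (F.b (F.la (F.pc c)) (F.σ ((F.z (F.pc c)).symm
          (ofC fun i => ((F.s c i : ℂ) * prow (F.row c) i q) ^ F.N (F.pc c) i)))) := by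
      filter_upwards [hSo.mem_nhds hwS] with x hx
      obtain ⟨b1, b2, b3, -⟩ := F.base_chart c (h910 hx)
      have b4 : F.h ((F.a c).symm (E x)) = (F.z (F.pc c)).symm
          (ofC fun i => ((F.s c i : ℂ) * prow (F.row c) i q) ^ F.N (F.pc c) i) := by
        rw [← (F.z (F.pc c)).left_inv b1, b2]
        congr 2
        funext i
        rw [hE, Fb.prow_Em' hpiv]
      rw [F.symm_piC c (h910 hx), ← b3, b4]
    rw [Fb.levz_congr h6]
    exact Fb.levz_const _ _ _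
  have hE9 : E w ∈ cpd (k := n) 9 := fun i => (hw i).le
  have h7 := h' c (E w) hE9 V
  have h8 : lev (F.ψ (F.al c)) X (0, z) ≤ C * nsq V := by
    exact h7.trans (mul_le_mul_of_nonneg_right ((hB ⟨c, rfl⟩).trans (le_max_left _ _))
      (Fb.nsq_nonneg V))
  have h9 : 0 ≤ lev (F.ψ (F.al c)) X (t, z) := Fb.lev_nonneg F.toFlow ht hzt X
  have h10 : 0 ≤ 1 - t / T := by
    rw [sub_nonneg, div_le_one hT]
    exact ht.2.le
  rw [e1, e2, e3, F.lev_phi ht hzt, hθ]
  have h11 := mul_le_mul_of_nonneg_left h8 h10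
  nlinarith

end

end Pool.Agent.KRFX
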