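import Pool.Agent.Work.MP_a2bf38_gt.X.ChainOf
import Pool.Agent.Work.MP_a2bf38_gt.X.Fib
import Pool.Agent.Work.MP_a2bf38_gt.X.Sup
import Pool.Agent.Work.MP_a2bf38_gt.X.Overlap
import Pool.Agent.Work.MP_a2bf38_gt.K.Chain

/-!
# The integral of the gap along the fibres of `W → Y'` (helper20)
-/

open scoped ContDiff ENNReal ComplexOrder Topology
open Set MeasureTheory Filter Pool.Agent.ToricKRF Pool.Agent.ToricKRF.G Pool.Agent.KRFS
  Pool.Agent.KRFF Pool.Agent.KRFG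

namespace Pool.Agent.KRFX

variable {n m l : ℕ} {M Y Y' W : Type} [TopologicalSpace M] [CompactSpace M] [T2Space M]
  [TopologicalSpace Y] [T2Space Y] [TopologicalSpace Y'] [T2Space Y'] [TopologicalSpace W]
  [T2Space W] {κ P P' ι : Type} [Finite P] [Finite P'] [Fintype ι] {T : ℝ}
  (F : Mod n m l M Y Y' W κ P P' ι T)

/-- **the integral of the gap along the fibres** -/
theorem Mod.chain : ∃ (C r : ℝ) (B : ℕ), 1 ≤ C ∧ 0 < r ∧ r ≤ 1 ∧ ∀ t ∈ Ico 0 T, ∀ c,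
    ∀ piv : Fin m → Fin n, (∀ i, F.row c (piv i) = some i) →
    ∀ q ∈ cpd (k := n) (3 / 2), (∀ i, prow (F.row c) i q ≠ 0) → nsq (F.zc c q) ≤ 20 →
    (∀ w ∈ cpd (k := n) r, Em (F.row c) piv q w ∈ opd 9) ∧
    ∫ w in cpd (k := n) r, -F.gc t c (Em (F.row c) piv q w) ≤
      C * (T - t) * (1 + ∑ i, |Real.log ‖prow (F.row c) i q‖|) ^ B :=
  F.chain_of (fun _ _ h q w i => Fb.prow_Em' h q w i) (fun _ _ => Chn.Em_continuous')
    (fun row piv => Chn.Em_close' row piv) (fun row _ h => propagate row h)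
    (fun _ ht _ hy => by
      obtain ⟨a, ha, ha'⟩ := hy
      obtain ⟨⟨w, -, hw⟩, h2⟩ := F.Mx_spec ht ha ha'
      exact ⟨⟨w, hw⟩, h2⟩) F.fib_psh (fun _ ht c => F.smooth_W ht c) F.overlap

end Pool.Agent.KRFX
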