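import Pool.Agent.Work.MP_a2bf38_gt.X.Sup
import Pool.Agent.Work.MP_a2bf38_gt.X.Fib
import Pool.Agent.Work.MP_a2bf38_gt.X.Chain
import Pool.Agent.Work.MP_a2bf38_gt.K.Decay

/-!
# The set of the points of the total space where `φ` is small has small measure

(after `K/DecayB.lean` and `K/Decay.lean` of helper52)
-/

open scoped ContDiff ENNReal ComplexOrder Topology NNReal Pointwise
open Set MeasureTheory Filter Pool.Agent.ToricKRF Pool.Agent.ToricKRF.G Pool.Agent.KRFS
  Pool.Agent.KRFF Pool.Agent.KRFG Pool.Agent.KRFG.Decay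

namespace Pool.Agent.KRFX

namespace Decay

variable {n m l : ℕ} {M Y Y' W : Type} [TopologicalSpace M] [CompactSpace M] [T2Space M]
  [TopologicalSpace Y] [T2Space Y] [TopologicalSpace Y'] [T2Space Y'] [TopologicalSpace W]
  [T2Space W] {κ P P' ι : Type} [Finite P] [Finite P'] [Fintype ι] {T : ℝ}
  (F : Mod n m l M Y Y' W κ P P' ι T)

include F in
omit [CompactSpace M] [T2Space M] [T2Space Y] [T2Space Y'] [T2Space W] [Finite P] [Finite P']
  [Fintype ι] in
theorem mem_source {c : ι} {x : Cn n} (hx : x ∈ opd (k := n) 10) :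
    (F.a c).symm x ∈ (F.a c).source :=
  (F.a c).map_target (by rw [F.model.target c]; exact hx)

theorem mem_base {c : ι} {x : Cn n} (hx : x ∈ opd (k := n) 10) :
    F.h ((F.a c).symm x) ∈ (F.z (F.pc c)).source := by
  have h := (F.model.base ((F.a c).symm x)).1
  rwa [F.model.lab_eq c _ (mem_source F hx)] at h

/-- the coordinates of the base point are monomials -/
theorem cc_zc {c : ι} {x : Cn n} (hx : x ∈ opd (k := n) 10) (i : Fin m) :
    cc (F.zc c x) i = (F.s c i * prow (F.row c) i x) ^ F.N (F.pc c) i := by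
  have h1 := (F.model.base ((F.a c).symm x)).2 i
  rw [F.model.lab_eq c _ (mem_source F hx)] at h1
  unfold Mod.zc
  rw [h1, F.model.mono c _ (mem_source F hx) i, (F.a c).right_inv (by
    rw [F.model.target c]
    exact hx)]

theorem cont_zc (c : ι) : ContinuousOn (F.zc c) (opd (k := n) 10) := by
  have hcc : ∀ l, Continuous fun x : Cn n => cc x l := fun l => Prp.continuous_cc l
  have hpr : ∀ i, Continuous fun x : Cn n => prow (F.row c) i x := fun i => by
    unfold prow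
    refine continuous_finsetProd _ fun l _ => ?_
    split_ifs
    · exact hcc l
    · exact continuous_const
  have h : Continuous fun x : Cn n =>
      ofC (fun i => ((F.s c i : ℂ) * prow (F.row c) i x) ^ F.N (F.pc c) i) := by
    have h1 : ∀ i, Continuous fun x : Cn n =>
        ((F.s c i : ℂ) * prow (F.row c) i x) ^ F.N (F.pc c) i := fun i =>
      (continuous_const.mul (hpr i)).pow _
    exact (continuous_pi fun i => Complex.continuous_re.comp (h1 i)).prodMk
      (continuous_pi fun i => Complex.continuous_im.comp (h1 i))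
  refine h.continuousOn.congr fun x hx => ?_
  apply cc_ext
  intro i
  rw [cc_zc F hx, cc_ofC]

theorem h_eq {c : ι} {x : Cn n} (hx : x ∈ opd (k := n) 10) :
    F.h ((F.a c).symm x) = (F.z (F.pc c)).symm (F.zc c x) :=
  ((F.z (F.pc c)).left_inv (mem_base F hx)).symm

theorem cont_gc {t : ℝ} (ht : t ∈ Ico 0 T) (c : ι) :
    ContinuousOn (F.gc t c) {x | x ∈ opd (k := n) 10 ∧ nsq (F.zc c x) < 25} := by
  refine ((F.smooth_W ht c).continuousOn.mono fun x hx => hx.1).sub ?_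
  have h := (F.Mx_continuousOn ht (F.pc c)).comp ((cont_zc F c).mono
    (fun x hx => hx.1 : {x | x ∈ opd (k := n) 10 ∧ nsq (F.zc c x) < 25} ⊆ opd 10))
    fun x hx => hx.2
  refine h.congr fun x hx => ?_
  simp only [Function.comp_apply]
  rw [h_eq F hx.1]

theorem gc_nonpos {t : ℝ} (ht : t ∈ Ico 0 T) (c : ι) {x : Cn n} (hx : x ∈ opd (k := n) 10)
    (hz : nsq (F.zc c x) ≤ 25) : F.gc t c x ≤ 0 :=
  sub_nonpos.2 ((F.Mx_spec ht (mem_base F hx) hz).2 _ rfl)

/-- the base point depends only on the products -/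
theorem base_eq {c : ι} {x x' : Cn n} (hx : x ∈ opd (k := n) 10) (hx' : x' ∈ opd (k := n) 10)
    (h : ∀ i, prow (F.row c) i x = prow (F.row c) i x') :
    F.h ((F.a c).symm x) = F.h ((F.a c).symm x') := by
  apply (F.z (F.pc c)).injOn (mem_base F hx) (mem_base F hx')
  apply cc_ext
  intro i
  have h1 := cc_zc F (c := c) hx i
  have h2 := cc_zc F (c := c) hx' i
  rw [← h, ← h1] at h2
  exact h2.symm

/-- the decay in one fibre -/
theorem slice : ∃ (K r : ℝ) (B : ℕ), 0 ≤ K ∧ 0 < r ∧ r ≤ 1 ∧ ∀ t ∈ Ico 0 T, ∀ c,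
    ∀ piv : Fin m → Fin n, (∀ i, F.row c (piv i) = some i) →
    ∀ q ∈ cpd (k := n) (3 / 2), (∀ i, prow (F.row c) i q ≠ 0) → nsq (F.zc c q) ≤ 20 →
    ∀ Λ : ℝ, ∑ i, |Real.log ‖prow (F.row c) i q‖| ≤ Λ → ∀ ρ ∈ Ioc (0 : ℝ) 1, ∀ N > 0,
      K * ((T - t) * (1 + Λ) ^ B) * (1 + Real.log (1 / ρ)) ^ n ≤ N →
      volume {w : Cn n | w ∈ cpd r ∧ F.gc t c (Em (F.row c) piv q w) < -N} ≤
        ENNReal.ofReal ρ := by
  obtain ⟨C, r, B, hC, hr, hr1, hch⟩ := F.chain
  obtain ⟨Cf, hCf, hfib⟩ := F.fib_psh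
  obtain ⟨Cd, hCd, hdec⟩ := psh_decay_of_integral n
  have hvr : volume (cpd (k := n) r) ≠ ⊤ := volume_cpd_ne_top r
  set v : ℝ := (volume (cpd (k := n) r)).toReal with hv
  have hv0 : 0 ≤ v := ENNReal.toReal_nonneg
  set K₁ : ℝ := (5 / r) ^ (2 * n) * (C + Cf * (81 * n) * v / T) with hK₁
  by_cases hT : 0 < T
  swap
  · exact ⟨0, 1, 0, le_rfl, one_pos, le_rfl, fun t ht => absurd (lt_of_le_of_lt ht.1 ht.2) hT⟩
  have hK₁0 : 0 ≤ K₁ := by positivity
  refine ⟨Cd * K₁, 2 * r / 5, B, by positivity, by positivity, by linarith, ?_⟩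
  intro t ht c piv hpiv q hq hne hzc Λ hΛ ρ hρ N hN hcond
  obtain ⟨hE9, hint⟩ := hch t ht c piv hpiv q hq hne hzc
  have hTt : 0 < T - t := by linarith [ht.2]
  have hd0 : 0 ≤ 1 - t / T := by
    rw [sub_nonneg, div_le_one hT]
    exact ht.2.le
  have hd1 : 1 - t / T = (T - t) / T := by field_simp
  have hΛ0 : 0 ≤ Λ := le_trans (Finset.sum_nonneg fun i _ => abs_nonneg _) hΛ
  have hq10 : q ∈ opd (k := n) 10 := cpd_sub_opd (by norm_num) (by norm_num) hq
  -- the function in the logarithmic coordinates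
  set E : Cn n → Cn n := fun w => Em (F.row c) piv q w with hE
  have hEhol : HolOn E univ := Fb.Em_holOn' q
  set M₀ : ℝ := F.Mx t (F.h ((F.a c).symm q)) with hM₀
  set G : Cn n → ℝ := fun w => F.Phi t (F.π ((F.a c).symm (E w))) - M₀ +
    Cf * (1 - t / T) * (nsq (E w) - 81 * n) with hG
  have h910 : ∀ x ∈ opd (k := n) 9, x ∈ opd (k := n) 10 := by
    intro x hx i
    have := hx i
    nlinarith
  have hgc : ∀ w, E w ∈ opd (k := n) 9 → F.gc t c (E w) =
      F.Phi t (F.π ((F.a c).symm (E w))) - M₀ := by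
    intro w hw
    unfold Mod.gc
    rw [base_eq F (h910 _ hw) hq10 fun i => Fb.prow_Em' hpiv q w i]
  have hzE : ∀ w, E w ∈ opd (k := n) 9 → F.zc c (E w) = F.zc c q := by
    intro w hw
    unfold Mod.zc
    rw [base_eq F (h910 _ hw) hq10 fun i => Fb.prow_Em' hpiv q w i]
  have hnp : ∀ w, E w ∈ opd (k := n) 9 → F.gc t c (E w) ≤ 0 := fun w hw =>
    gc_nonpos F ht c (h910 _ hw) (by rw [hzE w hw]; linarith)
  have hGle : ∀ w, E w ∈ opd (k := n) 9 → G w ≤ F.gc t c (E w) := by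
    intro w hw
    rw [hgc w hw]
    have h1 := nsq_le_of_opd hw
    have h2 : Cf * (1 - t / T) * (nsq (E w) - 81 * n) ≤ 0 :=
      mul_nonpos_of_nonneg_of_nonpos (by positivity) (by linarith)
    simp only [hG]
    linarith
  have hS9 : IsOpen (E ⁻¹' opd (k := n) 9) := by
    have : Continuous E := continuousOn_univ.1 hEhol.1.continuousOn
    exact (Pool.Agent.KRFG.Decay.isOpen_opd 9).preimage this
  have hGs : ContDiffOn ℝ ∞ G (E ⁻¹' opd (k := n) 9) := by
    have h1 : ContDiffOn ℝ ∞ (fun w => F.Phi t (F.π ((F.a c).symm (E w))))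
        (E ⁻¹' opd (k := n) 9) :=
      (F.smooth_W ht c).comp (hEhol.1.mono (subset_univ _)) fun w hw => h910 _ hw
    have h2 : ContDiffOn ℝ ∞ (fun w => nsq (E w)) (E ⁻¹' opd (k := n) 9) :=
      contDiff_nsq.comp_contDiffOn (hEhol.1.mono (subset_univ _))
    exact (h1.sub contDiffOn_const).add (contDiffOn_const.mul (h2.sub contDiffOn_const))
  -- rescaling
  set lam : ℝ := r / 5 with hlam
  have hlam0 : 0 < lam := by positivity
  have hscale : ∀ z ∈ opd (k := n) 5, lam • z ∈ cpd (k := n) r := by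
    intro z hz i
    have h1 := hz i
    have h2 : (lam • z).1 i = lam * z.1 i := rfl
    have h3 : (lam • z).2 i = lam * z.2 i := rfl
    rw [h2, h3]
    have h4 : (lam * z.1 i) ^ 2 + (lam * z.2 i) ^ 2 = lam ^ 2 * (z.1 i ^ 2 + z.2 i ^ 2) := by ring
    rw [h4]
    have h5 : r ^ 2 = lam ^ 2 * 5 ^ 2 := by
      rw [hlam]
      ring
    rw [h5]
    exact mul_le_mul_of_nonneg_left h1.le (by positivity)
  set h : Cn n → ℝ := fun z => G (lam • z) with hh
  have hhs : ContDiffOn ℝ ∞ h (opd 5) :=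
    hGs.comp (g := G) (f := fun z : Cn n => lam • z) (by fun_prop)
      fun z hz => hE9 _ (hscale z hz)
  have hhneg : ∀ z ∈ opd (k := n) 5, h z ≤ 0 := fun z hz =>
    (hGle _ (hE9 _ (hscale z hz))).trans (hnp _ (hE9 _ (hscale z hz)))
  have hhpsh : ∀ z ∈ opd (k := n) 5, ∀ u, 0 ≤ levz h u z := by
    intro z hz u
    have h1 : levz h u z = levz G (fderiv ℝ (fun z : Cn n => lam • z) z u) (lam • z) :=
      levz_comp hS9 hGs isOpen_univ (holOn_smul lam) (mem_univ z) (hE9 _ (hscale z hz)) u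
    rw [h1]
    exact hfib t ht c q (by
      intro i
      have := hq i
      nlinarith) M₀ piv hpiv _ (hE9 _ (hscale z hz)) _
  -- the integral
  have hcpdr : IsCompact (cpd (k := n) r) := isCompact_cpd r
  have hGint : IntegrableOn (fun w => -G w) (cpd (k := n) r) :=
    (hGs.continuousOn.mono fun w hw => hE9 w hw).neg.integrableOn_compact hcpdr
  have hgcint : IntegrableOn (fun w => -F.gc t c (E w)) (cpd (k := n) r) := by
    refine ContinuousOn.integrableOn_compact hcpdr ?_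
    refine ((cont_gc F ht c).comp (hEhol.1.continuousOn.mono (subset_univ _)) ?_).neg
    intro w hw
    exact ⟨h910 _ (hE9 w hw), by rw [hzE w (hE9 w hw)]; linarith⟩
  have hI1 : ∫ w in cpd (k := n) r, -G w ≤ (T - t) * (1 + Λ) ^ B * (C + Cf * (81 * n) * v / T) := by
    have hle : ∫ w in cpd (k := n) r, -G w ≤
        ∫ w in cpd (k := n) r, (-F.gc t c (E w) + Cf * (1 - t / T) * (81 * n)) := by
      refine setIntegral_mono_on hGint (hgcint.add (integrableOn_const hvr))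
        hcpdr.isClosed.measurableSet ?_
      intro w hw
      rw [hgc w (hE9 w hw)]
      have h1 := nsq_nonneg (E w)
      have h2 : 0 ≤ Cf * (1 - t / T) * nsq (E w) := by positivity
      simp only [hG]
      nlinarith
    rw [integral_add hgcint (integrableOn_const hvr), setIntegral_const, smul_eq_mul] at hle
    have hvreal : volume.real (cpd (k := n) r) = v := rfl
    rw [hvreal] at hle
    have h3 : (1 + ∑ i, |Real.log ‖prow (F.row c) i q‖|) ^ B ≤ (1 + Λ) ^ B :=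
      pow_le_pow_left₀ (by positivity) (by linarith) _
    have h4 : (1 : ℝ) ≤ (1 + Λ) ^ B := one_le_pow₀ (by linarith)
    have h5 : C * (T - t) * (1 + ∑ i, |Real.log ‖prow (F.row c) i q‖|) ^ B ≤
        C * (T - t) * (1 + Λ) ^ B := mul_le_mul_of_nonneg_left h3 (by positivity)
    have h6 : v * (Cf * (1 - t / T) * (81 * n)) ≤
        (T - t) * (1 + Λ) ^ B * (Cf * (81 * n) * v / T) := by
      rw [hd1]
      have h7 : v * (Cf * ((T - t) / T) * (81 * n)) = (T - t) * (Cf * (81 * n) * v / T) := by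
        field_simp
      rw [h7]
      have h8 : 0 ≤ (T - t) * (Cf * (81 * n) * v / T) := by positivity
      calc (T - t) * (Cf * (81 * n) * v / T)
          = (T - t) * (Cf * (81 * n) * v / T) * 1 := by ring
        _ ≤ (T - t) * (Cf * (81 * n) * v / T) * (1 + Λ) ^ B := mul_le_mul_of_nonneg_left h4 h8
        _ = (T - t) * (1 + Λ) ^ B * (Cf * (81 * n) * v / T) := by ring
    have h9 := hint.trans h5
    calc ∫ w in cpd (k := n) r, -G w ≤ _ := hle
      _ ≤ C * (T - t) * (1 + Λ) ^ B + (T - t) * (1 + Λ) ^ B * (Cf * (81 * n) * v / T) :=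
          add_le_add h9 h6
      _ = (T - t) * (1 + Λ) ^ B * (C + Cf * (81 * n) * v / T) := by ring
  have hinv := haar n
  have hfr : Module.finrank ℝ (Cn n) = 2 * n := by
    rw [Module.finrank_prod, Module.finrank_fin_fun]
    ring
  have hI2 : ∫ z in cpd (k := n) (9 / 2), -h z ≤ K₁ * ((T - t) * (1 + Λ) ^ B) := by
    have h1 := Measure.setIntegral_comp_smul (volume : Measure (Cn n)) (fun w => -G w)
      (R := lam) (cpd (k := n) (9 / 2)) hlam0.ne'
    have h2 : ∫ z in cpd (k := n) (9 / 2), -h z = ∫ x in cpd (k := n) (9 / 2),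
        (fun w => -G w) (lam • x) := rfl
    rw [h2, h1, hfr, smul_eq_mul]
    have h3 : |(lam ^ (2 * n))⁻¹| = (5 / r) ^ (2 * n) := by
      rw [abs_of_pos (by positivity), ← inv_pow, hlam, inv_div]
    rw [h3]
    have hsub : lam • cpd (k := n) (9 / 2) ⊆ cpd (k := n) r := by
      rintro _ ⟨z, hz, rfl⟩
      exact hscale z (cpd_sub_opd (by norm_num) (by norm_num) hz)
    have h4 : ∫ x in lam • cpd (k := n) (9 / 2), -G x ≤ ∫ w in cpd (k := n) r, -G w := by
      refine setIntegral_mono_set hGint ?_ hsub.eventuallyLE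
      refine (ae_restrict_iff' hcpdr.isClosed.measurableSet).2 (ae_of_all _ fun w hw => ?_)
      have h5 := (hGle _ (hE9 w hw)).trans (hnp _ (hE9 w hw))
      simp only [Pi.zero_apply]
      linarith
    calc (5 / r) ^ (2 * n) * ∫ x in lam • cpd (k := n) (9 / 2), -G x
        ≤ (5 / r) ^ (2 * n) * ((T - t) * (1 + Λ) ^ B * (C + Cf * (81 * n) * v / T)) :=
          mul_le_mul_of_nonneg_left (h4.trans hI1) (by positivity)
      _ = K₁ * ((T - t) * (1 + Λ) ^ B) := by
          rw [hK₁]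
          ring
  -- the decay
  have hlogρ : 0 ≤ Real.log (1 / ρ) := Real.log_nonneg (by
    rw [le_div_iff₀ hρ.1]
    linarith [hρ.2])
  have hL0 : 0 ≤ K₁ * ((T - t) * (1 + Λ) ^ B) := by positivity
  have hdec' := hdec h (K₁ * ((T - t) * (1 + Λ) ^ B)) hhs hhneg hhpsh hI2 ρ hρ N hN (by
    calc Cd * (K₁ * ((T - t) * (1 + Λ) ^ B)) * (1 + Real.log (1 / ρ)) ^ n
        = Cd * K₁ * ((T - t) * (1 + Λ) ^ B) * (1 + Real.log (1 / ρ)) ^ n := by ring
      _ ≤ N := hcond)
  have hCL : Cd * (K₁ * ((T - t) * (1 + Λ) ^ B)) ≤ N := by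
    have h1 : (1 : ℝ) ≤ (1 + Real.log (1 / ρ)) ^ n := one_le_pow₀ (by linarith)
    calc Cd * (K₁ * ((T - t) * (1 + Λ) ^ B))
        = Cd * K₁ * ((T - t) * (1 + Λ) ^ B) * 1 := by ring
      _ ≤ Cd * K₁ * ((T - t) * (1 + Λ) ^ B) * (1 + Real.log (1 / ρ)) ^ n :=
          mul_le_mul_of_nonneg_left h1 (by positivity)
      _ ≤ N := hcond
  have hsub2 : {w : Cn n | w ∈ cpd (2 * r / 5) ∧ F.gc t c (E w) < -N} ⊆
      lam • {z : Cn n | z ∈ cpd 2 ∧ h z < -N} := by
    rintro w ⟨hw1, hw2⟩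
    refine ⟨lam⁻¹ • w, ⟨?_, ?_⟩, by simp [smul_smul, mul_inv_cancel₀ hlam0.ne']⟩
    · intro i
      have h1 := hw1 i
      have h2 : (lam⁻¹ • w).1 i = lam⁻¹ * w.1 i := rfl
      have h3 : (lam⁻¹ • w).2 i = lam⁻¹ * w.2 i := rfl
      rw [h2, h3]
      have h4 : (lam⁻¹ * w.1 i) ^ 2 + (lam⁻¹ * w.2 i) ^ 2 =
          (lam⁻¹) ^ 2 * (w.1 i ^ 2 + w.2 i ^ 2) := by ring
      rw [h4]
      have h5 : (2 : ℝ) ^ 2 = (lam⁻¹) ^ 2 * (2 * r / 5) ^ 2 := by
        rw [hlam]
        field_simp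
      rw [h5]
      exact mul_le_mul_of_nonneg_left h1 (by positivity)
    · have h1 : lam • lam⁻¹ • w = w := by simp [smul_smul, mul_inv_cancel₀ hlam0.ne']
      simp only [hh]
      rw [h1]
      have hwr : w ∈ cpd (k := n) r := cpd_sub_cpd (by positivity) (by linarith) hw1
      exact lt_of_le_of_lt (hGle _ (hE9 w hwr)) hw2
  calc volume {w : Cn n | w ∈ cpd (2 * r / 5) ∧ F.gc t c (E w) < -N}
      ≤ volume (lam • {z : Cn n | z ∈ cpd 2 ∧ h z < -N}) := measure_mono hsub2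
    _ = ENNReal.ofReal |lam ^ (2 * n)| * volume {z : Cn n | z ∈ cpd 2 ∧ h z < -N} := by
        rw [Measure.addHaar_smul, hfr]
    _ ≤ 1 * ENNReal.ofReal (Cd * (K₁ * ((T - t) * (1 + Λ) ^ B)) * ρ / N) := by
        refine mul_le_mul' ?_ hdec'
        rw [abs_of_pos (by positivity), ← ENNReal.ofReal_one]
        apply ENNReal.ofReal_le_ofReal
        apply pow_le_one₀ hlam0.le
        rw [hlam]
        linarith
    _ ≤ ENNReal.ofReal ρ := by
        rw [one_mul]
        apply ENNReal.ofReal_le_ofReal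
        rw [div_le_iff₀ hN, mul_comm ρ N]
        exact mul_le_mul_of_nonneg_right hCL hρ.1.le

theorem small_c {η : ℝ} (hη : 0 < η) (c : ι) : ∃ d₀ > 0, ∀ t ∈ Ico 0 T, T - t < d₀ →
    volume {x : Cn n | x ∈ cpd 1 ∧ nsq (F.zc c x) ≤ 16 ∧ F.gc t c x < -√(T - t)} ≤
      ENNReal.ofReal (η * (T - t) ^ (2 * n)) := by
  classical
  choose piv hpiv using F.model.row_ne c
  obtain ⟨K, r₀, B, hK, hr₀, hr₀1, hslice⟩ := slice F
  obtain ⟨Ce, hCe, hclose⟩ := Chn.Em_close' (F.row c) piv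
  obtain ⟨C₄, hC₄, hcoord⟩ := volume_small_coord n
  -- the radius
  set r : ℝ := min (min r₀ (1 / (n + 1))) (1 / (2 * Ce)) with hr
  have hr0 : 0 < r := by positivity
  have hrr₀ : r ≤ r₀ := (min_le_left _ _).trans (min_le_left _ _)
  have hrn : (n + 1) * r ≤ 1 := by
    have : r ≤ 1 / (n + 1) := (min_le_left _ _).trans (min_le_right _ _)
    calc ((n : ℝ) + 1) * r ≤ (n + 1) * (1 / (n + 1)) :=
          mul_le_mul_of_nonneg_left this (by positivity)
      _ = 1 := by field_simp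
  have hrC : Ce * r ≤ 1 / 2 := by
    have : r ≤ 1 / (2 * Ce) := min_le_right _ _
    calc Ce * r ≤ Ce * (1 / (2 * Ce)) := mul_le_mul_of_nonneg_left this hCe.le
      _ = 1 / 2 := by field_simp
  have hE : ∀ q ∈ cpd (k := n) 1, ∀ w ∈ cpd (k := n) r, Em (F.row c) piv q w ∈ cpd (3 / 2) := by
    intro q hq w hw
    have h1 := hclose q (cpd_sub_cpd (by norm_num) (by norm_num) hq) r ⟨hr0.le, by linarith⟩ w hw
    rw [mem_cpd_iff (by norm_num)]
    intro l
    have h2 := (mem_cpd_iff (by norm_num)).1 hq l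
    have h3 := (mem_cpd_iff (by positivity)).1 h1 l
    have h4 : cc (Em (F.row c) piv q w) l = cc q l + cc (Em (F.row c) piv q w - q) l := by
      apply Complex.ext <;> simp [cc]
    rw [h4]
    have h5 := norm_add_le (cc q l) (cc (Em (F.row c) piv q w - q) l)
    linarith
  -- the constants
  obtain ⟨d₁, hd₁, hnum⟩ := numbers K (m * n * (n + 1)) (2 * n + 1) hK (by positivity)
    (by positivity) B n
  set V : ℝ≥0∞ := 6 ^ (2 * n) * volume (cpd (k := n) (3 / 2)) / volume (cpd (k := n) r) with hV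
  have hvpos : volume (cpd (k := n) r) ≠ 0 := by
    have h1 : opd (k := n) r ⊆ cpd r := fun u hu i => (hu i).le
    have hinv := haar n
    have h2 : 0 < volume (opd (k := n) r) :=
      (Pool.Agent.KRFG.Decay.isOpen_opd r).measure_pos volume ⟨0, fun i => by simpa using pow_pos hr0 2⟩
    exact (h2.trans_le (measure_mono h1)).ne'
  have hvtop : volume (cpd (k := n) r) ≠ ⊤ := volume_cpd_ne_top r
  have hVtop : V ≠ ⊤ := by
    rw [hV]
    refine ENNReal.div_ne_top (ENNReal.mul_ne_top (by finiteness) (volume_cpd_ne_top _)) hvpos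
  set v : ℝ := V.toReal with hv
  have hv0 : 0 ≤ v := ENNReal.toReal_nonneg
  refine ⟨min d₁ (η / (2 * (C₄ + v + 1))), lt_min hd₁.1 (by positivity), fun t ht htd => ?_⟩
  set d : ℝ := T - t with hd
  have hd0 : 0 < d := by
    rw [hd]
    linarith [ht.2]
  have hdd₁ : d < d₁ := lt_of_lt_of_le htd (min_le_left _ _)
  have hd1 : d < 1 := lt_of_lt_of_le hdd₁ hd₁.2
  have hdη : d < η / (2 * (C₄ + v + 1)) := lt_of_lt_of_le htd (min_le_right _ _)
  have hdη' : d * (C₄ + v + 1) ≤ η / 2 := by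
    have h1 : d * (2 * (C₄ + v + 1)) < η := (lt_div_iff₀ (by positivity)).1 hdη
    linarith
  have hsq : 0 < √d := Real.sqrt_pos.2 hd0
  set δ : ℝ := d ^ (n + 1) with hδ
  have hδ0 : 0 < δ := by positivity
  have hδ1 : δ ≤ 1 := pow_le_one₀ hd0.le hd1.le
  set ρ : ℝ := d ^ (2 * n + 1) with hρ
  have hρ0 : 0 < ρ := by positivity
  have hρ1 : ρ ≤ 1 := pow_le_one₀ hd0.le hd1.le
  have hlogδ : Real.log (1 / δ) = (n + 1) * Real.log (1 / d) := by
    rw [hδ, one_div, one_div, ← inv_pow, Real.log_pow]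
    push_cast
    ring
  have hlogρ : Real.log (1 / ρ) = (2 * n + 1) * Real.log (1 / d) := by
    rw [hρ, one_div, one_div, ← inv_pow, Real.log_pow]
    push_cast
    ring
  have hlogd : 0 ≤ Real.log (1 / d) := Real.log_nonneg (by
    rw [le_div_iff₀ hd0]
    linarith)
  -- the two sets
  set S₁ : Set (Cn n) := {x | x ∈ cpd 1 ∧ ∃ l, x.1 l ^ 2 + x.2 l ^ 2 < δ ^ 2} with hS₁
  set S₂ : Set (Cn n) := {x | x ∈ cpd 1 ∧ (∀ l, δ ^ 2 ≤ x.1 l ^ 2 + x.2 l ^ 2) ∧
    nsq (F.zc c x) ≤ 16 ∧ F.gc t c x < -√d} with hS₂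
  have hcover : {x : Cn n | x ∈ cpd 1 ∧ nsq (F.zc c x) ≤ 16 ∧ F.gc t c x < -√d} ⊆ S₁ ∪ S₂ := by
    rintro x ⟨h1, h2, h3⟩
    by_cases h4 : ∃ l, x.1 l ^ 2 + x.2 l ^ 2 < δ ^ 2
    · exact Or.inl ⟨h1, h4⟩
    · push Not at h4
      exact Or.inr ⟨h1, h4, h2, h3⟩
  have hv₁ : volume S₁ ≤ ENNReal.ofReal (C₄ * δ ^ 2) := hcoord δ ⟨hδ0, hδ1⟩
  -- measurability
  have h110 : cpd (k := n) 1 ⊆ opd 10 := cpd_sub_opd (by norm_num) (by norm_num)
  have hclosed : IsClosed (cpd (k := n) 1) := (isCompact_cpd 1).isClosed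
  have hclD : IsClosed (cpd (k := n) 1 ∩ (fun x => nsq (F.zc c x)) ⁻¹' Iic 16) :=
    ContinuousOn.preimage_isClosed_of_isClosed
      (contDiff_nsq.continuous.comp_continuousOn ((cont_zc F c).mono h110)) hclosed isClosed_Iic
  have hmeas : MeasurableSet S₂ := by
    have e1 : S₂ = ((cpd 1 ∩ (fun x => nsq (F.zc c x)) ⁻¹' Iic 16) ∩
        {x : Cn n | ∀ l, δ ^ 2 ≤ x.1 l ^ 2 + x.2 l ^ 2}) \
          ((cpd 1 ∩ (fun x => nsq (F.zc c x)) ⁻¹' Iic 16) ∩ (F.gc t c) ⁻¹' Ici (-√d)) := by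
      ext x
      constructor
      · rintro ⟨h1, h2, h3, h4⟩
        exact ⟨⟨⟨h1, h3⟩, h2⟩, fun h => absurd h.2 (not_le.2 h4)⟩
      · rintro ⟨⟨⟨h1, h3⟩, h2⟩, h4⟩
        exact ⟨h1, h2, h3, not_le.1 fun h => h4 ⟨⟨h1, h3⟩, h⟩⟩
    rw [e1]
    refine MeasurableSet.diff (MeasurableSet.inter ?_ ?_) ?_
    · exact hclD.measurableSet
    · have : {x : Cn n | ∀ l, δ ^ 2 ≤ x.1 l ^ 2 + x.2 l ^ 2} =
          ⋂ l, {x : Cn n | δ ^ 2 ≤ x.1 l ^ 2 + x.2 l ^ 2} := by
        ext x
        simp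
      rw [this]
      refine (isClosed_iInter fun l => isClosed_le continuous_const ?_).measurableSet
      fun_prop
    · refine (ContinuousOn.preimage_isClosed_of_isClosed ((cont_gc F ht c).mono ?_) hclD
        isClosed_Ici).measurableSet
      rintro x ⟨h1, h2⟩
      have h3 : nsq (F.zc c x) ≤ 16 := h2
      exact ⟨h110 h1, by linarith⟩
  -- the slices
  have hsl : ∀ q ∈ cpd (k := n) (3 / 2),
      volume {w : Cn n | w ∈ cpd r ∧ Em (F.row c) piv q w ∈ S₂} ≤ ENNReal.ofReal ρ := by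
    intro q hq
    by_cases hne : ∃ w₀, w₀ ∈ cpd (k := n) r ∧ Em (F.row c) piv q w₀ ∈ S₂
    swap
    · have : {w : Cn n | w ∈ cpd r ∧ Em (F.row c) piv q w ∈ S₂} = ∅ := by
        ext w
        simp only [mem_ofPred_eq, mem_empty_iff_false, iff_false]
        exact fun h => hne ⟨w, h⟩
      rw [this, measure_empty]
      exact zero_le
    obtain ⟨w₀, hw₀, hx1, hx2, hx3, -⟩ := hne
    set x₀ := Em (F.row c) piv q w₀ with hx₀
    have hpr : ∀ i, prow (F.row c) i q = prow (F.row c) i x₀ := fun i => (Fb.prow_Em' hpiv q w₀ i).symm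
    have hn1 : ∀ l, ‖cc x₀ l‖ ≤ 1 := (mem_cpd_iff zero_le_one).1 hx1
    have hn2 : ∀ l, δ ≤ ‖cc x₀ l‖ := by
      intro l
      have := hx2 l
      rw [← sq_norm_cc] at this
      exact le_of_sq_le_sq this (norm_nonneg _)
    have hnp := fun i => norm_prow (F.row c) i ⟨hδ0, hδ1⟩ hn1 hn2
    have hq10 : q ∈ opd (k := n) 10 := cpd_sub_opd (by norm_num) (by norm_num) hq
    have hx10 : x₀ ∈ opd (k := n) 10 := h110 hx1
    have hzc : F.zc c q = F.zc c x₀ := by
      unfold Mod.zc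
      rw [base_eq F hq10 hx10 hpr]
    have hsum : ∑ i, |Real.log ‖prow (F.row c) i q‖| ≤ m * n * (n + 1) * Real.log (1 / d) := by
      calc ∑ i, |Real.log ‖prow (F.row c) i q‖| ≤ ∑ _i : Fin m, (n * ((n + 1) * Real.log (1 / d))) := by
            refine Finset.sum_le_sum fun i _ => ?_
            rw [hpr i, ← hlogδ]
            obtain ⟨h1, h2⟩ := hnp i
            have hpos : 0 < ‖prow (F.row c) i x₀‖ := lt_of_lt_of_le (by positivity) h1
            rw [abs_of_nonpos (Real.log_nonpos hpos.le h2)]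
            have h3 : Real.log (δ ^ n) ≤ Real.log ‖prow (F.row c) i x₀‖ :=
              Real.log_le_log (by positivity) h1
            rw [Real.log_pow] at h3
            rw [one_div, Real.log_inv]
            linarith
        _ = m * n * (n + 1) * Real.log (1 / d) := by
            rw [Finset.sum_const, Finset.card_univ, Fintype.card_fin, nsmul_eq_mul]
            ring
    have h1 := hslice t ht c piv hpiv q hq (by
      intro i
      rw [hpr i]
      have h2 := (hnp i).1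
      have h3 : 0 < δ ^ n := by positivity
      exact norm_pos_iff.1 (lt_of_lt_of_le h3 h2)) (by
      rw [hzc]
      linarith) (m * n * (n + 1) * Real.log (1 / d)) hsum ρ ⟨hρ0, hρ1⟩ (√d) hsq (by
      rw [hlogρ]
      exact hnum d ⟨hd0, hdd₁⟩)
    refine (measure_mono ?_).trans h1
    rintro w ⟨hw, -, -, -, hw5⟩
    exact ⟨cpd_sub_cpd hr0.le hrr₀ hw, hw5⟩
  have hav := volume_le_average (F.row c) piv Chn.Em_continuous' hr0 hrn hE hmeas
    (fun x hx => hx.1) hsl
  have hv₂ : volume S₂ ≤ ENNReal.ofReal (v * ρ) := by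
    have h1 : volume S₂ ≤ V * ENNReal.ofReal ρ := by
      have h2 : volume S₂ ≤ (6 ^ (2 * n) * (volume (cpd (k := n) (3 / 2)) * ENNReal.ofReal ρ)) /
          volume (cpd (k := n) r) := by
        rw [ENNReal.le_div_iff_mul_le (Or.inl hvpos) (Or.inl hvtop), mul_comm]
        exact hav
      refine h2.trans (le_of_eq ?_)
      rw [hV, ENNReal.div_eq_inv_mul, ENNReal.div_eq_inv_mul]
      ring
    rw [ENNReal.ofReal_mul hv0, hv, ENNReal.ofReal_toReal hVtop]
    exact h1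
  calc volume {x : Cn n | x ∈ cpd 1 ∧ nsq (F.zc c x) ≤ 16 ∧ F.gc t c x < -√d}
      ≤ volume S₁ + volume S₂ := (measure_mono hcover).trans (measure_union_le _ _)
    _ ≤ ENNReal.ofReal (C₄ * δ ^ 2) + ENNReal.ofReal (v * ρ) := add_le_add hv₁ hv₂
    _ = ENNReal.ofReal (C₄ * δ ^ 2 + v * ρ) := (ENNReal.ofReal_add (by positivity)
        (by positivity)).symm
    _ ≤ ENNReal.ofReal (η * d ^ (2 * n)) := by
        apply ENNReal.ofReal_le_ofReal
        have e1 : δ ^ 2 = d ^ (2 * n) * d * d := by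
          rw [hδ]
          ring
        have e2 : ρ = d ^ (2 * n) * d := by
          rw [hρ]
          ring
        rw [e1, e2]
        have h1 : 0 ≤ d ^ (2 * n) := by positivity
        have h2 : C₄ * (d * d) ≤ C₄ * d := mul_le_mul_of_nonneg_left (by nlinarith) hC₄
        calc C₄ * (d ^ (2 * n) * d * d) + v * (d ^ (2 * n) * d)
            = d ^ (2 * n) * (C₄ * (d * d) + v * d) := by ring
          _ ≤ d ^ (2 * n) * η := by
              apply mul_le_mul_of_nonneg_left _ h1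
              nlinarith
          _ = η * d ^ (2 * n) := by ring

end Decay

variable {n m l : ℕ} {M Y Y' W : Type} [TopologicalSpace M] [CompactSpace M] [T2Space M]
  [TopologicalSpace Y] [T2Space Y] [TopologicalSpace Y'] [T2Space Y'] [TopologicalSpace W]
  [T2Space W] {κ P P' ι : Type} [Finite P] [Finite P'] [Fintype ι] {T : ℝ}
  (F : Mod n m l M Y Y' W κ P P' ι T)

theorem Mod.small {η : ℝ} (hη : 0 < η) : ∃ d₀ > 0, ∀ t ∈ Ico 0 T, T - t < d₀ → ∀ c,
    volume {x : Cn n | x ∈ cpd 1 ∧ nsq (F.zc c x) ≤ 16 ∧ F.gc t c x < -√(T - t)} ≤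
      ENNReal.ofReal (η * (T - t) ^ (2 * n)) := by
  choose d hd h using fun c => Decay.small_c F hη c
  have h1 : ∀ᶠ x in 𝓝[>] (0 : ℝ), ∀ c, x ∈ Ioo 0 (d c) :=
    eventually_all.2 fun c => Ioo_mem_nhdsGT (hd c)
  obtain ⟨x, hx, hx0⟩ := (h1.and self_mem_nhdsWithin).exists
  exact ⟨x, hx0, fun t ht htx c => h c t ht (htx.trans (hx c).2)⟩

end Pool.Agent.KRFX
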