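import Pool.Agent.Work.MP_a2bf38_gt.X.DescA
import Pool.Agent.Work.MP_a2bf38_gt.I.NatLoc
import Pool.Agent.Work.MP_a2bf38_gt.I.FBound

/-!
# Down to the base: the functions on the balls of `Y`
-/

open scoped ContDiff ENNReal ComplexOrder Topology
open Set MeasureTheory Filter Pool.Agent.ToricKRF Pool.Agent.ToricKRF.G Pool.Agent.KRFS
  Pool.Agent.KRFF Pool.Agent.KRFG

namespace Pool.Agent.KRFX

set_option linter.unusedSectionVars false

namespace Desc

theorem isOpen_nsq {m : ℕ} (r : ℝ) : IsOpen {x : Cn m | nsq x < r} :=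
  isOpen_lt BaseP.continuous_nsq continuous_const

theorem isCompact_nsq9 {m : ℕ} : IsCompact {x : Cn m | nsq x ≤ 9} :=
  HB.isCompact_nsq25.of_isClosed_subset (isClosed_le BaseP.continuous_nsq continuous_const)
    fun x (hx : nsq x ≤ 9) => show nsq x ≤ 25 by linarith

theorem isCompact_nsq49 {m : ℕ} : IsCompact {x : Cn m | nsq x ≤ 49} := by
  have hcl : IsClosed {y : Cn m | nsq y ≤ 49} :=
    isClosed_le BaseP.continuous_nsq continuous_const
  refine Metric.isCompact_of_isClosed_isBounded hcl ?_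
  refine (Metric.isBounded_closedBall (x := (0 : Cn m)) (r := 7)).subset fun y hy => ?_
  have hy' : nsq y ≤ 49 := hy
  rw [mem_closedBall_zero_iff]
  have h1 : ∀ i, |y.1 i| ≤ 7 := fun i => by
    have := Gap.le_nsq y i
    exact abs_le_of_sq_le_sq' (by nlinarith [sq_nonneg (y.2 i)]) (by norm_num) |> abs_le.2
  have h2 : ∀ i, |y.2 i| ≤ 7 := fun i => by
    have := Gap.le_nsq y i
    exact abs_le_of_sq_le_sq' (by nlinarith [sq_nonneg (y.1 i)]) (by norm_num) |> abs_le.2
  refine max_le ?_ ?_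
  · exact (pi_norm_le_iff_of_nonneg (by norm_num)).2 h1
  · exact (pi_norm_le_iff_of_nonneg (by norm_num)).2 h2

theorem nsq_eq_zero {m : ℕ} {v : Cn m} : nsq v = 0 ↔ v = 0 := by
  constructor
  · intro h
    have h1 : ∀ i, v.1 i = 0 := fun i => by
      have := Gap.le_nsq v i
      nlinarith [sq_nonneg (v.1 i), sq_nonneg (v.2 i)]
    have h2 : ∀ i, v.2 i = 0 := fun i => by
      have := Gap.le_nsq v i
      nlinarith [sq_nonneg (v.1 i), sq_nonneg (v.2 i)]
    exact Prod.ext (funext h1) (funext h2)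
  · rintro rfl
    simp [nsq]

theorem nsq_pos {m : ℕ} {v : Cn m} (h : v ≠ 0) : 0 < nsq v :=
  lt_of_le_of_ne (BaseP.nsq_nonneg v) fun h' => h (nsq_eq_zero.1 h'.symm)

variable {n m l : ℕ} {M Y Y' W : Type} [TopologicalSpace M]
  [TopologicalSpace Y] [TopologicalSpace Y'] [T2Space Y'] [TopologicalSpace W]
  {κ P P' ι : Type} {T : ℝ} (F : Mod n m l M Y Y' W κ P P' ι T)

open Classical in
/-- the contribution of the chart `a` -/
noncomputable def hh (C₁ A ε : ℝ) (a : P') (y' : Y') : ℝ :=
  if y' ∈ (F.z a).source ∧ nsq (F.z a y') < 16 then max (hB C₁ A ε (F.z a y')) (-A) else -A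

include F in
theorem continuous_hh {C₁ A ε : ℝ} (hε : 0 < ε)
    (hup : ∀ x : Cn m, 9 ≤ nsq x → nsq x ≤ 16 → hB C₁ A ε x < -A) (a : P') :
    Continuous (hh F C₁ A ε a) := by
  have hO : IsOpen {y' | y' ∈ (F.z a).source ∧ nsq (F.z a y') < 16} :=
    (F.z a).isOpen_inter_preimage (isOpen_nsq 16)
  have hcomp : IsCompact ((F.z a).symm '' {x | nsq x ≤ 9}) := by
    refine isCompact_nsq9.image_of_continuousOn ((F.z a).continuousOn_symm.mono fun x hx => ?_)
    have : nsq x ≤ 9 := hx
    exact F.modif.target a (show nsq x < 100 by linarith)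
  rw [continuous_iff_continuousAt]
  intro y'
  by_cases h : y' ∈ (F.z a).source ∧ nsq (F.z a y') < 16
  · have h1 : ContinuousAt (fun y' => max (hB C₁ A ε (F.z a y')) (-A)) y' :=
      ((HB.continuous_hB hε).continuousAt.comp ((F.z a).continuousAt h.1)).max continuousAt_const
    refine h1.congr ?_
    filter_upwards [hO.mem_nhds h] with w hw
    have hw' : w ∈ (F.z a).source ∧ nsq (F.z a w) < 16 := hw
    unfold hh
    rw [if_pos hw']
  · have hn : y' ∉ (F.z a).symm '' {x | nsq x ≤ 9} := by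
      rintro ⟨x, hx, rfl⟩
      have hx9 : nsq x ≤ 9 := hx
      have hxt : x ∈ (F.z a).target := F.modif.target a (show nsq x < 100 by linarith)
      refine h ⟨(F.z a).map_target hxt, ?_⟩
      rw [(F.z a).right_inv hxt]
      linarith
    have h2 : ContinuousAt (fun _ : Y' => -A) y' := continuousAt_const
    refine h2.congr ?_
    filter_upwards [hcomp.isClosed.isOpen_compl.mem_nhds hn] with w hw
    unfold hh
    split_ifs with h3
    · have h4 : 9 < nsq (F.z a w) := by
        by_contra h5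
        push Not at h5
        exact hw ⟨F.z a w, h5, (F.z a).left_inv h3.1⟩
      rw [max_eq_right (hup _ h4.le h3.2.le).le]
    · rfl

/-- the maximum of the functions `hB` of the charts -/
theorem exists_H [Finite P'] {C₁ A ε : ℝ} (hε : 0 < ε)
    (hlow : ∀ x : Cn m, nsq x ≤ 1 → -A ≤ hB C₁ A ε x)
    (hup : ∀ x : Cn m, 9 ≤ nsq x → nsq x ≤ 16 → hB C₁ A ε x < -A) :
    ∃ H : Y' → ℝ, Continuous H ∧ (∀ y', -A ≤ H y') ∧
      (∀ a y', y' ∈ (F.z a).source → nsq (F.z a y') < 16 → hB C₁ A ε (F.z a y') ≤ H y') ∧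
      (∀ y', (∃ a, y' ∈ (F.z a).source ∧ nsq (F.z a y') ≤ 1) →
        ∃ a, y' ∈ (F.z a).source ∧ nsq (F.z a y') < 16 ∧ H y' = hB C₁ A ε (F.z a y')) ∧
      ∃ C : ℝ, 0 ≤ C ∧ ∀ y', H y' ≤ C := by
  classical
  have : Fintype P' := Fintype.ofFinite P'
  have hne : (Finset.univ : Finset (Option P')).Nonempty := ⟨none, Finset.mem_univ _⟩
  let f : Option P' → Y' → ℝ := fun o y' => o.elim (-A) fun a => hh F C₁ A ε a y'
  let H : Y' → ℝ := fun y' => Finset.univ.sup' hne fun o => f o y'
  have hle : ∀ o y', f o y' ≤ H y' := fun o y' =>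
    Finset.le_sup' (fun o => f o y') (Finset.mem_univ o)
  have hHA : ∀ y', -A ≤ H y' := fun y' => hle none y'
  have hhle : ∀ a y', y' ∈ (F.z a).source → nsq (F.z a y') < 16 →
      hB C₁ A ε (F.z a y') ≤ H y' := by
    intro a y' h1 h2
    refine le_trans ?_ (hle (some a) y')
    change _ ≤ hh F C₁ A ε a y'
    unfold hh
    rw [if_pos ⟨h1, h2⟩]
    exact le_max_left _ _
  refine ⟨H, ?_, hHA, hhle, ?_, ?_⟩
  · refine Continuous.finset_sup'_apply hne fun o _ => ?_
    cases o with
    | none => exact continuous_const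
    | some a => exact continuous_hh F hε hup a
  · rintro y' ⟨a, ha, ha1⟩
    have hcore : H y' = -A → ∃ a, y' ∈ (F.z a).source ∧ nsq (F.z a y') < 16 ∧
        H y' = hB C₁ A ε (F.z a y') := fun h =>
      ⟨a, ha, by linarith, le_antisymm (h.le.trans (hlow _ ha1)) (hhle a y' ha (by linarith))⟩
    obtain ⟨o, -, ho⟩ := Finset.exists_mem_eq_sup' hne fun o => f o y'
    have ho' : H y' = f o y' := ho
    cases o with
    | none => exact hcore ho'
    | some b =>
      have h1 : H y' = hh F C₁ A ε b y' := ho'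
      unfold hh at h1
      split_ifs at h1 with h2
      · rcases le_total (hB C₁ A ε (F.z b y')) (-A) with h3 | h3
        · rw [max_eq_right h3] at h1
          exact hcore h1
        · rw [max_eq_left h3] at h1
          exact ⟨b, h2.1, h2.2, h1⟩
      · exact hcore h1
  · obtain ⟨C, hC⟩ := (HB.isCompact_nsq25 (m := m)).bddAbove_image
      (HB.continuous_hB (C₁ := C₁) (A := A) hε).continuousOn
    refine ⟨|C| + |A|, by positivity, fun y' => Finset.sup'_le hne _ fun o _ => ?_⟩
    have hA' : -A ≤ |C| + |A| := by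
      have := neg_le_abs A
      have := abs_nonneg C
      linarith
    cases o with
    | none => exact hA'
    | some a =>
      change hh F C₁ A ε a y' ≤ _
      unfold hh
      split_ifs with h
      · refine max_le ?_ hA'
        have h1 : hB C₁ A ε (F.z a y') ≤ C :=
          hC ⟨F.z a y', show nsq (F.z a y') ≤ 25 by linarith [h.2], rfl⟩
        have := le_abs_self C
        have := abs_nonneg A
        linarith
      · exact hA'

theorem mem_target (j : P) {y : Cn m} (hy : nsq y < 100) : y ∈ (F.b j).target :=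
  F.hol.target j hy

theorem levz_K_nonneg (j : P) {y : Cn m} (hy : y ∈ (F.b j).target) (v : Cn m) :
    0 ≤ levz (F.K j) v y := by
  by_cases hv : v = 0
  · rw [hv, Gap.levz_zero_dir]
  · exact (F.lim.psh j y hy v hv).le

/-- points of `Y'` over the points of the balls of `Y` -/
theorem exists_sel : ∃ s : P → Cn m → Y', ∀ j y, nsq y < 49 →
    F.lb (s j y) = j ∧ F.σ (s j y) = (F.b j).symm y := by
  have key : ∀ j y, nsq y < 49 → ∃ y', F.lb y' = j ∧ F.σ y' = (F.b j).symm y := by
    intro j y hy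
    have ht := mem_target F j (show nsq y < 100 by linarith)
    refine F.modif.surj j _ ((F.b j).map_target ht) ?_
    rw [(F.b j).right_inv ht]
    exact hy.le
  have key' : ∀ j y, ∃ y', nsq y < 49 → F.lb y' = j ∧ F.σ y' = (F.b j).symm y := by
    intro j y
    by_cases hy : nsq y < 49
    · obtain ⟨y', h⟩ := key j y hy
      exact ⟨y', fun _ => h⟩
    · obtain ⟨y', -⟩ := key j 0 (by simp [nsq])
      exact ⟨y', fun h => absurd h hy⟩
  choose s hs using key'
  exact ⟨s, hs⟩

/-- the local inverse of the modification -/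
theorem exists_loc {j : P} {y₀ : Cn m} (hy₀ : nsq y₀ < 49) (hg : F.g j y₀ ≠ 0) {a : P'} {y' : Y'}
    (hlb : F.lb y' = j) (hσ : F.σ y' = (F.b j).symm y₀) (ha : y' ∈ (F.z a).source)
    (ha16 : nsq (F.z a y') < 16) :
    F.la a = j ∧ ∃ (U : Set (Cn m)) (G : Cn m → Cn m), IsOpen U ∧ y₀ ∈ U ∧ HolOn G U ∧
      G y₀ = F.z a y' ∧ ∀ y ∈ U, nsq y < 49 ∧ F.g j y ≠ 0 ∧ nsq (G y) < 16 ∧
        F.sg a (G y) = y ∧ F.lb ((F.z a).symm (G y)) = j ∧
        F.σ ((F.z a).symm (G y)) = (F.b j).symm y := by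
  obtain rfl : F.la a = j := (F.modif.lb_eq a y' ha).symm.trans hlb
  refine ⟨rfl, ?_⟩
  have ht := mem_target F (F.la a) (show nsq y₀ < 100 by linarith)
  have h1 : F.sg a (F.z a y') = y₀ := by
    unfold Mod.sg
    rw [(F.z a).left_inv ha, hσ, (F.b _).right_inv ht]
  have hd : Function.Injective (fderiv ℝ (F.sg a) (F.z a y')) := by
    refine F.modif.dinj a (F.z a y') (by linarith) ?_
    change F.g (F.la a) (F.sg a (F.z a y')) ≠ 0
    rw [h1]
    exact hg
  have hb : Function.Bijective (fderiv ℝ (F.sg a) (F.z a y')) :=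
    ⟨hd, (LinearMap.injective_iff_surjective
      (f := (fderiv ℝ (F.sg a) (F.z a y')).toLinearMap)).1 hd⟩
  have hhol : HolOn (F.sg a) {x | nsq x < 16} := by
    have h := F.modif.holo a
    refine ⟨h.1.mono fun x hx => ?_, fun x hx => h.2 x ?_⟩
    · have : nsq x < 16 := hx
      show nsq x < 100
      linarith
    · have : nsq x < 16 := hx
      show nsq x < 100
      linarith
  obtain ⟨φ, hφ, hx0, hsub, hφe⟩ := exists_bihol (isOpen_nsq 16) hhol
    (show F.z a y' ∈ {x | nsq x < 16} from ha16) hb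
  have hgc : ContinuousOn (F.g (F.la a)) {y | nsq y < 49} :=
    (F.modif.g_holo (F.la a)).1.continuousOn.mono fun y hy => by
      have : nsq y < 49 := hy
      show nsq y < 100
      linarith
  have hU : IsOpen ({y | nsq y < 49} ∩ F.g (F.la a) ⁻¹' {0}ᶜ) :=
    hgc.isOpen_inter_preimage (isOpen_nsq 49) isOpen_compl_singleton
  refine ⟨φ.target ∩ ({y | nsq y < 49} ∩ F.g (F.la a) ⁻¹' {0}ᶜ), φ.symm,
    φ.open_target.inter hU, ⟨?_, hy₀, hg⟩, ?_, ?_, ?_⟩
  · have := φ.map_source hx0
    rwa [hφe, h1] at this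
  · exact ⟨hφ.symm.1.mono inter_subset_left, fun z hz u => hφ.symm.2 z hz.1 u⟩
  · have := φ.left_inv hx0
    rwa [hφe, h1] at this
  · rintro y ⟨hyt, hy49, hyg⟩
    have h2 : nsq (φ.symm y) < 16 := hsub (φ.map_target hyt)
    have h3 : F.sg a (φ.symm y) = y := by rw [← hφe, φ.right_inv hyt]
    have h4 : φ.symm y ∈ (F.z a).target := F.modif.target a (show nsq (φ.symm y) < 100 by linarith)
    have h5 : F.lb ((F.z a).symm (φ.symm y)) = F.la a :=
      F.modif.lb_eq a _ ((F.z a).map_target h4)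
    refine ⟨hy49, hyg, h2, h3, h5, ?_⟩
    have h6 := (F.modif.mem ((F.z a).symm (φ.symm y))).1
    rw [h5] at h6
    have h7 := (F.b (F.la a)).left_inv h6
    change (F.b (F.la a)).symm (F.sg a (φ.symm y)) = _ at h7
    rw [h3] at h7
    exact h7.symm

section main

variable [CompactSpace M] [Finite P] [Finite P']

/-- upper bounds of `log |g|^2` -/
theorem exists_log : ∃ C : ℝ, 0 ≤ C ∧ ∀ j y, nsq y < 49 →
    Real.log (nsq (F.g j y)) ≤ C := by
  have key : ∀ j, ∃ C : ℝ, ∀ y, nsq y < 49 → nsq (F.g j y) ≤ C := by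
    intro j
    have hc : ContinuousOn (fun y => nsq (F.g j y)) {y | nsq y ≤ 49} :=
      BaseP.continuous_nsq.comp_continuousOn ((F.modif.g_holo j).1.continuousOn.mono fun y hy => by
        have : nsq y ≤ 49 := hy
        show nsq y < 100
        linarith)
    obtain ⟨C, hC⟩ := isCompact_nsq49.bddAbove_image hc
    exact ⟨C, fun y hy => hC ⟨y, le_of_lt hy, rfl⟩⟩
  choose C hC using key
  obtain ⟨B, hB⟩ := (Set.finite_range C).bddAbove
  refine ⟨max B 1, by positivity, fun j y hy => ?_⟩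
  have h1 : nsq (F.g j y) ≤ max B 1 := ((hC j y hy).trans (hB ⟨j, rfl⟩)).trans (le_max_left _ _)
  rcases (BaseP.nsq_nonneg (F.g j y)).eq_or_lt with h0 | h0
  · rw [← h0, Real.log_zero]
    positivity
  · exact (Real.log_le_sub_one_of_pos h0).trans (by linarith)

/-- `X/Desc.lean` from the facts about the maximum and `base_psh` -/
theorem desc_of
    (hspec : ∀ t ∈ Ico 0 T, ∀ a y', y' ∈ (F.z a).source → nsq (F.z a y') ≤ 25 →
      ∃ w, F.Phi t (F.π w) = F.Mx t y')
    (hcont : ∀ t ∈ Ico 0 T, ∀ a,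
      ContinuousOn (fun x => F.Mx t ((F.z a).symm x)) {x | nsq x < 25})
    (hbase : ∃ C₁ A B C₃ ε d₀ : ℝ, 0 ≤ C₁ ∧ 0 ≤ A ∧ 0 < B ∧ 0 ≤ C₃ ∧ 0 < ε ∧ 0 < d₀ ∧
      (∀ x : Cn m, nsq x ≤ 1 → -A ≤ hB C₁ A ε x) ∧
      (∀ x : Cn m, 9 ≤ nsq x → nsq x ≤ 16 → hB C₁ A ε x < -A) ∧
      ∀ t ∈ Ico 0 T, T - t < d₀ → C₃ * (1 - t / T) ≤ 1 / 2 ∧ ∀ a,
        PshC (fun x => (1 - C₃ * (1 - t / T)) * (F.Mx t ((F.z a).symm x) +
          (1 - t / T) * (hB C₁ A ε x + B * Real.log (nsq (F.g (F.la a) (F.sg a x))))) +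
          t / T * F.K (F.la a) (F.sg a x))
          {x : Cn m | nsq x < 25 ∧ F.g (F.la a) (F.sg a x) ≠ 0}) :
    ∃ C S d₀ : ℝ, 0 ≤ C ∧ 0 ≤ S ∧ 0 < d₀ ∧ ∀ t ∈ Ico 0 T, T - t < d₀ →
      ∃ q : P → Cn m → ℝ,
        (∀ j, PshC (fun y => q j y + t / T * F.K j y) {y | nsq y < 49}) ∧
        (∀ j y, nsq y < 49 → |q j y| ≤ S) ∧
        (∀ y', nsq (F.yb y') < 49 → q (F.lb y') (F.yb y') ≤ F.Mx t y' + C * (T - t)) ∧
        (∀ y', nsq (F.yb y') < 49 → F.g (F.lb y') (F.yb y') ≠ 0 →
          F.Mx t y' - C * (T - t) * (1 + |Real.log (nsq (F.g (F.lb y') (F.yb y')))|) ≤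
            q (F.lb y') (F.yb y')) := by
  classical
  obtain ⟨C₁, A, B, C₃, ε, d₀, hC₁, hA, hB0, hC₃, hε, hd₀, hlow, hup, hpsh⟩ := hbase
  obtain ⟨S₀, hS₀, hΦ⟩ := F.toFlow.Phi_bound
  obtain ⟨H, hHc, hHA, hHle, hHeq, CH, hCH, hHCH⟩ := exists_H F hε hlow hup
  obtain ⟨s, hs⟩ := exists_sel F
  obtain ⟨Lg, hLg, hlg⟩ := exists_log F
  have hC' : 0 ≤ C₃ * S₀ + CH + B * Lg := by positivity
  have hC'' : 0 ≤ C₃ * S₀ + A + B := by positivity
  refine ⟨(C₃ * S₀ + CH + B * Lg + (C₃ * S₀ + A + B)) / |T|, S₀ + (C₃ * S₀ + CH + B * Lg), d₀,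
    by positivity, by positivity, hd₀, fun t ht htd => ?_⟩
  have hT : 0 < T := lt_of_le_of_lt ht.1 ht.2
  rw [abs_of_pos hT]
  obtain ⟨hκ2, hpsh⟩ := hpsh t ht htd
  set d : ℝ := 1 - t / T with hd
  set κ' : ℝ := C₃ * d with hκ
  have hdT : T - t = d * T := by rw [hd]; field_simp
  have hd0 : 0 < d := by
    have : 0 < T - t := by linarith [ht.2]
    rw [hdT] at this
    exact (mul_pos_iff_of_pos_right hT).1 this
  have hd1 : d ≤ 1 := by
    have : 0 ≤ t / T := div_nonneg ht.1 hT.le
    rw [hd]; linarith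
  have hκ0 : 0 ≤ κ' := mul_nonneg hC₃ hd0.le
  have htT : 0 ≤ t / T := div_nonneg ht.1 hT.le
  -- the points of the core
  have hcore : ∀ y', nsq (F.yb y') < 49 → ∃ a, y' ∈ (F.z a).source ∧ nsq (F.z a y') ≤ 1 :=
    fun y' hy => F.modif.cover y' (le_of_lt hy)
  have hMx : ∀ y', nsq (F.yb y') < 49 → |F.Mx t y'| ≤ S₀ := by
    intro y' hy
    obtain ⟨a, ha, ha1⟩ := hcore y' hy
    obtain ⟨w, hw⟩ := hspec t ht a y' ha (by linarith)
    rw [← hw]
    exact hΦ t ht _
  -- the selected points
  have hsb : ∀ j y, nsq y < 49 → F.yb (s j y) = y := by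
    intro j y hy
    obtain ⟨h1, h2⟩ := hs j y hy
    unfold Mod.yb
    rw [h1, h2, (F.b j).right_inv (mem_target F j (by linarith))]
  have huniq : ∀ j y, nsq y < 49 → F.g j y ≠ 0 → ∀ y', F.lb y' = j →
      F.σ y' = (F.b j).symm y → s j y = y' := by
    intro j y hy hg y' h1 h2
    obtain ⟨h3, h4⟩ := hs j y hy
    refine F.modif.inj _ _ (h3.trans h1.symm) (h4.trans h2.symm) ?_
    have h5 := hsb j y hy
    unfold Mod.yb at h5
    rw [h5, h3]
    exact hg
  -- the functions
  set Q : P → Cn m → ℝ := fun j y => (1 - κ') * (F.Mx t (s j y) +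
    d * (H (s j y) + B * Real.log (nsq (F.g j y)))) with hQ
  set q : P → Cn m → ℝ := fun j y => if F.g j y = 0 then -(S₀ + (C₃ * S₀ + CH + B * Lg)) else
    max (Q j y) (-(S₀ + (C₃ * S₀ + CH + B * Lg))) with hq
  have hQup : ∀ j y, nsq y < 49 → Q j y ≤ F.Mx t (s j y) + d * (C₃ * S₀ + CH + B * Lg) := by
    intro j y hy
    have h1 := hMx (s j y) (by rw [hsb j y hy]; exact hy)
    have h2 := abs_le.1 h1
    have h3 : H (s j y) + B * Real.log (nsq (F.g j y)) ≤ CH + B * Lg :=
      add_le_add (hHCH _) (mul_le_mul_of_nonneg_left (hlg j y hy) hB0.le)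
    have h4 : d * (H (s j y) + B * Real.log (nsq (F.g j y))) ≤ d * (CH + B * Lg) :=
      mul_le_mul_of_nonneg_left h3 hd0.le
    have h5 : 0 ≤ d * (CH + B * Lg) := by positivity
    have h6 : (1 - κ') * (d * (H (s j y) + B * Real.log (nsq (F.g j y)))) ≤ d * (CH + B * Lg) := by
      calc _ ≤ (1 - κ') * (d * (CH + B * Lg)) := mul_le_mul_of_nonneg_left h4 (by linarith)
        _ ≤ 1 * (d * (CH + B * Lg)) := mul_le_mul_of_nonneg_right (by linarith) h5
        _ = _ := one_mul _
    have h7 : -κ' * F.Mx t (s j y) ≤ κ' * S₀ := by nlinarith [h2.1, h2.2]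
    have h8 : Q j y = F.Mx t (s j y) + -κ' * F.Mx t (s j y) +
        (1 - κ') * (d * (H (s j y) + B * Real.log (nsq (F.g j y)))) := by
      rw [hQ]; ring
    rw [h8, hκ] at *
    nlinarith
  have hQlow : ∀ j y, nsq y < 49 → F.Mx t (s j y) -
      d * ((C₃ * S₀ + A + B) * (1 + |Real.log (nsq (F.g j y))|)) ≤ Q j y := by
    intro j y hy
    have h1 := hMx (s j y) (by rw [hsb j y hy]; exact hy)
    have h2 := abs_le.1 h1
    have habs := abs_nonneg (Real.log (nsq (F.g j y)))
    have h3 : -(A + B * |Real.log (nsq (F.g j y))|) ≤ H (s j y) + B * Real.log (nsq (F.g j y)) := by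
      have := mul_le_mul_of_nonneg_left (neg_abs_le (Real.log (nsq (F.g j y)))) hB0.le
      have := hHA (s j y)
      linarith
    have h4 : -(d * (A + B * |Real.log (nsq (F.g j y))|)) ≤
        d * (H (s j y) + B * Real.log (nsq (F.g j y))) := by
      have := mul_le_mul_of_nonneg_left h3 hd0.le
      linarith
    have h5 : 0 ≤ d * (A + B * |Real.log (nsq (F.g j y))|) := by positivity
    have h6 : -(d * (A + B * |Real.log (nsq (F.g j y))|)) ≤
        (1 - κ') * (d * (H (s j y) + B * Real.log (nsq (F.g j y)))) := by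
      have h61 := mul_le_mul_of_nonneg_left h4 (show 0 ≤ 1 - κ' by linarith)
      have h62 : 0 ≤ κ' * (d * (A + B * |Real.log (nsq (F.g j y))|)) := mul_nonneg hκ0 h5
      linarith
    have h7 : -(κ' * S₀) ≤ -κ' * F.Mx t (s j y) := by nlinarith [h2.1, h2.2]
    have h8 : Q j y = F.Mx t (s j y) + -κ' * F.Mx t (s j y) +
        (1 - κ') * (d * (H (s j y) + B * Real.log (nsq (F.g j y)))) := by
      rw [hQ]; ring
    have h9 : 0 ≤ d * (C₃ * S₀ * |Real.log (nsq (F.g j y))| + A * |Real.log (nsq (F.g j y))| +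
        B) := by positivity
    rw [h8]
    rw [hκ] at h7 ⊢
    rw [hκ] at h6
    linarith
  have hqS : ∀ j y, -(S₀ + (C₃ * S₀ + CH + B * Lg)) ≤ q j y := by
    intro j y
    rw [hq]
    dsimp only
    split_ifs
    · exact le_rfl
    · exact le_max_right _ _
  have hqle : ∀ j y, nsq y < 49 → q j y ≤ F.Mx t (s j y) + d * (C₃ * S₀ + CH + B * Lg) := by
    intro j y hy
    have h1 := abs_le.1 (hMx (s j y) (by rw [hsb j y hy]; exact hy))
    have h2 : -(S₀ + (C₃ * S₀ + CH + B * Lg)) ≤
        F.Mx t (s j y) + d * (C₃ * S₀ + CH + B * Lg) := by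
      have : 0 ≤ d * (C₃ * S₀ + CH + B * Lg) := by positivity
      linarith [h1.1]
    rw [hq]
    dsimp only
    split_ifs
    · exact h2
    · exact max_le (hQup j y hy) h2
  have hbound : ∀ j y, nsq y < 49 → |q j y| ≤ S₀ + (C₃ * S₀ + CH + B * Lg) := by
    intro j y hy
    refine abs_le.2 ⟨hqS j y, (hqle j y hy).trans ?_⟩
    have h1 := abs_le.1 (hMx (s j y) (by rw [hsb j y hy]; exact hy))
    have : d * (C₃ * S₀ + CH + B * Lg) ≤ 1 * (C₃ * S₀ + CH + B * Lg) :=
      mul_le_mul_of_nonneg_right hd1 hC'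
    linarith [h1.2]
  refine ⟨q, fun j => ?_, hbound, fun y' hy' => ?_, fun y' hy' hg => ?_⟩
  · -- the local structure
    have hloc : ∀ y₀, nsq y₀ < 49 → F.g j y₀ ≠ 0 → ContinuousAt (Q j) y₀ ∧
        ∃ (w : Cn m → ℝ) (U : Set (Cn m)), IsOpen U ∧ y₀ ∈ U ∧ U ⊆ {y | nsq y < 49} ∧ PshC w U ∧
          (∀ y ∈ U, w y ≤ q j y + t / T * F.K j y) ∧ w y₀ = Q j y₀ + t / T * F.K j y₀ := by
      intro y₀ hy₀ hg₀
      obtain ⟨hs1, hs2⟩ := hs j y₀ hy₀
      obtain ⟨a, ha, ha16, haH⟩ := hHeq (s j y₀) (hcore _ (by rw [hsb j y₀ hy₀]; exact hy₀))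
      obtain ⟨hla, U, G, hU, hyU, hG, hG0, hGU⟩ := exists_loc F hy₀ hg₀ hs1 hs2 ha ha16
      have hsG : ∀ y ∈ U, s j y = (F.z a).symm (G y) := by
        intro y hy
        obtain ⟨h1, h2, -, -, h5, h6⟩ := hGU y hy
        exact huniq j y h1 h2 _ h5 h6
      have hGc : ContinuousAt G y₀ := hG.1.continuousOn.continuousAt (hU.mem_nhds hyU)
      have hx0 : nsq (G y₀) < 16 := (hGU y₀ hyU).2.2.1
      have hgc : ContinuousAt (F.g j) y₀ := (F.modif.g_holo j).1.continuousOn.continuousAt
        ((isOpen_nsq 100).mem_nhds (show nsq y₀ < 100 by linarith))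
      refine ⟨?_, ?_⟩
      · -- continuity
        have h1 : ContinuousAt (fun y => F.Mx t ((F.z a).symm (G y))) y₀ :=
          ContinuousAt.comp (g := fun x => F.Mx t ((F.z a).symm x))
            ((hcont t ht a).continuousAt ((isOpen_nsq 25).mem_nhds
              (show nsq (G y₀) < 25 by linarith))) hGc
        have h2 : ContinuousAt (fun y => H ((F.z a).symm (G y))) y₀ := by
          refine hHc.continuousAt.comp (ContinuousAt.comp (g := (F.z a).symm) ?_ hGc)
          exact (F.z a).continuousAt_symm (F.modif.target a (show nsq (G y₀) < 100 by linarith))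
        have h3 : ContinuousAt (fun y => Real.log (nsq (F.g j y))) y₀ :=
          (BaseP.continuous_nsq.continuousAt.comp hgc).log (nsq_pos hg₀).ne'
        have h4 : ContinuousAt (fun y => (1 - κ') * (F.Mx t ((F.z a).symm (G y)) +
            d * (H ((F.z a).symm (G y)) + B * Real.log (nsq (F.g j y))))) y₀ :=
          continuousAt_const.mul (h1.add (continuousAt_const.mul
            (h2.add (continuousAt_const.mul h3))))
        refine h4.congr ?_
        filter_upwards [hU.mem_nhds hyU] with y hy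
        rw [hQ]
        dsimp only
        rw [hsG y hy]
      · -- the minorant
        refine ⟨fun y => (1 - κ') * (F.Mx t ((F.z a).symm (G y)) +
          d * (hB C₁ A ε (G y) + B * Real.log (nsq (F.g (F.la a) (F.sg a (G y)))))) +
          t / T * F.K (F.la a) (F.sg a (G y)), U, hU, hyU, fun y hy => (hGU y hy).1, ?_, ?_, ?_⟩
        · have hVo : IsOpen {x : Cn m | nsq x < 25 ∧ F.g (F.la a) (F.sg a x) ≠ 0} := by
            have hc : ContinuousOn (fun x => F.g (F.la a) (F.sg a x)) {x | nsq x < 25} := by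
              refine (F.modif.g_holo (F.la a)).1.continuousOn.comp
                ((F.modif.holo a).1.continuousOn.mono fun x hx => ?_) fun x hx => ?_
              · have : nsq x < 25 := hx
                show nsq x < 100
                linarith
              · have hx' : nsq x < 25 := hx
                have h4 : x ∈ (F.z a).target := F.modif.target a (show nsq x < 100 by linarith)
                have h6 := (F.modif.mem ((F.z a).symm x)).2
                rw [F.modif.lb_eq a _ ((F.z a).map_target h4)] at h6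
                exact h6
            exact hc.isOpen_inter_preimage (isOpen_nsq 25) isOpen_compl_singleton
          refine pshC_comp hVo (hpsh a) hU hG fun y hy => ?_
          obtain ⟨-, h2, h3, h4, -, -⟩ := hGU y hy
          refine ⟨by linarith, ?_⟩
          rw [h4, hla]
          exact h2
        · intro y hy
          obtain ⟨h1, h2, h3, h4, h5, h6⟩ := hGU y hy
          have h7 : G y ∈ (F.z a).target := F.modif.target a (show nsq (G y) < 100 by linarith)
          have h8 : hB C₁ A ε (G y) ≤ H (s j y) := by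
            have h9 := hHle a ((F.z a).symm (G y)) ((F.z a).map_target h7)
              (by rw [(F.z a).right_inv h7]; exact h3)
            rw [(F.z a).right_inv h7] at h9
            rw [hsG y hy]
            exact h9
          have h10 : Q j y ≤ q j y := by
            rw [hq]
            dsimp only
            rw [if_neg h2]
            exact le_max_left _ _
          refine le_trans ?_ (add_le_add_left h10 _)
          dsimp only
          rw [h4, hla, hQ]
          dsimp only
          rw [← hsG y hy]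
          have h11 : (1 - κ') * (F.Mx t (s j y) + d * (hB C₁ A ε (G y) +
              B * Real.log (nsq (F.g j y)))) ≤ (1 - κ') * (F.Mx t (s j y) + d * (H (s j y) +
              B * Real.log (nsq (F.g j y)))) := by
            refine mul_le_mul_of_nonneg_left ?_ (by linarith)
            have := mul_le_mul_of_nonneg_left
              (show hB C₁ A ε (G y) + B * Real.log (nsq (F.g j y)) ≤
                H (s j y) + B * Real.log (nsq (F.g j y)) by linarith) hd0.le
            linarith
          linarith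
        · obtain ⟨h1, h2, h3, h4, h5, h6⟩ := hGU y₀ hyU
          dsimp only
          rw [h4, hla, hQ, ← hsG y₀ hyU, hG0]
          dsimp only
          rw [haH]
    have hKs : ContDiffOn ℝ ∞ (F.K j) {y | nsq y < 49} :=
      (F.lim.smooth j).mono fun y hy => mem_target F j (by
        have : nsq y < 49 := hy
        linarith)
    have hK0 : ∀ y ∈ {y : Cn m | nsq y < 49}, ∀ v, 0 ≤ levz (F.K j) v y := fun y hy v =>
      levz_K_nonneg F j (mem_target F j (by
        have : nsq y < 49 := hy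
        linarith)) v
    -- near the zeros of `g`
    have hzero : ∀ y₀, nsq y₀ < 49 → F.g j y₀ = 0 →
        ∀ᶠ y in 𝓝 y₀, q j y = -(S₀ + (C₃ * S₀ + CH + B * Lg)) := by
      intro y₀ hy₀ hg₀
      have hgc : ContinuousAt (fun y => nsq (F.g j y)) y₀ :=
        BaseP.continuous_nsq.continuousAt.comp ((F.modif.g_holo j).1.continuousOn.continuousAt
          ((isOpen_nsq 100).mem_nhds (show nsq y₀ < 100 by linarith)))
      have hpos : 0 < (1 - κ') * (d * B) := mul_pos (by linarith) (mul_pos hd0 hB0)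
      set L : ℝ := ((S₀ + (C₃ * S₀ + CH + B * Lg)) + S₀ + d * CH) / ((1 - κ') * (d * B)) with hL
      have h1 : ∀ᶠ y in 𝓝 y₀, nsq (F.g j y) < Real.exp (-L) := by
        refine hgc.eventually_lt continuousAt_const ?_
        rw [hg₀, nsq_eq_zero.2 rfl]
        exact Real.exp_pos _
      filter_upwards [h1, (isOpen_nsq 49).mem_nhds (show nsq y₀ < 49 from hy₀)] with y h2 hy49
      have hy : nsq y < 49 := hy49
      rw [hq]
      dsimp only
      split_ifs with h3
      · rfl
      · refine max_eq_right ?_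
        have h4 : Real.log (nsq (F.g j y)) < -L := by
          rw [Real.log_lt_iff_lt_exp (nsq_pos h3)]
          exact h2
        have h5 : (1 - κ') * (d * B) * Real.log (nsq (F.g j y)) ≤
            -((S₀ + (C₃ * S₀ + CH + B * Lg)) + S₀ + d * CH) := by
          have h6 := mul_le_mul_of_nonneg_left h4.le hpos.le
          have h7 : (1 - κ') * (d * B) * L = (S₀ + (C₃ * S₀ + CH + B * Lg)) + S₀ + d * CH := by
            rw [hL]
            exact mul_div_cancel₀ _ hpos.ne'
          linarith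
        have h8 := abs_le.1 (hMx (s j y) (by rw [hsb j y hy]; exact hy))
        have h9 : (1 - κ') * (F.Mx t (s j y) + d * H (s j y)) ≤ S₀ + d * CH := by
          have h10 : F.Mx t (s j y) + d * H (s j y) ≤ S₀ + d * CH :=
            add_le_add h8.2 (mul_le_mul_of_nonneg_left (hHCH _) hd0.le)
          have h11 : 0 ≤ S₀ + d * CH := by positivity
          calc _ ≤ (1 - κ') * (S₀ + d * CH) := mul_le_mul_of_nonneg_left h10 (by linarith)
            _ ≤ 1 * (S₀ + d * CH) := mul_le_mul_of_nonneg_right (by linarith) h11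
            _ = _ := one_mul _
        have h12 : Q j y = (1 - κ') * (F.Mx t (s j y) + d * H (s j y)) +
            (1 - κ') * (d * B) * Real.log (nsq (F.g j y)) := by
          rw [hQ]; ring
        rw [h12]
        linarith
    have hqc : ContinuousOn (q j) {y | nsq y < 49} := by
      intro y₀ hy₀
      refine ContinuousAt.continuousWithinAt ?_
      have hy₀' : nsq y₀ < 49 := hy₀
      by_cases hg₀ : F.g j y₀ = 0
      · exact continuousAt_const.congr ((hzero y₀ hy₀' hg₀).mono fun y hy => hy.symm)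
      · have h1 := (hloc y₀ hy₀' hg₀).1
        have hgc : ContinuousAt (F.g j) y₀ := (F.modif.g_holo j).1.continuousOn.continuousAt
          ((isOpen_nsq 100).mem_nhds (show nsq y₀ < 100 by linarith))
        have h2 : ContinuousAt (fun y => max (Q j y) (-(S₀ + (C₃ * S₀ + CH + B * Lg)))) y₀ :=
          h1.max continuousAt_const
        refine h2.congr ?_
        filter_upwards [hgc.eventually_ne hg₀] with y hy
        rw [hq]
        dsimp only
        rw [if_neg hy]
    refine pshC_of_minorant (isOpen_nsq 49)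
      (hqc.add (continuousOn_const.mul hKs.continuousOn)) fun y₀ hy₀ => ?_
    have hy₀' : nsq y₀ < 49 := hy₀
    have hbase : q j y₀ = -(S₀ + (C₃ * S₀ + CH + B * Lg)) →
        ∃ (w : Cn m → ℝ) (U : Set (Cn m)), IsOpen U ∧ y₀ ∈ U ∧ U ⊆ {y | nsq y < 49} ∧ PshC w U ∧
          (∀ y ∈ U, w y ≤ q j y + t / T * F.K j y) ∧ w y₀ = q j y₀ + t / T * F.K j y₀ := by
      intro h
      refine ⟨fun y => -(S₀ + (C₃ * S₀ + CH + B * Lg)) + t / T * F.K j y, {y | nsq y < 49},
        isOpen_nsq 49, hy₀, Subset.rfl, pshC_const_add (isOpen_nsq 49) hKs hK0 htT _,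
        fun y _ => ?_, ?_⟩
      · have := hqS j y
        linarith
      · rw [h]
    by_cases hg₀ : F.g j y₀ = 0
    · refine hbase ?_
      rw [hq]
      dsimp only
      rw [if_pos hg₀]
    · rcases le_total (Q j y₀) (-(S₀ + (C₃ * S₀ + CH + B * Lg))) with h | h
      · refine hbase ?_
        rw [hq]
        dsimp only
        rw [if_neg hg₀, max_eq_right h]
      · obtain ⟨-, w, U, h1, h2, h3, h4, h5, h6⟩ := hloc y₀ hy₀' hg₀
        refine ⟨w, U, h1, h2, h3, h4, h5, ?_⟩
        rw [h6, hq]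
        dsimp only
        rw [if_neg hg₀, max_eq_left h]
  · -- the upper bound
    have h1 : d * (C₃ * S₀ + CH + B * Lg) ≤
        (C₃ * S₀ + CH + B * Lg + (C₃ * S₀ + A + B)) / T * (T - t) := by
      have : (C₃ * S₀ + CH + B * Lg + (C₃ * S₀ + A + B)) / T * (T - t) =
          d * (C₃ * S₀ + CH + B * Lg + (C₃ * S₀ + A + B)) := by
        rw [hdT]; field_simp
      rw [this]
      exact mul_le_mul_of_nonneg_left (by linarith) hd0.le
    by_cases hg : F.g (F.lb y') (F.yb y') = 0
    · have h2 := abs_le.1 (hMx y' hy')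
      have h3 : q (F.lb y') (F.yb y') = -(S₀ + (C₃ * S₀ + CH + B * Lg)) := by
        rw [hq]
        dsimp only
        rw [if_pos hg]
      have h4 : 0 ≤ d * (C₃ * S₀ + CH + B * Lg) := by positivity
      rw [h3]
      linarith [h2.1]
    · have h2 : s (F.lb y') (F.yb y') = y' := by
        refine huniq _ _ hy' hg y' rfl ?_
        exact ((F.b (F.lb y')).left_inv (F.modif.mem y').1).symm
      have h3 := hqle (F.lb y') (F.yb y') hy'
      rw [h2] at h3
      linarith
  · -- the lower bound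
    have h2 : s (F.lb y') (F.yb y') = y' := by
      refine huniq _ _ hy' hg y' rfl ?_
      exact ((F.b (F.lb y')).left_inv (F.modif.mem y').1).symm
    have h3 := hQlow (F.lb y') (F.yb y') hy'
    rw [h2] at h3
    have h4 : Q (F.lb y') (F.yb y') ≤ q (F.lb y') (F.yb y') := by
      rw [hq]
      dsimp only
      rw [if_neg hg]
      exact le_max_left _ _
    have habs := abs_nonneg (Real.log (nsq (F.g (F.lb y') (F.yb y'))))
    have h5 : (C₃ * S₀ + CH + B * Lg + (C₃ * S₀ + A + B)) / T * (T - t) *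
        (1 + |Real.log (nsq (F.g (F.lb y') (F.yb y')))|) =
          d * ((C₃ * S₀ + CH + B * Lg + (C₃ * S₀ + A + B)) *
            (1 + |Real.log (nsq (F.g (F.lb y') (F.yb y')))|)) := by
      rw [hdT]; field_simp
    have h6 : d * ((C₃ * S₀ + A + B) * (1 + |Real.log (nsq (F.g (F.lb y') (F.yb y')))|)) ≤
        d * ((C₃ * S₀ + CH + B * Lg + (C₃ * S₀ + A + B)) *
            (1 + |Real.log (nsq (F.g (F.lb y') (F.yb y')))|)) := by
      refine mul_le_mul_of_nonneg_left (mul_le_mul_of_nonneg_right (by linarith) (by linarith))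
        hd0.le
    rw [h5]
    linarith

end main

end Desc

end Pool.Agent.KRFX
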