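import Pool.Agent.Work.MP_a2bf38_gt.X.Base
import Pool.Agent.Work.MP_a2bf38_gt.X.DescOf

/-!
# Down to the base: the functions on the balls of `Y`
-/

open scoped ContDiff ENNReal ComplexOrder Topology
open Set MeasureTheory Filter Pool.Agent.ToricKRF Pool.Agent.ToricKRF.G Pool.Agent.KRFS
  Pool.Agent.KRFF Pool.Agent.KRFG

namespace Pool.Agent.KRFX

variable {n m l : ℕ} {M Y Y' W : Type} [TopologicalSpace M] [CompactSpace M]
  [TopologicalSpace Y] [TopologicalSpace Y'] [T2Space Y'] [TopologicalSpace W]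
  {κ P P' ι : Type} [Finite P] [Finite P'] [Finite ι] {T : ℝ}
  (F : Mod n m l M Y Y' W κ P P' ι T)

theorem Mod.desc : ∃ C S d₀ : ℝ, 0 ≤ C ∧ 0 ≤ S ∧ 0 < d₀ ∧ ∀ t ∈ Ico 0 T, T - t < d₀ →
    ∃ q : P → Cn m → ℝ,
      (∀ j, PshC (fun y => q j y + t / T * F.K j y) {y | nsq y < 49}) ∧
      (∀ j y, nsq y < 49 → |q j y| ≤ S) ∧
      (∀ y', nsq (F.yb y') < 49 → q (F.lb y') (F.yb y') ≤ F.Mx t y' + C * (T - t)) ∧
      (∀ y', nsq (F.yb y') < 49 → F.g (F.lb y') (F.yb y') ≠ 0 →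
        F.Mx t y' - C * (T - t) * (1 + |Real.log (nsq (F.g (F.lb y') (F.yb y')))|) ≤
          q (F.lb y') (F.yb y')) := by
  refine Desc.desc_of F (fun t ht a y' hy hy' => ?_) (fun t ht a => F.Mx_continuousOn ht a)
    F.base_psh
  obtain ⟨w, -, -, hw⟩ := (F.Mx_spec ht hy hy').1
  exact ⟨w, hw⟩

end Pool.Agent.KRFX
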