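import Pool.Agent.Work.MP_a2bf38_gt.X.Loc
import Pool.Agent.Work.MP_a2bf38_gt.X.LocComp
import Pool.Agent.Work.MP_a2bf38_gt.K.Base

/-!
# Continuous psh functions from local minorants
-/

open scoped ContDiff ENNReal ComplexOrder Topology
open Set MeasureTheory Filter Pool.Agent.ToricKRF Pool.Agent.ToricKRF.G Pool.Agent.KRFS
  Pool.Agent.KRFF Pool.Agent.KRFG

namespace Pool.Agent.KRFX

/-- the average over a small circle of a function on a line -/
theorem cavg_line_smul {m : ℕ} (w : Cn m → ℝ) (z v : Cn m) (r : ℝ) :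
    cavg (fun ζ => w (line z (r • v) ζ)) 1 = cavg (fun ζ => w (line z v ζ)) r := by
  unfold cavg
  congr 1
  refine intervalIntegral.integral_congr fun θ _ => ?_
  simp only
  rw [line_smul]
  norm_num

/-- A continuous function which has at every point a continuous psh minorant with the same value
is psh. -/
theorem pshC_of_minorant {m : ℕ} {u : Cn m → ℝ} {V : Set (Cn m)} (hV : IsOpen V)
    (hu : ContinuousOn u V)
    (h : ∀ z ∈ V, ∃ (w : Cn m → ℝ) (U : Set (Cn m)), IsOpen U ∧ z ∈ U ∧ U ⊆ V ∧ PshC w U ∧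
      (∀ y ∈ U, w y ≤ u y) ∧ w z = u z) : PshC u V := by
  refine pshC_of_local hV hu fun z hz v => ?_
  obtain ⟨w, U, hU, hzU, hUV, hw, hwu, hwz⟩ := h z hz
  have hl : Continuous (line z v) := (contDiff_line z v).continuous
  have h1 : ∀ᶠ ζ in 𝓝 (0 : ℂ), line z v ζ ∈ U := by
    refine hl.continuousAt.eventually_mem ?_
    rw [line_zero]
    exact hU.mem_nhds hzU
  obtain ⟨δ, hδ, hδ'⟩ := Metric.eventually_nhds_iff_ball.1 h1
  filter_upwards [Ioo_mem_nhdsGT hδ] with r hr
  have hin : ∀ ζ : ℂ, ‖ζ‖ ≤ 1 → line z v (r * ζ) ∈ U := by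
    intro ζ hζ
    refine hδ' _ ?_
    rw [mem_ball_zero_iff, norm_mul, Complex.norm_real, Real.norm_eq_abs, abs_of_pos hr.1]
    calc r * ‖ζ‖ ≤ r * 1 := mul_le_mul_of_nonneg_left hζ hr.1.le
      _ < δ := by rw [mul_one]; exact hr.2
  have h2 : w z ≤ cavg (fun ζ => w (line z v ζ)) r := by
    rw [← cavg_line_smul]
    refine hw.2 z (r • v) fun ζ hζ => ?_
    rw [line_smul]
    exact hin ζ hζ
  have hcirc : ∀ θ : ℝ, line z v ((r : ℂ) * Complex.exp (θ * Complex.I)) ∈ U := fun θ =>
    hin _ (by rw [Complex.norm_exp_ofReal_mul_I])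
  have hc0 : Continuous fun θ : ℝ => line z v ((r : ℂ) * Complex.exp (θ * Complex.I)) :=
    hl.comp (by fun_prop)
  have h3 : cavg (fun ζ => w (line z v ζ)) r ≤ cavg (fun ζ => u (line z v ζ)) r := by
    unfold cavg
    refine mul_le_mul_of_nonneg_left ?_ (by positivity)
    refine intervalIntegral.integral_mono (by positivity)
      ((hw.1.comp_continuous hc0 hcirc).intervalIntegrable _ _)
      ((hu.comp_continuous hc0 fun θ => hUV (hcirc θ)).intervalIntegrable _ _) fun θ => ?_
    exact hwu _ (hcirc θ)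
  rw [← hwz]
  exact h2.trans h3

/-- a constant plus a multiple of a smooth psh function -/
theorem pshC_const_add {m : ℕ} {K : Cn m → ℝ} {V : Set (Cn m)} (hV : IsOpen V)
    (hK : ContDiffOn ℝ ∞ K V) (h : ∀ z ∈ V, ∀ v, 0 ≤ levz K v z) {s : ℝ} (hs : 0 ≤ s) (c : ℝ) :
    PshC (fun y => c + s * K y) V := by
  refine pshC_of_touch hV (continuousOn_const.add (continuousOn_const.mul hK.continuousOn))
    fun z hz _ v => ?_
  have h1 : ContDiffAt ℝ 2 (fun ζ => K (line z v ζ)) 0 := BaseP.contDiffAt_line hV hK hz v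
  refine ⟨fun ζ => c + s * K (line z v ζ), contDiffAt_const.add (contDiffAt_const.mul h1),
    by simp [line_zero], Eventually.of_forall fun _ => le_rfl, ?_⟩
  have h2 : lapC (fun ζ : ℂ => c + s * K (line z v ζ)) 0 = s * (4 * levz K v z) := by
    rw [HB.lapC_add contDiffAt_const (contDiffAt_const.mul h1), HB.lapC_const_mul s h1,
      BaseP.lapC_line' hV hK hz v]
    have : lapC (fun _ : ℂ => c) 0 = 0 := by
      have hD : ∀ w : ℂ, D w (fun _ : ℂ => c) = fun _ => 0 := fun w => by
        funext x; simp [D]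
      have hD0 : ∀ w : ℂ, D w (fun _ : ℂ => (0 : ℝ)) = fun _ => 0 := fun w => by
        funext x; simp [D]
      unfold lapC
      simp only [hD, hD0, add_zero]
    rw [this, zero_add]
  rw [h2]
  exact mul_nonneg hs (mul_nonneg (by norm_num) (h z hz v))

end Pool.Agent.KRFX
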