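import Pool.Agent.Work.MP_a2bf38_gt.X.Defs
import Pool.Agent.Work.MP_a2bf38_gt.K.Setup

/-!
# The setup of a Kähler-Ricci flow on a fibration with semistable models over a modification
-/

open scoped ContDiff ENNReal ComplexOrder
open Set Pool.Agent.ToricKRF Pool.Agent.ToricKRF.G Pool.Agent.KRFS Pool.Agent.KRFF
  Pool.Agent.KRFG

namespace Pool.Agent.KRFX

/-- A Kähler-Ricci flow on a fibration with semistable models over a modification of the base. -/
structure Mod (n m l : ℕ) (M Y Y' W : Type) [TopologicalSpace M] [TopologicalSpace Y]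
    [TopologicalSpace Y'] [TopologicalSpace W] (κ P P' ι : Type) (T : ℝ) extends Flow n M κ T where
  b : P → OpenPartialHomeomorph Y (Cn m)
  f : M → Y
  z : P' → OpenPartialHomeomorph Y' (Cn m)
  σ : Y' → Y
  lb : Y' → P
  la : P' → P
  g : P → Cn m → Cn l
  a : ι → OpenPartialHomeomorph W (Cn n)
  al : ι → κ
  lab : W → P'
  π : W → M
  h : W → Y'
  τ : W → Cn m
  N : P' → Fin m → ℕ
  pc : ι → P'
  s : ι → Fin m → ℝ
  row : ι → Fin n → Option (Fin m)
  K : P → Cn m → ℝ
  atlasY : IsAtlas b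
  hol : IsHolMap e b f
  modif : IsModif b z σ lb la g
  model : IsModel e b f z σ lb g a al lab π h τ N pc s row
  lim : IsLimit e b f T ψ Ω K
  Θ_eq : ∀ c z, Θ c z = ψ c (0, z) + T * Real.log (Ω c z)

section

variable {n m l : ℕ} {M Y Y' W : Type} [TopologicalSpace M] [TopologicalSpace Y]
  [TopologicalSpace Y'] [TopologicalSpace W] {κ P P' ι : Type} {T : ℝ}
  (F : Mod n m l M Y Y' W κ P P' ι T)

/-- the maximum of `φ(t)` on the image in `M` of the fibre of `W` over `y'` -/
noncomputable def Mod.Mx (t : ℝ) (y' : Y') : ℝ := sSup (F.Phi t '' (F.π '' (F.h ⁻¹' {y'})))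

/-- the coordinates in `Y'` of the point `x` of the chart `c` of `W` -/
noncomputable def Mod.zc (c : ι) (x : Cn n) : Cn m := F.z (F.pc c) (F.h ((F.a c).symm x))

/-- the coordinates in `Y` of the point `x` of the chart `c` of `W` -/
noncomputable def Mod.yc (c : ι) (x : Cn n) : Cn m :=
  F.b (F.la (F.pc c)) (F.f (F.π ((F.a c).symm x)))

/-- `φ - max ≤ 0` in the chart `c` of `W` -/
noncomputable def Mod.gc (t : ℝ) (c : ι) (x : Cn n) : ℝ :=
  F.Phi t (F.π ((F.a c).symm x)) - F.Mx t (F.h ((F.a c).symm x))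

/-- the map `σ` in the chart `a` of `Y'` and the chart `la a` of `Y` -/
noncomputable def Mod.sg (a : P') (x : Cn m) : Cn m := F.b (F.la a) (F.σ ((F.z a).symm x))

/-- the coordinates of the point `σ y'` of `Y` -/
noncomputable def Mod.yb (y' : Y') : Cn m := F.b (F.lb y') (F.σ y')

end

end Pool.Agent.KRFX
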