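import Pool.Agent.Work.MP_a2bf38_gt.K.ContactOf
import Pool.Agent.Work.MP_a2bf38_gt.X.Setup

/-!
# Functions of the base and the flow: domination (X/Dom)

Functions `R j` of `Y` with `i ∂ ∂bar (R j + t₀/T K j) ≥ 0` which are `≤ φ(t₀) + s` off a small set are
`≤ φ(t) + s + C √(T - t₀)` for all `t ≥ t₀`: the contact set (ABP) at the time `t₀`, and the minimum
principle for later times.  Everything is stated for a flow and a holomorphic map (no models).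
-/

open scoped ContDiff ENNReal ComplexOrder Topology
open Set MeasureTheory Filter Pool.Agent.ToricKRF Pool.Agent.ToricKRF.G Pool.Agent.KRFS
  Pool.Agent.KRFF Pool.Agent.KRFG

namespace Pool.Agent.KRFX.Dm

section

variable {n m : ℕ} {M Y : Type} [TopologicalSpace M] [TopologicalSpace Y]
  {κ P : Type} {T : ℝ} (F : Flow n M κ T) {b : P → OpenPartialHomeomorph Y (Cn m)} {f : M → Y}
  {K : P → Cn m → ℝ}

theorem drop_local (hol : IsHolMap F.e b f) (lim : IsLimit F.e b f T F.ψ F.Ω K) {C₁ : ℝ}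
    (h1 : ∀ c, ∀ t ∈ Ico 0 T, ∀ z ∈ (F.e c).target,
      (∀ u, 1 / 2 * (1 - t / T) * lev (F.ψ c) u (0, z) ≤ lev (F.ψ c) u (t, z)) →
      n * Real.log (1 - t / T) - C₁ ≤ F.dphi c (t, z))
    {t₀ s₀ δ : ℝ} {G : Cn m → ℝ} (ht₀ : t₀ ∈ Ico 0 T) (hs₀ : s₀ ∈ Ioo t₀ T) (hδ : 0 < δ) {j : P}
    {x₀ : M} (hx : f x₀ ∈ (b j).source) (hy : nsq (b j (f x₀)) < 16)
    (hG : ∀ ε > 0, ∃ (u' : Cn m → ℝ) (V' : Set (Cn m)), IsOpen V' ∧ {y | nsq y ≤ 16} ⊆ V' ∧
      ContDiffOn ℝ ∞ u' V' ∧ (∀ z ∈ V', ∀ v, 0 ≤ levz u' v z) ∧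
      ∀ z ∈ V', |u' z - (G z + t₀ / T * K j z)| ≤ ε)
    (hmin : ∀ s ∈ Icc t₀ s₀, ∀ x, f x ∈ (b j).source → nsq (b j (f x)) ≤ 16 →
      F.Phi s₀ x₀ - G (b j (f x₀)) + barr n T C₁ t₀ s₀ ≤
        F.Phi s x - G (b j (f x)) + barr n T C₁ t₀ s)
    (hmin0 : ∀ x, f x ∈ (b j).source → nsq (b j (f x)) ≤ 16 →
      F.Phi s₀ x₀ - G (b j (f x₀)) + barr n T C₁ t₀ s₀ + δ ≤
        F.Phi t₀ x - G (b j (f x))) : False := by
  have hT : 0 < T := ht₀.1.trans_lt ht₀.2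
  have h0T : (0 : ℝ) ∈ Ico 0 T := ⟨le_rfl, hT⟩
  have hsub : ∀ s ∈ Icc t₀ s₀, s ∈ Ico 0 T := fun s hs => ⟨ht₀.1.trans hs.1, hs.2.trans_lt hs₀.2⟩
  have hs₀I : s₀ ∈ Icc t₀ s₀ := ⟨hs₀.1.le, le_rfl⟩
  set w₀ : ℝ := F.Phi s₀ x₀ - G (b j (f x₀)) + barr n T C₁ t₀ s₀ with hw₀
  obtain ⟨c, hc⟩ := F.atlas.cover x₀
  set z₀ := F.e c x₀ with hz₀
  have hz₀t : z₀ ∈ (F.e c).target := (F.e c).map_source hc
  have hsz₀ : (F.e c).symm z₀ = x₀ := (F.e c).left_inv hc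
  set y : Cn n → Cn m := fun z => b j (f ((F.e c).symm z)) with hydef
  set S₀ : Set (Cn n) := {z | z ∈ (F.e c).target ∧ f ((F.e c).symm z) ∈ (b j).source} with hS₀
  have hfs : ContinuousOn (fun z => f ((F.e c).symm z)) (F.e c).target :=
    hol.cont.comp_continuousOn (F.e c).continuousOn_symm
  have hS₀o : IsOpen S₀ := hfs.isOpen_inter_preimage (F.e c).open_target (b j).open_source
  have hyhol : HolOn y S₀ := hol.holo c j
  have hz₀S : z₀ ∈ S₀ := ⟨hz₀t, by rw [hsz₀]; exact hx⟩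
  have hyz₀ : y z₀ = b j (f x₀) := by simp only [hydef, hsz₀]
  -- a good ball
  obtain ⟨U, hU, hUs, hψ, hp, hU0, hUt⟩ := KRFF.Bd.exists_good F c
  have hψ0 : ContDiffOn ℝ ∞ (fun x => F.ψ c (0, x)) (F.e c).target :=
    hψ.comp (contDiff_const.prodMk contDiff_id).contDiffOn fun z hz => hUs ⟨h0T, hz⟩
  have hlev0 : ∀ z ∈ (F.e c).target, ∀ u, levz (fun x => F.ψ c (0, x)) u z =
      lev (F.ψ c) u (0, z) := fun z hz u => levz_slice hU hψ (hUs ⟨h0T, hz⟩) u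
  have hpos0 : ∀ z ∈ (F.e c).target, ∀ u, u ≠ 0 → 0 < lev (F.ψ c) u (0, z) := fun z hz u hu =>
    lev_pos hU hψ (hUs ⟨h0T, hz⟩) (F.krf.pos c 0 h0T z hz) hu
  obtain ⟨C₂, hC₂, hev⟩ := Bd.levz_le_local (F.e c).open_target
    (f := fun x => nsq (x - z₀)) (g := fun x => F.ψ c (0, x))
    ((Gap.contDiff_nsq'.comp (contDiff_id.sub contDiff_const)).contDiffOn) hψ0 hz₀t
    (fun z hz u hu => by rw [hlev0 z hz]; exact hpos0 z hz u hu)
  have hev2 : ∀ᶠ z in 𝓝 z₀, z ∈ S₀ := hS₀o.mem_nhds hz₀S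
  have hycont : ContinuousOn y S₀ := hyhol.1.continuousOn
  have hev3 : ∀ᶠ z in 𝓝 z₀, nsq (y z) < 16 := by
    have h2 : ContinuousAt (fun z => nsq (y z)) z₀ :=
      Gap.contDiff_nsq'.continuous.continuousAt.comp (hycont.continuousAt (hS₀o.mem_nhds hz₀S))
    exact h2.eventually_lt_const (by simp only [hyz₀]; exact hy)
  obtain ⟨r, hr, hBc, hBsub⟩ := exists_ball ((hev.and (hev2.and hev3)))
  set B : Set (Cn n) := {z | nsq (z - z₀) ≤ r ^ 2} with hB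
  have hBS : ∀ z ∈ B, z ∈ S₀ := fun z hz => (hBsub hz).2.1
  have hBy : ∀ z ∈ B, nsq (y z) < 16 := fun z hz => (hBsub hz).2.2
  have hBq : ∀ z ∈ B, ∀ u, nsq u ≤ C₂ * lev (F.ψ c) u (0, z) := fun z hz u => by
    have h2 := (hBsub hz).1 u
    rw [Gap.levz_nsq, hlev0 z (hBS z hz).1] at h2
    exact h2
  have hz₀B : z₀ ∈ B := by
    simp only [hB, mem_ofPred_eq, sub_self, Gap.nsq_zero]
    positivity
  have hd₀ : 0 < 1 - s₀ / T := by
    rw [sub_pos, div_lt_one hT]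
    exact hs₀.2
  -- the constants
  set σ : ℝ := (1 - s₀ / T) / (2 * (C₂ + 1)) with hσ
  have hσ0 : 0 < σ := by positivity
  have hσC : σ * C₂ ≤ 1 / 2 * (1 - s₀ / T) := by
    rw [hσ, div_mul_eq_mul_div, div_le_iff₀ (by positivity)]
    nlinarith
  set ε : ℝ := min δ (σ * r ^ 2) / 4 with hε
  have hm0 : 0 < min δ (σ * r ^ 2) := lt_min hδ (by positivity)
  have hε0 : 0 < ε := by positivity
  have hε1 : 2 * ε < δ := by
    have := min_le_left δ (σ * r ^ 2)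
    linarith
  have hε2 : 2 * ε < σ * r ^ 2 := by
    have := min_le_right δ (σ * r ^ 2)
    linarith
  obtain ⟨u', V', hV', hsubV, hu', hpsh, hclose⟩ := hG ε hε0
  -- the perturbed function
  set V : ℝ × Cn n → ℝ := fun q => F.phi c q + t₀ / T * K j (y q.2) - u' (y q.2) +
    barr n T C₁ t₀ q.1 + σ * nsq (q.2 - z₀) with hV
  have hWs : ∀ s ∈ Icc t₀ s₀, ∀ z ∈ B,
      F.Phi s ((F.e c).symm z) = F.phi c (s, z) := fun s hs z hz => by
    rw [F.Phi_eq (hsub s hs) ((F.e c).map_target (hBS z hz).1),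
      (F.e c).right_inv (hBS z hz).1]
  have hlow : ∀ s ∈ Icc t₀ s₀, ∀ z ∈ B, w₀ + σ * nsq (z - z₀) - ε ≤ V (s, z) := by
    intro s hs z hz
    have h2 := hmin s hs ((F.e c).symm z) (hBS z hz).2 (hBy z hz).le
    rw [hWs s hs z hz] at h2
    have h3 := (abs_le.1 (hclose (y z) (hsubV (hBy z hz).le))).2
    simp only [hV]
    change w₀ ≤ F.phi c (s, z) - G (y z) + barr n T C₁ t₀ s at h2
    linarith
  have hlow0 : ∀ z ∈ B, w₀ + δ - ε ≤ V (t₀, z) := by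
    intro z hz
    have h2 := hmin0 ((F.e c).symm z) (hBS z hz).2 (hBy z hz).le
    rw [hWs t₀ ⟨le_rfl, hs₀.1.le⟩ z hz] at h2
    have h3 := (abs_le.1 (hclose (y z) (hsubV (hBy z hz).le))).2
    have h4 : 0 ≤ σ * nsq (z - z₀) := mul_nonneg hσ0.le (Gap.nsq_nonneg _)
    simp only [hV, barr_self]
    change w₀ + δ ≤ F.phi c (t₀, z) - G (y z) at h2
    linarith
  have hup : V (s₀, z₀) ≤ w₀ + ε := by
    have h2 := (abs_le.1 (hclose (y z₀) (hsubV (hBy z₀ hz₀B).le))).1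
    have h3 := hWs s₀ hs₀I z₀ hz₀B
    rw [hsz₀] at h3
    simp only [hV, sub_self, Gap.nsq_zero, mul_zero, add_zero]
    rw [hw₀, h3, ← hyz₀]
    linarith
  -- continuity
  have hyS : ContDiffOn ℝ ∞ y S₀ := hyhol.1
  obtain ⟨Uφ, hUφ, hUφs, hφ⟩ := F.phi_isFun.smooth c
  have hKy : ContDiffOn ℝ ∞ (fun z => K j (y z)) S₀ :=
    (lim.smooth j).comp hyS fun z hz => (b j).map_source hz.2
  set S₁ : Set (Cn n) := S₀ ∩ y ⁻¹' V' with hS₁
  have hS₁o : IsOpen S₁ := hycont.isOpen_inter_preimage hS₀o hV'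
  have hBS₁ : B ⊆ S₁ := fun z hz => ⟨hBS z hz, hsubV (hBy z hz).le⟩
  have hu'y : ContDiffOn ℝ ∞ (fun z => u' (y z)) S₁ :=
    hu'.comp (hyS.mono inter_subset_left) fun z hz => hz.2
  have hVc : ContinuousOn V (Icc t₀ s₀ ×ˢ B) := by
    have e1 : ContinuousOn (fun q : ℝ × Cn n => F.phi c q) (Icc t₀ s₀ ×ˢ B) :=
      hφ.continuousOn.mono fun q hq => hUφs ⟨hsub _ hq.1, (hBS _ hq.2).1⟩
    have e2 : ContinuousOn (fun q : ℝ × Cn n => K j (y q.2)) (Icc t₀ s₀ ×ˢ B) :=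
      hKy.continuousOn.comp continuousOn_snd fun q hq => hBS _ hq.2
    have e3 : ContinuousOn (fun q : ℝ × Cn n => u' (y q.2)) (Icc t₀ s₀ ×ˢ B) :=
      hu'y.continuousOn.comp continuousOn_snd fun q hq => hBS₁ hq.2
    have e4 : ContinuousOn (fun q : ℝ × Cn n => barr n T C₁ t₀ q.1) (Icc t₀ s₀ ×ˢ B) := by
      have e5 : ContinuousOn (barr n T C₁ t₀) (Icc t₀ s₀) := fun s hs =>
        (hasDerivAt_barr n hT (hsub s hs).2).continuousAt.continuousWithinAt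
      exact e5.comp continuousOn_fst fun q hq => hq.1
    have e6 : Continuous fun q : ℝ × Cn n => σ * nsq (q.2 - z₀) :=
      continuous_const.mul (Gap.contDiff_nsq'.continuous.comp (by fun_prop))
    exact (((e1.add (continuousOn_const.mul e2)).sub e3).add e4).add e6.continuousOn
  obtain ⟨⟨s₁, z₁⟩, ⟨hs₁, hz₁⟩, hminV⟩ := (isCompact_Icc.prod hBc).exists_isMinOn
    ⟨(s₀, z₀), hs₀I, hz₀B⟩ hVc
  have hs₁I : s₁ ∈ Icc t₀ s₀ := hs₁
  have hz₁B : z₁ ∈ B := hz₁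
  have hminV' : ∀ s ∈ Icc t₀ s₀, ∀ z ∈ B, V (s₁, z₁) ≤ V (s, z) := fun s hs z hz =>
    hminV (show (s, z) ∈ Icc t₀ s₀ ×ˢ B from ⟨hs, hz⟩)
  have hle := (hminV' s₀ hs₀I z₀ hz₀B).trans hup
  have hs₁t : t₀ < s₁ := by
    refine lt_of_le_of_ne hs₁I.1 fun h => ?_
    have h2 := hlow0 z₁ hz₁B
    rw [h] at h2
    linarith
  have hz₁r : nsq (z₁ - z₀) < r ^ 2 := by
    refine lt_of_le_of_ne hz₁B fun h => ?_
    have h2 := hlow s₁ hs₁I z₁ hz₁B
    rw [h] at h2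
    linarith
  have hs₁T := hsub s₁ hs₁I
  have hz₁S := hBS z₁ hz₁B
  have hd₁ : 1 - s₀ / T ≤ 1 - s₁ / T := by
    have := div_le_div_of_nonneg_right hs₁I.2 hT.le
    linarith
  -- the Levi form
  have hlev : ∀ u, 1 / 2 * (1 - s₁ / T) * lev (F.ψ c) u (0, z₁) ≤ lev (F.ψ c) u (s₁, z₁) := by
    intro u
    have hSφ : ContDiffOn ℝ ∞ (fun z => F.phi c (s₁, z)) S₁ :=
      hφ.comp (contDiff_const.prodMk contDiff_id).contDiffOn fun z hz => hUφs ⟨hs₁T, hz.1.1⟩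
    have hSn : ContDiffOn ℝ ∞ (fun z => nsq (z - z₀)) S₁ :=
      (Gap.contDiff_nsq'.comp (contDiff_id.sub contDiff_const)).contDiffOn
    have hSK : ContDiffOn ℝ ∞ (fun z => K j (y z)) S₁ := hKy.mono inter_subset_left
    have hall : ContDiffOn ℝ ∞ (fun z => F.phi c (s₁, z) + t₀ / T * K j (y z) - u' (y z) +
        barr n T C₁ t₀ s₁ + σ * nsq (z - z₀)) S₁ :=
      (((hSφ.add (contDiffOn_const.mul hSK)).sub hu'y).add contDiffOn_const).add
        (contDiffOn_const.mul hSn)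
    have h2 := levz_nonneg_of_min hS₁o hall (hBS₁ hz₁B) (by
      have h3 : ∀ᶠ z in 𝓝 z₁, nsq (z - z₀) < r ^ 2 := by
        have : ContinuousAt (fun z : Cn n => nsq (z - z₀)) z₁ :=
          (Gap.contDiff_nsq'.continuous.comp (by fun_prop)).continuousAt
        exact this.eventually_lt_const hz₁r
      filter_upwards [h3] with z hz
      exact hminV' s₁ hs₁I z hz.le) u
    have hn : S₁ ∈ 𝓝 z₁ := hS₁o.mem_nhds (hBS₁ hz₁B)
    have a1 : ContDiffAt ℝ 2 (fun z => F.phi c (s₁, z)) z₁ :=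
      (hSφ.contDiffAt hn).of_le two_le_infty
    have a2 : ContDiffAt ℝ 2 (fun z => K j (y z)) z₁ := (hSK.contDiffAt hn).of_le two_le_infty
    have a3 : ContDiffAt ℝ 2 (fun z => u' (y z)) z₁ := (hu'y.contDiffAt hn).of_le two_le_infty
    have a5 : ContDiffAt ℝ 2 (fun z => nsq (z - z₀)) z₁ := (hSn.contDiffAt hn).of_le two_le_infty
    have a2' : ContDiffAt ℝ 2 (fun z => t₀ / T * K j (y z)) z₁ := contDiffAt_const.mul a2
    have a5' : ContDiffAt ℝ 2 (fun z => σ * nsq (z - z₀)) z₁ := contDiffAt_const.mul a5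
    rw [Bd.levz_add (((a1.add a2').sub a3).add contDiffAt_const) a5',
      Bd.levz_add ((a1.add a2').sub a3) contDiffAt_const, Bd.levz_sub (a1.add a2') a3,
      Bd.levz_add a1 a2', Bd.levz_const_mul _ a2, Bd.levz_const_mul _ a5, Bd.levz_const,
      Gap.levz_nsq, levz_slice hUφ hφ (hUφs ⟨hs₁T, hz₁S.1⟩), F.lev_phi hs₁T hz₁S.1] at h2
    -- the form of the base
    have e1 : levz (fun z => K j (y z)) u z₁ = levz (F.Θ c) u z₁ := by
      rw [← F.theta c z₁ hz₁S.1 u]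
      exact (lim.eq c j z₁ hz₁S.1 hz₁S.2 u).symm
    have e2 : 0 ≤ levz (fun z => u' (y z)) u z₁ := by
      rw [levz_comp hV' hu' hS₀o hyhol hz₁S (hBS₁ hz₁B).2]
      exact hpsh _ (hBS₁ hz₁B).2 _
    have e3 : 0 ≤ levz (F.Θ c) u z₁ := F.psh c z₁ hz₁S.1 u
    have e4 : t₀ / T * levz (F.Θ c) u z₁ ≤ s₁ / T * levz (F.Θ c) u z₁ :=
      mul_le_mul_of_nonneg_right (div_le_div_of_nonneg_right hs₁t.le hT.le) e3
    have e5 : σ * nsq u ≤ 1 / 2 * (1 - s₁ / T) * lev (F.ψ c) u (0, z₁) := by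
      have e6 : 0 ≤ lev (F.ψ c) u (0, z₁) := by
        by_cases hu : u = 0
        · rw [hu, ← hlev0 z₁ hz₁S.1]
          have := Bd.levz_smul (F.e c).open_target hψ0 hz₁S.1 0 0
          simp only [smul_zero] at this
          rw [this]
          norm_num
        · exact (hpos0 z₁ hz₁S.1 u hu).le
      calc σ * nsq u ≤ σ * (C₂ * lev (F.ψ c) u (0, z₁)) :=
            mul_le_mul_of_nonneg_left (hBq z₁ hz₁B u) hσ0.le
        _ = σ * C₂ * lev (F.ψ c) u (0, z₁) := by ring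
        _ ≤ 1 / 2 * (1 - s₁ / T) * lev (F.ψ c) u (0, z₁) :=
            mul_le_mul_of_nonneg_right (by linarith) e6
    rw [e1] at h2
    linarith
  have h11 := h1 c s₁ hs₁T z₁ hz₁S.1 hlev
  have hspos : s₁ ∈ Ioo 0 T := ⟨ht₀.1.trans_lt hs₁t, hs₁T.2⟩
  have h12 : HasDerivAt (fun r => F.phi c (r, z₁)) (F.dphi c (s₁, z₁)) s₁ := by
    rw [← F.dt_phi hspos hz₁S.1]
    exact Bd.hasDerivAt_time
      ((F.phi_isFun.contDiffAt hs₁T hz₁S.1).differentiableAt (by simp))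
  have h13 := nonpos_of_left_min (h12.add (hasDerivAt_barr n (C := C₁) (t₀ := t₀) hT hs₁T.2))
    hs₁t (by
      intro r hr
      have hrI : r ∈ Icc t₀ s₀ := ⟨hr.1, hr.2.trans hs₁I.2⟩
      have h14 := hminV' r hrI z₁ hz₁B
      simp only [hV] at h14
      simp only [Pi.add_apply]
      linarith)
  linarith

theorem det_le {c : κ} {t : ℝ} (ht : t ∈ Ico 0 T) {z : Cn n} (hz : z ∈ (F.e c).target)
    {Cd C : ℝ} (hd : F.dphi c (t, z) ≤ Cd) (hΩ : F.Ω c z ≤ C) :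
    (cHess (F.ψ c) (t, z)).det.re ≤ C * Real.exp Cd := by
  have h1 := Gap.det_pos' F ht hz
  have h2 := F.vol.pos c z hz
  have h3 : Real.log (cHess (F.ψ c) (t, z)).det.re ≤ Real.log (F.Ω c z) + Cd := by
    have : F.dphi c (t, z) = Real.log (cHess (F.ψ c) (t, z)).det.re - Real.log (F.Ω c z) := rfl
    linarith
  have h4 := Real.exp_le_exp.2 h3
  rw [Real.exp_log h1, Real.exp_add, Real.exp_log h2] at h4
  exact h4.trans (mul_le_mul_of_nonneg_right hΩ (Real.exp_pos _).le)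

/-- the estimate on a ball -/
theorem contact_ball (hol : IsHolMap F.e b f)
    (lim : IsLimit F.e b f T F.ψ F.Ω K) {Ca : ℝ} (hCa : 0 < Ca)
    (habp : ∀ (v : Cn n → ℝ) (f : ℝ × Cn n → ℝ) (t : ℝ)
      (V : Set (Cn n)) (U : Set (ℝ × Cn n)) (z₀ : Cn n) (r ε D₁ : ℝ),
      IsOpen V → ContDiffOn ℝ ∞ v V → IsOpen U → ContDiffOn ℝ ∞ f U → 0 < r → 0 < ε →
      {z | nsq (z - z₀) ≤ r ^ 2} ⊆ V →
      (∀ z, nsq (z - z₀) ≤ r ^ 2 → (t, z) ∈ U ∧ (cHess f (t, z)).PosDef ∧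
        (cHess f (t, z)).det.re ≤ D₁ ∧ ∀ u, levz v u z ≤ lev f u (t, z)) →
      (∀ z, nsq (z - z₀) = r ^ 2 → v z₀ + ε ≤ v z) →
      ENNReal.ofReal ((ε / r) ^ (2 * n)) ≤ ENNReal.ofReal (Ca * D₁ ^ 2) *
        volume {z | nsq (z - z₀) ≤ r ^ 2 ∧ v z ≤ v z₀ + ε})
    {t : ℝ} (ht : t ∈ Ico 0 T) {c : κ} {j : P} {z₀ : Cn n} {r C₁ D₁ : ℝ} (hr : 0 < r)
    (hC₁ : 0 < C₁) (hD₁ : 0 < D₁) {G : Cn m → ℝ}
    (hG : ∀ ε > 0, ∃ (u' : Cn m → ℝ) (V' : Set (Cn m)), IsOpen V' ∧ {y | nsq y ≤ 16} ⊆ V' ∧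
      ContDiffOn ℝ ∞ u' V' ∧ (∀ z ∈ V', ∀ v, 0 ≤ levz u' v z) ∧
      ∀ z ∈ V', |u' z - (G z + t / T * K j z)| ≤ ε)
    (hball : ∀ z, nsq (z - z₀) ≤ r ^ 2 → z ∈ (F.e c).target ∧
      f ((F.e c).symm z) ∈ (b j).source ∧ nsq (b j (f ((F.e c).symm z))) < 16 ∧
      (∀ u, nsq u ≤ C₁ * lev (F.ψ c) u (0, z)) ∧ (cHess (F.ψ c) (t, z)).det.re ≤ D₁)
    (hmin : ∀ z, nsq (z - z₀) ≤ r ^ 2 →
      F.Phi t ((F.e c).symm z₀) - G (b j (f ((F.e c).symm z₀))) ≤
        F.Phi t ((F.e c).symm z) - G (b j (f ((F.e c).symm z)))) :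
    ∃ S ⊆ {z | nsq (z - z₀) ≤ r ^ 2}, MeasurableSet S ∧
      ENNReal.ofReal (((1 - t / T) * r / (2 * C₁)) ^ (2 * n) / (Ca * D₁ ^ 2)) ≤ volume S ∧
      ∀ z ∈ S, F.Phi t ((F.e c).symm z) - G (b j (f ((F.e c).symm z))) ≤
        F.Phi t ((F.e c).symm z₀) - G (b j (f ((F.e c).symm z₀))) +
          (1 - t / T) / C₁ * r ^ 2 := by
  have hT : 0 < T := ht.1.trans_lt ht.2
  have h0T : (0 : ℝ) ∈ Ico 0 T := ⟨le_rfl, hT⟩
  have hd0 : 0 < 1 - t / T := by
    rw [sub_pos, div_lt_one hT]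
    exact ht.2
  set y : Cn n → Cn m := fun z => b j (f ((F.e c).symm z)) with hydef
  set S₀ : Set (Cn n) := {z | z ∈ (F.e c).target ∧ f ((F.e c).symm z) ∈ (b j).source} with hS₀
  have hfs : ContinuousOn (fun z => f ((F.e c).symm z)) (F.e c).target :=
    hol.cont.comp_continuousOn (F.e c).continuousOn_symm
  have hS₀o : IsOpen S₀ := hfs.isOpen_inter_preimage (F.e c).open_target (b j).open_source
  have hyhol : HolOn y S₀ := hol.holo c j
  have hycont : ContinuousOn y S₀ := hyhol.1.continuousOn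
  have hyS : ContDiffOn ℝ ∞ y S₀ := hyhol.1
  set Λ : ℝ := (1 - t / T) / C₁ with hΛ
  have hΛ0 : 0 < Λ := by positivity
  set ε : ℝ := Λ * r ^ 2 / 2 with hε
  set δ : ℝ := Λ * r ^ 2 / 4 with hδ
  have hε0 : 0 < ε := by positivity
  have hδ0 : 0 < δ := by positivity
  obtain ⟨u', V', hV', hsubV, hu', hpsh, hclose⟩ := hG δ hδ0
  set B : Set (Cn n) := {z | nsq (z - z₀) ≤ r ^ 2} with hB
  have hz₀B : z₀ ∈ B := by
    simp only [hB, mem_ofPred_eq, sub_self, Gap.nsq_zero]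
    positivity
  have hBS : ∀ z ∈ B, z ∈ S₀ := fun z hz => ⟨(hball z hz).1, (hball z hz).2.1⟩
  have hBy : ∀ z ∈ B, nsq (y z) < 16 := fun z hz => (hball z hz).2.2.1
  set S₁ : Set (Cn n) := S₀ ∩ y ⁻¹' V' with hS₁
  have hS₁o : IsOpen S₁ := hycont.isOpen_inter_preimage hS₀o hV'
  have hBS₁ : B ⊆ S₁ := fun z hz => ⟨hBS z hz, hsubV (hBy z hz).le⟩
  obtain ⟨Uφ, hUφ, hUφs, hφ⟩ := F.phi_isFun.smooth c
  have hSφ : ContDiffOn ℝ ∞ (fun z => F.phi c (t, z)) S₁ :=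
    hφ.comp (contDiff_const.prodMk contDiff_id).contDiffOn fun z hz => hUφs ⟨ht, hz.1.1⟩
  have hSK : ContDiffOn ℝ ∞ (fun z => K j (y z)) S₁ :=
    ((lim.smooth j).comp hyS fun z hz => (b j).map_source hz.2).mono inter_subset_left
  have hu'y : ContDiffOn ℝ ∞ (fun z => u' (y z)) S₁ :=
    hu'.comp (hyS.mono inter_subset_left) fun z hz => hz.2
  have hSn : ContDiffOn ℝ ∞ (fun z => nsq (z - z₀)) S₁ :=
    (Gap.contDiff_nsq'.comp (contDiff_id.sub contDiff_const)).contDiffOn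
  set v : Cn n → ℝ := fun z => F.phi c (t, z) + t / T * K j (y z) - u' (y z) +
    Λ * nsq (z - z₀) with hv
  have hvs : ContDiffOn ℝ ∞ v S₁ :=
    ((hSφ.add (contDiffOn_const.mul hSK)).sub hu'y).add (contDiffOn_const.mul hSn)
  have hPhi : ∀ z ∈ B, F.Phi t ((F.e c).symm z) = F.phi c (t, z) := fun z hz => by
    rw [F.Phi_eq ht ((F.e c).map_target (hBS z hz).1), (F.e c).right_inv (hBS z hz).1]
  -- comparison of `v`
  have hvle : ∀ z ∈ B, v z ≤ F.Phi t ((F.e c).symm z) - G (y z) + δ + Λ * nsq (z - z₀) := by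
    intro z hz
    have h1 := (abs_le.1 (hclose (y z) (hsubV (hBy z hz).le))).1
    rw [hPhi z hz]
    simp only [hv]
    linarith
  have hlev : ∀ z ∈ B, F.Phi t ((F.e c).symm z) - G (y z) - δ + Λ * nsq (z - z₀) ≤ v z := by
    intro z hz
    have h1 := (abs_le.1 (hclose (y z) (hsubV (hBy z hz).le))).2
    rw [hPhi z hz]
    simp only [hv]
    linarith
  have hv0 : v z₀ ≤ F.Phi t ((F.e c).symm z₀) - G (y z₀) + δ := by
    have h1 := hvle z₀ hz₀B
    rw [sub_self, Gap.nsq_zero] at h1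
    linarith
  obtain ⟨U, hU, hUsub, hψU⟩ := F.krf.smooth c
  have hABP := habp v (F.ψ c) t S₁ U z₀ r ε D₁ hS₁o hvs hU hψU hr hε0 hBS₁
    (by
      intro z hz
      have hzS₁ := hBS₁ hz
      have hzt := hzS₁.1.1
      obtain ⟨-, -, -, g1, g2⟩ := hball z hz
      refine ⟨hUsub ⟨ht, hzt⟩, F.krf.pos c t ht z hzt, g2, fun u => ?_⟩
      have hn : S₁ ∈ 𝓝 z := hS₁o.mem_nhds hzS₁
      have a1 : ContDiffAt ℝ 2 (fun z => F.phi c (t, z)) z :=
        (hSφ.contDiffAt hn).of_le two_le_infty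
      have a2 : ContDiffAt ℝ 2 (fun z => K j (y z)) z := (hSK.contDiffAt hn).of_le two_le_infty
      have a3 : ContDiffAt ℝ 2 (fun z => u' (y z)) z := (hu'y.contDiffAt hn).of_le two_le_infty
      have a5 : ContDiffAt ℝ 2 (fun z => nsq (z - z₀)) z := (hSn.contDiffAt hn).of_le two_le_infty
      have a2' : ContDiffAt ℝ 2 (fun z => t / T * K j (y z)) z := contDiffAt_const.mul a2
      have a5' : ContDiffAt ℝ 2 (fun z => Λ * nsq (z - z₀)) z := contDiffAt_const.mul a5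
      have e0 : levz v u z = levz (fun z => F.phi c (t, z)) u z +
          t / T * levz (fun z => K j (y z)) u z - levz (fun z => u' (y z)) u z +
          Λ * nsq u := by
        rw [hv, Bd.levz_add ((a1.add a2').sub a3) a5', Bd.levz_sub (a1.add a2') a3,
          Bd.levz_add a1 a2', Bd.levz_const_mul _ a2, Bd.levz_const_mul _ a5, Gap.levz_nsq]
      rw [e0, levz_slice hUφ hφ (hUφs ⟨ht, hzt⟩), F.lev_phi ht hzt]
      have e1 : levz (fun z => K j (y z)) u z = levz (F.Θ c) u z := by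
        rw [← F.theta c z hzt u]
        exact (lim.eq c j z hzt hzS₁.1.2 u).symm
      have e2 : 0 ≤ levz (fun z => u' (y z)) u z := by
        rw [levz_comp hV' hu' hS₀o hyhol hzS₁.1 hzS₁.2]
        exact hpsh _ hzS₁.2 _
      have e3 : Λ * nsq u ≤ (1 - t / T) * lev (F.ψ c) u (0, z) := by
        have g5 := g1 u
        rw [hΛ, div_mul_eq_mul_div, div_le_iff₀ hC₁]
        calc (1 - t / T) * nsq u ≤ (1 - t / T) * (C₁ * lev (F.ψ c) u (0, z)) :=
              mul_le_mul_of_nonneg_left g5 hd0.le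
          _ = (1 - t / T) * lev (F.ψ c) u (0, z) * C₁ := by ring
      rw [e1]
      linarith)
    (by
      intro z hz
      have h1 := hlev z hz.le
      have h2 := hmin z hz.le
      rw [hz] at h1
      have h3 : ε + 2 * δ = Λ * r ^ 2 := by
        rw [hε, hδ]
        ring
      linarith)
  refine ⟨{z | nsq (z - z₀) ≤ r ^ 2 ∧ v z ≤ v z₀ + ε}, fun z hz => hz.1, ?_, ?_, ?_⟩
  · have hBcl : IsClosed B := isClosed_le (continuous_nsq_sub z₀) continuous_const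
    have hvc : ContinuousOn v B := hvs.continuousOn.mono hBS₁
    have h1 : IsClosed (B ∩ v ⁻¹' Iic (v z₀ + ε)) :=
      hvc.preimage_isClosed_of_isClosed hBcl isClosed_Iic
    exact h1.measurableSet
  · have hpos : 0 < Ca * D₁ ^ 2 := by positivity
    have h1 : ε / r = (1 - t / T) * r / (2 * C₁) := by
      rw [hε, hΛ]
      field_simp
    rw [h1] at hABP
    rw [ENNReal.ofReal_div_of_pos hpos]
    exact ENNReal.div_le_of_le_mul' hABP
  · intro z hz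
    have h1 := hlev z hz.1
    have h2 := hz.2
    have h3 : ε + 2 * δ = Λ * r ^ 2 := by
      rw [hε, hδ]
      ring
    have h4 : 0 ≤ Λ * nsq (z - z₀) := mul_nonneg hΛ0.le (Gap.nsq_nonneg _)
    linarith

end

section

variable {n m : ℕ} {M Y : Type} [TopologicalSpace M] [TopologicalSpace Y] {κ P : Type}
  {e : κ → OpenPartialHomeomorph M (Cn n)} (b : P → OpenPartialHomeomorph Y (Cn m)) (f : M → Y)

/-- the part of `M` over the closed ball of radius `4` of the chart `j` -/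
def ovr (j : P) : Set M := {x | f x ∈ (b j).source ∧ nsq (b j (f x)) ≤ 16}

/-- the part of `M` over the open ball of radius `4` of the chart `j` -/
def inner (j : P) : Set M := {x | f x ∈ (b j).source ∧ nsq (b j (f x)) < 16}

/-- the part of `M` over the closed ball of radius `3` of the chart `j` -/
def core (j : P) : Set M := {x | f x ∈ (b j).source ∧ nsq (b j (f x)) ≤ 9}

variable {b f}

theorem isCompact_ovr [CompactSpace M] [T2Space Y] (hol : IsHolMap e b f) (j : P) :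
    IsCompact (ovr b f j) := by
  have h1 : {y : Cn m | nsq y ≤ 16} ⊆ (b j).target := fun y hy =>
    hol.target j (show nsq y < 100 from lt_of_le_of_lt (show nsq y ≤ 16 from hy) (by norm_num))
  have h2 : IsCompact ((b j).symm '' {y : Cn m | nsq y ≤ 16}) :=
    isCompact_ball4.image_of_continuousOn ((b j).continuousOn_symm.mono h1)
  have h3 : ovr b f j = f ⁻¹' ((b j).symm '' {y : Cn m | nsq y ≤ 16}) := by
    ext x
    constructor
    · rintro ⟨hx, hx'⟩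
      exact ⟨_, hx', (b j).left_inv hx⟩
    · rintro ⟨y, hy, hyx⟩
      refine ⟨?_, ?_⟩
      · rw [← hyx]
        exact (b j).map_target (h1 hy)
      · rw [← hyx, (b j).right_inv (h1 hy)]
        exact hy
  rw [h3]
  exact (h2.isClosed.preimage hol.cont).isCompact

theorem isOpen_inner (hol : IsHolMap e b f) (j : P) : IsOpen (inner b f j) := by
  have h1 : ContinuousOn (fun y => nsq (b j y)) (b j).source :=
    continuous_nsq0.comp_continuousOn (b j).continuousOn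
  have h2 : IsOpen ((b j).source ∩ (fun y => nsq (b j y)) ⁻¹' Iio 16) :=
    h1.isOpen_inter_preimage (b j).open_source isOpen_Iio
  exact h2.preimage hol.cont

theorem isClosed_core [T2Space Y] (hol : IsHolMap e b f) (j : P) : IsClosed (core b f j) := by
  have h0 : IsCompact {y : Cn m | nsq y ≤ 9} := by
    have := isCompact_nsq_sub (n := m) 0 (r := 3) (by norm_num)
    simp only [sub_zero] at this
    norm_num at this
    exact this
  have h1 : {y : Cn m | nsq y ≤ 9} ⊆ (b j).target := fun y hy =>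
    hol.target j (show nsq y < 100 from lt_of_le_of_lt (show nsq y ≤ 9 from hy) (by norm_num))
  have h2 : IsCompact ((b j).symm '' {y : Cn m | nsq y ≤ 9}) :=
    h0.image_of_continuousOn ((b j).continuousOn_symm.mono h1)
  have h3 : core b f j = f ⁻¹' ((b j).symm '' {y : Cn m | nsq y ≤ 9}) := by
    ext x
    constructor
    · rintro ⟨hx, hx'⟩
      exact ⟨_, hx', (b j).left_inv hx⟩
    · rintro ⟨y, hy, hyx⟩
      refine ⟨?_, ?_⟩
      · rw [← hyx]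
        exact (b j).map_target (h1 hy)
      · rw [← hyx, (b j).right_inv (h1 hy)]
        exact hy
  rw [h3]
  exact h2.isClosed.preimage hol.cont

/-- neighbourhoods which do not leave the charts -/
theorem exists_nhds [T2Space Y] [Finite P] (hol : IsHolMap e b f) (x : M) :
    ∃ G ∈ 𝓝 x, ∀ j, (x ∈ inner b f j → G ⊆ inner b f j) ∧
    (x ∉ inner b f j → ∀ p ∈ G, p ∉ core b f j) := by
  classical
  refine ⟨⋂ j, if x ∈ inner b f j then inner b f j else (core b f j)ᶜ, ?_, fun j => ⟨?_, ?_⟩⟩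
  · rw [iInter_mem]
    intro j
    split_ifs with h
    · exact (isOpen_inner hol j).mem_nhds h
    · refine (isClosed_core hol j).isOpen_compl.mem_nhds fun h1 => h ⟨h1.1, ?_⟩
      have h2 : nsq (b j (f x)) ≤ 9 := h1.2
      linarith
  · intro h p hp
    have h1 := mem_iInter.1 hp j
    rwa [if_pos h] at h1
  · intro h p hp
    have h1 := mem_iInter.1 hp j
    rwa [if_neg h] at h1

end

section

variable {n m : ℕ} {M Y : Type} [TopologicalSpace M] [CompactSpace M] [TopologicalSpace Y]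
  [T2Space Y] {κ P : Type} [Finite P] {T : ℝ} (F : Flow n M κ T)
  {b : P → OpenPartialHomeomorph Y (Cn m)} {f : M → Y} {K : P → Cn m → ℝ}

omit [CompactSpace M] [T2Space Y] [Finite P] in
/-- the smooth functions which are used in place of the mollifications -/
theorem smooth_approx {e : κ → OpenPartialHomeomorph M (Cn n)} {ψ : κ → ℝ × Cn n → ℝ}
    {Ω : κ → Cn n → ℝ} (hol : IsHolMap e b f) (lim : IsLimit e b f T ψ Ω K) {t₀ : ℝ}
    {R : P → Cn m → ℝ} (hR : ∀ j, ContDiffOn ℝ ∞ (R j) {y | nsq y < 25})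
    (hpsh : ∀ j y, nsq y < 25 → ∀ v, 0 ≤ levz (R j) v y + t₀ / T * levz (K j) v y) (j : P) :
    ∀ ε > 0, ∃ (u' : Cn m → ℝ) (V' : Set (Cn m)), IsOpen V' ∧ {y | nsq y ≤ 16} ⊆ V' ∧
      ContDiffOn ℝ ∞ u' V' ∧ (∀ z ∈ V', ∀ v, 0 ≤ levz u' v z) ∧
      ∀ z ∈ V', |u' z - (R j z + t₀ / T * K j z)| ≤ ε := by
  intro ε hε
  have ho : IsOpen {y : Cn m | nsq y < 25} := isOpen_lt continuous_nsq0 continuous_const
  have hK : ContDiffOn ℝ ∞ (K j) {y | nsq y < 25} := (lim.smooth j).mono fun y hy =>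
    hol.target j (show nsq y < 100 from lt_trans (show nsq y < 25 from hy) (by norm_num))
  refine ⟨fun z => R j z + t₀ / T * K j z, {y | nsq y < 25}, ho,
    fun y hy => show nsq y < 25 from lt_of_le_of_lt (show nsq y ≤ 16 from hy) (by norm_num),
    (hR j).add (contDiffOn_const.mul hK), fun z hz v => ?_, fun z hz => ?_⟩
  · have hn := ho.mem_nhds hz
    have a1 : ContDiffAt ℝ 2 (R j) z := ((hR j).contDiffAt hn).of_le two_le_infty
    have a2 : ContDiffAt ℝ 2 (K j) z := (hK.contDiffAt hn).of_le two_le_infty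
    have a2' : ContDiffAt ℝ 2 (fun z => t₀ / T * K j z) z := contDiffAt_const.mul a2
    rw [Bd.levz_add a1 a2', Bd.levz_const_mul _ a2]
    exact hpsh j z hz v
  · rw [sub_self, abs_zero]
    exact hε.le

/-- **The minimum principle**: the function `φ(s) - R_j + barr` has its minimum over `j`, `x` and
`s ∈ [t₀, t]` at the time `t₀`. -/
theorem drop_step (hol : IsHolMap F.e b f) (lim : IsLimit F.e b f T F.ψ F.Ω K) {C₁ : ℝ}
    (h1 : ∀ c, ∀ t ∈ Ico 0 T, ∀ z ∈ (F.e c).target,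
      (∀ u, 1 / 2 * (1 - t / T) * lev (F.ψ c) u (0, z) ≤ lev (F.ψ c) u (t, z)) →
      n * Real.log (1 - t / T) - C₁ ≤ F.dphi c (t, z))
    {t₀ t : ℝ} (ht₀ : t₀ ∈ Ico 0 T) (ht : t ∈ Ico t₀ T)
    {R : P → Cn m → ℝ} (hR : ∀ j, ContDiffOn ℝ ∞ (R j) {y | nsq y < 25})
    (hpsh : ∀ j y, nsq y < 25 → ∀ v, 0 ≤ levz (R j) v y + t₀ / T * levz (K j) v y)
    (hglue : ∀ i j y, y ∈ (b i).source → y ∈ (b j).source → 9 ≤ nsq (b i y) →
        nsq (b i y) ≤ 16 → nsq (b j y) ≤ 1 → R i (b i y) < R j (b j y)) {B : ℝ}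
    (hB : ∀ j, ∀ x, f x ∈ (b j).source → nsq (b j (f x)) ≤ 16 →
      B ≤ F.Phi t₀ x - R j (b j (f x))) (j : P) (p : M)
    (hp : f p ∈ (b j).source) (hp' : nsq (b j (f p)) ≤ 16) :
    B ≤ F.Phi t p - R j (b j (f p)) + barr n T C₁ t₀ t := by
  have hT : 0 < T := ht₀.1.trans_lt ht₀.2
  have hsub : ∀ s ∈ Icc t₀ t, s ∈ Ico 0 T := fun s hs => ⟨ht₀.1.trans hs.1, hs.2.trans_lt ht.2⟩
  set V : P → ℝ × M → ℝ := fun j q =>
    F.Phi q.1 q.2 - R j (b j (f q.2)) + barr n T C₁ t₀ q.1 with hV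
  -- continuity
  have hVc : ∀ j, ContinuousOn (V j) (Icc t₀ t ×ˢ ovr b f j) := by
    intro j
    have e1 : ContinuousOn (fun q : ℝ × M => F.Phi q.1 q.2) (Icc t₀ t ×ˢ ovr b f j) :=
      F.Phi_continuousOn.mono fun q hq => ⟨hsub _ hq.1, mem_univ _⟩
    have e2 : ContinuousOn (fun q : ℝ × M => b j (f q.2)) (Icc t₀ t ×ˢ ovr b f j) :=
      (b j).continuousOn.comp (hol.cont.comp continuous_snd).continuousOn
        fun q hq => hq.2.1
    have e3 : ContinuousOn (fun q : ℝ × M => R j (b j (f q.2)))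
        (Icc t₀ t ×ˢ ovr b f j) :=
      (hR j).continuousOn.comp e2 fun q hq =>
        show nsq (b j (f q.2)) < 25 from lt_of_le_of_lt hq.2.2 (by norm_num)
    have e4 : ContinuousOn (fun q : ℝ × M => barr n T C₁ t₀ q.1) (Icc t₀ t ×ˢ ovr b f j) := by
      have e5 : ContinuousOn (barr n T C₁ t₀) (Icc t₀ t) := fun s hs =>
        (hasDerivAt_barr n hT (hsub s hs).2).continuousAt.continuousWithinAt
      exact e5.comp continuousOn_fst fun q hq => hq.1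
    exact (e1.sub e3).add e4
  -- reduction to `V`
  suffices hmain : ∀ j, ∀ q ∈ Icc t₀ t ×ˢ ovr b f j, B ≤ V j q from
    hmain j (t, p) ⟨⟨ht.1, le_rfl⟩, hp, hp'⟩
  -- the minimum over the time `t₀` and over all times
  have key : ∀ I : Set ℝ, IsCompact I → I ⊆ Icc t₀ t → t₀ ∈ I → ∃ j, ∃ q ∈ I ×ˢ ovr b f j,
      ∀ j', ∀ q' ∈ I ×ˢ ovr b f j', V j q ≤ V j' q' := by
    intro I hI hIs hI0
    have : Nonempty (ℝ × M) := ⟨(t₀, p)⟩
    set S : Set P := {j | (ovr b f j).Nonempty} with hS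
    have hSn : S.Nonempty := ⟨j, p, hp, hp'⟩
    have h3 : ∀ j ∈ S, ∃ q ∈ I ×ˢ ovr b f j, ∀ q' ∈ I ×ˢ ovr b f j, V j q ≤ V j q' := by
      intro j hj
      obtain ⟨x, hx⟩ := hj
      obtain ⟨q, hq, hq'⟩ := (hI.prod (isCompact_ovr hol j)).exists_isMinOn ⟨(t₀, x), hI0, hx⟩
        ((hVc j).mono (prod_mono hIs Subset.rfl))
      exact ⟨q, hq, fun q' h => hq' h⟩
    choose! w hw hw' using h3
    obtain ⟨j, hj, hjm⟩ := S.exists_min_image (fun j => V j (w j)) (Set.toFinite S) hSn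
    refine ⟨j, w j, hw j hj, fun j' q' hq' => ?_⟩
    have hj' : j' ∈ S := ⟨q'.2, hq'.2⟩
    exact (hjm j' hj').trans (hw' j' hj' q' hq')
  obtain ⟨j₁, ⟨s₀, x₀⟩, ⟨hs₀, hx₀⟩, hm⟩ := key (Icc t₀ t) isCompact_Icc Subset.rfl ⟨le_rfl, ht.1⟩
  obtain ⟨j₂, ⟨s₂, x₂⟩, ⟨hs₂, hx₂⟩, hm₀⟩ := key {t₀} isCompact_singleton
    (singleton_subset_iff.2 ⟨le_rfl, ht.1⟩) rfl
  have hs₂' : s₂ = t₀ := hs₂
  subst hs₂'
  have hB₂ : B ≤ V j₂ (s₂, x₂) := by
    simp only [hV]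
    rw [barr_self, add_zero]
    exact hB j₂ x₂ hx₂.1 hx₂.2
  intro j' q' hq'
  refine le_trans ?_ (hm j' q' hq')
  by_contra hlt
  rw [not_le] at hlt
  have hδ : 0 < V j₂ (s₂, x₂) - V j₁ (s₀, x₀) := by linarith
  have hs₀I : s₀ ∈ Icc s₂ t := hs₀
  -- the minimum is not at the time `t₀`
  have hs : s₂ < s₀ := by
    refine lt_of_le_of_ne hs₀I.1 fun h => ?_
    subst h
    have := hm₀ j₁ (s₂, x₀) ⟨rfl, hx₀⟩
    linarith
  -- the minimum is over the interior of the ball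
  have hx9 : nsq (b j₁ (f x₀)) < 9 := by
    by_contra h9
    rw [not_lt] at h9
    obtain ⟨j₃, hj₃, hj₃'⟩ := hol.cover (f x₀)
    have h4 := hm j₃ (s₀, x₀) ⟨hs₀, hj₃, hj₃'.trans (by norm_num)⟩
    simp only [hV] at h4
    have h5 := hglue j₁ j₃ (f x₀) hx₀.1 hj₃ h9 hx₀.2 hj₃'
    linarith
  refine drop_local F hol lim h1 ht₀ ⟨hs, hs₀I.2.trans_lt ht.2⟩ hδ hx₀.1
    (hx9.trans (by norm_num)) (G := R j₁) (smooth_approx hol lim hR hpsh j₁) ?_ ?_
  · intro s hsI x hx hx'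
    exact hm j₁ (s, x) ⟨⟨hsI.1, hsI.2.trans hs₀I.2⟩, hx, hx'⟩
  · intro x hx hx'
    have h4 := hm₀ j₁ (s₂, x) ⟨rfl, hx, hx'⟩
    simp only [hV, barr_self, add_zero] at h4 ⊢
    linarith

/-- **Domination**, for a flow and a holomorphic map -/
theorem dom (hol : IsHolMap F.e b f) (lim : IsLimit F.e b f T F.ψ F.Ω K) :
    ∃ (c C : ℝ) (A : κ → Set (Cn n)), 0 < c ∧ 0 ≤ C ∧
    {c | (A c).Nonempty}.Finite ∧ (∀ c, IsCompact (A c) ∧ A c ⊆ (F.e c).target) ∧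
    ∀ t₀ ∈ Ico 0 T, ∀ (R : P → Cn m → ℝ) (s : ℝ),
      (∀ j, ContDiffOn ℝ ∞ (R j) {y | nsq y < 25}) →
      (∀ j y, nsq y < 25 → ∀ v, 0 ≤ levz (R j) v y + t₀ / T * levz (K j) v y) →
      (∀ i j y, y ∈ (b i).source → y ∈ (b j).source → 9 ≤ nsq (b i y) →
        nsq (b i y) ≤ 16 → nsq (b j y) ≤ 1 → R i (b i y) < R j (b j y)) →
      (∀ c' j, ∀ S ⊆ A c', (∀ x ∈ S, f ((F.e c').symm x) ∈ (b j).source ∧
        nsq (b j (f ((F.e c').symm x))) ≤ 16 ∧
        F.Phi t₀ ((F.e c').symm x) < R j (b j (f ((F.e c').symm x))) - s) →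
        volume S < ENNReal.ofReal (c * (T - t₀) ^ (2 * n))) →
      ∀ t ∈ Ico t₀ T, ∀ j p, f p ∈ (b j).source → nsq (b j (f p)) ≤ 16 →
        R j (b j (f p)) ≤ F.Phi t p + s + C * √(T - t₀) := by
  classical
  by_cases hT : 0 < T
  swap
  · exact ⟨1, 0, fun _ => ∅, one_pos, le_rfl, by simp, fun c => ⟨isCompact_empty,
      empty_subset _⟩, fun t ht => absurd (lt_of_le_of_lt ht.1 ht.2) hT⟩
  obtain ⟨Cd, hCd, hd⟩ := F.dphi_le
  obtain ⟨C₁, hC₁, h1⟩ := Flow.dphi_ge_half F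
  obtain ⟨Ca, hCa, habp⟩ := abp n
  choose G hG hG' using exists_nhds (b := b) (f := f) hol
  obtain ⟨I, ch, r, hsrc, hr, hcov⟩ := Ct.exists_balls F.atlas.cover hG
  set Kx : M → Set (Cn n) := fun x => {z | nsq (z - F.e (ch x) x) ≤ (2 * r x) ^ 2} with hK
  have hKc : ∀ x, IsCompact (Kx x) := fun x => isCompact_nsq_sub _ (by have := (hr x).1; positivity)
  have hKt : ∀ x, Kx x ⊆ (F.e (ch x)).target := fun x z hz => ((hr x).2 z hz).1
  -- the constants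
  obtain ⟨E, hE, hE'⟩ : ∃ E : ℝ, 0 < E ∧ ∀ x : I, (∀ z ∈ Kx x.1,
      (∀ u, nsq u ≤ E * lev (F.ψ (ch x.1)) u (0, z)) ∧ F.Ω (ch x.1) z ≤ E) ∧
      1 ≤ E * r x.1 ∧ r x.1 ^ 2 ≤ E := by
    refine Gap.exists_finite (Q := fun (x : I) E => (∀ z ∈ Kx x.1,
      (∀ u, nsq u ≤ E * lev (F.ψ (ch x.1)) u (0, z)) ∧ F.Ω (ch x.1) z ≤ E) ∧
      1 ≤ E * r x.1 ∧ r x.1 ^ 2 ≤ E) (fun x => ?_) ?_
    · obtain ⟨E, hE, h⟩ := Gap.exists_const_on F hT (ch x.1) (hKc x.1) (hKt x.1)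
      have hr0 := (hr x.1).1
      refine ⟨max E (max (r x.1)⁻¹ (r x.1 ^ 2)), fun z hz => ⟨fun u => ?_, ?_⟩, ?_, ?_⟩
      · exact ((h z hz).1 u).trans (mul_le_mul_of_nonneg_right (le_max_left _ _)
          (Gap.lev_psi_nonneg F ⟨le_rfl, hT⟩ (hKt x.1 hz) u))
      · exact (h z hz).2.2.trans (le_max_left _ _)
      · have h1 : (r x.1)⁻¹ ≤ max E (max (r x.1)⁻¹ (r x.1 ^ 2)) :=
          (le_max_left _ _).trans (le_max_right _ _)
        calc (1 : ℝ) = (r x.1)⁻¹ * r x.1 := (inv_mul_cancel₀ hr0.ne').symm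
          _ ≤ _ := mul_le_mul_of_nonneg_right h1 hr0.le
      · exact (le_max_right _ _).trans (le_max_right _ _)
    · intro x E E' hEE' h
      have hr0 := (hr x.1).1
      refine ⟨fun z hz => ⟨fun u => ?_, ?_⟩, ?_, ?_⟩
      · exact ((h.1 z hz).1 u).trans (mul_le_mul_of_nonneg_right hEE'
          (Gap.lev_psi_nonneg F ⟨le_rfl, hT⟩ (hKt x.1 hz) u))
      · exact (h.1 z hz).2.trans hEE'
      · exact h.2.1.trans (mul_le_mul_of_nonneg_right hEE' hr0.le)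
      · exact h.2.2.trans hEE'
  set D₁ : ℝ := E * Real.exp Cd with hD₁
  have hD₁0 : 0 < D₁ := by positivity
  set C₂ : ℝ := 2 / √T + ((C₁ + 1 + n) * √T + 2 * n * √T) with hC₂
  have hsT : 0 < √T := Real.sqrt_pos.2 hT
  refine ⟨(1 / (2 * T * E ^ 2)) ^ (2 * n) / (Ca * D₁ ^ 2), C₂,
    fun c => ⋃ x ∈ I.filter (fun x => ch x = c), Kx x, by positivity, by positivity, ?_, ?_, ?_⟩
  · refine (I.image ch).finite_toSet.subset ?_
    rintro c ⟨z, hz⟩
    rw [mem_iUnion₂] at hz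
    obtain ⟨x, hx, -⟩ := hz
    rw [Finset.mem_filter] at hx
    simp only [Finset.coe_image, mem_image, Finset.mem_coe]
    exact ⟨x, hx⟩
  · intro c
    refine ⟨Finset.isCompact_biUnion _ fun x _ => hKc x, iUnion₂_subset fun x hx => ?_⟩
    rw [Finset.mem_filter] at hx
    rw [← hx.2]
    exact hKt x
  intro t₀ ht₀ R s hR hpsh hglue hvol t ht j p hp hp'
  have hx0 : 0 < T - t₀ := by linarith [ht₀.2]
  set d : ℝ := 1 - t₀ / T with hd_def
  have hd1 : d = (T - t₀) / T := by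
    rw [hd_def, sub_div, div_self hT.ne']
  have hd0 : 0 < d := by
    rw [hd1]
    positivity
  set V : P → M → ℝ := fun j x => F.Phi t₀ x - R j (b j (f x)) with hV
  -- the lower bound at the time `t₀`
  have hlow : ∀ j', ∀ x ∈ ovr b f j', -s - 2 * d ≤ V j' x := by
    have hVc : ∀ j, ContinuousOn (V j) (ovr b f j) := by
      intro j
      have e2 : ContinuousOn (fun q : M => b j (f q)) (ovr b f j) :=
        (b j).continuousOn.comp hol.cont.continuousOn fun q hq => hq.1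
      have e1 : ContinuousOn (fun q : M => F.Phi t₀ q) (ovr b f j) :=
        F.Phi_continuousOn.comp (f := fun q : M => (t₀, q)) (by fun_prop)
          fun q _ => ⟨ht₀, mem_univ _⟩
      exact e1.sub ((hR j).continuousOn.comp e2 fun q hq =>
        show nsq (b j (f q)) < 25 from lt_of_le_of_lt hq.2 (by norm_num))
    -- the minimum
    obtain ⟨j₀, x₀, hx₀, hmin⟩ : ∃ j, ∃ x ∈ ovr b f j, ∀ j', ∀ x' ∈ ovr b f j',
        V j x ≤ V j' x' := by
      have : Nonempty M := ⟨p⟩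
      set S : Set P := {j | (ovr b f j).Nonempty} with hS
      have hSn : S.Nonempty := ⟨j, p, hp, hp'⟩
      have h3 : ∀ j ∈ S, ∃ q ∈ ovr b f j, ∀ q' ∈ ovr b f j, V j q ≤ V j q' := by
        intro j hj
        obtain ⟨q, hq, hq'⟩ := (isCompact_ovr hol j).exists_isMinOn hj (hVc j)
        exact ⟨q, hq, fun q' h => hq' h⟩
      choose! w hw hw' using h3
      obtain ⟨j, hj, hjm⟩ := S.exists_min_image (fun j => V j (w j)) (Set.toFinite S) hSn
      refine ⟨j, w j, hw j hj, fun j' q' hq' => ?_⟩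
      have hj' : j' ∈ S := ⟨q', hq'⟩
      exact (hjm j' hj').trans (hw' j' hj' q' hq')
    intro j' x' hx'
    refine le_trans ?_ (hmin j' x' hx')
    by_contra hlt
    rw [not_le] at hlt
    -- the minimum is in the core
    have hcore : x₀ ∈ core b f j₀ := by
      refine ⟨hx₀.1, ?_⟩
      by_contra h9
      have h9' : 9 < nsq (b j₀ (f x₀)) := not_le.1 h9
      obtain ⟨j₁, hj₁, hj₁'⟩ := hol.cover (f x₀)
      have h1 := hmin j₁ x₀ ⟨hj₁, by linarith⟩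
      have h2 := hglue j₀ j₁ (f x₀) hx₀.1 hj₁ h9'.le hx₀.2 hj₁'
      simp only [hV] at h1
      linarith
    -- the ball
    obtain ⟨x, hxI, hxs, hxr⟩ := hcov x₀
    obtain ⟨hE1, hE2, hE3⟩ := hE' ⟨x, hxI⟩
    simp only at hE1 hE2 hE3
    have hrx := (hr x).1
    set c' := ch x with hc'
    set z₀ := F.e c' x₀ with hz₀
    have hsz₀ : (F.e c').symm z₀ = x₀ := (F.e c').left_inv hxs
    have hx₀G : x₀ ∈ G x := by
      have h1 := ((hr x).2 z₀ (by nlinarith)).2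
      rwa [hsz₀] at h1
    have hxin : x ∈ inner b f j₀ := by
      by_contra h
      exact (hG' x j₀).2 h x₀ hx₀G hcore
    have hsubK : ∀ z, nsq (z - z₀) ≤ r x ^ 2 → z ∈ Kx x := fun z hz => Ct.ball_in hxr hz
    have hin : ∀ z, nsq (z - z₀) ≤ r x ^ 2 → (F.e c').symm z ∈ inner b f j₀ := fun z hz =>
      (hG' x j₀).1 hxin ((hr x).2 z (hsubK z hz)).2
    obtain ⟨S, hSsub, hSm, hSv, hSle⟩ := contact_ball F hol lim hCa habp ht₀ (c := c') (j := j₀)
      (z₀ := z₀) hrx hE hD₁0 (G := R j₀) (smooth_approx hol lim hR hpsh j₀)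
      (by
        intro z hz
        have hzK := hsubK z hz
        have hzt := hKt x hzK
        exact ⟨hzt, (hin z hz).1, (hin z hz).2, (hE1 z hzK).1,
          det_le F ht₀ hzt (hd c' t₀ ht₀ z hzt) (hE1 z hzK).2⟩)
      (by
        intro z hz
        rw [hsz₀]
        exact hmin j₀ _ ⟨(hin z hz).1, (hin z hz).2.le⟩)
    have hlt2 := hvol c' j₀ S (fun z hz => by
      rw [mem_iUnion₂]
      exact ⟨x, Finset.mem_filter.2 ⟨hxI, rfl⟩, hsubK z (hSsub hz)⟩) (fun z hz => by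
      have hzB := hSsub hz
      refine ⟨(hin z hzB).1, (hin z hzB).2.le, ?_⟩
      have h1 := hSle z hz
      rw [hsz₀] at h1
      have h2 : d / E * r x ^ 2 ≤ d := by
        rw [div_mul_eq_mul_div, div_le_iff₀ hE]
        exact mul_le_mul_of_nonneg_left hE3 hd0.le
      simp only [hV] at hlt
      linarith)
    refine absurd hlt2 (not_lt.2 (le_trans (ENNReal.ofReal_le_ofReal ?_) hSv))
    rw [div_mul_eq_mul_div, ← mul_pow]
    refine div_le_div_of_nonneg_right ?_ (by positivity)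
    refine pow_le_pow_left₀ (by positivity) ?_ _
    change 1 / (2 * T * E ^ 2) * (T - t₀) ≤ d * r x / (2 * E)
    rw [hd1, div_mul_eq_mul_div, div_mul_eq_mul_div, div_div, one_mul,
      div_le_div_iff₀ (by positivity) (by positivity)]
    have h1 : (T - t₀) * (T * (2 * E)) * 1 ≤ (T - t₀) * (T * (2 * E)) * (E * r x) :=
      mul_le_mul_of_nonneg_left hE2 (by positivity)
    nlinarith
  have h3 := drop_step F hol lim h1 ht₀ ht hR hpsh hglue (B := -s - 2 * d)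
    (fun j' x hx hx' => hlow j' x ⟨hx, hx'⟩) j p hp hp'
  have h4 := barr_le n (t₀ := t₀) (t := t) hT hC₁ ht₀.1 ht.1 ht.2
  have h5 : 2 * d ≤ 2 / √T * √(T - t₀) := by
    rw [hd1, ← mul_div_assoc, div_mul_eq_mul_div, div_le_div_iff₀ hT hsT]
    have h7 : √(T - t₀) * √(T - t₀) = T - t₀ := Real.mul_self_sqrt hx0.le
    have h8 : √T * √T = T := Real.mul_self_sqrt hT.le
    have h9 : √(T - t₀) ≤ √T := Real.sqrt_le_sqrt (by linarith [ht₀.1])
    have h10 : 0 ≤ √(T - t₀) := Real.sqrt_nonneg _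
    have h11 : √(T - t₀) * (√(T - t₀) * √T) ≤ √(T - t₀) * (√T * √T) :=
      mul_le_mul_of_nonneg_left (mul_le_mul_of_nonneg_right h9 hsT.le) h10
    rw [← mul_assoc, h7, h8] at h11
    linarith
  have h6 : C₂ * √(T - t₀) = 2 / √T * √(T - t₀) +
      ((C₁ + 1 + n) * √T + 2 * n * √T) * √(T - t₀) := by
    rw [hC₂]
    ring
  rw [h6]
  linarith

end

end Pool.Agent.KRFX.Dm

namespace Pool.Agent.KRFX

section Mod

variable {n m l : ℕ} {M Y Y' W : Type} [TopologicalSpace M] [CompactSpace M] [T2Space M]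
  [TopologicalSpace Y] [T2Space Y] [TopologicalSpace Y'] [T2Space Y'] [TopologicalSpace W]
  [T2Space W] {κ P P' ι : Type} [Finite P] [Finite P'] [Fintype ι] {T : ℝ}
  (F : Mod n m l M Y Y' W κ P P' ι T)

omit [T2Space M] [T2Space Y'] [T2Space W] [Finite P'] [Fintype ι] in
/-- **functions of `Y` which are `≤ φ(t₀) + s` off a small set are
`≤ φ(t) + s + C √(T - t₀)`** -/
theorem Mod.dom (C₀ : ℝ) : ∃ (c C d₀ : ℝ) (A : κ → Set (Cn n)), 0 < c ∧ 0 ≤ C ∧ 0 < d₀ ∧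
    {c | (A c).Nonempty}.Finite ∧ (∀ c, IsCompact (A c) ∧ A c ⊆ (F.e c).target) ∧
    ∀ t₀ ∈ Ico 0 T, T - t₀ < d₀ → ∀ (R : P → Cn m → ℝ) (s : ℝ), 0 ≤ s →
      (∀ j, ContDiffOn ℝ ∞ (R j) {y | nsq y < 25}) →
      (∀ j y, nsq y < 25 → |R j y| ≤ C₀) →
      (∀ j y, nsq y < 25 → ∀ v, 0 ≤ levz (R j) v y + t₀ / T * levz (F.K j) v y) →
      (∀ i j y, y ∈ (F.b i).source → y ∈ (F.b j).source → 9 ≤ nsq (F.b i y) →
        nsq (F.b i y) ≤ 16 → nsq (F.b j y) ≤ 1 → R i (F.b i y) < R j (F.b j y)) →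
      (∀ c' j, ∀ S ⊆ A c', (∀ x ∈ S, F.f ((F.e c').symm x) ∈ (F.b j).source ∧
        nsq (F.b j (F.f ((F.e c').symm x))) ≤ 16 ∧
        F.Phi t₀ ((F.e c').symm x) < R j (F.b j (F.f ((F.e c').symm x))) - s) →
        volume S < ENNReal.ofReal (c * (T - t₀) ^ (2 * n))) →
      ∀ t ∈ Ico t₀ T, ∀ j p, F.f p ∈ (F.b j).source → nsq (F.b j (F.f p)) ≤ 16 →
        R j (F.b j (F.f p)) ≤ F.Phi t p + s + C * √(T - t₀) := by
  obtain ⟨c, C, A, hc, hC, hfin, hA, h⟩ := Dm.dom F.toFlow F.hol F.lim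
  exact ⟨c, C, 1, A, hc, hC, one_pos, hfin, hA,
    fun t₀ ht₀ _ R s _ hR _ hpsh hglue hvol t ht j p hp hp' =>
      h t₀ ht₀ R s hR hpsh hglue hvol t ht j p hp hp'⟩

end Mod

end Pool.Agent.KRFX
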