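import Pool.Agent.Work.MP_a2bf38_gt.X.GlueDefs
import Pool.Agent.Work.MP_a2bf38_gt.I.PshGood
import Pool.Agent.Work.MP_a2bf38_gt.K.Fib

/-!
# The gluing: comparison of the regularizations in two charts (helper2)
-/

open scoped ContDiff ENNReal ComplexOrder Topology
open Set MeasureTheory Filter Pool.Agent.ToricKRF Pool.Agent.ToricKRF.G Pool.Agent.KRFS
  Pool.Agent.KRFF Pool.Agent.KRFG

namespace Pool.Agent.KRFX

namespace Gl

theorem exp_le_sqrt {d : ℝ} (hd : 0 < d) : Real.exp (-(1 / √d)) ≤ √d := by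
  have h1 : 0 < √d := Real.sqrt_pos.2 hd
  have h2 : 1 / √d ≤ Real.exp (1 / √d) := by
    have := Real.add_one_le_exp (1 / √d)
    linarith
  rw [Real.exp_neg, inv_le_comm₀ (Real.exp_pos _) h1]
  simpa using h2

theorem log_one_div {d : ℝ} : Real.log (1 / Real.exp (-(1 / √d))) = 1 / √d := by
  rw [one_div, ← Real.exp_neg, neg_neg, Real.log_exp]

theorem div_log {d a : ℝ} : a / Real.log (1 / Real.exp (-(1 / √d))) = a * √d := by
  rw [log_one_div, one_div, div_inv_eq_mul]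

theorem le_sqrt {d : ℝ} (hd : 0 ≤ d) (h1 : d ≤ 1) : d ≤ √d := by
  have h2 : 0 ≤ √d := Real.sqrt_nonneg d
  have h3 : √d ≤ 1 := Real.sqrt_le_iff.2 ⟨one_pos.le, by linarith⟩
  have h4 := Real.mul_self_sqrt hd
  nlinarith

theorem sqrt_le_of {d e : ℝ} (he : 0 ≤ e) (h : d ≤ e ^ 2) : √d ≤ e :=
  Real.sqrt_le_iff.2 ⟨he, h⟩

theorem unit_ball (k : ℕ) : 0 < volume.real {z' : Cn k | nsq z' ≤ 1} := by
  have := PshG.isAddHaar_Cn k
  have ho : IsOpen {z' : Cn k | nsq z' < 1} :=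
    isOpen_lt (Gap.contDiff_nsq'.continuous) continuous_const
  have h0 : (0 : Cn k) ∈ {z' : Cn k | nsq z' < 1} := by
    change nsq (0 : Cn k) < 1
    rw [Gap.nsq_zero]
    exact one_pos
  have h1 : 0 < volume {z' : Cn k | nsq z' ≤ 1} :=
    (ho.measure_pos volume ⟨0, h0⟩).trans_le (measure_mono fun z (hz : nsq z < 1) => hz.le)
  have h2 : {z' : Cn k | nsq z' ≤ 1} ⊆ cpd 1 := by
    intro z hz i
    exact (Gap.le_nsq z i).trans (by simpa using hz)
  exact ENNReal.toReal_pos h1.ne' (measure_ne_top_of_subset h2 (isCompact_cpd 1).measure_ne_top)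

/-- a set of small volume does not contain the ball -/
theorem exists_notMem {k : ℕ} {E : Set (Cn k)} {y : Cn k} {ρ : ℝ} (hρ : 0 < ρ)
    (hE : volume E < ENNReal.ofReal (ρ ^ (2 * k) * volume.real {z' : Cn k | nsq z' ≤ 1})) :
    ∃ v, nsq (v - y) ≤ ρ ^ 2 ∧ v ∉ E := by
  by_contra hcon
  push Not at hcon
  have h1 : volume {v : Cn k | nsq (v - y) ≤ ρ ^ 2} ≤ volume E := measure_mono hcon
  rw [PshG.volume_nball k y hρ] at h1
  have h2 : volume {z' : Cn k | nsq z' ≤ 1} =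
      ENNReal.ofReal (volume.real {z' : Cn k | nsq z' ≤ 1}) := by
    rw [Measure.real, ENNReal.ofReal_toReal]
    have h2 : {z' : Cn k | nsq z' ≤ 1} ⊆ cpd 1 := by
      intro z hz i
      exact (Gap.le_nsq z i).trans (by simpa using hz)
    exact measure_ne_top_of_subset h2 (isCompact_cpd 1).measure_ne_top
  rw [h2, ← ENNReal.ofReal_mul (by positivity)] at h1
  exact absurd (h1.trans_lt hE) (lt_irrefl _)

end Gl

section Mod

variable {n m l : ℕ} {M Y Y' W : Type} [TopologicalSpace M] [TopologicalSpace Y]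
  [TopologicalSpace Y'] [TopologicalSpace W] {κ P P' ι : Type} {T : ℝ}
  (F : Mod n m l M Y Y' W κ P P' ι T)

theorem Mod.image_fibre {y' : Y'} (h1 : nsq (F.yb y') ≤ 49)
    (h2 : F.g (F.lb y') (F.yb y') ≠ 0) : F.π '' (F.h ⁻¹' {y'}) = F.f ⁻¹' {F.σ y'} := by
  ext p
  constructor
  · rintro ⟨w, hw, rfl⟩
    have hw' : F.h w = y' := hw
    change F.f (F.π w) = F.σ y'
    rw [← F.model.comm w, hw']
  · intro hp
    have hp' : F.f p = F.σ y' := hp
    obtain ⟨w, hw1, hw2⟩ := F.model.full p y' hp'.symm (by rw [hp']; exact h1)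
      (by rw [hp']; exact h2)
    exact ⟨w, hw1, hw2⟩

/-- off the poles the maxima are those of the fibres of `f` -/
theorem Mod.Mx_eq {t : ℝ} {y' : Y'} (h1 : nsq (F.yb y') ≤ 49)
    (h2 : F.g (F.lb y') (F.yb y') ≠ 0) :
    F.Mx t y' = sSup (F.Phi t '' (F.f ⁻¹' {F.σ y'})) := by
  unfold Mod.Mx
  rw [F.image_fibre h1 h2]

/-- two points of the base over the same point -/
theorem Mod.q_le {C S t : ℝ} {q : P → Cn m → ℝ} (hq : F.IsDesc C S t q) {i j : P} {y : Y}
    (hi : y ∈ (F.b i).source) (hj : y ∈ (F.b j).source) (h1 : nsq (F.b i y) < 49)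
    (h2 : nsq (F.b j y) < 49) (g1 : F.g i (F.b i y) ≠ 0) (g2 : F.g j (F.b j y) ≠ 0) :
    q i (F.b i y) ≤ q j (F.b j y) +
      C * (T - t) * (2 + |Real.log (nsq (F.g j (F.b j y)))|) := by
  obtain ⟨yi, hyi, hyi'⟩ := F.modif.surj i y hi h1.le
  obtain ⟨yj, hyj, hyj'⟩ := F.modif.surj j y hj h2.le
  have ei : F.yb yi = F.b i y := by
    unfold Mod.yb
    rw [hyi, hyi']
  have ej : F.yb yj = F.b j y := by
    unfold Mod.yb
    rw [hyj, hyj']
  have a1 := hq.le yi (by rw [ei]; exact h1)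
  have a2 := hq.ge yj (by rw [ej]; exact h2) (by rw [ej, hyj]; exact g2)
  rw [hyi, ei] at a1
  rw [hyj, ej] at a2
  have a3 : F.Mx t yi = F.Mx t yj := by
    rw [F.Mx_eq (by rw [ei]; exact h1.le) (by rw [ei, hyi]; exact g1),
      F.Mx_eq (by rw [ej]; exact h2.le) (by rw [ej, hyj]; exact g2), hyi', hyj']
  rw [a3] at a1
  linarith

/-- the points where `g i` or `g j` is small -/
def Mod.bad (i j : P) (s : ℝ) : Set (Cn m) :=
  {y : Cn m | nsq y ≤ 49 ∧ nsq (F.g i y) ≤ s} ∪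
    {v : Cn m | nsq v ≤ 25 ∧ (F.b i).symm v ∈ (F.b j).source ∧
      nsq (F.b j ((F.b i).symm v)) ≤ 25 ∧ F.b j ((F.b i).symm v) ∈
        {y : Cn m | nsq y ≤ 49 ∧ nsq (F.g j y) ≤ s}}

theorem Mod.vol_bad {Cv cv Ct : ℝ} (hCv : 0 ≤ Cv) (hCt : 0 ≤ Ct)
    (hV : ∀ j, ∀ s ∈ Ioc (0 : ℝ) 1, volume {y : Cn m | nsq y ≤ 49 ∧ nsq (F.g j y) ≤ s} ≤
      ENNReal.ofReal (Cv * s ^ cv))
    (hT : ∀ i j (A : Set (Cn m)),
      volume {v : Cn m | nsq v ≤ 25 ∧ (F.b i).symm v ∈ (F.b j).source ∧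
        nsq (F.b j ((F.b i).symm v)) ≤ 25 ∧ F.b j ((F.b i).symm v) ∈ A} ≤
        ENNReal.ofReal Ct * volume A) (i j : P) {s : ℝ} (hs : s ∈ Ioc (0 : ℝ) 1) :
    volume (F.bad i j s) ≤ ENNReal.ofReal ((1 + Ct) * Cv * s ^ cv) := by
  have hs0 : 0 ≤ s ^ cv := Real.rpow_nonneg hs.1.le _
  refine (measure_union_le _ _).trans ?_
  refine (add_le_add (hV i s hs) ((hT i j _).trans (mul_le_mul_right (hV j s hs) _))).trans ?_
  rw [← ENNReal.ofReal_mul hCt, ← ENNReal.ofReal_add (by positivity) (by positivity)]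
  apply ENNReal.ofReal_le_ofReal
  linarith

theorem Mod.b_symm {j : P} {v : Cn m} (hv : nsq v < 100) : F.b j ((F.b j).symm v) = v :=
  (F.b j).right_inv (F.hol.target j hv)

theorem Mod.b_symm_mem {j : P} {v : Cn m} (hv : nsq v < 100) : (F.b j).symm v ∈ (F.b j).source :=
  (F.b j).map_target (F.hol.target j hv)

/-- the regularizations in two charts -/
theorem Mod.compare_of {CK : ℝ} (hCK : 1 ≤ CK)
    (hK1 : ∀ j, ∀ y : Cn m, nsq y ≤ 49 → nsq (F.g j y) ≤ CK)
    (hK2 : ∀ j, ∀ y y' : Cn m, nsq y ≤ 36 → nsq y' ≤ 36 →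
      |F.K j y - F.K j y'| ≤ CK * √(nsq (y - y')))
    {Cv cv Ct : ℝ} (hCv : 0 ≤ Cv) (hcv : 0 < cv) (hCt : 0 ≤ Ct)
    (hV : ∀ j, ∀ s ∈ Ioc (0 : ℝ) 1, volume {y : Cn m | nsq y ≤ 49 ∧ nsq (F.g j y) ≤ s} ≤
      ENNReal.ofReal (Cv * s ^ cv))
    (hTr : ∀ i j (A : Set (Cn m)),
      volume {v : Cn m | nsq v ≤ 25 ∧ (F.b i).symm v ∈ (F.b j).source ∧
        nsq (F.b j ((F.b i).symm v)) ≤ 25 ∧ F.b j ((F.b i).symm v) ∈ A} ≤
        ENNReal.ofReal Ct * volume A)
    (C S L Cr : ℝ) (hC : 0 ≤ C) (hS : 0 ≤ S) (hCr : 0 ≤ Cr) (hL : 1 ≤ L)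
    {r : ℝ} (hr : 0 < r) (htr : ∀ i j, ∀ y ∈ (F.b i).source,
      y ∈ (F.b j).source → nsq (F.b i y) ≤ 16 → nsq (F.b j y) ≤ 16 →
      ∀ v, nsq (v - F.b i y) ≤ r ^ 2 → nsq v ≤ 25 ∧ (F.b i).symm v ∈ (F.b j).source ∧
        nsq (F.b j ((F.b i).symm v)) ≤ 25 ∧
        nsq (F.b j ((F.b i).symm v) - F.b j y) ≤ L ^ 2 * nsq (v - F.b i y)) :
    ∃ C' d₀ : ℝ, 0 ≤ C' ∧ 0 < d₀ ∧ ∀ t ∈ Ico 0 T, T - t < d₀ → ∀ q u' : P → Cn m → ℝ,
      F.IsDesc C S t q →
      (∀ j y, nsq y < 49 → |q j y + t / T * F.K j y| ≤ S) →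
      (∀ j, IsReg L Cr S (Real.exp (-(1 / √(T - t)))) (fun y => q j y + t / T * F.K j y) (u' j)) →
      ∀ i j, ∀ y ∈ (F.b i).source, y ∈ (F.b j).source → nsq (F.b i y) ≤ 16 →
        nsq (F.b j y) ≤ 16 → u' i (F.b i y) - t / T * F.K i (F.b i y) ≤
          u' j (F.b j y) - t / T * F.K j (F.b j y) + C' * √(T - t) := by
  obtain ⟨k, hk⟩ : ∃ k : ℕ, (2 * m + 1 : ℝ) ≤ k * cv := by
    obtain ⟨k, hk⟩ := exists_nat_ge ((2 * m + 1 : ℝ) / cv)
    exact ⟨k, by rwa [div_le_iff₀ hcv] at hk⟩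
  set om := volume.real {z' : Cn m | nsq z' ≤ 1} with hom
  have hom0 : 0 < om := Gl.unit_ball m
  set B := (1 + Ct) * Cv with hB
  have hB0 : 0 ≤ B := by positivity
  set e := min 1 (min r (om / (B + 1))) with he
  have he0 : 0 < e := by
    apply lt_min one_pos (lt_min hr (by positivity))
  refine ⟨C * (2 + CK + k) + Cr * S + CK * (1 + L) + Cr * S * B, e ^ 2, by positivity,
    by positivity, ?_⟩
  intro t ht hd q u' hq hqS hu i j y hyi hyj h16i h16j
  set d := T - t with hdd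
  have hd0 : 0 < d := by
    have := ht.2
    rw [hdd]
    linarith
  set sd := √d with hsd
  have hsd0 : 0 < sd := Real.sqrt_pos.2 hd0
  have hsde : sd ≤ e := Gl.sqrt_le_of he0.le hd.le
  have hsd1 : sd ≤ 1 := hsde.trans (min_le_left _ _)
  have hsdr : sd ≤ r := hsde.trans ((min_le_right _ _).trans (min_le_left _ _))
  have hsdom : sd ≤ om / (B + 1) := hsde.trans ((min_le_right _ _).trans (min_le_right _ _))
  have hdsd : d = sd * sd := (Real.mul_self_sqrt hd0.le).symm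
  set ρ := Real.exp (-(1 / sd)) with hρ
  have hρ0 : 0 < ρ := Real.exp_pos _
  have hρsd : ρ ≤ sd := Gl.exp_le_sqrt hd0
  have hρ1 : ρ ≤ 1 := hρsd.trans hsd1
  have hT : 0 < T := by
    have := ht.1
    have := ht.2
    linarith
  have htT0 : 0 ≤ t / T := div_nonneg ht.1 hT.le
  have htT1 : t / T ≤ 1 := by
    rw [div_le_one hT]
    exact ht.2.le
  -- the bad set
  have hs : ρ ^ k ∈ Ioc (0 : ℝ) 1 := ⟨by positivity, pow_le_one₀ hρ0.le hρ1⟩
  have hE := F.vol_bad hCv hCt hV hTr i j hs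
  have hpow : (ρ ^ k) ^ cv ≤ ρ ^ (2 * m) * ρ := by
    rw [← pow_succ, ← Real.rpow_natCast, ← Real.rpow_natCast, ← Real.rpow_mul hρ0.le]
    apply Real.rpow_le_rpow_of_exponent_ge hρ0 hρ1
    push_cast
    exact hk
  have hE2 : volume (F.bad i j (ρ ^ k)) ≤ ENNReal.ofReal (B * (ρ ^ (2 * m) * ρ)) :=
    hE.trans (ENNReal.ofReal_le_ofReal (mul_le_mul_of_nonneg_left hpow hB0))
  have hρm : 0 < ρ ^ (2 * m) := by positivity
  have hE3 : volume (F.bad i j (ρ ^ k)) < ENNReal.ofReal (ρ ^ (2 * m) * om) := by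
    refine hE2.trans_lt ((ENNReal.ofReal_lt_ofReal_iff (by positivity)).2 ?_)
    have h1 : B * sd < om := by
      have h2 : sd * (B + 1) ≤ om := by rwa [le_div_iff₀ (by positivity)] at hsdom
      nlinarith
    have h3 : B * ρ < om := (mul_le_mul_of_nonneg_left hρsd hB0).trans_lt h1
    calc B * (ρ ^ (2 * m) * ρ) = ρ ^ (2 * m) * (B * ρ) := by ring
      _ < ρ ^ (2 * m) * om := mul_lt_mul_of_pos_left h3 hρm
  -- the estimate off the bad set
  set yi := F.b i y with hyi'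
  set yj := F.b j y with hyj'
  set c := u' j yj + t / T * (F.K i yi - F.K j yj) +
    (C * (2 + CK + k) + Cr * S + CK * (1 + L)) * sd with hc
  have hmain : ∀ v, nsq (v - yi) ≤ ρ ^ 2 → v ∉ F.bad i j (ρ ^ k) →
      q i v + t / T * F.K i v ≤ c := by
    intro v hv hvE
    have hv2 : nsq (v - yi) ≤ r ^ 2 :=
      hv.trans (pow_le_pow_left₀ hρ0.le (hρsd.trans hsdr) 2)
    obtain ⟨hv25, hvj, hw25, hwL⟩ := htr i j y hyi hyj h16i h16j v hv2
    set y₁ := (F.b i).symm v with hy₁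
    have hv100 : nsq v < 100 := by linarith
    have hbi : F.b i y₁ = v := F.b_symm hv100
    have hy₁i : y₁ ∈ (F.b i).source := F.b_symm_mem hv100
    set w := F.b j y₁ with hw
    have hg1 : ρ ^ k < nsq (F.g i v) := by
      by_contra hcon
      exact hvE (Or.inl ⟨by linarith, not_lt.1 hcon⟩)
    have hg2 : ρ ^ k < nsq (F.g j w) := by
      by_contra hcon
      exact hvE (Or.inr ⟨hv25, hvj, hw25, show nsq w ≤ 49 by linarith, not_lt.1 hcon⟩)
    have hg1' : F.g i v ≠ 0 := by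
      intro h0
      rw [h0, Gap.nsq_zero] at hg1
      exact absurd hg1 (not_lt.2 hs.1.le)
    have hg2' : F.g j w ≠ 0 := by
      intro h0
      rw [h0, Gap.nsq_zero] at hg2
      exact absurd hg2 (not_lt.2 hs.1.le)
    have a1 := F.q_le hq hy₁i hvj (by rw [hbi]; linarith) (by linarith : nsq (F.b j y₁) < 49)
      (by rw [hbi]; exact hg1') hg2'
    rw [hbi] at a1
    -- the logarithm
    have a2 : |Real.log (nsq (F.g j w))| ≤ k / sd + CK := by
      have b1 : -(k / sd) ≤ Real.log (nsq (F.g j w)) := by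
        have := Real.log_le_log hs.1 hg2.le
        rw [Real.log_pow, hρ, Real.log_exp] at this
        calc -(k / sd) = k * -(1 / sd) := by ring
          _ ≤ _ := this
      have b2 : Real.log (nsq (F.g j w)) ≤ CK := by
        have h0 : 0 < nsq (F.g j w) := hs.1.trans hg2
        have := Real.log_le_sub_one_of_pos h0
        have := hK1 j w (by linarith : nsq w ≤ 49)
        linarith
      have b3 : 0 ≤ k / sd := by positivity
      rw [abs_le]
      constructor <;> linarith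
    have a3 : C * (T - t) * (2 + |Real.log (nsq (F.g j w))|) ≤ C * (2 + CK + k) * sd := by
      rw [← hdd]
      have c1 : d * (2 + |Real.log (nsq (F.g j w))|) ≤ (2 + CK + k) * sd := by
        calc d * (2 + |Real.log (nsq (F.g j w))|) ≤ d * (2 + (k / sd + CK)) := by
              apply mul_le_mul_of_nonneg_left _ hd0.le
              linarith
          _ = sd * (sd * (2 + CK)) + k * sd := by
              rw [hdsd]
              field_simp
              ring
          _ ≤ sd * (1 * (2 + CK)) + k * sd := by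
              gcongr
          _ = _ := by ring
      calc C * d * (2 + |Real.log (nsq (F.g j w))|) = C * (d * (2 + |Real.log (nsq (F.g j w))|)) := by
            ring
        _ ≤ C * ((2 + CK + k) * sd) := mul_le_mul_of_nonneg_left c1 hC
        _ = _ := by ring
    -- near
    have hwρ : nsq (w - yj) ≤ (L * ρ) ^ 2 := by
      refine hwL.trans ?_
      rw [mul_pow]
      exact mul_le_mul_of_nonneg_left hv (by positivity)
    have a4 := (hu j).near yj w (by linarith) hwρ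
    rw [Gl.div_log] at a4
    -- the potentials
    have e1 : |F.K i v - F.K i yi| ≤ CK * ρ := by
      refine (hK2 i v yi (by linarith) (by linarith)).trans ?_
      apply mul_le_mul_of_nonneg_left _ (by linarith)
      exact Real.sqrt_le_iff.2 ⟨hρ0.le, hv⟩
    have e2 : |F.K j w - F.K j yj| ≤ CK * (L * ρ) := by
      refine (hK2 j w yj (by linarith) (by linarith)).trans ?_
      apply mul_le_mul_of_nonneg_left _ (by linarith)
      exact Real.sqrt_le_iff.2 ⟨by positivity, hwρ⟩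
    have e3 : t / T * (F.K i v - F.K i yi - (F.K j w - F.K j yj)) ≤ CK * (1 + L) * sd := by
      have f1 : F.K i v - F.K i yi - (F.K j w - F.K j yj) ≤ CK * (1 + L) * sd := by
        have g1 := abs_le.1 e1
        have g2 := abs_le.1 e2
        have g3 : CK * ρ + CK * (L * ρ) ≤ CK * (1 + L) * sd := by
          calc CK * ρ + CK * (L * ρ) = CK * (1 + L) * ρ := by ring
            _ ≤ _ := mul_le_mul_of_nonneg_left hρsd (by positivity)
        linarith [g1.2, g2.1]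
      have f2 : 0 ≤ CK * (1 + L) * sd := by positivity
      calc _ ≤ t / T * (CK * (1 + L) * sd) := mul_le_mul_of_nonneg_left f1 htT0
        _ ≤ 1 * (CK * (1 + L) * sd) := mul_le_mul_of_nonneg_right htT1 f2
        _ = _ := one_mul _
    have e4 : t / T * (F.K i v - F.K i yi - (F.K j w - F.K j yj)) =
      t / T * F.K i v - t / T * F.K j w - t / T * (F.K i yi - F.K j yj) := by ring
    rw [e4] at e3
    have e5 : q j w + t / T * F.K j w ≤ u' j yj + Cr * S * sd := a4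
    rw [hc]
    linarith [e3, e5, a1, a3]
  obtain ⟨v, hv1, hv2⟩ := Gl.exists_notMem (y := yi) hρ0 hE3
  have hyi36 : nsq yi < 36 := by linarith
  have hcS : -S ≤ c := by
    refine le_trans ?_ (hmain v hv1 hv2)
    have hv' : nsq (v - yi) ≤ r ^ 2 :=
      hv1.trans (pow_le_pow_left₀ hρ0.le (hρsd.trans hsdr) 2)
    obtain ⟨hv25, -, -, -⟩ := htr i j y hyi hyj h16i h16j v hv'
    exact (abs_le.1 (hqS i v (by linarith))).1
  have hup := (hu i).up yi hyi36 (F.bad i j (ρ ^ k)) c hcS hmain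
  have hvr : volume.real (F.bad i j (ρ ^ k) ∩ {y' | nsq (y' - yi) ≤ ρ ^ 2}) ≤
      B * (ρ ^ (2 * m) * ρ) := by
    apply ENNReal.toReal_le_of_le_ofReal (by positivity)
    exact (measure_mono inter_subset_left).trans hE2
  have hlast : Cr * S * (ρ ^ (2 * m))⁻¹ *
      volume.real (F.bad i j (ρ ^ k) ∩ {y' | nsq (y' - yi) ≤ ρ ^ 2}) ≤ Cr * S * B * sd := by
    calc _ ≤ Cr * S * (ρ ^ (2 * m))⁻¹ * (B * (ρ ^ (2 * m) * ρ)) :=
          mul_le_mul_of_nonneg_left hvr (by positivity)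
      _ = Cr * S * B * ρ := by
          field_simp
      _ ≤ _ := mul_le_mul_of_nonneg_left hρsd (by positivity)
  have hfin : u' i yi ≤ c + Cr * S * B * sd := hup.trans (by linarith)
  rw [hc] at hfin
  have e6 : t / T * (F.K i yi - F.K j yj) = t / T * F.K i yi - t / T * F.K j yj := by ring
  rw [e6] at hfin
  linarith

end Mod

end Pool.Agent.KRFX
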