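import Pool.Agent.Work.MP_a2bf38_gt.X.Setup
import Pool.Agent.Work.MP_a2bf38_gt.K.Up

/-!
# Volumes in `M` and in the charts of the models
-/

open scoped ContDiff ENNReal ComplexOrder Topology
open Set MeasureTheory Filter Pool.Agent.ToricKRF Pool.Agent.ToricKRF.G Pool.Agent.KRFS
  Pool.Agent.KRFF Pool.Agent.KRFG

namespace Pool.Agent.KRFX

section Mod

variable {n m l : ℕ} {M Y Y' W : Type} [TopologicalSpace M] [CompactSpace M] [T2Space M]
  [TopologicalSpace Y] [T2Space Y] [TopologicalSpace Y'] [T2Space Y'] [TopologicalSpace W]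
  [T2Space W] {κ P P' ι : Type} [Finite P] [Finite P'] [Fintype ι] {T : ℝ}
  (F : Mod n m l M Y Y' W κ P P' ι T)

omit [CompactSpace M] [T2Space Y] [T2Space Y'] [T2Space W] [Finite P] [Finite P']
  [Fintype ι] in
theorem Mod.up_one (c : κ) {A : Set (Cn n)} (hA : IsCompact A) (hAt : A ⊆ (F.e c).target)
    (i : ι) : ∃ C : ℝ, 0 ≤ C ∧ ∀ B ⊆ cpd (k := n) 1,
      volume {z | z ∈ A ∧ ∃ x ∈ B, F.π ((F.a i).symm x) = (F.e c).symm z} ≤
        ENNReal.ofReal C * volume B := by
  have hO : IsOpen (opd (k := n) 10) := Gap.isOpen_opd 10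
  have hsub : cpd (k := n) 1 ⊆ opd 10 := Gap.cpd_subset_opd (by norm_num) (by norm_num)
  -- the map to `M`
  have hmem : ∀ x ∈ opd (k := n) 10, F.π ((F.a i).symm x) ∈ (F.e (F.al i)).source := by
    intro x hx
    refine F.model.mem i _ ((F.a i).map_target ?_)
    rw [F.model.target i]
    exact hx
  have hP : ContinuousOn (fun x => F.π ((F.a i).symm x)) (opd 10) := by
    have h1 : ContinuousOn (fun x => (F.e (F.al i)).symm (F.e (F.al i) (F.π ((F.a i).symm x))))
        (opd 10) := by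
      refine (F.e (F.al i)).continuousOn_symm.comp (F.model.holo i).1.continuousOn ?_
      exact fun x hx => (F.e (F.al i)).map_source (hmem x hx)
    refine h1.congr fun x hx => ?_
    exact ((F.e (F.al i)).left_inv (hmem x hx)).symm
  -- the compact set of the points over `A`
  have hAc : IsClosed ((F.e c).symm '' A) :=
    (hA.image_of_continuousOn ((F.e c).continuousOn_symm.mono hAt)).isClosed
  have hK : IsCompact (cpd (k := n) 1 ∩ (fun x => F.π ((F.a i).symm x)) ⁻¹' ((F.e c).symm '' A)) :=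
    (Gap.isCompact_cpd 1).of_isClosed_subset
      ((hP.mono hsub).preimage_isClosed_of_isClosed (Gap.isClosed_cpd 1) hAc) inter_subset_left
  have hU : IsOpen (opd (k := n) 10 ∩ (fun x => F.π ((F.a i).symm x)) ⁻¹' (F.e c).source) :=
    hP.isOpen_inter_preimage hO (F.e c).open_source
  have hh : ContDiffOn ℝ ∞ (fun x => F.e c (F.π ((F.a i).symm x)))
      (opd 10 ∩ (fun x => F.π ((F.a i).symm x)) ⁻¹' (F.e c).source) := by
    have h1 : ContDiffOn ℝ ∞ (fun x => tr F.e (F.al i) c (F.e (F.al i) (F.π ((F.a i).symm x))))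
        (opd 10 ∩ (fun x => F.π ((F.a i).symm x)) ⁻¹' (F.e c).source) := by
      refine (F.atlas.holo (F.al i) c).1.comp ((F.model.holo i).1.mono inter_subset_left) ?_
      rintro x ⟨hx, hx'⟩
      refine ⟨(F.e (F.al i)).map_source (hmem x hx), ?_⟩
      rw [(F.e (F.al i)).left_inv (hmem x hx)]
      exact hx'
    refine h1.congr fun x hx => ?_
    change _ = F.e c ((F.e (F.al i)).symm _)
    rw [(F.e (F.al i)).left_inv (hmem x hx.1)]
  have hKU : cpd (k := n) 1 ∩ (fun x => F.π ((F.a i).symm x)) ⁻¹' ((F.e c).symm '' A) ⊆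
      opd 10 ∩ (fun x => F.π ((F.a i).symm x)) ⁻¹' (F.e c).source := by
    rintro x ⟨hx, z, hz, hxz⟩
    refine ⟨hsub hx, ?_⟩
    have h1 : F.π ((F.a i).symm x) = (F.e c).symm z := hxz.symm
    change F.π ((F.a i).symm x) ∈ (F.e c).source
    rw [h1]
    exact (F.e c).map_target (hAt hz)
  obtain ⟨C, hC0, hC⟩ := Pool.Agent.KRFG.Up.volume_image_le hU hh hK hKU
  refine ⟨C, hC0, fun B hB => ?_⟩
  calc volume {z | z ∈ A ∧ ∃ x ∈ B, F.π ((F.a i).symm x) = (F.e c).symm z}
      ≤ volume ((fun x => F.e c (F.π ((F.a i).symm x))) ''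
          (B ∩ (fun x => F.π ((F.a i).symm x)) ⁻¹' ((F.e c).symm '' A))) := by
        gcongr
        rintro z ⟨hz, x, hx, hxz⟩
        refine ⟨x, ⟨hx, z, hz, hxz.symm⟩, ?_⟩
        change F.e c (F.π ((F.a i).symm x)) = z
        rw [hxz]
        exact (F.e c).right_inv (hAt hz)
    _ ≤ ENNReal.ofReal C *
          volume (B ∩ (fun x => F.π ((F.a i).symm x)) ⁻¹' ((F.e c).symm '' A)) :=
        hC _ (inter_subset_inter_left _ hB)
    _ ≤ ENNReal.ofReal C * volume B := by
        gcongr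
        exact inter_subset_left

omit [CompactSpace M] [T2Space Y] [T2Space Y'] [T2Space W] [Finite P] [Finite P'] in
/-- **volumes in `M` and in `W`** -/
theorem Mod.up (c : κ) {A : Set (Cn n)} (hA : IsCompact A) (hAt : A ⊆ (F.e c).target) :
    ∃ C : ℝ, 0 ≤ C ∧ ∀ S ⊆ A, ∀ B : ι → Set (Cn n), (∀ i, B i ⊆ cpd 1) →
      (∀ z ∈ S, ∃ i, ∃ x ∈ B i, F.π ((F.a i).symm x) = (F.e c).symm z) →
      volume S ≤ ENNReal.ofReal C * ∑ i, volume (B i) := by
  choose C hC0 hC using F.up_one c hA hAt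
  refine ⟨∑ i, C i, Finset.sum_nonneg fun i _ => hC0 i, fun S hS B hB hcov => ?_⟩
  calc volume S ≤ volume (⋃ i, {z | z ∈ A ∧ ∃ x ∈ B i, F.π ((F.a i).symm x) =
          (F.e c).symm z}) := by
        gcongr
        intro z hz
        obtain ⟨i, x, hx, hxz⟩ := hcov z hz
        exact mem_iUnion.2 ⟨i, hS hz, x, hx, hxz⟩
    _ ≤ ∑ i, volume {z | z ∈ A ∧ ∃ x ∈ B i, F.π ((F.a i).symm x) = (F.e c).symm z} :=
        measure_iUnion_fintype_le _ _
    _ ≤ ∑ i, ENNReal.ofReal (∑ i, C i) * volume (B i) := by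
        refine Finset.sum_le_sum fun i _ => (hC i (B i) (hB i)).trans ?_
        gcongr
        exact Finset.single_le_sum (fun j _ => hC0 j) (Finset.mem_univ i)
    _ = ENNReal.ofReal (∑ i, C i) * ∑ i, volume (B i) := (Finset.mul_sum _ _ _).symm

end Mod

end Pool.Agent.KRFX
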