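import Pool.Agent.Work.MP_a2bf38_gt.X.Pull
import Pool.Agent.Work.MP_a2bf38_gt.X.Up

/-!
# The sets where `g` is small, in `Y` and in `M` (helper86)
-/

open scoped ContDiff ENNReal ComplexOrder Topology NNReal
open Set MeasureTheory Filter Pool.Agent.ToricKRF Pool.Agent.ToricKRF.G Pool.Agent.KRFS
  Pool.Agent.KRFF Pool.Agent.KRFG Pool.Agent.KRFG.Decay

namespace Pool.Agent.KRFX

namespace Vol

/-- sets of points with a small coordinate -/
theorem small_pow (n D : ℕ) {c : ℝ} (hc : 0 < c) : ∃ C c₁ : ℝ, 0 ≤ C ∧ 0 < c₁ ∧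
    ∀ s ∈ Ioc (0 : ℝ) 1, ∀ S ⊆ cpd (k := n) 1,
      (∀ x ∈ S, ∀ η ∈ Ioc (0 : ℝ) 1, (∀ l, η ≤ ‖cc x l‖) → c * η ^ D ≤ s) →
      volume S ≤ ENNReal.ofReal (C * s ^ c₁) := by
  obtain ⟨C₀, hC₀, hv⟩ := volume_small_coord n
  set V : ℝ := (volume (cpd (k := n) 1)).toReal with hV
  have hV0 : 0 ≤ V := ENNReal.toReal_nonneg
  have hfin : volume (cpd (k := n) 1) ≠ ⊤ := (Gap.isCompact_cpd 1).measure_lt_top.ne
  have hD : (0 : ℝ) < D + 2 := by positivity
  set c₁ : ℝ := 2 / (D + 2) with hc₁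
  have hc₁0 : 0 < c₁ := by positivity
  refine ⟨(C₀ + V) * (2 / c) ^ c₁, c₁, by positivity, hc₁0, fun s hs S hS hx => ?_⟩
  have hs0 := hs.1
  have e1 : (C₀ + V) * (2 / c) ^ c₁ * s ^ c₁ = (C₀ + V) * (2 * s / c) ^ c₁ := by
    rw [mul_assoc, ← Real.mul_rpow (by positivity) hs0.le]
    congr 2
    ring
  rw [e1]
  have hp : 0 ≤ (2 * s / c) ^ c₁ := by positivity
  rcases le_or_gt (2 * s) c with h1 | h1
  · set η : ℝ := (2 * s / c) ^ ((D + 2 : ℝ)⁻¹) with hη
    have hb0 : 0 < 2 * s / c := by positivity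
    have hb1 : 2 * s / c ≤ 1 := by
      rw [div_le_one hc]
      exact h1
    have hη0 : 0 < η := Real.rpow_pos_of_pos hb0 _
    have hη1 : η ≤ 1 := Real.rpow_le_one hb0.le hb1 (by positivity)
    have hηD : η ^ (D + 2) = 2 * s / c := by
      rw [hη, ← Real.rpow_natCast, ← Real.rpow_mul hb0.le]
      push_cast
      rw [inv_mul_cancel₀ hD.ne', Real.rpow_one]
    have hη2 : η ^ 2 = (2 * s / c) ^ c₁ := by
      rw [hη, ← Real.rpow_natCast, ← Real.rpow_mul hb0.le, hc₁]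
      congr 1
      push_cast
      field_simp
    have hsub : S ⊆ {x : Cn n | x ∈ cpd 1 ∧ ∃ l, x.1 l ^ 2 + x.2 l ^ 2 < η ^ 2} := by
      intro x hxS
      refine ⟨hS hxS, ?_⟩
      by_contra hcon
      push Not at hcon
      have h2 : ∀ l, η ≤ ‖cc x l‖ := by
        intro l
        have := hcon l
        rw [← Pull.sq_norm_ccP] at this
        exact le_of_sq_le_sq this (norm_nonneg _)
      have h3 := hx x hxS η ⟨hη0, hη1⟩ h2
      have h4 : η ^ (D + 2) ≤ η ^ D := pow_le_pow_of_le_one hη0.le hη1 (by omega)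
      have h5 := mul_le_mul_of_nonneg_left h4 hc.le
      rw [hηD, mul_div_cancel₀ _ hc.ne'] at h5
      linarith
    refine (measure_mono hsub).trans ((hv η ⟨hη0, hη1⟩).trans ?_)
    apply ENNReal.ofReal_le_ofReal
    rw [hη2]
    nlinarith
  · have h2 : 1 ≤ (2 * s / c) ^ c₁ := by
      refine Real.one_le_rpow ?_ hc₁0.le
      rw [le_div_iff₀ hc]
      linarith
    refine (measure_mono hS).trans ?_
    rw [← ENNReal.ofReal_toReal hfin]
    apply ENNReal.ofReal_le_ofReal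
    change V ≤ _
    nlinarith

/-- a positive number below finitely many -/
theorem exists_pos_le {ι : Type} [Fintype ι] {f : ι → ℝ} (hf : ∀ i, 0 < f i) :
    ∃ c > 0, ∀ i, c ≤ f i := by
  have h0 : 0 ≤ ∑ i, (f i)⁻¹ := Finset.sum_nonneg fun i _ => (inv_pos.2 (hf i)).le
  refine ⟨(∑ i, (f i)⁻¹ + 1)⁻¹, by positivity, fun i => ?_⟩
  rw [inv_le_comm₀ (by positivity) (hf i)]
  have := Finset.single_le_sum (f := fun i => (f i)⁻¹) (fun j _ => (inv_pos.2 (hf j)).le)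
    (Finset.mem_univ i)
  linarith

theorem prod_ge {m : ℕ} {x : Cn m} {η : ℝ} (hη : 0 < η) (h : ∀ l, η ≤ ‖cc x l‖) :
    η ^ m ≤ ∏ i, ‖cc x i‖ := by
  calc η ^ m = ∏ _l : Fin m, η := by simp
    _ ≤ _ := Finset.prod_le_prod (fun _ _ => hη.le) fun l _ => h l

theorem mem_cpd_of_nsq {m : ℕ} {x : Cn m} (hx : nsq x ≤ 1) : x ∈ cpd (k := m) 1 := by
  intro i
  have h1 : x.1 i ^ 2 + x.2 i ^ 2 ≤ nsq x := by
    rw [Gap.nsq_eq]
    exact Finset.single_le_sum (f := fun i => x.1 i ^ 2 + x.2 i ^ 2)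
      (fun j _ => by positivity) (Finset.mem_univ i)
  linarith

theorem isCompact_nsq {m : ℕ} : IsCompact {x : Cn m | nsq x ≤ 1} := by
  refine (Gap.isCompact_cpd 1).of_isClosed_subset ?_ fun x hx => mem_cpd_of_nsq hx
  have : Continuous fun y : Cn m => nsq y := by
    unfold nsq dotProduct
    fun_prop
  exact isClosed_le this continuous_const

end Vol

section Mod

variable {n m l : ℕ} {M Y Y' W : Type} [TopologicalSpace M] [CompactSpace M] [T2Space M]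
  [TopologicalSpace Y] [T2Space Y] [TopologicalSpace Y'] [T2Space Y'] [TopologicalSpace W]
  [T2Space W] {κ P P' ι : Type} [Finite P] [Finite P'] [Fintype ι] {T : ℝ}
  (F : Mod n m l M Y Y' W κ P P' ι T)

omit [CompactSpace M] [T2Space M] [T2Space Y] [T2Space Y'] [T2Space W] [Finite P]
  [Fintype ι] in
/-- **the sets in `Y` where `g` is small** -/
theorem Mod.vol_Y' (hbt : ∀ j, {y | nsq y < 100} ⊆ (F.b j).target) :
    ∃ C c : ℝ, 0 ≤ C ∧ 0 < c ∧ ∀ j, ∀ s ∈ Ioc (0 : ℝ) 1,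
    volume {y : Cn m | nsq y ≤ 49 ∧ nsq (F.g j y) ≤ s} ≤ ENNReal.ofReal (C * s ^ c) := by
  have := Fintype.ofFinite P'
  obtain ⟨c, A, hc, hlow⟩ := F.modif.low
  obtain ⟨C₀, c₁, hC₀, hc₁, hvol⟩ := Vol.small_pow m (m * A) hc
  have himg : ∀ a, ∃ C : ℝ, 0 ≤ C ∧ ∀ B ⊆ {x : Cn m | nsq x ≤ 1},
      volume (sgm F.b F.z F.σ F.la a '' B) ≤ ENNReal.ofReal C * volume B := fun a =>
    Up.volume_image_le (Pull.isOpen_nsq_lt 100) (F.modif.holo a).1 Vol.isCompact_nsq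
      fun x (hx : nsq x ≤ 1) => show nsq x < 100 by linarith
  choose Ca hCa0 hCa using himg
  have hsum : 0 ≤ ∑ a, Ca a := Finset.sum_nonneg fun a _ => hCa0 a
  refine ⟨(∑ a, Ca a) * C₀, c₁, by positivity, hc₁, fun j s hs => ?_⟩
  set S : Set (Cn m) := {x | nsq x ≤ 1 ∧ c * (∏ i, ‖cc x i‖) ^ A ≤ s} with hS
  have hSv : volume S ≤ ENNReal.ofReal (C₀ * s ^ c₁) := by
    refine hvol s hs S (fun x hx => Vol.mem_cpd_of_nsq hx.1) fun x hx η hη hl => ?_
    refine le_trans (mul_le_mul_of_nonneg_left ?_ hc.le) hx.2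
    rw [pow_mul]
    exact pow_le_pow_left₀ (by positivity [hη.1]) (Vol.prod_ge hη.1 hl) A
  have hsub : {y : Cn m | nsq y ≤ 49 ∧ nsq (F.g j y) ≤ s} ⊆
      ⋃ a, sgm F.b F.z F.σ F.la a '' S := by
    rintro y ⟨hy, hg⟩
    have hyt : y ∈ (F.b j).target := hbt j (show nsq y < 100 by linarith)
    have e0 : F.b j ((F.b j).symm y) = y := (F.b j).right_inv hyt
    obtain ⟨y', h1, h2⟩ := F.modif.surj j ((F.b j).symm y) ((F.b j).map_target hyt)
      (by rw [e0]; exact hy)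
    obtain ⟨a, h3, h4⟩ := F.modif.cover y' (by rw [h1, h2, e0]; exact hy)
    have h5 : F.la a = j := by rw [← F.modif.lb_eq a y' h3, h1]
    have h6 : sgm F.b F.z F.σ F.la a (F.z a y') = y := by
      unfold sgm
      rw [(F.z a).left_inv h3, h2, h5, e0]
    refine mem_iUnion.2 ⟨a, F.z a y', ⟨h4, ?_⟩, h6⟩
    have h7 := (hlow a (F.z a y') (by linarith)).1
    rw [h6, h5] at h7
    exact h7.trans hg
  calc volume {y : Cn m | nsq y ≤ 49 ∧ nsq (F.g j y) ≤ s}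
      ≤ ∑ a, volume (sgm F.b F.z F.σ F.la a '' S) :=
        (measure_mono hsub).trans (measure_iUnion_fintype_le _ _)
    _ ≤ ∑ a, ENNReal.ofReal (Ca a * (C₀ * s ^ c₁)) := by
        refine Finset.sum_le_sum fun a _ => (hCa a S fun x hx => hx.1).trans ?_
        rw [ENNReal.ofReal_mul (hCa0 a)]
        exact mul_le_mul_right hSv _
    _ = ENNReal.ofReal ((∑ a, Ca a) * C₀ * s ^ c₁) := by
        rw [← ENNReal.ofReal_sum_of_nonneg, ← Finset.sum_mul]
        · ring_nf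
        · intro a _
          have := hCa0 a
          have := hs.1
          positivity

omit [CompactSpace M] [T2Space M] [T2Space Y] [T2Space Y'] [T2Space W] [Finite P]
  [Fintype ι] in
/-- **the sets in `Y` where `g` is small** -/
theorem Mod.vol_Y : ∃ C c : ℝ, 0 ≤ C ∧ 0 < c ∧ ∀ j, ∀ s ∈ Ioc (0 : ℝ) 1,
    volume {y : Cn m | nsq y ≤ 49 ∧ nsq (F.g j y) ≤ s} ≤ ENNReal.ofReal (C * s ^ c) :=
  F.vol_Y' F.hol.target

omit [CompactSpace M] [T2Space Y] [T2Space Y'] [T2Space W] [Finite P] [Finite P'] in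
/-- **the sets in `M` where `g` is small** -/
theorem Mod.vol_M (c : κ) {A : Set (Cn n)} (hA : IsCompact A) (hAt : A ⊆ (F.e c).target) :
    ∃ C c₁ : ℝ, 0 ≤ C ∧ 0 < c₁ ∧ ∀ j, ∀ s ∈ Ioc (0 : ℝ) 1,
    volume {x ∈ A | F.f ((F.e c).symm x) ∈ (F.b j).source ∧
      nsq (F.b j (F.f ((F.e c).symm x))) ≤ 49 ∧
      nsq (F.g j (F.b j (F.f ((F.e c).symm x)))) ≤ s} ≤ ENNReal.ofReal (C * s ^ c₁) := by
  obtain ⟨c₀, A₀, hc₀, hlow⟩ := F.modif.low
  obtain ⟨Cu, hCu0, hCu⟩ := F.up c hA hAt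
  -- the constants of the charts
  set q : ι → ℝ := fun i => ∏ k, F.s i k ^ F.N (F.pc i) k with hq
  have hq0 : ∀ i, 0 < q i := fun i => Finset.prod_pos fun k _ => pow_pos (F.model.s_pos i k) _
  set e : ι → ℕ := fun i => ∑ k, n * F.N (F.pc i) k with he
  have hsm : ∀ i, ∃ C c₁ : ℝ, 0 ≤ C ∧ 0 < c₁ ∧
    ∀ s ∈ Ioc (0 : ℝ) 1, ∀ S ⊆ cpd (k := n) 1,
      (∀ x ∈ S, ∀ η ∈ Ioc (0 : ℝ) 1, (∀ l, η ≤ ‖cc x l‖) →
        c₀ * q i ^ A₀ * η ^ (e i * A₀) ≤ s) →
      volume S ≤ ENNReal.ofReal (C * s ^ c₁) := fun i =>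
    Vol.small_pow n (e i * A₀) (mul_pos hc₀ (pow_pos (hq0 i) _))
  choose Ci ci hCi0 hci0 hsm using hsm
  obtain ⟨c₁, hc₁, hc₁i⟩ := Vol.exists_pos_le hci0
  have hsum : 0 ≤ ∑ i, Ci i := Finset.sum_nonneg fun i _ => hCi0 i
  refine ⟨Cu * ∑ i, Ci i, c₁, by positivity, hc₁, fun j s hs => ?_⟩
  set B : ι → Set (Cn n) := fun i => {x | x ∈ cpd 1 ∧
    c₀ * (∏ k, (F.s i k * ‖prow (F.row i) k x‖) ^ F.N (F.pc i) k) ^ A₀ ≤ s} with hB
  have hBv : ∀ i, volume (B i) ≤ ENNReal.ofReal (Ci i * s ^ c₁) := by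
    intro i
    refine (hsm i s hs (B i) (fun x hx => hx.1) fun x hx η hη hl => ?_).trans ?_
    · refine le_trans ?_ hx.2
      rw [mul_assoc]
      refine mul_le_mul_of_nonneg_left ?_ hc₀.le
      rw [pow_mul, ← mul_pow]
      refine pow_le_pow_left₀ (mul_nonneg (hq0 i).le (pow_nonneg hη.1.le _)) ?_ A₀
      have h1 : q i * η ^ e i = ∏ k, (F.s i k * η ^ n) ^ F.N (F.pc i) k := by
        simp only [hq, he]
        rw [← Finset.prod_pow_eq_pow_sum, ← Finset.prod_mul_distrib]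
        refine Finset.prod_congr rfl fun k _ => ?_
        rw [mul_pow, ← pow_mul]
      rw [h1]
      refine Finset.prod_le_prod (fun k _ => pow_nonneg (mul_nonneg (F.model.s_pos i k).le
        (pow_nonneg hη.1.le _)) _) fun k _ => ?_
      refine pow_le_pow_left₀ (mul_nonneg (F.model.s_pos i k).le (pow_nonneg hη.1.le _)) ?_ _
      exact mul_le_mul_of_nonneg_left (Pull.le_norm_prow _ k hη hl) (F.model.s_pos i k).le
    · apply ENNReal.ofReal_le_ofReal
      exact mul_le_mul_of_nonneg_left (Real.rpow_le_rpow_of_exponent_ge hs.1 hs.2 (hc₁i i))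
        (hCi0 i)
  have hcov : ∀ x ∈ {x ∈ A | F.f ((F.e c).symm x) ∈ (F.b j).source ∧
      nsq (F.b j (F.f ((F.e c).symm x))) ≤ 49 ∧
      nsq (F.g j (F.b j (F.f ((F.e c).symm x)))) ≤ s},
      ∃ i, ∃ x' ∈ B i, F.π ((F.a i).symm x') = (F.e c).symm x := by
    rintro x ⟨-, h1, h2, h3⟩
    set p := (F.e c).symm x with hp
    obtain ⟨w₀, h4, h5⟩ := F.model.all j p h1 h2
    have h6 : F.σ (F.h w₀) = F.f p := by rw [F.model.comm w₀, h5]
    obtain ⟨a, h7, h8⟩ := F.modif.cover (F.h w₀) (by rw [h4, h6]; exact h2)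
    have h9 : F.la a = j := by rw [← F.modif.lb_eq a _ h7, h4]
    have hroot : ∀ i, ∃ t : ℂ, t ^ F.N a i = cc (F.z a (F.h w₀)) i := fun i =>
      IsAlgClosed.exists_pow_nat_eq _ (F.model.N_pos a i)
    choose t ht using hroot
    obtain ⟨w, h10, h11, h12⟩ := F.model.onto a w₀ h7 (by linarith) (ofC t)
      (fun i => by rw [cc_ofC]; exact ht i)
    obtain ⟨h13, h14⟩ := F.model.base w
    have h15 : F.z a (F.h w) = F.z a (F.h w₀) := by
      refine cc_ext fun i => ?_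
      have h := h14 i
      rw [h10, h11, cc_ofC, ht i] at h
      exact h
    obtain ⟨i, h16, h17⟩ := F.model.cover w (by rw [h10, h15]; linarith)
    have h18 : F.pc i = a := by rw [← F.model.lab_eq i w h16, h10]
    refine ⟨i, F.a i w, ⟨h17, ?_⟩, ?_⟩
    · have h19 : ∀ k, F.s i k * ‖prow (F.row i) k (F.a i w)‖ = ‖cc (F.τ w) k‖ := by
        intro k
        rw [F.model.mono i w h16 k, norm_mul, Complex.norm_real, Real.norm_eq_abs,
          abs_of_pos (F.model.s_pos i k)]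
      have h20 : ∀ k, (F.s i k * ‖prow (F.row i) k (F.a i w)‖) ^ F.N (F.pc i) k =
          ‖cc (F.z a (F.h w)) k‖ := by
        intro k
        have h := h14 k
        rw [h10] at h
        rw [h19, h18, h, norm_pow]
      simp only [h20]
      have h21 := (hlow a (F.z a (F.h w)) (by rw [h15]; linarith)).1
      have h22 : sgm F.b F.z F.σ F.la a (F.z a (F.h w)) = F.b j (F.f p) := by
        rw [h10] at h13
        unfold sgm
        rw [(F.z a).left_inv h13, F.model.comm w, h12, h5, h9]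
      rw [h22, h9] at h21
      exact h21.trans h3
    · rw [(F.a i).left_inv h16, h12, h5]
  refine (hCu _ (fun x hx => hx.1) B (fun i x hx => hx.1) hcov).trans ?_
  calc ENNReal.ofReal Cu * ∑ i, volume (B i)
      ≤ ENNReal.ofReal Cu * ∑ i, ENNReal.ofReal (Ci i * s ^ c₁) :=
        mul_le_mul_right (Finset.sum_le_sum fun i _ => hBv i) _
    _ = ENNReal.ofReal (Cu * (∑ i, Ci i) * s ^ c₁) := by
        rw [← ENNReal.ofReal_sum_of_nonneg, ← Finset.sum_mul, ← ENNReal.ofReal_mul hCu0,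
          mul_assoc]
        intro i _
        have := hCi0 i
        have := hs.1
        positivity

end Mod

end Pool.Agent.KRFX
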