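import Pool.Agent.Work.MP_a2bf38_gt.X.GlueA
import Pool.Agent.Work.MP_a2bf38_gt.X.GlueB
import Pool.Agent.Work.MP_a2bf38_gt.X.Vol
import Pool.Agent.Work.MP_a2bf38_gt.X.Sup
import Pool.Agent.Work.MP_a2bf38_gt.K.ContactA
import Pool.Agent.Work.MP_a2bf38_gt.L.BallM

/-!
# The gluing: the upper bound
-/

open scoped ContDiff ENNReal ComplexOrder Topology
open Set MeasureTheory Filter Pool.Agent.ToricKRF Pool.Agent.ToricKRF.G Pool.Agent.KRFS
  Pool.Agent.KRFF Pool.Agent.KRFG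

namespace Pool.Agent.KRFX

set_option linter.unusedSectionVars false

section Mod

variable {n m l : ℕ} {M Y Y' W : Type} [TopologicalSpace M] [CompactSpace M] [T2Space M]
  [TopologicalSpace Y] [T2Space Y] [TopologicalSpace Y'] [T2Space Y'] [TopologicalSpace W]
  [T2Space W] {κ P P' ι : Type} [Finite P] [Finite P'] [Fintype ι] {T : ℝ}
  (F : Mod n m l M Y Y' W κ P P' ι T)

/-- the flow at a point is bounded by the descended function off the poles -/
theorem Mod.Phi_le_q {C S t : ℝ} (ht : t ∈ Ico 0 T) {q : P → Cn m → ℝ} (hq : F.IsDesc C S t q)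
    {j : P} {p : M} (hp : F.f p ∈ (F.b j).source) (h49 : nsq (F.b j (F.f p)) < 49)
    (hg : F.g j (F.b j (F.f p)) ≠ 0) :
    F.Phi t p ≤ q j (F.b j (F.f p)) +
      C * (T - t) * (1 + |Real.log (nsq (F.g j (F.b j (F.f p))))|) := by
  obtain ⟨y', hlb, hσ⟩ := F.modif.surj j (F.f p) hp h49.le
  have e1 : F.yb y' = F.b j (F.f p) := by
    unfold Mod.yb
    rw [hlb, hσ]
  obtain ⟨w, hw1, hw2⟩ := F.model.full p y' hσ (by rw [hlb]; exact h49.le) (by rw [hlb]; exact hg)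
  obtain ⟨a, ha1, ha2⟩ := F.modif.cover y' (by rw [hlb, hσ]; exact h49.le)
  have h1 := (F.Mx_spec ht ha1 (by linarith)).2 w hw1
  rw [hw2] at h1
  have h2 := hq.ge y' (by rw [e1]; exact h49) (by rw [e1, hlb]; exact hg)
  rw [e1, hlb] at h2
  linarith

/-- the upper bound near one point -/
theorem Mod.glue_upper_at {CK : ℝ} (hCK : 1 ≤ CK)
    (hK1 : ∀ j, ∀ y : Cn m, nsq y ≤ 49 → nsq (F.g j y) ≤ CK)
    (hK2 : ∀ j, ∀ y y' : Cn m, nsq y ≤ 36 → nsq y' ≤ 36 →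
      |F.K j y - F.K j y'| ≤ CK * √(nsq (y - y'))) {c : κ} {z₀ : Cn n}
    (hz₀ : z₀ ∈ (F.e c).target) (C S Cr : ℝ) (hC : 0 ≤ C) (hS : 0 ≤ S) (hCr : 0 ≤ Cr) :
    ∃ C' d₀ r : ℝ, 0 ≤ C' ∧ 0 < d₀ ∧ 0 < r ∧ ∀ t ∈ Ico 0 T, T - t < d₀ →
      ∀ q u' : P → Cn m → ℝ, F.IsDesc C S t q →
      (∀ j, IsReg 1 Cr S (Real.exp (-(1 / √(T - t)))) (fun y => q j y + t / T * F.K j y) (u' j)) →
      ∀ j z, nsq (z - z₀) ≤ r ^ 2 → F.f ((F.e c).symm z) ∈ (F.b j).source →
        nsq (F.b j (F.f ((F.e c).symm z))) ≤ 16 →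
        F.Phi t ((F.e c).symm z) ≤ u' j (F.b j (F.f ((F.e c).symm z))) -
          t / T * F.K j (F.b j (F.f ((F.e c).symm z))) + C' * √(T - t) := by
  obtain ⟨L, r₁, hL, hr₁, hr₁t, hlip⟩ := F.f_lip hz₀
  obtain ⟨Cb, r₀, δ, hCb, hr₀, hδ, hr₀t, hball⟩ := KRFH.Flow.ball_good F.toFlow hz₀
  set r := min r₁ r₀ with hr
  have hr0 : 0 < r := lt_min hr₁ hr₀
  have hrr₁ : r ≤ r₁ := min_le_left _ _
  have hrr₀ : r ≤ r₀ := min_le_right _ _
  -- the compact set
  set A : Set (Cn n) := {z | nsq (z - z₀) ≤ (2 * r) ^ 2} with hA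
  have hAt : A ⊆ (F.e c).target := fun z (hz : nsq (z - z₀) ≤ (2 * r) ^ 2) => by
    refine hr₀t (show nsq (z - z₀) ≤ (2 * r₀) ^ 2 from hz.trans ?_)
    exact pow_le_pow_left₀ (by positivity) (by linarith) 2
  have hAc : IsCompact A := isCompact_nsq_sub z₀ (by positivity)
  obtain ⟨Cv, cv, hCv, hcv, hV⟩ := F.vol_M c hAc hAt
  obtain ⟨k, hk⟩ : ∃ k : ℕ, (2 * n + 2 : ℝ) ≤ k * cv := by
    obtain ⟨k, hk⟩ := exists_nat_ge ((2 * n + 2 : ℝ) / cv)
    exact ⟨k, by rwa [div_le_iff₀ hcv] at hk⟩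
  have hL0 : 0 < L := by linarith
  set b : ℝ := Cb⁻¹ / L ^ (2 * n) with hb
  have hb0 : 0 < b := by positivity
  set e := min 1 (min r (min (1 / (Cb + 1)) (min √δ (b / (Cv + 1))))) with he
  have he0 : 0 < e := by
    refine lt_min one_pos (lt_min hr0 (lt_min (by positivity) (lt_min ?_ (by positivity))))
    exact Real.sqrt_pos.2 hδ
  refine ⟨1 + C * (1 + CK + k) + Cr * S + CK, e ^ 2, r, by positivity, by positivity, hr0, ?_⟩
  intro t ht hd q u' hq hu j z hz hzj h16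
  set d := T - t with hdd
  have hd0 : 0 < d := by
    have := ht.2
    rw [hdd]
    linarith
  set sd := √d with hsd
  have hsd0 : 0 < sd := Real.sqrt_pos.2 hd0
  have hsde : sd < e := by
    have : √(e ^ 2) = e := Real.sqrt_sq he0.le
    rw [← this]
    exact Real.sqrt_lt_sqrt hd0.le hd
  have hsd1 : sd < 1 := hsde.trans_le (min_le_left _ _)
  have hsdr : sd < r := hsde.trans_le ((min_le_right _ _).trans (min_le_left _ _))
  have hsdC : sd < 1 / (Cb + 1) := hsde.trans_le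
    ((min_le_right _ _).trans ((min_le_right _ _).trans (min_le_left _ _)))
  have hsdδ : sd < √δ := hsde.trans_le ((min_le_right _ _).trans
    ((min_le_right _ _).trans ((min_le_right _ _).trans (min_le_left _ _))))
  have hsdb : sd < b / (Cv + 1) := hsde.trans_le ((min_le_right _ _).trans
    ((min_le_right _ _).trans ((min_le_right _ _).trans (min_le_right _ _))))
  have hdδ : d < δ := (Real.sqrt_lt_sqrt_iff hd0.le).1 hsdδ
  have hdsd : d = sd * sd := (Real.mul_self_sqrt hd0.le).symm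
  set ρ := Real.exp (-(1 / sd)) with hρ
  have hρ0 : 0 < ρ := Real.exp_pos _
  have hρsd : ρ ≤ sd := Gl.exp_le_sqrt hd0
  have hρ1 : ρ ≤ 1 := hρsd.trans hsd1.le
  have hT : 0 < T := by
    have := ht.1
    have := ht.2
    linarith
  have htT0 : 0 ≤ t / T := div_nonneg ht.1 hT.le
  have htT1 : t / T ≤ 1 := by
    rw [div_le_one hT]
    exact ht.2.le
  -- the radius in `M`
  set r₂ := ρ / L with hr₂
  have hr₂0 : 0 < r₂ := by positivity
  have hr₂ρ : r₂ ≤ ρ := div_le_self hρ0.le hL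
  have hr₂r : r₂ ≤ r := hr₂ρ.trans (hρsd.trans hsdr.le)
  have hcond : Cb * r₂ ^ 2 ≤ sd := by
    have h1 : sd * (Cb + 1) ≤ 1 := by
      have := hsdC.le
      rwa [le_div_iff₀ (by positivity)] at this
    have h2 : r₂ ^ 2 ≤ sd ^ 2 := pow_le_pow_left₀ hr₂0.le (hr₂ρ.trans hρsd) 2
    nlinarith
  have hgood := hball t ht hdδ z (hz.trans (pow_le_pow_left₀ hr0.le hrr₀ 2)) r₂
    ⟨hr₂0, hr₂r.trans hrr₀⟩ hcond
  -- the bad set
  have hs : ρ ^ k ∈ Ioc (0 : ℝ) 1 := ⟨by positivity, pow_le_one₀ hρ0.le hρ1⟩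
  set E : Set (Cn n) := {x ∈ A | F.f ((F.e c).symm x) ∈ (F.b j).source ∧
      nsq (F.b j (F.f ((F.e c).symm x))) ≤ 49 ∧
      nsq (F.g j (F.b j (F.f ((F.e c).symm x)))) ≤ ρ ^ k} with hE
  have hpow : (ρ ^ k) ^ cv ≤ ρ ^ (2 * n) * (ρ * ρ) := by
    have h1 : ρ ^ (2 * n) * (ρ * ρ) = ρ ^ (2 * n + 2) := by ring
    rw [h1, ← Real.rpow_natCast, ← Real.rpow_natCast, ← Real.rpow_mul hρ0.le]
    apply Real.rpow_le_rpow_of_exponent_ge hρ0 hρ1
    push_cast
    exact hk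
  have hE2 : volume E ≤ ENNReal.ofReal (Cv * (ρ ^ (2 * n) * (ρ * ρ))) :=
    (hV j _ hs).trans (ENNReal.ofReal_le_ofReal (mul_le_mul_of_nonneg_left hpow hCv))
  have hρn : 0 < ρ ^ (2 * n) := by positivity
  have hlt : Cv * (ρ ^ (2 * n) * (ρ * ρ)) < Cb⁻¹ * sd * r₂ ^ (2 * n) := by
    have h1 : r₂ ^ (2 * n) = ρ ^ (2 * n) / L ^ (2 * n) := by rw [hr₂, div_pow]
    have h2 : Cb⁻¹ * sd * r₂ ^ (2 * n) = ρ ^ (2 * n) * (b * sd) := by
      rw [h1, hb]
      ring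
    have h3 : Cv * (ρ * ρ) < b * sd := by
      have h4 : sd * (Cv + 1) < b := by rwa [lt_div_iff₀ (by positivity)] at hsdb
      have h5 : ρ * ρ ≤ sd * sd := mul_le_mul hρsd hρsd hρ0.le hsd0.le
      have h6 : Cv * (ρ * ρ) ≤ Cv * (sd * sd) := mul_le_mul_of_nonneg_left h5 hCv
      nlinarith
    rw [h2]
    calc Cv * (ρ ^ (2 * n) * (ρ * ρ)) = ρ ^ (2 * n) * (Cv * (ρ * ρ)) := by ring
      _ < _ := mul_lt_mul_of_pos_left h3 hρn
  obtain ⟨w, ⟨hw1, hw2⟩, hwE⟩ : ∃ w, w ∈ {w | nsq (w - z) ≤ r₂ ^ 2 ∧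
      F.Phi t ((F.e c).symm z) - √(T - t) ≤ F.Phi t ((F.e c).symm w)} ∧ w ∉ E := by
    by_contra hcon
    push Not at hcon
    have h1 : volume {w | nsq (w - z) ≤ r₂ ^ 2 ∧
      F.Phi t ((F.e c).symm z) - √(T - t) ≤ F.Phi t ((F.e c).symm w)} ≤ volume E :=
      measure_mono hcon
    have h2 := (hgood.trans h1).trans hE2
    have h3 := (ENNReal.ofReal_le_ofReal_iff (by positivity)).1 h2
    exact absurd h3 (not_le.2 hlt)
  -- the point in the base
  have hzr₁ : nsq (z - z₀) ≤ r₁ ^ 2 := hz.trans (pow_le_pow_left₀ hr0.le hrr₁ 2)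
  have hwr₁ : nsq (w - z) ≤ r₁ ^ 2 :=
    hw1.trans (pow_le_pow_left₀ hr₂0.le (hr₂r.trans hrr₁) 2)
  obtain ⟨hwj, hw25, hwL⟩ := hlip j z hzr₁ hzj h16 w hwr₁
  have hwA : w ∈ A := Ct.ball_in hz (hw1.trans (pow_le_pow_left₀ hr₂0.le hr₂r 2))
  set yz := F.b j (F.f ((F.e c).symm z)) with hyz
  set yw := F.b j (F.f ((F.e c).symm w)) with hyw
  have hgw : ρ ^ k < nsq (F.g j yw) := by
    by_contra hcon
    exact hwE ⟨hwA, hwj, show nsq yw ≤ 49 by linarith, not_lt.1 hcon⟩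
  have hgw' : F.g j yw ≠ 0 := by
    intro h0
    rw [h0, Gap.nsq_zero] at hgw
    exact absurd hgw (not_lt.2 hs.1.le)
  have a1 := F.Phi_le_q ht hq hwj (show nsq yw < 49 by linarith) hgw'
  rw [← hyw] at a1
  -- the logarithm
  have a2 : |Real.log (nsq (F.g j yw))| ≤ k / sd + CK := by
    have b1 : -(k / sd) ≤ Real.log (nsq (F.g j yw)) := by
      have := Real.log_le_log hs.1 hgw.le
      rw [Real.log_pow, hρ, Real.log_exp] at this
      calc -(k / sd) = k * -(1 / sd) := by ring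
        _ ≤ _ := this
    have b2 : Real.log (nsq (F.g j yw)) ≤ CK := by
      have h0 : 0 < nsq (F.g j yw) := hs.1.trans hgw
      have := Real.log_le_sub_one_of_pos h0
      have := hK1 j yw (by linarith : nsq yw ≤ 49)
      linarith
    have b3 : 0 ≤ k / sd := by positivity
    rw [abs_le]
    constructor <;> linarith
  have a3 : C * (T - t) * (1 + |Real.log (nsq (F.g j yw))|) ≤ C * (1 + CK + k) * sd := by
    rw [← hdd]
    have c1 : d * (1 + |Real.log (nsq (F.g j yw))|) ≤ (1 + CK + k) * sd := by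
      calc d * (1 + |Real.log (nsq (F.g j yw))|) ≤ d * (1 + (k / sd + CK)) := by
            apply mul_le_mul_of_nonneg_left _ hd0.le
            linarith
        _ = sd * (sd * (1 + CK)) + k * sd := by
            rw [hdsd]
            field_simp
            ring
        _ ≤ sd * (1 * (1 + CK)) + k * sd := by
            gcongr
        _ = _ := by ring
    calc C * d * (1 + |Real.log (nsq (F.g j yw))|) = C * (d * (1 + |Real.log (nsq (F.g j yw))|)) := by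
          ring
      _ ≤ C * ((1 + CK + k) * sd) := mul_le_mul_of_nonneg_left c1 hC
      _ = _ := by ring
  -- near
  have hwρ : nsq (yw - yz) ≤ (1 * ρ) ^ 2 := by
    refine hwL.trans ?_
    have h1 : L ^ 2 * nsq (w - z) ≤ L ^ 2 * r₂ ^ 2 := mul_le_mul_of_nonneg_left hw1 (by positivity)
    refine h1.trans (le_of_eq ?_)
    rw [hr₂]
    field_simp
  have a4 := (hu j).near yz yw (by linarith) hwρ
  rw [Gl.div_log] at a4
  have e1 : |F.K j yw - F.K j yz| ≤ CK * ρ := by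
    refine (hK2 j yw yz (by linarith) (by linarith)).trans ?_
    apply mul_le_mul_of_nonneg_left _ (by linarith)
    rw [one_mul] at hwρ
    exact Real.sqrt_le_iff.2 ⟨hρ0.le, hwρ⟩
  have e2 : t / T * (F.K j yz - F.K j yw) ≤ CK * sd := by
    have g1 := abs_le.1 e1
    have f1 : F.K j yz - F.K j yw ≤ CK * sd := by
      have := mul_le_mul_of_nonneg_left hρsd (by linarith : 0 ≤ CK)
      linarith [g1.1]
    have f2 : 0 ≤ CK * sd := by positivity
    calc _ ≤ t / T * (CK * sd) := mul_le_mul_of_nonneg_left f1 htT0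
      _ ≤ 1 * (CK * sd) := mul_le_mul_of_nonneg_right htT1 f2
      _ = _ := one_mul _
  rw [mul_sub] at e2
  have e5 : q j yw + t / T * F.K j yw ≤ u' j yz + Cr * S * sd := a4
  have e6 : F.Phi t ((F.e c).symm z) ≤ F.Phi t ((F.e c).symm w) + sd := by
    have h1 : F.Phi t ((F.e c).symm z) - sd ≤ F.Phi t ((F.e c).symm w) := hw2
    linarith
  have e7 : (1 + C * (1 + CK + k) + Cr * S + CK) * sd =
    sd + C * (1 + CK + k) * sd + Cr * S * sd + CK * sd := by ring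
  rw [e7]
  linarith

/-- `X/GlueUp.lean`: the upper bound, from `ball_good` (L/BallM.lean), `vol_M`, `f_lip` -/
theorem Mod.glue_upper (C S Cr : ℝ) (hC : 0 ≤ C) (hS : 0 ≤ S) (hCr : 0 ≤ Cr) :
    ∃ C' d₀ : ℝ, 0 ≤ C' ∧ 0 < d₀ ∧ ∀ t ∈ Ico 0 T, T - t < d₀ → ∀ q u' : P → Cn m → ℝ,
      F.IsDesc C S t q →
      (∀ j, IsReg 1 Cr S (Real.exp (-(1 / √(T - t)))) (fun y => q j y + t / T * F.K j y) (u' j)) →
      ∀ j p, F.f p ∈ (F.b j).source → nsq (F.b j (F.f p)) ≤ 16 →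
        F.Phi t p ≤ u' j (F.b j (F.f p)) - t / T * F.K j (F.b j (F.f p)) +
          C' * √(T - t) := by
  obtain ⟨CK, hCK, hKb, hK2⟩ := F.K_bound
  have hK1 : ∀ j, ∀ y : Cn m, nsq y ≤ 49 → nsq (F.g j y) ≤ CK := fun j y hy => (hKb j y hy).2.1
  choose c hc using F.atlas.cover
  have hloc := fun p : M => F.glue_upper_at hCK hK1 hK2 ((F.e (c p)).map_source (hc p))
    C S Cr hC hS hCr
  choose C' d₀ r hC' hd₀ hr h using hloc
  set V : M → Set M := fun p => (F.e (c p)).source ∩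
    (F.e (c p)) ⁻¹' {z | nsq (z - F.e (c p) p) < r p ^ 2} with hV
  have hVo : ∀ p, IsOpen (V p) := fun p =>
    (F.e (c p)).continuousOn.isOpen_inter_preimage (F.e (c p)).open_source
      (isOpen_lt (continuous_nsq_sub _) continuous_const)
  have hVm : ∀ p, p ∈ V p := fun p => ⟨hc p, by
    change nsq (F.e (c p) p - F.e (c p) p) < r p ^ 2
    rw [sub_self, Gap.nsq_zero]
    have := hr p
    positivity⟩
  obtain ⟨s, hs⟩ := isCompact_univ.elim_finite_subcover V hVo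
    (fun p _ => mem_iUnion.2 ⟨p, hVm p⟩)
  by_cases hne : s.Nonempty
  · refine ⟨∑ p ∈ s, C' p, s.inf' hne d₀, Finset.sum_nonneg fun p _ => hC' p, ?_, ?_⟩
    · rw [Finset.lt_inf'_iff]
      exact fun p _ => hd₀ p
    · intro t ht hd q u' hq hu j p hp h16
      obtain ⟨p₀, hp₀⟩ := mem_iUnion.1 (hs (mem_univ p))
      obtain ⟨hp₀s, hpV⟩ := mem_iUnion.1 hp₀
      have hsrc : p ∈ (F.e (c p₀)).source := hpV.1
      have hnear : nsq (F.e (c p₀) p - F.e (c p₀) p₀) < r p₀ ^ 2 := hpV.2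
      have hli : (F.e (c p₀)).symm (F.e (c p₀) p) = p := (F.e (c p₀)).left_inv hsrc
      have h1 := h p₀ t ht (hd.trans_le (Finset.inf'_le _ hp₀s)) q u' hq hu j (F.e (c p₀) p)
        hnear.le (by rw [hli]; exact hp) (by rw [hli]; exact h16)
      rw [hli] at h1
      have h2 : C' p₀ ≤ ∑ p ∈ s, C' p :=
        Finset.single_le_sum (f := C') (fun p _ => hC' p) hp₀s
      have h3 : C' p₀ * √(T - t) ≤ (∑ p ∈ s, C' p) * √(T - t) :=
        mul_le_mul_of_nonneg_right h2 (Real.sqrt_nonneg _)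
      linarith
  · refine ⟨0, 1, le_rfl, one_pos, ?_⟩
    intro t ht hd q u' hq hu j p hp h16
    obtain ⟨p₀, hp₀⟩ := mem_iUnion.1 (hs (mem_univ p))
    obtain ⟨hp₀s, -⟩ := mem_iUnion.1 hp₀
    exact absurd ⟨p₀, hp₀s⟩ hne

end Mod

end Pool.Agent.KRFX
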