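import Pool.Agent.Work.MP_a2bf38_gt.X.RegKer

/-!
# Regularization of continuous psh functions at a scale
-/

open scoped ContDiff ENNReal ComplexOrder Topology Pointwise
open Set MeasureTheory Filter Pool.Agent.ToricKRF Pool.Agent.ToricKRF.G Pool.Agent.KRFS
  Pool.Agent.KRFF Pool.Agent.KRFG

namespace Pool.Agent.KRFX

namespace RegK

variable {m : ℕ}

/-- a bounded continuous extension -/
theorem exists_ext {u : Cn m → ℝ} {K : Set (Cn m)} (hK : IsClosed K) (hu : ContinuousOn u K)
    {S : ℝ} (hb : ∀ x ∈ K, |u x| ≤ S) (hS : 0 ≤ S) :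
    ∃ g : Cn m → ℝ, Continuous g ∧ (∀ x, |g x| ≤ S) ∧ ∀ x ∈ K, g x = u x := by
  obtain ⟨g, hg⟩ := ContinuousMap.exists_restrict_eq hK
    (⟨K.domRestrict u, continuousOn_iff_continuous_domRestrict.1 hu⟩ : C(K, ℝ))
  have hgu : ∀ x ∈ K, g x = u x := by
    intro x hx
    have := congrArg (fun f : C(K, ℝ) => f ⟨x, hx⟩) hg
    simpa using this
  refine ⟨fun x => max (-S) (min S (g x)), by fun_prop, ?_, ?_⟩
  · intro x
    rw [abs_le]
    exact ⟨le_max_left _ _, max_le (by linarith) (min_le_left _ _)⟩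
  · intro x hx
    have h := abs_le.1 (hb x hx)
    dsimp only
    rw [hgu x hx, min_eq_right h.2, max_eq_right h.1]

/-- the convolution with the kernel -/
noncomputable def cv (ρ : ℝ) (g : Cn m → ℝ) (z : Cn m) : ℝ := ∫ x, ker m ρ x * g (z - x)

section

variable {ρ : ℝ} {g : Cn m → ℝ}

theorem contDiff_cv (hρ : 0 < ρ) (hg : Continuous g) : ContDiff ℝ ∞ (cv ρ g) := by
  have hH := haar_Cn m
  have hR : (volume : Measure (Cn m)).Regular :=
    Measure.Regular.of_sigmaCompactSpace_of_isLocallyFiniteMeasure _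
  have hN : (volume : Measure (Cn m)).IsNegInvariant :=
    Measure.IsAddHaarMeasure.isNegInvariant_of_regular _
  have e : cv ρ g = MeasureTheory.convolution (ker m ρ) g (ContinuousLinearMap.lsmul ℝ ℝ)
      volume := by
    ext z
    rw [MeasureTheory.convolution_def]
    rfl
  rw [e]
  apply HasCompactSupport.contDiff_convolution_left
  · exact ker_compact hρ
  · exact contDiff_ker
  · exact hg.locallyIntegrable

theorem integrable_ker_mul (hρ : 0 < ρ) {h : Cn m → ℝ} (hh : Continuous h) :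
    Integrable fun x => ker m ρ x * h x :=
  integrable_of contDiff_ker.continuous (isCompact_ball (ρ ^ 2)) (fun _ => ker_mem hρ) hh

theorem levz_cv (hρ : 0 < ρ) (hg : Continuous g) {K : Set (Cn m)}
    (hsub : ∀ z v : Cn m, (∀ ζ : ℂ, ‖ζ‖ ≤ 1 → line z v ζ ∈ K) →
      g z ≤ cavg (fun ζ => g (line z v ζ)) 1) {U : Set (Cn m)} (hU : IsOpen U)
    (hUK : ∀ z ∈ U, ∀ x, nsq x ≤ ρ ^ 2 → z - x ∈ K) {z : Cn m} (hz : z ∈ U) (v : Cn m) :
    0 ≤ levz (cv ρ g) v z := by
  have hsm := contDiff_cv (m := m) hρ hg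
  have hev : ∀ᶠ ζ in 𝓝 (0 : ℂ), line z v ζ ∈ U := by
    apply (contDiff_line z v).continuous.continuousAt.eventually_mem
    rw [line_zero]
    exact hU.mem_nhds hz
  obtain ⟨r, hr, hrs⟩ := Metric.nhds_basis_closedBall.eventually_iff.mp hev
  have h1 : 0 ≤ lapC (fun ζ => cv ρ g (line z v ζ)) 0 := by
    have hc : ContDiff ℝ 2 fun ζ => cv ρ g (line z v ζ) :=
      (hsm.comp (contDiff_line z v)).of_le two_le_infty
    apply lapC_nonneg_of_cavg hc hr
    intro s hs
    have hk : ∀ ζ : ℂ, ‖ζ‖ ≤ 1 → line z (s • v) ζ ∈ U := by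
      intro ζ hζ
      rw [line_smul]
      apply hrs
      rw [mem_closedBall_zero_iff, norm_mul, Complex.norm_real, Real.norm_of_nonneg hs.1.le]
      calc s * ‖ζ‖ ≤ s * 1 := mul_le_mul_of_nonneg_left hζ hs.1.le
        _ ≤ r := by rw [mul_one]; exact hs.2
    have k := conv_le' (g := g) hg contDiff_ker.continuous (ker_nonneg hρ)
      (isCompact_ball (ρ ^ 2)) (fun _ => ker_mem hρ) (z := z) (v := s • v) (fun x hx => by
        apply hsub
        intro ζ hζ
        rw [line_sub]
        exact hUK _ (hk ζ hζ) x hx)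
    have e2 : cavg (fun ζ => cv ρ g (line z (s • v) ζ)) 1 =
        cavg (fun ζ => cv ρ g (line z v ζ)) s := by
      simp only [cavg, line_smul, Complex.ofReal_one, one_mul]
    rw [line_zero, ← e2]
    exact k
  rw [lapC_comp_line hsm] at h1
  linarith

theorem le_cv (hρ : 0 < ρ) (hg : Continuous g) {K : Set (Cn m)}
    (hsub : ∀ z v : Cn m, (∀ ζ : ℂ, ‖ζ‖ ≤ 1 → line z v ζ ∈ K) →
      g z ≤ cavg (fun ζ => g (line z v ζ)) 1) {z : Cn m}
    (hz : ∀ x, nsq x ≤ ρ ^ 2 → z + x ∈ K) : g z ≤ cv ρ g z := by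
  apply mean_le hg contDiff_ker.continuous (ker_nonneg hρ) (isCompact_ball (ρ ^ 2))
    (fun _ => ker_mem hρ) (fun x ζ hζ => ker_rot x hζ) (integral_ker hρ)
  intro x hx
  apply hsub
  intro ζ hζ
  rw [line_eq]
  apply hz
  rw [nsq_lineL, nsq_neg']
  have h1 : ‖ζ‖ ^ 2 ≤ 1 := pow_le_one₀ (norm_nonneg _) hζ
  calc ‖ζ‖ ^ 2 * nsq x ≤ 1 * nsq x := mul_le_mul_of_nonneg_right h1 (nsq_nonneg x)
    _ ≤ ρ ^ 2 := by rw [one_mul]; exact hx

/-- the upper bound off an exceptional set -/
theorem cv_le (hρ : 0 < ρ) (hg : Continuous g) {S : ℝ} (hS : ∀ x, |g x| ≤ S) (y : Cn m)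
    (E : Set (Cn m)) {c : ℝ} (hc : -S ≤ c)
    (h : ∀ y', nsq (y' - y) ≤ ρ ^ 2 → y' ∉ E → g y' ≤ c) :
    cv ρ g y ≤ c + 2 * S * (I0 m * ρ ^ (2 * m))⁻¹ *
      volume.real (E ∩ {y' | nsq (y' - y) ≤ ρ ^ 2}) := by
  have hH := haar_Cn m
  have hR : (volume : Measure (Cn m)).Regular :=
    Measure.Regular.of_sigmaCompactSpace_of_isLocallyFiniteMeasure _
  have hN : (volume : Measure (Cn m)).IsNegInvariant :=
    Measure.IsAddHaarMeasure.isNegInvariant_of_regular _
  have hS0 : 0 ≤ S := (abs_nonneg _).trans (hS 0)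
  have hI := I0_pos m
  set B : Set (Cn m) := {y' | nsq (y' - y) ≤ ρ ^ 2} with hB
  set F := toMeasurable volume (E ∩ B) with hF
  have hFm : MeasurableSet F := measurableSet_toMeasurable _ _
  have hFs : E ∩ B ⊆ F := subset_toMeasurable _ _
  have hFv : volume F = volume (E ∩ B) := measure_toMeasurable _
  have hBf : volume B < ⊤ := (isCompact_ball_sub y _).measure_lt_top
  have hFf : volume F ≠ ⊤ := by
    rw [hFv]
    exact ((measure_mono inter_subset_right).trans_lt hBf).ne
  set a := (I0 m * ρ ^ (2 * m))⁻¹ with ha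
  have ha0 : 0 ≤ a := by positivity
  have hi2 : Integrable (fun x : Cn m => F.indicator (fun _ => (1 : ℝ)) (y - x)) := by
    have k : Integrable (F.indicator fun _ => (1 : ℝ)) :=
      (integrable_indicator_iff hFm).2 (integrableOn_const hFf)
    exact k.comp_sub_left y
  have hval : ∫ x : Cn m, F.indicator (fun _ => (1 : ℝ)) (y - x) = volume.real F := by
    rw [integral_sub_left_eq_self (F.indicator fun _ => (1 : ℝ)) volume y,
      integral_indicator_const _ hFm, smul_eq_mul, mul_one]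
  have hle : cv ρ g y ≤ ∫ x : Cn m, (ker m ρ x * c +
      2 * S * a * F.indicator (fun _ => (1 : ℝ)) (y - x)) := by
    apply integral_mono
    · exact integrable_ker_mul hρ (hg.comp (continuous_const.sub continuous_id))
    · exact (integrable_ker_mul hρ continuous_const).add (hi2.const_mul _)
    intro x
    dsimp only
    have hk0 := ker_nonneg (m := m) hρ x
    have hk1 := ker_le (m := m) hρ x
    by_cases hx : ker m ρ x = 0
    · rw [hx, zero_mul, zero_mul, zero_add]
      apply mul_nonneg (by positivity)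
      exact indicator_nonneg (fun _ _ => zero_le_one) _
    · have hxB : y - x ∈ B := by
        show nsq (y - x - y) ≤ ρ ^ 2
        rw [sub_sub_cancel_left, nsq_neg']
        exact ker_mem hρ hx
      by_cases hxF : y - x ∈ F
      · rw [indicator_of_mem hxF, mul_one]
        have k1 := (abs_le.1 (hS (y - x))).2
        nlinarith
      · rw [indicator_of_notMem hxF, mul_zero, add_zero]
        apply mul_le_mul_of_nonneg_left _ hk0
        apply h _ hxB
        intro hE
        exact hxF (hFs ⟨hE, hxB⟩)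
  refine hle.trans (le_of_eq ?_)
  rw [integral_add (integrable_ker_mul hρ continuous_const) (hi2.const_mul _),
    integral_mul_const, integral_ker hρ, one_mul, integral_const_mul, hval]
  simp only [measureReal_def, hFv]

/-- the lower bound by the maximum of a larger ball -/
theorem cv_ge (hρ : 0 < ρ) (hg : Continuous g) {K : Set (Cn m)}
    (hsub : ∀ z v : Cn m, (∀ ζ : ℂ, ‖ζ‖ ≤ 1 → line z v ζ ∈ K) →
      g z ≤ cavg (fun ζ => g (line z v ζ)) 1) {y z : Cn m} (hyz : nsq (z - y) ≤ ρ ^ 2)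
    {M : ℝ} (hM : ∀ x, nsq (x - y) ≤ (5 * ρ) ^ 2 → x ∈ K ∧ g x ≤ M) :
    M - 4 ^ (2 * m) * (M - g z) ≤ cv ρ g y := by
  have hH := haar_Cn m
  have hR : (volume : Measure (Cn m)).Regular :=
    Measure.Regular.of_sigmaCompactSpace_of_isLocallyFiniteMeasure _
  have hN : (volume : Measure (Cn m)).IsNegInvariant :=
    Measure.IsAddHaarMeasure.isNegInvariant_of_regular _
  have hI := I0_pos m
  have h4 : 0 < 4 * ρ := by positivity
  -- the mean value inequality at `z`
  have h1 : g z ≤ cv (4 * ρ) g z := by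
    apply le_cv h4 hg hsub
    intro x hx
    refine (hM _ ?_).1
    have e : z + x - y = (z - y) + x := by abel
    rw [e]
    refine (nsq_tri hρ.le h4.le hyz hx).trans (le_of_eq ?_)
    ring
  have hMc : ∀ (r : ℝ), 0 < r → ∀ w : Cn m, M - cv r g w = ∫ x, ker m r (w - x) * (M - g x) := by
    intro r hr w
    have e1 : ∫ x, ker m r (w - x) * (M - g x) = ∫ x, ker m r x * (M - g (w - x)) := by
      have k := integral_sub_left_eq_self (fun x => ker m r x * (M - g (w - x))) volume w
      rw [← k]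
      simp only [sub_sub_cancel]
    rw [e1, cv]
    have e2 : ∀ x, ker m r x * (M - g (w - x)) = ker m r x * M - ker m r x * g (w - x) :=
      fun x => by ring
    simp only [e2]
    have i1 : Integrable fun x : Cn m => ker m r x * M := integrable_ker_mul hr continuous_const
    have i2 : Integrable fun x : Cn m => ker m r x * g (w - x) :=
      integrable_ker_mul hr (hg.comp (continuous_const.sub continuous_id))
    rw [integral_sub i1 i2, integral_mul_const, integral_ker hr, one_mul]
  have hint : ∀ (r : ℝ), 0 < r → ∀ w : Cn m,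
      Integrable fun x => ker m r (w - x) * (M - g x) := by
    intro r hr w
    have k : Integrable fun x => ker m r x * (M - g (w - x)) :=
      integrable_ker_mul hr (continuous_const.sub (hg.comp (continuous_const.sub continuous_id)))
    have k2 := k.comp_sub_left w
    simpa only [sub_sub_cancel] using k2
  have h2 : M - cv ρ g y ≤ 4 ^ (2 * m) * (M - cv (4 * ρ) g z) := by
    rw [hMc ρ hρ y, hMc (4 * ρ) h4 z, ← integral_const_mul]
    apply integral_mono (hint ρ hρ y) ((hint (4 * ρ) h4 z).const_mul _)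
    intro x
    dsimp only
    rw [← mul_assoc]
    have hk0 := ker_nonneg (m := m) hρ (y - x)
    have hk4 := ker_nonneg (m := m) h4 (z - x)
    by_cases hx4 : ker m (4 * ρ) (z - x) = 0
    · have hx : ker m ρ (y - x) = 0 := by
        by_contra hx
        have k1 : nsq (y - x) ≤ ρ ^ 2 := ker_mem hρ hx
        have e : z - x = (z - y) + (y - x) := by abel
        have k2 : nsq (z - x) ≤ (4 * ρ / 2) ^ 2 := by
          rw [e]
          refine (nsq_tri hρ.le hρ.le hyz k1).trans (le_of_eq ?_)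
          ring
        rw [ker_eq h4 k2] at hx4
        exact absurd hx4 (by positivity)
      rw [hx, hx4, mul_zero]
    · have k1 : nsq (z - x) ≤ (4 * ρ) ^ 2 := ker_mem h4 hx4
      have k2 : g x ≤ M := by
        refine (hM x ?_).2
        have e : x - y = (z - y) - (z - x) := by abel
        rw [e]
        refine (nsq_tri_sub hρ.le h4.le hyz k1).trans (le_of_eq ?_)
        ring
      apply mul_le_mul_of_nonneg_right _ (by linarith)
      by_cases hx : ker m ρ (y - x) = 0
      · rw [hx]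
        positivity
      · have k1 : nsq (y - x) ≤ ρ ^ 2 := ker_mem hρ hx
        have e : z - x = (z - y) + (y - x) := by abel
        have k2 : nsq (z - x) ≤ (4 * ρ / 2) ^ 2 := by
          rw [e]
          refine (nsq_tri hρ.le hρ.le hyz k1).trans (le_of_eq ?_)
          ring
        rw [ker_eq h4 k2]
        refine (ker_le hρ _).trans (le_of_eq ?_)
        rw [mul_pow]
        field_simp
  have h3 : (0 : ℝ) < 4 ^ (2 * m) := by positivity
  nlinarith

/-! ### The mean of the difference -/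

theorem vol_ball (m : ℕ) {r : ℝ} (hr : 0 < r) : volume.real {x : Cn m | nsq x ≤ r ^ 2} =
    r ^ (2 * m) * volume.real {x : Cn m | nsq x ≤ 1} := by
  have hH := haar_Cn m
  have e : {x : Cn m | nsq x ≤ r ^ 2} = r • {x : Cn m | nsq x ≤ 1} := by
    ext x
    rw [mem_smul_set_iff_inv_smul_mem₀ hr.ne']
    show nsq x ≤ r ^ 2 ↔ nsq (r⁻¹ • x) ≤ 1
    rw [nsq_smul', inv_pow, inv_mul_le_iff₀ (by positivity), mul_one]
  have hfin : Module.finrank ℝ (Cn m) = 2 * m := by
    rw [Module.finrank_prod, Module.finrank_fin_fun]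
    ring
  rw [e, measureReal_def, Measure.addHaar_smul, hfin, ENNReal.toReal_mul, ENNReal.toReal_ofReal
    (abs_nonneg _), abs_of_pos (by positivity), measureReal_def]

/-- the integral of a translate over a ball -/
theorem shift_le (hρ : 0 < ρ) (hρ1 : ρ ≤ 1) (hg : Continuous g) {S : ℝ} (hS : ∀ x, |g x| ≤ S)
    {x : Cn m} (hx : nsq x ≤ ρ ^ 2) :
    ∫ y in {y : Cn m | nsq y ≤ 25}, g (y - x) ≤ (∫ y in {y : Cn m | nsq y ≤ 25}, g y) +
      2 * S * (6 ^ (2 * m) * volume.real {x : Cn m | nsq x ≤ 1}) * ρ := by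
  have hH := haar_Cn m
  have hS0 : 0 ≤ S := (abs_nonneg _).trans (hS 0)
  set v₀ := volume.real {x : Cn m | nsq x ≤ 1} with hv₀
  have hv : 0 ≤ v₀ := measureReal_nonneg
  set B : Set (Cn m) := {y : Cn m | nsq y ≤ 25} with hB
  set B' : Set (Cn m) := {y : Cn m | nsq y ≤ (5 + ρ) ^ 2} with hB'
  have hBc : IsCompact B := isCompact_ball _
  have hBc' : IsCompact B' := isCompact_ball _
  have hBB : B ⊆ B' := by
    intro y hy
    have : nsq y ≤ 25 := hy
    show nsq y ≤ (5 + ρ) ^ 2
    nlinarith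
  have hg1 : Continuous fun y => g y + S := hg.add continuous_const
  have hg0 : ∀ y, 0 ≤ g y + S := fun y => by linarith [(abs_le.1 (hS y)).1]
  have hiB' : IntegrableOn (fun y => g y + S) B' := hg1.continuousOn.integrableOn_compact hBc'
  have hiB : IntegrableOn (fun y => g y + S) B := hg1.continuousOn.integrableOn_compact hBc
  -- translation
  have e1 : ∫ y in B, (g (y - x) + S) = ∫ y in (fun y => y + x) ⁻¹' B, (g y + S) := by
    have k := (measurePreserving_add_right (volume : Measure (Cn m)) x).setIntegral_preimage_emb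
      (measurableEmbedding_addRight x) (fun y => g (y - x) + S) B
    rw [← k]
    simp only [add_sub_cancel_right]
  have hsub : (fun y => y + x) ⁻¹' B ⊆ B' := by
    intro y hy
    have k1 : nsq (y + x) ≤ 5 ^ 2 := by
      have : nsq (y + x) ≤ 25 := hy
      linarith
    have k2 := nsq_tri_sub (by norm_num) hρ.le k1 hx
    rwa [add_sub_cancel_right] at k2
  have e2 : ∫ y in (fun y => y + x) ⁻¹' B, (g y + S) ≤ ∫ y in B', (g y + S) :=
    setIntegral_mono_set hiB' (Eventually.of_forall hg0) hsub.eventuallyLE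
  have e3 : ∫ y in B', (g y + S) = (∫ y in B, (g y + S)) + ∫ y in B' \ B, (g y + S) := by
    rw [← setIntegral_union disjoint_sdiff_right (hBc'.measurableSet.diff hBc.measurableSet) hiB
      (hiB'.mono_set sdiff_subset), union_sdiff_cancel hBB]
  have hvB : volume.real B = 5 ^ (2 * m) * v₀ := by
    have k := vol_ball m (r := 5) (by norm_num)
    rw [← hv₀] at k
    rw [← k, hB]
    norm_num
  have hvB' : volume.real B' = (5 + ρ) ^ (2 * m) * v₀ := vol_ball m (by positivity)
  have e4 : ∫ y in B' \ B, (g y + S) ≤ 2 * S * (volume.real B' - volume.real B) := by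
    have hd : volume.real (B' \ B) = volume.real B' - volume.real B :=
      measureReal_sdiff hBB hBc.measurableSet hBc'.measure_lt_top.ne
    rw [← hd]
    have k : ∫ y in B' \ B, (g y + S) ≤ ∫ _ in B' \ B, 2 * S := by
      apply setIntegral_mono_on (hiB'.mono_set sdiff_subset) (integrableOn_const
        ((measure_mono sdiff_subset).trans_lt hBc'.measure_lt_top).ne)
        (hBc'.measurableSet.diff hBc.measurableSet)
      intro y _
      linarith [(abs_le.1 (hS y)).2]
    refine k.trans (le_of_eq ?_)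
    rw [setIntegral_const, smul_eq_mul, mul_comm]
  have hconv : (5 + ρ) ^ (2 * m) - 5 ^ (2 * m) ≤ 6 ^ (2 * m) * ρ := by
    have k := (convexOn_pow (𝕜 := ℝ) (2 * m)).2 (show (5 : ℝ) ∈ Ici 0 by norm_num)
      (show (6 : ℝ) ∈ Ici 0 by norm_num) (sub_nonneg.2 hρ1) hρ.le (by ring)
    simp only [smul_eq_mul] at k
    have e : (1 - ρ) * 5 + ρ * 6 = 5 + ρ := by ring
    rw [e] at k
    have k5 : (0 : ℝ) ≤ 5 ^ (2 * m) := by positivity
    nlinarith
  have hi1 : IntegrableOn (fun y => g (y - x)) B :=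
    (hg.comp (continuous_id.sub continuous_const)).continuousOn.integrableOn_compact hBc
  have hi2 : IntegrableOn g B := hg.continuousOn.integrableOn_compact hBc
  have hic : IntegrableOn (fun _ : Cn m => S) B := integrableOn_const hBc.measure_lt_top.ne
  rw [integral_add hi1 hic] at e1
  rw [integral_add hi2 hic] at e3
  have e5 : 2 * S * (volume.real B' - volume.real B) ≤ 2 * S * (6 ^ (2 * m) * v₀) * ρ := by
    rw [hvB, hvB', ← sub_mul]
    have : ((5 + ρ) ^ (2 * m) - 5 ^ (2 * m)) * v₀ ≤ 6 ^ (2 * m) * ρ * v₀ :=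
      mul_le_mul_of_nonneg_right hconv hv
    calc _ ≤ 2 * S * (6 ^ (2 * m) * ρ * v₀) := mul_le_mul_of_nonneg_left this (by positivity)
      _ = _ := by ring
  linarith

/-- the integral of the difference -/
theorem int_cv_sub (hρ : 0 < ρ) (hρ1 : ρ ≤ 1) (hg : Continuous g) {S : ℝ}
    (hS : ∀ x, |g x| ≤ S) :
    ∫ y in {y : Cn m | nsq y ≤ 25}, (cv ρ g y - g y) ≤
      2 * S * (6 ^ (2 * m) * volume.real {x : Cn m | nsq x ≤ 1}) * ρ := by
  have hH := haar_Cn m
  set B : Set (Cn m) := {y : Cn m | nsq y ≤ 25} with hB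
  have hBc : IsCompact B := isCompact_ball _
  have hi1 : IntegrableOn (cv ρ g) B :=
    (contDiff_cv hρ hg).continuous.continuousOn.integrableOn_compact hBc
  have hi2 : IntegrableOn g B := hg.continuousOn.integrableOn_compact hBc
  rw [integral_sub hi1 hi2]
  have hG : Continuous fun p : Cn m × Cn m => g (p.1 - p.2) :=
    hg.comp (continuous_fst.sub continuous_snd)
  have h1 := fub (volume : Measure (Cn m)) (φ := ker m ρ) contDiff_ker.continuous
    (isCompact_ball (ρ ^ 2)) (fun _ => ker_mem hρ) (G := fun y x => g (y - x)) hG hBc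
  have h2 : ∫ y in B, cv ρ g y = ∫ y in B, ∫ x, ker m ρ x * g (y - x) := rfl
  rw [h2, ← h1]
  set a := 2 * S * (6 ^ (2 * m) * volume.real {x : Cn m | nsq x ≤ 1}) * ρ with ha
  have h3 : ∫ x, ker m ρ x * ∫ y in B, g (y - x) ≤
      ∫ x, ker m ρ x * ((∫ y in B, g y) + a) := by
    apply integral_mono
    · apply integrable_ker_mul hρ
      have k : Continuous fun x : Cn m => ∫ y in B, g (y - x) := by
        apply continuous_parametric_integral_of_continuous
        · exact hG.comp (continuous_snd.prodMk continuous_fst)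
        · exact hBc
      exact k
    · exact integrable_ker_mul hρ continuous_const
    intro x
    dsimp only
    by_cases hx : ker m ρ x = 0
    · rw [hx, zero_mul, zero_mul]
    · exact mul_le_mul_of_nonneg_left (shift_le hρ hρ1 hg hS (ker_mem hρ hx)) (ker_nonneg hρ x)
  rw [integral_mul_const, integral_ker hρ, one_mul] at h3
  linarith

end

end RegK

open RegK

/-- **Regularization at the scale `ρ`.** -/
theorem regularize (m : ℕ) {L : ℝ} (hL : 1 ≤ L) : ∃ C : ℝ, 0 ≤ C ∧ ∀ (u : Cn m → ℝ) (S ρ : ℝ),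
    PshC u {y : Cn m | nsq y < 49} → (∀ y, nsq y < 49 → |u y| ≤ S) → 0 < ρ → L * ρ ≤ 1 / 10 →
    ∃ u' : Cn m → ℝ, ContDiffOn ℝ ∞ u' {y | nsq y < 36} ∧
      (∀ y, nsq y < 36 → ∀ v, 0 ≤ levz u' v y) ∧
      (∀ y, nsq y < 36 → u y ≤ u' y) ∧
      (∀ y, nsq y < 36 → ∀ (E : Set (Cn m)) (c : ℝ), -S ≤ c →
        (∀ y', nsq (y' - y) ≤ ρ ^ 2 → y' ∉ E → u y' ≤ c) →
        u' y ≤ c + C * S * (ρ ^ (2 * m))⁻¹ * volume.real (E ∩ {y' | nsq (y' - y) ≤ ρ ^ 2})) ∧
      (∀ y y', nsq y < 36 → nsq (y' - y) ≤ (L * ρ) ^ 2 → u y' ≤ u' y + C * S / Real.log (1 / ρ)) ∧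
      (∀ s > 0, volume {y | nsq y < 25 ∧ u y + s < u' y} ≤ ENNReal.ofReal (C * S * ρ / s)) := by
  have hI := I0_pos m
  set v₀ := volume.real {x : Cn m | nsq x ≤ 1} with hv₀
  have hv : 0 ≤ v₀ := measureReal_nonneg
  set L' := max L 5 with hL'
  have hL5 : 5 ≤ L' := le_max_right _ _
  have hLL : L ≤ L' := le_max_left _ _
  have hlogL : 0 ≤ Real.log L' := Real.log_nonneg (by linarith)
  set C₁ := 2 * (I0 m)⁻¹ with hC₁
  set C₂ := 4 ^ (2 * m) * (4 * Real.log L') with hC₂
  set C₃ := 2 * (6 ^ (2 * m) * v₀) with hC₃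
  have h1 : 0 ≤ C₁ := by positivity
  have h2 : 0 ≤ C₂ := by positivity
  have h3 : 0 ≤ C₃ := by positivity
  refine ⟨C₁ + C₂ + C₃, by positivity, ?_⟩
  intro u S ρ hu hb hρ hLρ
  have hS0 : 0 ≤ S := (abs_nonneg _).trans (hb 0 (by simp [nsq]))
  have hρ1 : ρ ≤ 1 / 10 := by nlinarith
  set V : Set (Cn m) := {y : Cn m | nsq y < 49} with hV
  have hVo : IsOpen V := isOpen_lt nsq_continuous continuous_const
  set K : Set (Cn m) := {y : Cn m | nsq y ≤ (69 / 10) ^ 2} with hK
  have hKcl : IsClosed K := isClosed_le nsq_continuous continuous_const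
  have hKV : K ⊆ V := by
    intro y hy
    have : nsq y ≤ (69 / 10) ^ 2 := hy
    show nsq y < 49
    linarith
  obtain ⟨g, hg, hgS, hgu⟩ := exists_ext hKcl (hu.1.mono hKV) (fun x hx => hb x (hKV hx)) hS0
  have hsub : ∀ z v : Cn m, (∀ ζ : ℂ, ‖ζ‖ ≤ 1 → line z v ζ ∈ K) →
      g z ≤ cavg (fun ζ => g (line z v ζ)) 1 := by
    intro z v h
    have k := hu.2 z v fun ζ hζ => hKV (h ζ hζ)
    have k0 := h 0 (by simp)
    rw [line_zero] at k0
    rw [hgu z k0]
    refine k.trans (le_of_eq ?_)
    unfold cavg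
    congr 1
    apply intervalIntegral.integral_congr
    intro θ _
    dsimp only
    rw [hgu]
    apply h
    rw [norm_mul, Complex.norm_exp_ofReal_mul_I, mul_one]
    simp
  have h36 : ∀ y : Cn m, nsq y < 36 → nsq y ≤ 6 ^ 2 := fun y hy => by linarith
  have hKn : ∀ y : Cn m, nsq y < 36 → ∀ r : ℝ, 0 ≤ r → r ≤ 9 / 10 → ∀ x, nsq x ≤ r ^ 2 →
      y + x ∈ K := by
    intro y hy r hr hr1 x hx
    have k := nsq_tri (by norm_num) hr (h36 y hy) hx
    show nsq (y + x) ≤ (69 / 10) ^ 2
    refine k.trans ?_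
    apply pow_le_pow_left₀ (by positivity)
    linarith
  have hKs : ∀ y : Cn m, nsq y < 36 → ∀ r : ℝ, 0 ≤ r → r ≤ 9 / 10 → ∀ x, nsq (x - y) ≤ r ^ 2 →
      x ∈ K := by
    intro y hy r hr hr1 x hx
    have k := hKn y hy r hr hr1 (x - y) hx
    rwa [add_sub_cancel] at k
  have hgy : ∀ y : Cn m, nsq y < 36 → g y = u y := by
    intro y hy
    apply hgu
    exact hKs y hy 0 le_rfl (by norm_num) y (by simp [nsq])
  have hle : ∀ y : Cn m, nsq y < 36 → g y ≤ cv ρ g y := by
    intro y hy
    exact le_cv hρ hg hsub fun x hx => hKn y hy ρ hρ.le (by linarith) x hx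
  refine ⟨cv ρ g, (contDiff_cv hρ hg).contDiffOn, ?_, ?_, ?_, ?_, ?_⟩
  · intro y hy v
    refine levz_cv hρ hg hsub (U := {y : Cn m | nsq y < 36})
      (isOpen_lt nsq_continuous continuous_const) ?_ hy v
    intro z hz x hx
    have k := hKn z hz ρ hρ.le (by linarith) (-x) (by rwa [nsq_neg'])
    rwa [← sub_eq_add_neg] at k
  · intro y hy
    rw [← hgy y hy]
    exact hle y hy
  · intro y hy E c hc h
    have k := cv_le hρ hg hgS y E hc fun y' hy' hE => by
      rw [hgu y' (hKs y hy ρ hρ.le (by linarith) y' hy')]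
      exact h y' hy' hE
    refine k.trans ?_
    have e : 2 * S * (I0 m * ρ ^ (2 * m))⁻¹ = C₁ * S * (ρ ^ (2 * m))⁻¹ := by
      rw [hC₁, mul_inv]
      ring
    rw [e]
    have k2 : (0 : ℝ) ≤ volume.real (E ∩ {y' | nsq (y' - y) ≤ ρ ^ 2}) := measureReal_nonneg
    have k3 : C₁ * S * (ρ ^ (2 * m))⁻¹ ≤ (C₁ + C₂ + C₃) * S * (ρ ^ (2 * m))⁻¹ := by
      have : C₁ ≤ C₁ + C₂ + C₃ := by linarith
      gcongr
    have k4 := mul_le_mul_of_nonneg_right k3 k2
    linarith
  · intro y y' hy hy'
    have hlog10 : 0 < Real.log (1 / ρ) := Real.log_pos (by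
      rw [one_lt_div hρ]
      linarith)
    have hlog9 : Real.log (1 / ρ) / 2 ≤ Real.log (9 / 10 / ρ) := by
      have e1 : Real.log (9 / 10 / ρ) = Real.log (1 / ρ) - Real.log (10 / 9) := by
        rw [← Real.log_div (by positivity) (by norm_num)]
        congr 1
        field_simp
      have e2 : 2 * Real.log (10 / 9) ≤ Real.log (1 / ρ) := by
        have k : 2 * Real.log (10 / 9) = Real.log ((10 / 9) ^ 2) := by
          rw [Real.log_pow]
          norm_num
        rw [k]
        apply Real.log_le_log (by positivity)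
        rw [le_div_iff₀ hρ]
        nlinarith
      linarith
    -- the maximum over the small ball
    obtain ⟨z, hz, hmax⟩ := (isCompact_ball_sub y (ρ ^ 2)).exists_isMaxOn
      ⟨y, show nsq (y - y) ≤ ρ ^ 2 by simp [nsq]; positivity⟩ hg.continuousOn
    have hz1 : nsq (z - y) ≤ ρ ^ 2 := hz
    have hball : ∀ x, nsq (x - y) ≤ (9 / 10) ^ 2 → x ∈ K := fun x hx =>
      hKs y hy (9 / 10) (by norm_num) le_rfl x hx
    set e := 4 * S * Real.log L' / Real.log (1 / ρ) with he
    have he0 : 0 ≤ e := by positivity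
    have hL'ρ : L' * ρ ≤ 9 / 10 := by
      rw [hL', max_mul_of_nonneg _ _ hρ.le]
      apply max_le <;> linarith
    have h3b : ∀ x, nsq (x - y) ≤ (L' * ρ) ^ 2 → g x ≤ g z + e := by
      intro x hx
      have hxK : x ∈ K := hKs y hy (L' * ρ) (by positivity) hL'ρ x hx
      have k := three_balls hVo hu (y := y) (r := ρ) (R := 9 / 10) (A := g z) (B := S) hρ
        (by linarith) (fun x hx => hKV (hball x hx)) (fun x hx => by
          rw [← hgu x (hKs y hy ρ hρ.le (by linarith) x hx)]
          exact hmax hx) (fun x hx => (abs_le.1 (hb x (hKV (hball x hx)))).2)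
        ((abs_le.1 (hgS z)).2) (x := x) (t := L' * ρ) (by nlinarith) hL'ρ hx
      rw [← hgu x hxK, mul_div_assoc, div_self hρ.ne', mul_one] at k
      refine k.trans ?_
      have k1 : (S - g z) * (Real.log L' / Real.log (9 / 10 / ρ)) ≤
          2 * S * (Real.log L' / (Real.log (1 / ρ) / 2)) := by
        have k2 : S - g z ≤ 2 * S := by linarith [(abs_le.1 (hgS z)).1]
        have k3 : Real.log L' / Real.log (9 / 10 / ρ) ≤ Real.log L' / (Real.log (1 / ρ) / 2) := by
          gcongr
        have k4 : 0 ≤ Real.log L' / Real.log (9 / 10 / ρ) := by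
          apply div_nonneg hlogL
          linarith
        exact mul_le_mul k2 k3 k4 (by positivity)
      have k5 : 2 * S * (Real.log L' / (Real.log (1 / ρ) / 2)) = e := by
        rw [he]
        field_simp
        ring
      linarith
    have h5 : (5 * ρ) ^ 2 ≤ (L' * ρ) ^ 2 := by gcongr
    have key := cv_ge hρ hg hsub hz1 (M := g z + e) fun x hx =>
      ⟨hKs y hy (5 * ρ) (by positivity) (by linarith) x hx, h3b x (hx.trans h5)⟩
    have hy'L : nsq (y' - y) ≤ (L' * ρ) ^ 2 := by
      refine hy'.trans ?_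
      gcongr
    have k1 := h3b y' hy'L
    rw [hgu y' (hKs y hy (L' * ρ) (by positivity) hL'ρ y' hy'L)] at k1
    rw [add_sub_cancel_left] at key
    have k2 : 4 ^ (2 * m) * e ≤ (C₁ + C₂ + C₃) * S / Real.log (1 / ρ) := by
      have k3 : 4 ^ (2 * m) * e = C₂ * S / Real.log (1 / ρ) := by
        rw [he, hC₂]
        ring
      rw [k3]
      have : C₂ ≤ C₁ + C₂ + C₃ := by linarith
      gcongr
    linarith
  · intro s hs
    set B : Set (Cn m) := {y : Cn m | nsq y ≤ 25} with hB
    have hBc : IsCompact B := isCompact_ball _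
    set A : Set (Cn m) := {y | nsq y < 25 ∧ g y + s < cv ρ g y} with hA
    have hcc : Continuous (cv ρ g) := (contDiff_cv hρ hg).continuous
    have hAm : MeasurableSet A := by
      apply IsOpen.measurableSet
      exact (isOpen_lt nsq_continuous continuous_const).inter
        (isOpen_lt (hg.add continuous_const) hcc)
    have hAB : A ⊆ B := fun y hy => show nsq y ≤ 25 from hy.1.le
    have hAe : {y | nsq y < 25 ∧ u y + s < cv ρ g y} = A := by
      ext y
      constructor
      · rintro ⟨k1, k2⟩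
        exact ⟨k1, by rwa [hgy y (by linarith)]⟩
      · rintro ⟨k1, k2⟩
        exact ⟨k1, by rwa [hgy y (by linarith)] at k2⟩
    rw [hAe]
    have hAf : volume A ≠ ⊤ := ((measure_mono hAB).trans_lt hBc.measure_lt_top).ne
    have hi : IntegrableOn (fun y => cv ρ g y - g y) B :=
      (hcc.sub hg).continuousOn.integrableOn_compact hBc
    have k1 : s * volume.real A ≤ ∫ y in A, (cv ρ g y - g y) := by
      have k := setIntegral_mono_on (μ := (volume : Measure (Cn m))) (f := fun _ => s)
        (integrableOn_const hAf) (hi.mono_set hAB) hAm (fun y hy => by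
          have := hy.2
          linarith)
      rw [setIntegral_const, smul_eq_mul, mul_comm] at k
      exact k
    have k2 : ∫ y in A, (cv ρ g y - g y) ≤ ∫ y in B, (cv ρ g y - g y) := by
      apply setIntegral_mono_set hi _ hAB.eventuallyLE
      rw [EventuallyLE, ae_restrict_iff' hBc.measurableSet]
      refine Eventually.of_forall fun y hy => ?_
      have : nsq y ≤ 25 := hy
      have := hle y (by linarith)
      simp only [Pi.zero_apply]
      linarith
    have k3 := int_cv_sub (m := m) hρ (by linarith) hg hgS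
    rw [← hv₀] at k3
    have k4 : volume.real A ≤ (C₁ + C₂ + C₃) * S * ρ / s := by
      rw [le_div_iff₀ hs]
      have k5 : 2 * S * (6 ^ (2 * m) * v₀) * ρ = C₃ * S * ρ := by
        rw [hC₃]
        ring
      have k6 : C₃ * S * ρ ≤ (C₁ + C₂ + C₃) * S * ρ := by
        have : C₃ ≤ C₁ + C₂ + C₃ := by linarith
        gcongr
      linarith
    rw [← ENNReal.ofReal_toReal hAf]
    exact ENNReal.ofReal_le_ofReal k4

end Pool.Agent.KRFX
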