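import Pool.Agent.Work.MP_a2bf38_gt.X.GlueC
import Pool.Agent.Work.MP_a2bf38_gt.X.GlueA
import Pool.Agent.Work.MP_a2bf38_gt.X.GlueUp
import Pool.Agent.Work.MP_a2bf38_gt.X.Desc
import Pool.Agent.Work.MP_a2bf38_gt.X.Reg
import Pool.Agent.Work.MP_a2bf38_gt.X.Vol

/-!
# The gluing (helper2)
-/

open scoped ContDiff ENNReal ComplexOrder Topology
open Set MeasureTheory Filter Pool.Agent.ToricKRF Pool.Agent.ToricKRF.G Pool.Agent.KRFS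
  Pool.Agent.KRFF Pool.Agent.KRFG

namespace Pool.Agent.KRFX

section Mod

variable {n m l : ℕ} {M Y Y' W : Type} [TopologicalSpace M] [CompactSpace M] [T2Space M]
  [TopologicalSpace Y] [T2Space Y] [TopologicalSpace Y'] [T2Space Y'] [TopologicalSpace W]
  [T2Space W] {κ P P' ι : Type} [Finite P] [Finite P'] [Fintype ι] {T : ℝ}
  (F : Mod n m l M Y Y' W κ P P' ι T)

/-- the regularizations in two charts -/
theorem Mod.compare (C S L Cr : ℝ) (hC : 0 ≤ C) (hS : 0 ≤ S) (hCr : 0 ≤ Cr) (hL : 1 ≤ L)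
    {r : ℝ} (hr : 0 < r) (htr : ∀ i j, ∀ y ∈ (F.b i).source,
      y ∈ (F.b j).source → nsq (F.b i y) ≤ 16 → nsq (F.b j y) ≤ 16 →
      ∀ v, nsq (v - F.b i y) ≤ r ^ 2 → nsq v ≤ 25 ∧ (F.b i).symm v ∈ (F.b j).source ∧
        nsq (F.b j ((F.b i).symm v)) ≤ 25 ∧
        nsq (F.b j ((F.b i).symm v) - F.b j y) ≤ L ^ 2 * nsq (v - F.b i y)) :
    ∃ C' d₀ : ℝ, 0 ≤ C' ∧ 0 < d₀ ∧ ∀ t ∈ Ico 0 T, T - t < d₀ → ∀ q u' : P → Cn m → ℝ,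
      F.IsDesc C S t q →
      (∀ j y, nsq y < 49 → |q j y + t / T * F.K j y| ≤ S) →
      (∀ j, IsReg L Cr S (Real.exp (-(1 / √(T - t)))) (fun y => q j y + t / T * F.K j y) (u' j)) →
      ∀ i j, ∀ y ∈ (F.b i).source, y ∈ (F.b j).source → nsq (F.b i y) ≤ 16 →
        nsq (F.b j y) ≤ 16 → u' i (F.b i y) - t / T * F.K i (F.b i y) ≤
          u' j (F.b j y) - t / T * F.K j (F.b j y) + C' * √(T - t) := by
  obtain ⟨CK, hCK, hK1, hK2⟩ := F.K_bound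
  obtain ⟨Cv, cv, hCv, hcv, hV⟩ := F.vol_Y
  obtain ⟨Ct, hCt, hTr⟩ := F.trans_vol
  exact F.compare_of hCK (fun j y hy => (hK1 j y hy).2.1) hK2 hCv hcv hCt hV hTr C S L Cr hC hS
    hCr hL hr htr

/-- `X/Glue.lean`: smooth functions on the balls `nsq y < 25` of `Y` which can be glued, from `desc`,
`regularize`, `vol_Y`, `vol_M` -/
theorem Mod.glue : ∃ C d₀ : ℝ, 0 ≤ C ∧ 0 < d₀ ∧ ∀ t ∈ Ico 0 T, T - t < d₀ →
    ∃ (R : P → Cn m → ℝ) (E : P → Set (Cn m)),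
      (∀ j, ContDiffOn ℝ ∞ (R j) {y | nsq y < 25}) ∧
      (∀ j y, nsq y < 25 → |R j y| ≤ C) ∧
      (∀ j y, nsq y < 25 → ∀ v, 0 ≤ levz (R j) v y + t / T * levz (F.K j) v y) ∧
      (∀ i j y, y ∈ (F.b i).source → y ∈ (F.b j).source → 9 ≤ nsq (F.b i y) →
        nsq (F.b i y) ≤ 16 → nsq (F.b j y) ≤ 1 → R i (F.b i y) < R j (F.b j y)) ∧
      (∀ j p, F.f p ∈ (F.b j).source → nsq (F.b j (F.f p)) ≤ 16 →
        F.Phi t p ≤ R j (F.b j (F.f p)) + C * √(T - t)) ∧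
      (∀ j, volume (E j) ≤ ENNReal.ofReal (Real.exp (-(T - t) ^ (-(1 / 4) : ℝ)))) ∧
      (∀ y', nsq (F.yb y') ≤ 16 → F.yb y' ∉ E (F.lb y') →
        R (F.lb y') (F.yb y') ≤ F.Mx t y' + C * √(T - t)) := by
  obtain ⟨CK, hCK, hK1, -⟩ := F.K_bound
  obtain ⟨L, r, hL, hr, htr⟩ := F.trans_lip
  obtain ⟨Cr, hCr, hreg⟩ := regularize m hL
  refine F.glue_of hCK hK1 ?_ hL hCr ?_
    (fun C S hC hS => F.compare C S L Cr hC hS hCr hL hr htr)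
    (fun C S hC hS => F.glue_upper C S Cr hC hS hCr)
  · obtain ⟨C, S, d₀, hC, hS, hd₀, h⟩ := F.desc
    refine ⟨C, S, d₀, hC, hS, hd₀, fun t ht hd => ?_⟩
    obtain ⟨q, h1, h2, h3, h4⟩ := h t ht hd
    exact ⟨q, h1, h2, h3, h4⟩
  · intro u S ρ h1 h2 h3 h4
    obtain ⟨u', g1, g2, g3, g4, g5, g6⟩ := hreg u S ρ h1 h2 h3 h4
    exact ⟨u', g1, g2, g3, g4, g5, g6⟩

end Mod

end Pool.Agent.KRFX
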