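import Pool.Agent.Work.MP_a2bf38_gt.X.PullB
import Pool.Agent.Work.MP_a2bf38_gt.X.Setup

/-!
# The preimages in `W` of small sets of `Y` (helper52)
-/

open scoped ContDiff ENNReal ComplexOrder Topology NNReal
open Set MeasureTheory Filter Pool.Agent.ToricKRF Pool.Agent.ToricKRF.G Pool.Agent.KRFS
  Pool.Agent.KRFF Pool.Agent.KRFG Pool.Agent.KRFG.Decay

namespace Pool.Agent.KRFX

namespace Pull

variable {n m : ℕ}

/-- preimages of sets under a map which is injective with determinant bounded from below -/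
theorem vol_inj {H : Cn m → Cn m} {U S : Set (Cn m)} (hU : IsOpen U) (hH : ContDiffOn ℝ ∞ H U)
    (hS : MeasurableSet S) (hSU : S ⊆ U) (hinj : InjOn H S) {d : ℝ} (hd : 0 < d)
    (hdet : ∀ x ∈ S, d ≤ |(fderiv ℝ H x).det|) (E : Set (Cn m)) :
    ∃ A : Set (Cn m), MeasurableSet A ∧ {x ∈ S | H x ∈ E} ⊆ A ∧
      volume A ≤ ENNReal.ofReal d⁻¹ * volume E := by
  classical
  have hm := haar m
  set E' := toMeasurable volume E with hE'
  have hmE : MeasurableSet E' := measurableSet_toMeasurable _ _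
  have hcont : ContinuousOn H S := hH.continuousOn.mono hSU
  set A : Set (Cn m) := {x ∈ S | H x ∈ E'} with hA
  have hAm : MeasurableSet A := by
    have h1 : Measurable (S.piecewise H fun _ => 0) :=
      hcont.measurable_piecewise continuousOn_const hS
    have h2 : A = S ∩ (S.piecewise H fun _ => 0) ⁻¹' E' := by
      ext x
      constructor
      · rintro ⟨h3, h4⟩
        refine ⟨h3, ?_⟩
        rw [mem_preimage, piecewise_eq_of_mem _ _ _ h3]
        exact h4
      · rintro ⟨h3, h4⟩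
        rw [mem_preimage, piecewise_eq_of_mem _ _ _ h3] at h4
        exact ⟨h3, h4⟩
    rw [h2]
    exact hS.inter (h1 hmE)
  refine ⟨A, hAm, fun x hx => ⟨hx.1, subset_toMeasurable _ _ hx.2⟩, ?_⟩
  have hder : ∀ x ∈ A, HasFDerivWithinAt H (fderiv ℝ H x) A x := fun x hx =>
    ((hH.differentiableOn (by simp)).differentiableAt
      (hU.mem_nhds (hSU hx.1))).hasFDerivAt.hasFDerivWithinAt
  have h1 := lintegral_abs_det_fderiv_eq_addHaar_image volume hAm hder
    (hinj.mono fun x hx => hx.1)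
  have h2 : H '' A ⊆ E' := by
    rintro _ ⟨x, hx, rfl⟩
    exact hx.2
  have h3 : ENNReal.ofReal d * volume A ≤ volume E := by
    calc ENNReal.ofReal d * volume A = ∫⁻ _ in A, ENNReal.ofReal d := by rw [setLIntegral_const]
      _ ≤ ∫⁻ x in A, ENNReal.ofReal |(fderiv ℝ H x).det| :=
          setLIntegral_mono' hAm fun x hx => ENNReal.ofReal_le_ofReal (hdet x hx.1)
      _ = volume (H '' A) := h1
      _ ≤ volume E' := measure_mono h2
      _ = volume E := measure_toMeasurable _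
  calc volume A = ENNReal.ofReal d⁻¹ * (ENNReal.ofReal d * volume A) := by
        rw [← mul_assoc, ← ENNReal.ofReal_mul (by positivity), inv_mul_cancel₀ hd.ne',
          ENNReal.ofReal_one, one_mul]
    _ ≤ ENNReal.ofReal d⁻¹ * volume E := mul_le_mul_right h3 _

theorem measurableSet_nsq_le (r : ℝ) : MeasurableSet {y : Cn m | nsq y ≤ r} := by
  have : Continuous fun y : Cn m => nsq y := by
    unfold nsq dotProduct
    fun_prop
  exact (isClosed_le this continuous_const).measurableSet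

theorem isOpen_nsq_lt (r : ℝ) : IsOpen {y : Cn m | nsq y < r} := by
  have : Continuous fun y : Cn m => nsq y := by
    unfold nsq dotProduct
    fun_prop
  exact isOpen_lt this continuous_const

end Pull

section Mod

variable {n m l : ℕ} {M Y Y' W : Type} [TopologicalSpace M] [CompactSpace M] [T2Space M]
  [TopologicalSpace Y] [T2Space Y] [TopologicalSpace Y'] [T2Space Y'] [TopologicalSpace W]
  [T2Space W] {κ P P' ι : Type} [Finite P] [Finite P'] [Fintype ι] {T : ℝ}
  (F : Mod n m l M Y Y' W κ P P' ι T)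

omit [CompactSpace M] [T2Space M] [T2Space Y] [T2Space Y'] [T2Space W] [Finite P] [Finite P']
  [Fintype ι] in
theorem Mod.pull_one (i : ι) : ∃ (C : ℝ) (B : ℕ), 0 ≤ C ∧ ∀ (E : Set (Cn m)),
    ∀ η ∈ Ioc (0 : ℝ) 1,
    volume {x : Cn n | x ∈ cpd 1 ∧ nsq (F.zc i x) ≤ 1 ∧ nsq (F.yc i x) < 25 ∧ F.yc i x ∈ E} ≤
      ENNReal.ofReal (C * η ^ 2) + ENNReal.ofReal (C * (η ^ B)⁻¹) * volume E := by
  obtain ⟨C₁, hC₁, hsmall⟩ := volume_small_coord n
  obtain ⟨c₀, A₀, hc₀, hlow⟩ := F.modif.low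
  set a : P' := F.pc i with ha
  set row := F.row i with hrow
  set s := F.s i with hs
  set N := F.N a with hN
  have hspos : ∀ k, 0 < s k := fun k => F.model.s_pos i k
  have hNpos : ∀ k, 0 < N k := fun k => F.model.N_pos a k
  obtain ⟨C₂, B₂, hC₂, hZ⟩ := Pull.vol_Zm row s N hspos hNpos (F.model.row_ne i)
  -- the constants
  set e : ℕ := ∑ k, n * N k with he
  set c₁ : ℝ := ∏ k, s k ^ N k with hc₁
  have hc₁0 : 0 < c₁ := Finset.prod_pos fun k _ => pow_pos (hspos k) _
  set C₃ : ℝ := C₂ * (c₀ * c₁ ^ A₀)⁻¹ with hC₃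
  have hC₃0 : 0 ≤ C₃ := by positivity
  refine ⟨max C₁ C₃, B₂ + e * A₀, le_max_of_le_left hC₁, fun E η hη => ?_⟩
  have hη0 := hη.1
  set δ : ℝ := c₁ * η ^ e with hδ
  have hδ0 : 0 < δ := by positivity
  -- the set in `Y'`
  set S : Set (Cn m) := {y | nsq y ≤ 1 ∧ δ ≤ ∏ k, ‖cc y k‖} with hS
  have hSm : MeasurableSet S := by
    refine (Pull.measurableSet_nsq_le 1).inter ?_
    exact measurableSet_le measurable_const
      (continuous_finset_prod _ fun k _ => (Pull.continuous_ccP k).norm).measurable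
  have hSU : S ⊆ {x | nsq x < 100} := fun y hy => lt_of_le_of_lt hy.1 (by norm_num)
  set H : Cn m → Cn m := sgm F.b F.z F.σ F.la a with hH
  have hHh := F.modif.holo a
  have hd0 : 0 < c₀ * δ ^ A₀ := by positivity
  have hlow' : ∀ y ∈ S, c₀ * δ ^ A₀ ≤ c₀ * (∏ k, ‖cc y k‖) ^ A₀ := fun y hy => by
    have := hy.2
    gcongr
  have hg : ∀ y ∈ S, F.g (F.la a) (H y) ≠ 0 := fun y hy h0 => by
    have h1 := (hlow a y (hSU hy)).1
    have h2 : 0 < nsq (F.g (F.la a) (H y)) := (hd0.trans_le (hlow' y hy)).trans_le h1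
    rw [h0] at h2
    simp [nsq] at h2
  have hsrc : ∀ y ∈ S, (F.z a).symm y ∈ (F.z a).source ∧ F.z a ((F.z a).symm y) = y := fun y hy =>
    ⟨(F.z a).map_target (F.modif.target a (hSU hy)),
      (F.z a).right_inv (F.modif.target a (hSU hy))⟩
  have hinj : InjOn H S := by
    intro y₁ h₁ y₂ h₂ h12
    have l1 : F.lb ((F.z a).symm y₁) = F.la a := F.modif.lb_eq a _ (hsrc y₁ h₁).1
    have l2 : F.lb ((F.z a).symm y₂) = F.la a := F.modif.lb_eq a _ (hsrc y₂ h₂).1
    have m1 := (F.modif.mem ((F.z a).symm y₁)).1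
    have m2 := (F.modif.mem ((F.z a).symm y₂)).1
    rw [l1] at m1
    rw [l2] at m2
    have hσ : F.σ ((F.z a).symm y₁) = F.σ ((F.z a).symm y₂) :=
      (F.b (F.la a)).injOn m1 m2 h12
    have h3 := F.modif.inj ((F.z a).symm y₁) ((F.z a).symm y₂) (l1.trans l2.symm) hσ (by
      rw [l1]
      exact hg y₁ h₁)
    rw [← (hsrc y₁ h₁).2, ← (hsrc y₂ h₂).2, h3]
  obtain ⟨A, hAm, hAsub, hAvol⟩ := Pull.vol_inj (Pull.isOpen_nsq_lt 100) hHh.1 hSm hSU hinj hd0
    (fun y hy => (hlow' y hy).trans (hlow a y (hSU hy)).2) E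
  -- the inclusion
  have hsub : {x : Cn n | x ∈ cpd 1 ∧ nsq (F.zc i x) ≤ 1 ∧ nsq (F.yc i x) < 25 ∧ F.yc i x ∈ E} ⊆
      {x : Cn n | x ∈ cpd 1 ∧ ∃ l, x.1 l ^ 2 + x.2 l ^ 2 < η ^ 2} ∪
      {x : Cn n | x ∈ cpd 1 ∧ (∀ l, η ≤ ‖cc x l‖) ∧ Pull.Zm row s N x ∈ A} := by
    rintro x ⟨hx1, hx2, -, hx4⟩
    by_cases hsm : ∃ l, x.1 l ^ 2 + x.2 l ^ 2 < η ^ 2
    · exact Or.inl ⟨hx1, hsm⟩
    · push Not at hsm
      have hbig : ∀ l, η ≤ ‖cc x l‖ := fun l => by
        have := hsm l
        rw [← Pull.sq_norm_ccP] at this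
        exact le_of_sq_le_sq this (norm_nonneg _)
      refine Or.inr ⟨hx1, hbig, ?_⟩
      have hx10 : x ∈ (F.a i).target := by
        rw [F.model.target i]
        intro l
        have := hx1 l
        linarith
      set w := (F.a i).symm x with hw
      have hws : w ∈ (F.a i).source := (F.a i).map_target hx10
      have hwx : F.a i w = x := (F.a i).right_inv hx10
      have hlab : F.lab w = a := F.model.lab_eq i w hws
      have hbase := F.model.base w
      rw [hlab] at hbase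
      have hz : F.zc i x = Pull.Zm row s N x := by
        apply cc_ext
        intro k
        have h1 := hbase.2 k
        rw [F.model.mono i w hws k, hwx] at h1
        rw [Pull.Zm, cc_ofC]
        exact h1
      have hy : F.yc i x = H (F.zc i x) := by
        change F.b (F.la a) (F.f (F.π w)) = F.b (F.la a) (F.σ ((F.z a).symm (F.z a (F.h w))))
        rw [(F.z a).left_inv hbase.1, F.model.comm w]
      rw [← hz]
      refine hAsub ⟨⟨hx2, ?_⟩, ?_⟩
      · rw [hz]
        have h2 : ∀ k, (s k * η ^ n) ^ N k ≤ ‖cc (Pull.Zm row s N x) k‖ := fun k => by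
          rw [Pull.Zm, cc_ofC, norm_pow, norm_mul, Complex.norm_real, Real.norm_eq_abs,
            abs_of_pos (hspos k)]
          have := hspos k
          gcongr
          exact Pull.le_norm_prow row k hη hbig
        calc δ = ∏ k, (s k * η ^ n) ^ N k := by
              rw [hδ, hc₁, he, ← Finset.prod_pow_eq_pow_sum, ← Finset.prod_mul_distrib]
              refine Finset.prod_congr rfl fun k _ => ?_
              rw [mul_pow, ← pow_mul]
          _ ≤ _ := Finset.prod_le_prod (fun k _ => by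
              have := hspos k
              positivity) fun k _ => h2 k
      · change H (F.zc i x) ∈ E
        rw [← hy]
        exact hx4
  calc volume {x : Cn n | x ∈ cpd 1 ∧ nsq (F.zc i x) ≤ 1 ∧ nsq (F.yc i x) < 25 ∧ F.yc i x ∈ E}
      ≤ volume {x : Cn n | x ∈ cpd 1 ∧ ∃ l, x.1 l ^ 2 + x.2 l ^ 2 < η ^ 2} +
        volume {x : Cn n | x ∈ cpd 1 ∧ (∀ l, η ≤ ‖cc x l‖) ∧ Pull.Zm row s N x ∈ A} :=
        (measure_mono hsub).trans (measure_union_le _ _)
    _ ≤ ENNReal.ofReal (C₁ * η ^ 2) + ENNReal.ofReal (C₂ * (η ^ B₂)⁻¹) *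
        (ENNReal.ofReal (c₀ * δ ^ A₀)⁻¹ * volume E) :=
        add_le_add (hsmall η hη) ((hZ η hη A hAm).trans (mul_le_mul_right hAvol _))
    _ = ENNReal.ofReal (C₁ * η ^ 2) + ENNReal.ofReal (C₃ * (η ^ (B₂ + e * A₀))⁻¹) * volume E := by
        rw [← mul_assoc, ← ENNReal.ofReal_mul (by positivity)]
        congr 3
        rw [hC₃, hδ, mul_pow, ← pow_mul, pow_add]
        field_simp
    _ ≤ _ := by
        gcongr
        · exact le_max_left _ _
        · exact le_max_right _ _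

omit [CompactSpace M] [T2Space M] [T2Space Y] [T2Space Y'] [T2Space W] [Finite P] [Finite P'] in
/-- the preimages in `W` of small sets of `Y` -/
theorem Mod.pull : ∃ (C c : ℝ) (B : ℕ), 0 ≤ C ∧ 0 < c ∧ ∀ (i : ι) (E : Set (Cn m)),
    ∀ η ∈ Ioc (0 : ℝ) 1,
    volume {x : Cn n | x ∈ cpd 1 ∧ nsq (F.zc i x) ≤ 1 ∧ nsq (F.yc i x) < 25 ∧ F.yc i x ∈ E} ≤
      ENNReal.ofReal (C * η ^ c) + ENNReal.ofReal (C * (η ^ B)⁻¹) * volume E := by
  choose C B hC h using fun i : ι => F.pull_one i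
  refine ⟨∑ i, C i, 2, ∑ i, B i, Finset.sum_nonneg fun i _ => hC i, by norm_num,
    fun i E η hη => (h i E η hη).trans ?_⟩
  have h1 : C i ≤ ∑ i, C i := Finset.single_le_sum (fun i _ => hC i) (Finset.mem_univ i)
  have h2 : B i ≤ ∑ i, B i := Finset.single_le_sum (fun i _ => Nat.zero_le _) (Finset.mem_univ i)
  have hη0 := hη.1
  have h3 : η ^ (2 : ℝ) = η ^ 2 := by exact_mod_cast Real.rpow_natCast η 2
  have h4 : (η ^ B i)⁻¹ ≤ (η ^ ∑ i, B i)⁻¹ :=
    inv_anti₀ (by positivity) (pow_le_pow_of_le_one hη0.le hη.2 h2)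
  rw [h3]
  have hS : 0 ≤ ∑ i, C i := Finset.sum_nonneg fun i _ => hC i
  gcongr

end Mod

end Pool.Agent.KRFX
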