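import Pool.Agent.Work.MP_a2bf38_gt.X.DropOf
import Pool.Agent.Work.MP_a2bf38_gt.X.Glue
import Pool.Agent.Work.MP_a2bf38_gt.X.Decay
import Pool.Agent.Work.MP_a2bf38_gt.X.Pull
import Pool.Agent.Work.MP_a2bf38_gt.X.Up
import Pool.Agent.Work.MP_a2bf38_gt.X.Dom

/-!
# The drop estimate for fibrations with semistable models over a modification of the base
-/

open scoped ContDiff ENNReal ComplexOrder Topology
open Set MeasureTheory Filter Pool.Agent.ToricKRF Pool.Agent.ToricKRF.G Pool.Agent.KRFS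
  Pool.Agent.KRFF Pool.Agent.KRFG

namespace Pool.Agent.KRFX

section Mod

variable {n m l : ℕ} {M Y Y' W : Type} [TopologicalSpace M] [CompactSpace M] [T2Space M]
  [TopologicalSpace Y] [T2Space Y] [TopologicalSpace Y'] [T2Space Y'] [TopologicalSpace W]
  [T2Space W] {κ P P' ι : Type} [Finite P] [Finite P'] [Fintype ι] {T : ℝ}
  (F : Mod n m l M Y Y' W κ P P' ι T)

/-- **The drop estimate**: `φ(t₀) - φ(t) ≤ C (T - t₀)^(1/2)` for `t ≥ t₀`. -/
theorem Mod.drop : F.toFlow.Drop (1 / 2) :=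
  F.drop_of F.glue (fun hη => F.small hη) F.pull (fun c _ hA hAt => F.up c hA hAt) F.dom

end Mod

end Pool.Agent.KRFX
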