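import Pool.Agent.Work.MP_a2bf38_gt.X.Setup
import Pool.Agent.Work.MP_a2bf38_gt.K.GapOf

/-!
# The drop estimate for fibrations with semistable models over a modification of the base
-/

open scoped ContDiff ENNReal ComplexOrder Topology
open Set MeasureTheory Filter Pool.Agent.ToricKRF Pool.Agent.ToricKRF.G Pool.Agent.KRFS
  Pool.Agent.KRFF Pool.Agent.KRFG

namespace Pool.Agent.KRFX

/-- `exp (-x^(-1/4))` is smaller than all powers of `x` -/
theorem exp_small (N : ℕ) {ε : ℝ} (hε : 0 < ε) : ∃ δ > 0, ∀ x : ℝ, 0 < x → x < δ →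
    Real.exp (-x ^ (-(1 / 4) : ℝ)) ≤ ε * x ^ N := by
  obtain ⟨U, hU⟩ := ((Real.tendsto_pow_mul_exp_neg_atTop_nhds_zero (4 * N)).eventually
    (ge_mem_nhds hε)).exists_forall_of_atTop
  set V : ℝ := max U 1 with hV
  have hV0 : 0 < V := lt_of_lt_of_le one_pos (le_max_right _ _)
  refine ⟨(V ^ 4)⁻¹, by positivity, fun x hx hxV => ?_⟩
  set u : ℝ := x ^ (-(1 / 4) : ℝ) with hu
  have hu0 : 0 < u := Real.rpow_pos_of_pos hx _
  have hu4 : u ^ 4 = x⁻¹ := by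
    rw [hu, ← Real.rpow_natCast, ← Real.rpow_mul hx.le]
    norm_num
    exact Real.rpow_neg_one x
  have huV : V ≤ u := by
    have h1 : V ^ 4 < u ^ 4 := by
      rw [hu4]
      exact (lt_inv_comm₀ (by positivity) hx).2 hxV
    exact (lt_of_pow_lt_pow_left₀ 4 hu0.le h1).le
  have h2 := hU u ((le_max_left _ _).trans huV)
  have h3 : u ^ (4 * N) = (x ^ N)⁻¹ := by
    rw [pow_mul, hu4, inv_pow]
  rw [h3] at h2
  have h4 : 0 < x ^ N := pow_pos hx N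
  calc Real.exp (-u) = x ^ N * ((x ^ N)⁻¹ * Real.exp (-u)) := by
        rw [← mul_assoc, mul_inv_cancel₀ h4.ne', one_mul]
    _ ≤ x ^ N * ε := mul_le_mul_of_nonneg_left h2 h4.le
    _ = ε * x ^ N := mul_comm _ _

/-- the powers in the estimate of the volumes -/
theorem pull_small {C c : ℝ} (hC : 0 ≤ C) (hc : 0 < c) (B N : ℕ) {ε : ℝ} (hε : 0 < ε) :
    ∃ δ > 0, ∀ x : ℝ, 0 < x → x < δ → ∃ η ∈ Ioc (0 : ℝ) 1,
      ENNReal.ofReal (C * η ^ c) + ENNReal.ofReal (C * (η ^ B)⁻¹) *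
        ENNReal.ofReal (Real.exp (-x ^ (-(1 / 4) : ℝ))) ≤ ENNReal.ofReal (2 * ε * x ^ N) := by
  obtain ⟨k, hk⟩ := exists_nat_gt ((N + 1 : ℝ) / c)
  have hC1 : 0 < C + 1 := by linarith
  obtain ⟨δ, hδ, h⟩ := exp_small (k * B + N) (ε := ε / (C + 1)) (by positivity)
  refine ⟨min (min δ 1) (ε / (C + 1)), by positivity, fun x hx hxδ => ?_⟩
  have hx1 : x < 1 := hxδ.trans_le ((min_le_left _ _).trans (min_le_right _ _))
  have hxδ' : x < δ := hxδ.trans_le ((min_le_left _ _).trans (min_le_left _ _))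
  have hxε : x < ε / (C + 1) := hxδ.trans_le (min_le_right _ _)
  have hxN : 0 < x ^ N := pow_pos hx N
  have hCε : C * (ε / (C + 1)) ≤ ε := by
    rw [mul_div_assoc', div_le_iff₀ hC1]
    nlinarith
  refine ⟨x ^ k, ⟨pow_pos hx k, pow_le_one₀ hx.le hx1.le⟩, ?_⟩
  have e1 : C * (x ^ k) ^ c ≤ ε * x ^ N := by
    have h1 : (x ^ k) ^ c ≤ x ^ (N + 1) := by
      rw [← Real.rpow_natCast x k, ← Real.rpow_mul hx.le, ← Real.rpow_natCast x (N + 1)]
      refine Real.rpow_le_rpow_of_exponent_ge hx hx1.le ?_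
      rw [div_lt_iff₀ hc] at hk
      push_cast
      exact hk.le
    calc C * (x ^ k) ^ c ≤ C * x ^ (N + 1) := mul_le_mul_of_nonneg_left h1 hC
      _ = C * x * x ^ N := by ring
      _ ≤ C * (ε / (C + 1)) * x ^ N :=
        mul_le_mul_of_nonneg_right (mul_le_mul_of_nonneg_left hxε.le hC) hxN.le
      _ ≤ ε * x ^ N := mul_le_mul_of_nonneg_right hCε hxN.le
  have e2 : C * ((x ^ k) ^ B)⁻¹ * Real.exp (-x ^ (-(1 / 4) : ℝ)) ≤ ε * x ^ N := by
    have h1 := h x hx hxδ'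
    have h2 : 0 < (x ^ k) ^ B := by positivity
    calc C * ((x ^ k) ^ B)⁻¹ * Real.exp (-x ^ (-(1 / 4) : ℝ))
        ≤ C * ((x ^ k) ^ B)⁻¹ * (ε / (C + 1) * x ^ (k * B + N)) :=
          mul_le_mul_of_nonneg_left h1 (by positivity)
      _ = C * (ε / (C + 1)) * x ^ N * (((x ^ k) ^ B)⁻¹ * (x ^ k) ^ B) := by
          rw [pow_add, pow_mul]
          ring
      _ = C * (ε / (C + 1)) * x ^ N := by rw [inv_mul_cancel₀ h2.ne', mul_one]
      _ ≤ ε * x ^ N := mul_le_mul_of_nonneg_right hCε hxN.le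
  rw [← ENNReal.ofReal_mul (by positivity), ← ENNReal.ofReal_add (by positivity) (by positivity)]
  refine ENNReal.ofReal_le_ofReal ?_
  calc _ ≤ ε * x ^ N + ε * x ^ N := add_le_add e1 e2
    _ = 2 * ε * x ^ N := by ring

section Mod

variable {n m l : ℕ} {M Y Y' W : Type} [TopologicalSpace M] [CompactSpace M] [T2Space M]
  [TopologicalSpace Y] [T2Space Y] [TopologicalSpace Y'] [T2Space Y'] [TopologicalSpace W]
  [T2Space W] {κ P P' ι : Type} [Finite P] [Finite P'] [Fintype ι] {T : ℝ}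
  (F : Mod n m l M Y Y' W κ P P' ι T)

omit [CompactSpace M] [T2Space M] [T2Space Y] [T2Space Y'] [T2Space W] [Finite P] [Finite P']
  [Fintype ι] in
/-- every point of `M` over the ball of radius `7` of the chart `j` lifts to a core of `W`, over the
part `j` of `Y'` -/
theorem Mod.exists_lift (j : P) (p : M) (hp : F.f p ∈ (F.b j).source)
    (hp' : nsq (F.b j (F.f p)) ≤ 49) : ∃ (i : ι) (x : Cn n), x ∈ cpd (k := n) 1 ∧
      F.π ((F.a i).symm x) = p ∧ nsq (F.zc i x) ≤ 1 ∧ F.yc i x = F.b j (F.f p) ∧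
      F.lb (F.h ((F.a i).symm x)) = j ∧ F.yb (F.h ((F.a i).symm x)) = F.b j (F.f p) := by
  obtain ⟨w₀, hw₀, hw₀'⟩ := F.model.all j p hp hp'
  have hσ : F.σ (F.h w₀) = F.f p := by rw [F.model.comm, hw₀']
  obtain ⟨a, ha, ha1⟩ := F.modif.cover (F.h w₀) (by rw [hw₀, hσ]; exact hp')
  obtain ⟨t, ht⟩ := exists_root (F.N a) (F.model.N_pos a) (F.z a (F.h w₀))
  obtain ⟨w, hw, hwt, hwp⟩ := F.model.onto a w₀ ha (ha1.trans (by norm_num)) t ht
  obtain ⟨hb1, hb2⟩ := F.model.base w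
  rw [hw] at hb1 hb2
  have hz : F.z a (F.h w) = F.z a (F.h w₀) := by
    have h1 : ∀ i, cc (F.z a (F.h w)) i = cc (F.z a (F.h w₀)) i := fun i => by
      rw [hb2 i, hwt, ht i]
    refine Prod.ext (funext fun i => ?_) (funext fun i => ?_)
    · exact congrArg Complex.re (h1 i)
    · exact congrArg Complex.im (h1 i)
  have hh : F.h w = F.h w₀ := (F.z a).injOn hb1 ha hz
  obtain ⟨i, hi, hi1⟩ := F.model.cover w (by rw [hw, hz]; exact ha1.trans (by norm_num))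
  have hpc : F.pc i = a := (F.model.lab_eq i w hi).symm.trans hw
  have hla : F.la a = j := (F.modif.lb_eq a (F.h w₀) ha).symm.trans hw₀
  refine ⟨i, F.a i w, hi1, ?_, ?_, ?_, ?_, ?_⟩
  · rw [(F.a i).left_inv hi, hwp, hw₀']
  · unfold Mod.zc
    rw [(F.a i).left_inv hi, hpc, hz]
    exact ha1
  · unfold Mod.yc
    rw [(F.a i).left_inv hi, hpc, hla, hwp, hw₀']
  · rw [(F.a i).left_inv hi, hh, hw₀]
  · unfold Mod.yb
    rw [(F.a i).left_inv hi, hh, hw₀, hσ]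

omit [T2Space M] [T2Space Y] [T2Space Y'] [T2Space W] [Finite P] [Finite P'] in
/-- **The drop estimate**: `φ(t₀) - φ(t) ≤ C (T - t₀)^(1/2)` for `t ≥ t₀`. -/
theorem Mod.drop_of
    (hglue : ∃ C d₀ : ℝ, 0 ≤ C ∧ 0 < d₀ ∧ ∀ t ∈ Ico 0 T, T - t < d₀ →
      ∃ (R : P → Cn m → ℝ) (E : P → Set (Cn m)),
        (∀ j, ContDiffOn ℝ ∞ (R j) {y | nsq y < 25}) ∧
        (∀ j y, nsq y < 25 → |R j y| ≤ C) ∧
        (∀ j y, nsq y < 25 → ∀ v, 0 ≤ levz (R j) v y + t / T * levz (F.K j) v y) ∧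
        (∀ i j y, y ∈ (F.b i).source → y ∈ (F.b j).source → 9 ≤ nsq (F.b i y) →
          nsq (F.b i y) ≤ 16 → nsq (F.b j y) ≤ 1 → R i (F.b i y) < R j (F.b j y)) ∧
        (∀ j p, F.f p ∈ (F.b j).source → nsq (F.b j (F.f p)) ≤ 16 →
          F.Phi t p ≤ R j (F.b j (F.f p)) + C * √(T - t)) ∧
        (∀ j, volume (E j) ≤ ENNReal.ofReal (Real.exp (-(T - t) ^ (-(1 / 4) : ℝ)))) ∧
        (∀ y', nsq (F.yb y') ≤ 16 → F.yb y' ∉ E (F.lb y') →
          R (F.lb y') (F.yb y') ≤ F.Mx t y' + C * √(T - t)))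
    (hsmall : ∀ {η : ℝ}, 0 < η → ∃ d₀ > 0, ∀ t ∈ Ico 0 T, T - t < d₀ → ∀ c,
      volume {x : Cn n | x ∈ cpd 1 ∧ nsq (F.zc c x) ≤ 16 ∧ F.gc t c x < -√(T - t)} ≤
        ENNReal.ofReal (η * (T - t) ^ (2 * n)))
    (hpull : ∃ (C c : ℝ) (B : ℕ), 0 ≤ C ∧ 0 < c ∧ ∀ (i : ι) (E : Set (Cn m)),
      ∀ η ∈ Ioc (0 : ℝ) 1,
      volume {x : Cn n | x ∈ cpd 1 ∧ nsq (F.zc i x) ≤ 1 ∧ nsq (F.yc i x) < 25 ∧ F.yc i x ∈ E} ≤
        ENNReal.ofReal (C * η ^ c) + ENNReal.ofReal (C * (η ^ B)⁻¹) * volume E)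
    (hup : ∀ (c : κ) {A : Set (Cn n)}, IsCompact A → A ⊆ (F.e c).target →
      ∃ C : ℝ, 0 ≤ C ∧ ∀ S ⊆ A, ∀ B : ι → Set (Cn n), (∀ i, B i ⊆ cpd 1) →
        (∀ z ∈ S, ∃ i, ∃ x ∈ B i, F.π ((F.a i).symm x) = (F.e c).symm z) →
        volume S ≤ ENNReal.ofReal C * ∑ i, volume (B i))
    (hdom : ∀ C₀ : ℝ, ∃ (c C d₀ : ℝ) (A : κ → Set (Cn n)), 0 < c ∧ 0 ≤ C ∧ 0 < d₀ ∧
      {c | (A c).Nonempty}.Finite ∧ (∀ c, IsCompact (A c) ∧ A c ⊆ (F.e c).target) ∧
      ∀ t₀ ∈ Ico 0 T, T - t₀ < d₀ → ∀ (R : P → Cn m → ℝ) (s : ℝ), 0 ≤ s →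
        (∀ j, ContDiffOn ℝ ∞ (R j) {y | nsq y < 25}) →
        (∀ j y, nsq y < 25 → |R j y| ≤ C₀) →
        (∀ j y, nsq y < 25 → ∀ v, 0 ≤ levz (R j) v y + t₀ / T * levz (F.K j) v y) →
        (∀ i j y, y ∈ (F.b i).source → y ∈ (F.b j).source → 9 ≤ nsq (F.b i y) →
          nsq (F.b i y) ≤ 16 → nsq (F.b j y) ≤ 1 → R i (F.b i y) < R j (F.b j y)) →
        (∀ c' j, ∀ S ⊆ A c', (∀ x ∈ S, F.f ((F.e c').symm x) ∈ (F.b j).source ∧
          nsq (F.b j (F.f ((F.e c').symm x))) ≤ 16 ∧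
          F.Phi t₀ ((F.e c').symm x) < R j (F.b j (F.f ((F.e c').symm x))) - s) →
          volume S < ENNReal.ofReal (c * (T - t₀) ^ (2 * n))) →
        ∀ t ∈ Ico t₀ T, ∀ j p, F.f p ∈ (F.b j).source → nsq (F.b j (F.f p)) ≤ 16 →
          R j (F.b j (F.f p)) ≤ F.Phi t p + s + C * √(T - t₀)) :
    F.toFlow.Drop (1 / 2) := by
  obtain ⟨Cg, d₁, hCg, hd₁, hglue⟩ := hglue
  obtain ⟨Cp, cp, Bp, hCp, hcp, hpull⟩ := hpull
  obtain ⟨c, Cd, d₂, A, hc, hCd, hd₂, hfin, hA, hdom⟩ := hdom Cg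
  obtain ⟨C₂, hC₂, h2⟩ := F.toFlow.Phi_bound
  -- one constant for `up`
  obtain ⟨U, hU0, hU⟩ : ∃ U : ℝ, 0 ≤ U ∧ ∀ c', (A c').Nonempty → ∀ S ⊆ A c',
      ∀ B : ι → Set (Cn n), (∀ i, B i ⊆ cpd 1) →
      (∀ z ∈ S, ∃ i, ∃ x ∈ B i, F.π ((F.a i).symm x) = (F.e c').symm z) →
      volume S ≤ ENNReal.ofReal U * ∑ i, volume (B i) := by
    choose u hu0 hu using fun c' : κ => hup c' (hA c').1 (hA c').2
    obtain ⟨B, hB⟩ := (hfin.image u).bddAbove
    refine ⟨max B 0, le_max_right _ _, fun c' hne S hS D hD h => ?_⟩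
    refine (hu c' S hS D hD h).trans ?_
    gcongr
    exact (hB (mem_image_of_mem _ hne)).trans (le_max_left _ _)
  set η : ℝ := c / (4 * (U * Fintype.card ι + 1)) with hη
  have hcard : (0 : ℝ) ≤ Fintype.card ι := Nat.cast_nonneg _
  have hUc : 0 ≤ U * Fintype.card ι := mul_nonneg hU0 hcard
  have hη0 : 0 < η := by positivity
  obtain ⟨d₃, hd₃, hsm⟩ := hsmall hη0
  obtain ⟨d₄, hd₄, hpow⟩ := pull_small hCp hcp Bp (2 * n) hη0
  set δ : ℝ := min (min d₁ d₂) (min d₃ d₄) with hδ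
  have hδ0 : 0 < δ := lt_min (lt_min hd₁ hd₂) (lt_min hd₃ hd₄)
  have hsδ : 0 < √δ := Real.sqrt_pos.2 hδ0
  refine ⟨(2 * Cg + 1 + Cd) + 2 * C₂ / √δ, by positivity, fun t₀ ht₀ t ht p => ?_⟩
  rw [← Real.sqrt_eq_rpow]
  have ht' : t ∈ Ico 0 T := ⟨ht₀.1.trans ht.1, ht.2⟩
  have hTt : 0 < T - t₀ := sub_pos.2 ht₀.2
  have hsq : 0 < √(T - t₀) := Real.sqrt_pos.2 hTt
  have hb1 := abs_le.1 (h2 t₀ ht₀ p)
  have hb2 := abs_le.1 (h2 t ht' p)
  rcases lt_or_ge (T - t₀) δ with hcs | hcs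
  · -- the good case
    have hl1 : T - t₀ < d₁ := hcs.trans_le ((min_le_left _ _).trans (min_le_left _ _))
    have hl2 : T - t₀ < d₂ := hcs.trans_le ((min_le_left _ _).trans (min_le_right _ _))
    have hl3 : T - t₀ < d₃ := hcs.trans_le ((min_le_right _ _).trans (min_le_left _ _))
    have hl4 : T - t₀ < d₄ := hcs.trans_le ((min_le_right _ _).trans (min_le_right _ _))
    obtain ⟨R, E, hR, hRb, hRl, hRg, hRup, hE, hRlo⟩ := hglue t₀ ht₀ hl1
    obtain ⟨θ, hθ, hvol⟩ := hpow (T - t₀) hTt hl4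
    have hs0 : 0 ≤ (Cg + 1) * √(T - t₀) := by positivity
    obtain ⟨j, hj, hj'⟩ := F.hol.cover (F.f p)
    have hj16 : nsq (F.b j (F.f p)) ≤ 16 := hj'.trans (by norm_num)
    have hd := hdom t₀ ht₀ hl2 R ((Cg + 1) * √(T - t₀)) hs0 hR hRb hRl hRg (by
      intro c' j S hS hSx
      have hpos : 0 < c * (T - t₀) ^ (2 * n) := by positivity
      rcases S.eq_empty_or_nonempty with rfl | hSn
      · rw [measure_empty]
        exact ENNReal.ofReal_pos.2 hpos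
      have hne : (A c').Nonempty := hSn.mono hS
      set B : ι → Set (Cn n) := fun i =>
        {x : Cn n | x ∈ cpd 1 ∧ nsq (F.zc i x) ≤ 16 ∧ F.gc t₀ i x < -√(T - t₀)} ∪
        {x : Cn n | x ∈ cpd 1 ∧ nsq (F.zc i x) ≤ 1 ∧ nsq (F.yc i x) < 25 ∧ F.yc i x ∈ E j} with hB
      have h3 := hU c' hne S hS B (fun i x hx => hx.elim (fun h => h.1) (fun h => h.1))
        (fun q hq => by
          obtain ⟨hq1, hq2, hq3⟩ := hSx q hq
          obtain ⟨i, x, hx1, hx2, hx3, hx4, hx5, hx6⟩ :=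
            F.exists_lift j ((F.e c').symm q) hq1 (hq2.trans (by norm_num))
          refine ⟨i, x, ?_, hx2⟩
          by_cases hxE : F.yc i x ∈ E j
          · exact Or.inr ⟨hx1, hx3, by rw [hx4]; exact hq2.trans_lt (by norm_num), hxE⟩
          · refine Or.inl ⟨hx1, hx3.trans (by norm_num), ?_⟩
            have h4 := hRlo (F.h ((F.a i).symm x)) (by rw [hx6]; exact hq2)
              (by rw [hx6, hx5, ← hx4]; exact hxE)
            rw [hx5, hx6] at h4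
            unfold Mod.gc
            rw [hx2]
            have h5 : (Cg + 1) * √(T - t₀) = Cg * √(T - t₀) + √(T - t₀) := by ring
            rw [h5] at hq3
            linarith)
      have h4 : ∀ i, volume (B i) ≤ ENNReal.ofReal (3 * η * (T - t₀) ^ (2 * n)) := by
        intro i
        refine (measure_union_le _ _).trans ?_
        have h5 : (3 * η * (T - t₀) ^ (2 * n)) =
            η * (T - t₀) ^ (2 * n) + 2 * η * (T - t₀) ^ (2 * n) := by ring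
        rw [h5, ENNReal.ofReal_add (by positivity) (by positivity)]
        refine add_le_add (hsm t₀ ht₀ hl3 i) ((hpull i (E j) θ hθ).trans ?_)
        exact (add_le_add le_rfl (mul_le_mul' le_rfl (hE j))).trans hvol
      have h5 : ∑ i, volume (B i) ≤
          ENNReal.ofReal (Fintype.card ι * (3 * η * (T - t₀) ^ (2 * n))) := by
        refine (Finset.sum_le_sum fun i _ => h4 i).trans ?_
        rw [Finset.sum_const, Finset.card_univ, nsmul_eq_mul, ENNReal.ofReal_mul hcard,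
          ENNReal.ofReal_natCast]
      refine h3.trans_lt ((mul_le_mul' le_rfl h5).trans_lt ?_)
      rw [← ENNReal.ofReal_mul hU0]
      refine (ENNReal.ofReal_lt_ofReal_iff hpos).2 ?_
      have h6 : U * (Fintype.card ι * (3 * η * (T - t₀) ^ (2 * n))) =
          3 * (U * Fintype.card ι * η) * (T - t₀) ^ (2 * n) := by ring
      have h7 : (U * Fintype.card ι) * η ≤ c / 4 := by
        rw [hη, ← mul_div_assoc, div_le_div_iff₀ (by positivity) (by norm_num)]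
        nlinarith
      rw [h6]
      refine mul_lt_mul_of_pos_right ?_ (by positivity)
      linarith) t ht j p hj hj16
    have h3 := hRup j p hj hj16
    have h4 : 0 ≤ 2 * C₂ / √δ * √(T - t₀) := by positivity
    have h5 : (2 * Cg + 1 + Cd + 2 * C₂ / √δ) * √(T - t₀) = Cg * √(T - t₀) +
        (Cg + 1) * √(T - t₀) + Cd * √(T - t₀) + 2 * C₂ / √δ * √(T - t₀) := by ring
    rw [h5]
    linarith
  · -- the trivial case
    have h4 : √δ ≤ √(T - t₀) := Real.sqrt_le_sqrt hcs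
    have h5 : 2 * C₂ ≤ 2 * C₂ / √δ * √(T - t₀) := by
      rw [div_mul_eq_mul_div, le_div_iff₀ hsδ]
      exact mul_le_mul_of_nonneg_left h4 (by positivity)
    have h6 : 0 ≤ (2 * Cg + 1 + Cd) * √(T - t₀) := by positivity
    rw [add_mul]
    linarith

end Mod

end Pool.Agent.KRFX
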