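import Pool.Agent.Work.MP_a2bf38_gt.X.GlueB
import Pool.Agent.Work.MP_a2bf38_gt.H.BoundCalc

/-!
# The gluing: the end (helper2)
-/

open scoped ContDiff ENNReal ComplexOrder Topology
open Set MeasureTheory Filter Pool.Agent.ToricKRF Pool.Agent.ToricKRF.G Pool.Agent.KRFS
  Pool.Agent.KRFF Pool.Agent.KRFG

namespace Pool.Agent.KRFX

namespace Gl

theorem nsq_add_le {k : ℕ} (a b : Cn k) : nsq (a + b) ≤ 11 / 10 * nsq a + 11 * nsq b := by
  rw [Gap.nsq_eq, Gap.nsq_eq, Gap.nsq_eq, Finset.mul_sum, Finset.mul_sum,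
    ← Finset.sum_add_distrib]
  refine Finset.sum_le_sum fun i _ => ?_
  simp only [Prod.fst_add, Prod.snd_add, Pi.add_apply]
  nlinarith [sq_nonneg (a.1 i - 10 * b.1 i), sq_nonneg (a.2 i - 10 * b.2 i)]

theorem small_vol {d a : ℝ} (hd : 0 < d) (ha : 0 ≤ a) (h4 : 4 ≤ 1 / √d) (h8 : 8 * a ≤ 1 / √d) :
    a * Real.exp (-(1 / √d)) / √d ≤ Real.exp (-d ^ (-(1 / 4) : ℝ)) := by
  have hs : 0 < √d := Real.sqrt_pos.2 hd
  set x := 1 / √d with hx
  have hx0 : 0 < x := by positivity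
  have h1 : d ^ (-(1 / 4) : ℝ) = √x := by
    have h0 : 1 / d ^ (1 / 2 : ℝ) = d ^ (-(1 / 2) : ℝ) := by
      rw [Real.rpow_neg hd.le, one_div (d ^ (1 / 2 : ℝ))]
    rw [hx, Real.sqrt_eq_rpow, Real.sqrt_eq_rpow, h0, ← Real.rpow_mul hd.le]
    norm_num
  have h2 : √x ≤ x / 2 := by
    rw [Real.sqrt_le_iff]
    constructor
    · positivity
    · nlinarith
  have h3 : x ^ 2 / 8 ≤ Real.exp (x / 2) := by
    have := Real.quadratic_le_exp_of_nonneg (show 0 ≤ x / 2 by positivity)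
    nlinarith
  have h5 : a * Real.exp (-x) / √d = a * x * Real.exp (-x) := by
    rw [hx]
    ring
  rw [h5, h1]
  have h6 : Real.exp (-x) = Real.exp (-(x / 2)) * Real.exp (-(x / 2)) := by
    rw [← Real.exp_add]
    congr 1
    ring
  have h7 : a * x * Real.exp (-(x / 2)) ≤ 1 := by
    have e1 : Real.exp (-(x / 2)) ≤ 8 / x ^ 2 := by
      rw [Real.exp_neg, inv_le_comm₀ (Real.exp_pos _) (by positivity)]
      rw [inv_div]
      exact h3
    calc a * x * Real.exp (-(x / 2)) ≤ a * x * (8 / x ^ 2) :=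
          mul_le_mul_of_nonneg_left e1 (by positivity)
      _ = (8 * a) / x := by
          field_simp
      _ ≤ 1 := by
          rw [div_le_one hx0]
          exact h8
  calc a * x * Real.exp (-x) = (a * x * Real.exp (-(x / 2))) * Real.exp (-(x / 2)) := by
        rw [h6]
        ring
    _ ≤ 1 * Real.exp (-(x / 2)) := mul_le_mul_of_nonneg_right h7 (Real.exp_pos _).le
    _ = Real.exp (-(x / 2)) := one_mul _
    _ ≤ Real.exp (-√x) := Real.exp_le_exp.2 (by linarith)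

/-- bounds of the regularization -/
theorem reg_bound {m : ℕ} {L C S ρ : ℝ} {u u' : Cn m → ℝ} (h : IsReg L C S ρ u u')
    (hS : 0 ≤ S) (hu : ∀ y, nsq y < 49 → |u y| ≤ S) (hρ0 : 0 < ρ) (hρ : ρ ≤ 1 / 10) {y : Cn m}
    (hy : nsq y < 36) : |u' y| ≤ S := by
  rw [abs_le]
  constructor
  · exact (abs_le.1 (hu y (by linarith))).1.trans (h.le y hy)
  · have := h.up y hy ∅ S (by linarith) (fun y' hy' _ => by
      refine (abs_le.1 (hu y' ?_)).2
      have e := nsq_add_le y (y' - y)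
      rw [add_sub_cancel] at e
      have e2 : ρ ^ 2 ≤ 1 / 100 := by nlinarith
      linarith)
    simpa using this

theorem IsReg.weaken {m : ℕ} {L C S ρ : ℝ} {u u' : Cn m → ℝ} (h : IsReg L C S ρ u u')
    (hL : 1 ≤ L) (hρ0 : 0 < ρ) : IsReg 1 C S ρ u u' :=
  ⟨h.smooth, h.lev, h.le, h.up, fun y y' hy hy' => h.near y y' hy (hy'.trans (by
    apply pow_le_pow_left₀ (by positivity)
    exact mul_le_mul_of_nonneg_right hL hρ0.le)), h.diff⟩

end Gl

section Mod

variable {n m l : ℕ} {M Y Y' W : Type} [TopologicalSpace M] [TopologicalSpace Y]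
  [TopologicalSpace Y'] [TopologicalSpace W] {κ P P' ι : Type} {T : ℝ}
  (F : Mod n m l M Y Y' W κ P P' ι T)

/-- `X/Glue.lean` -/
theorem Mod.glue_of {CK : ℝ} (hCK : 1 ≤ CK)
    (hK : ∀ j, ∀ y : Cn m, nsq y ≤ 49 → |F.K j y| ≤ CK ∧ nsq (F.g j y) ≤ CK ∧
      ∀ v, nsq v ≤ CK * levz (F.K j) v y)
    (hdesc : ∃ C S d₀ : ℝ, 0 ≤ C ∧ 0 ≤ S ∧ 0 < d₀ ∧ ∀ t ∈ Ico 0 T, T - t < d₀ →
      ∃ q : P → Cn m → ℝ, F.IsDesc C S t q)
    {L Cr : ℝ} (hL : 1 ≤ L) (hCr : 0 ≤ Cr)
    (hreg : ∀ (u : Cn m → ℝ) (S ρ : ℝ),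
      PshC u {y : Cn m | nsq y < 49} → (∀ y, nsq y < 49 → |u y| ≤ S) → 0 < ρ → L * ρ ≤ 1 / 10 →
      ∃ u' : Cn m → ℝ, IsReg L Cr S ρ u u')
    (hcomp : ∀ C S : ℝ, 0 ≤ C → 0 ≤ S → ∃ C' d₀ : ℝ, 0 ≤ C' ∧ 0 < d₀ ∧
      ∀ t ∈ Ico 0 T, T - t < d₀ → ∀ q u' : P → Cn m → ℝ, F.IsDesc C S t q →
      (∀ j y, nsq y < 49 → |q j y + t / T * F.K j y| ≤ S) →
      (∀ j, IsReg L Cr S (Real.exp (-(1 / √(T - t)))) (fun y => q j y + t / T * F.K j y) (u' j)) →
      ∀ i j, ∀ y ∈ (F.b i).source, y ∈ (F.b j).source → nsq (F.b i y) ≤ 16 →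
        nsq (F.b j y) ≤ 16 → u' i (F.b i y) - t / T * F.K i (F.b i y) ≤
          u' j (F.b j y) - t / T * F.K j (F.b j y) + C' * √(T - t))
    (hupp : ∀ C S : ℝ, 0 ≤ C → 0 ≤ S → ∃ C' d₀ : ℝ, 0 ≤ C' ∧ 0 < d₀ ∧
      ∀ t ∈ Ico 0 T, T - t < d₀ → ∀ q u' : P → Cn m → ℝ, F.IsDesc C S t q →
      (∀ j, IsReg 1 Cr S (Real.exp (-(1 / √(T - t)))) (fun y => q j y + t / T * F.K j y) (u' j)) →
      ∀ j p, F.f p ∈ (F.b j).source → nsq (F.b j (F.f p)) ≤ 16 →
        F.Phi t p ≤ u' j (F.b j (F.f p)) - t / T * F.K j (F.b j (F.f p)) + C' * √(T - t)) :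
    ∃ C d₀ : ℝ, 0 ≤ C ∧ 0 < d₀ ∧ ∀ t ∈ Ico 0 T, T - t < d₀ →
    ∃ (R : P → Cn m → ℝ) (E : P → Set (Cn m)),
      (∀ j, ContDiffOn ℝ ∞ (R j) {y | nsq y < 25}) ∧
      (∀ j y, nsq y < 25 → |R j y| ≤ C) ∧
      (∀ j y, nsq y < 25 → ∀ v, 0 ≤ levz (R j) v y + t / T * levz (F.K j) v y) ∧
      (∀ i j y, y ∈ (F.b i).source → y ∈ (F.b j).source → 9 ≤ nsq (F.b i y) →
        nsq (F.b i y) ≤ 16 → nsq (F.b j y) ≤ 1 → R i (F.b i y) < R j (F.b j y)) ∧
      (∀ j p, F.f p ∈ (F.b j).source → nsq (F.b j (F.f p)) ≤ 16 →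
        F.Phi t p ≤ R j (F.b j (F.f p)) + C * √(T - t)) ∧
      (∀ j, volume (E j) ≤ ENNReal.ofReal (Real.exp (-(T - t) ^ (-(1 / 4) : ℝ)))) ∧
      (∀ y', nsq (F.yb y') ≤ 16 → F.yb y' ∉ E (F.lb y') →
        R (F.lb y') (F.yb y') ≤ F.Mx t y' + C * √(T - t)) := by
  obtain ⟨C₁, S₁, d₁, hC₁, hS₁, hd₁, hD⟩ := hdesc
  set S := S₁ + CK with hSdef
  have hS0 : 0 ≤ S := by positivity
  obtain ⟨C₂, d₂, hC₂, hd₂, hcmp⟩ := hcomp C₁ S hC₁ hS0
  obtain ⟨C₃, d₃, hC₃, hd₃, hup⟩ := hupp C₁ S hC₁ hS0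
  set C₀ := C₂ + 1 with hC₀
  set A := 2 * CK with hA
  set B := S + CK with hB
  have hC₀0 : 0 < C₀ := by positivity
  have hA0 : 0 < A := by positivity
  have hB0 : 0 ≤ B := by positivity
  by_cases hT : 0 < T
  swap
  · refine ⟨0, 1, le_rfl, one_pos, fun t ht => ?_⟩
    have := ht.1
    have := ht.2
    linarith
  set e := min (1 / 4) (min (1 / (10 * L)) (min (1 / (A * C₀)) (1 / (8 * (Cr * S) + 1)))) with he
  have he0 : 0 < e := by
    refine lt_min (by norm_num) (lt_min (by positivity) (lt_min (by positivity) (by positivity)))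
  refine ⟨B + 25 * C₀ + (C₃ + C₀ * (A * B + 16)) + (C₁ + 1 + A * C₀ * B),
    min (e ^ 2) (min (T / 2) (min d₁ (min d₂ d₃))), by positivity, ?_, ?_⟩
  · exact lt_min (by positivity) (lt_min (by positivity) (lt_min hd₁ (lt_min hd₂ hd₃)))
  intro t ht hd
  have hde := hd.trans_le (min_le_left _ _)
  have hdT := hd.trans_le ((min_le_right _ _).trans (min_le_left _ _))
  have hdd₁ := hd.trans_le ((min_le_right _ _).trans ((min_le_right _ _).trans (min_le_left _ _)))
  have hdd₂ := hd.trans_le ((min_le_right _ _).trans ((min_le_right _ _).trans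
    ((min_le_right _ _).trans (min_le_left _ _))))
  have hdd₃ := hd.trans_le ((min_le_right _ _).trans ((min_le_right _ _).trans
    ((min_le_right _ _).trans (min_le_right _ _))))
  obtain ⟨q, hq⟩ := hD t ht hdd₁
  have hcm := hcmp t ht hdd₂ q
  have hu := hup t ht hdd₃ q
  set d := T - t with hddef
  have hd0 : 0 < d := by
    have := ht.2
    rw [hddef]
    linarith
  set sd := √d with hsd
  have hsd0 : 0 < sd := Real.sqrt_pos.2 hd0
  have hsde : sd ≤ e := Gl.sqrt_le_of he0.le hde.le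
  have hsd4 : sd ≤ 1 / 4 := hsde.trans (min_le_left _ _)
  have hsdL : sd ≤ 1 / (10 * L) := hsde.trans ((min_le_right _ _).trans (min_le_left _ _))
  have hsdA : sd ≤ 1 / (A * C₀) := hsde.trans ((min_le_right _ _).trans
    ((min_le_right _ _).trans (min_le_left _ _)))
  have hsdS : sd ≤ 1 / (8 * (Cr * S) + 1) := hsde.trans ((min_le_right _ _).trans
    ((min_le_right _ _).trans (min_le_right _ _)))
  have hL0 : 0 < L := by linarith
  have hsdL' : L * sd ≤ 1 / 10 := by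
    rw [le_div_iff₀ (by positivity)] at hsdL
    linarith
  have hsdA' : A * (C₀ * sd) ≤ 1 := by
    rw [le_div_iff₀ (by positivity)] at hsdA
    linarith
  set ρ := Real.exp (-(1 / sd)) with hρ
  have hρ0 : 0 < ρ := Real.exp_pos _
  have hρsd : ρ ≤ sd := Gl.exp_le_sqrt hd0
  have hLρ : L * ρ ≤ 1 / 10 := (mul_le_mul_of_nonneg_left hρsd hL0.le).trans hsdL'
  have hρ10 : ρ ≤ 1 / 10 := by nlinarith
  have htT0 : 0 ≤ t / T := div_nonneg ht.1 hT.le
  have htT1 : t / T ≤ 1 := by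
    rw [div_le_one hT]
    exact ht.2.le
  have htT2 : 1 / 2 ≤ t / T := by
    rw [div_le_div_iff₀ (by norm_num) hT]
    linarith
  have hKb : ∀ j, ∀ y : Cn m, nsq y ≤ 49 → |t / T * F.K j y| ≤ CK := by
    intro j y hy
    rw [abs_mul, abs_of_nonneg htT0]
    calc t / T * |F.K j y| ≤ 1 * CK :=
          mul_le_mul htT1 (hK j y hy).1 (abs_nonneg _) one_pos.le
      _ = CK := one_mul _
  have huS : ∀ j y, nsq y < 49 → |q j y + t / T * F.K j y| ≤ S := by
    intro j y hy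
    exact (abs_add_le _ _).trans (add_le_add (hq.bound j y hy) (hKb j y hy.le))
  have hqS : F.IsDesc C₁ S t q :=
    ⟨hq.psh, fun j y hy => (hq.bound j y hy).trans (by linarith), hq.le, hq.ge⟩
  choose u' hu' using fun j => hreg (fun y => q j y + t / T * F.K j y) S ρ (hq.psh j)
    (huS j) hρ0 hLρ
  have hcm' := hcm u' hqS huS hu'
  have hu'' := hu u' hqS (fun j => Gl.IsReg.weaken (hu' j) hL hρ0)
  have hu'b : ∀ j (y : Cn m), nsq y < 36 → |u' j y - t / T * F.K j y| ≤ B := by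
    intro j y hy
    exact (abs_sub _ _).trans (add_le_add (Gl.reg_bound (hu' j) hS0 (huS j) hρ0 hρ10 hy)
      (hKb j y (by linarith)))
  set η := C₀ * sd with hη
  have hη0 : 0 < η := by positivity
  have hη1 : η ≤ 1 := by
    have : 1 ≤ A := by
      rw [hA]
      linarith
    nlinarith
  have hAη : 0 ≤ 1 - A * η := by linarith
  have hAη1 : 1 - A * η ≤ 1 := by
    have : 0 ≤ A * η := by positivity
    linarith
  have hKs : ∀ j, ContDiffOn ℝ ∞ (F.K j) {y | nsq y < 36} := fun j =>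
    (F.lim.smooth j).mono fun y hy => F.hol.target j (show nsq y < 100 by
      have : nsq y < 36 := hy
      linarith)
  have ho36 : IsOpen {y : Cn m | nsq y < 36} :=
    isOpen_lt (Gap.contDiff_nsq'.continuous) continuous_const
  refine ⟨fun j y => (1 - A * η) * (u' j y - t / T * F.K j y) - η * nsq y,
    fun j => {y | nsq y < 25 ∧ (q j y + t / T * F.K j y) + sd < u' j y}, ?_, ?_, ?_, ?_, ?_, ?_,
    ?_⟩
  · intro j
    have h25 : {y : Cn m | nsq y < 25} ⊆ {y | nsq y < 36} := fun y hy => by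
      have : nsq y < 25 := hy
      change nsq y < 36
      linarith
    exact (contDiffOn_const.mul (((hu' j).smooth.mono h25).sub
      (contDiffOn_const.mul ((hKs j).mono h25)))).sub
      (contDiffOn_const.mul Gap.contDiff_nsq'.contDiffOn)
  · intro j y hy
    have h1 := hu'b j y (by linarith)
    have h2 : 0 ≤ nsq y := Gap.nsq_nonneg y
    have h3 : |(1 - A * η) * (u' j y - t / T * F.K j y)| ≤ B := by
      rw [abs_mul, abs_of_nonneg hAη]
      calc (1 - A * η) * |u' j y - t / T * F.K j y| ≤ 1 * B :=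
            mul_le_mul hAη1 h1 (abs_nonneg _) one_pos.le
        _ = B := one_mul _
    have h4 : |η * nsq y| ≤ 25 * C₀ := by
      rw [abs_mul, abs_of_nonneg hη0.le, abs_of_nonneg h2]
      have : η ≤ C₀ := by
        rw [hη]
        nlinarith
      nlinarith
    refine ((abs_sub _ _).trans (add_le_add h3 h4)).trans ?_
    have h5 : 0 ≤ (C₃ + C₀ * (A * B + 16)) + (C₁ + 1 + A * C₀ * B) := by positivity
    linarith
  · intro j y hy v
    have hy36 : y ∈ {y : Cn m | nsq y < 36} := by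
      change nsq y < 36
      linarith
    have c1 : ContDiffAt ℝ 2 (u' j) y :=
      (((hu' j).smooth.contDiffAt (ho36.mem_nhds hy36))).of_le (by norm_cast)
    have c2 : ContDiffAt ℝ 2 (F.K j) y :=
      (((hKs j).contDiffAt (ho36.mem_nhds hy36))).of_le (by norm_cast)
    have c3 : ContDiffAt ℝ 2 (nsq (n := m)) y := Gap.contDiff_nsq'.contDiffAt.of_le
      (by norm_cast)
    have c4 : ContDiffAt ℝ 2 (fun y => t / T * F.K j y) y := contDiffAt_const.mul c2
    have c5 : ContDiffAt ℝ 2 (fun y => u' j y - t / T * F.K j y) y := c1.sub c4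
    rw [Bd.levz_sub (contDiffAt_const.mul c5) (contDiffAt_const.mul c3),
      Bd.levz_const_mul _ c5, Bd.levz_const_mul _ c3, Bd.levz_sub c1 c4,
      Bd.levz_const_mul _ c2, Gap.levz_nsq']
    have k1 := (hu' j).lev y hy36 v
    have k2 := (hK j y (by linarith)).2.2 v
    have k3 : 0 ≤ (1 - A * η) * levz (u' j) v y := mul_nonneg hAη k1
    have k0 : 0 ≤ levz (F.K j) v y := by
      have := Gap.nsq_nonneg v
      by_contra hcon
      have : CK * levz (F.K j) v y < 0 := mul_neg_of_pos_of_neg (by linarith) (not_le.1 hcon)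
      linarith
    have k4 : η * nsq v ≤ A * η * (t / T * levz (F.K j) v y) := by
      have k5 : nsq v ≤ A * (t / T * levz (F.K j) v y) := by
        refine k2.trans ?_
        have : CK * levz (F.K j) v y = A * (1 / 2 * levz (F.K j) v y) := by
          rw [hA]
          ring
        rw [this]
        exact mul_le_mul_of_nonneg_left (mul_le_mul_of_nonneg_right htT2 k0) hA0.le
      calc η * nsq v ≤ η * (A * (t / T * levz (F.K j) v y)) :=
            mul_le_mul_of_nonneg_left k5 hη0.le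
        _ = _ := by ring
    nlinarith
  · intro i j y hi hj h9 h16 h1
    have k1 := hcm' i j y hi hj h16 (by linarith)
    have k2 : (1 - A * η) * (u' i (F.b i y) - t / T * F.K i (F.b i y)) ≤
        (1 - A * η) * (u' j (F.b j y) - t / T * F.K j (F.b j y)) + C₂ * sd := by
      have := mul_le_mul_of_nonneg_left k1 hAη
      have k3 : (1 - A * η) * (C₂ * sd) ≤ 1 * (C₂ * sd) :=
        mul_le_mul_of_nonneg_right hAη1 (by positivity)
      rw [mul_add] at this
      linarith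
    have k4 : η * 9 ≤ η * nsq (F.b i y) := mul_le_mul_of_nonneg_left h9 hη0.le
    have k5 : η * nsq (F.b j y) ≤ η * 1 := mul_le_mul_of_nonneg_left h1 hη0.le
    have k6 : C₂ * sd < 8 * η := by
      rw [hη, hC₀]
      nlinarith [mul_nonneg hC₂ hsd0.le]
    change (1 - A * η) * (u' i (F.b i y) - t / T * F.K i (F.b i y)) - η * nsq (F.b i y) <
      (1 - A * η) * (u' j (F.b j y) - t / T * F.K j (F.b j y)) - η * nsq (F.b j y)
    linarith
  · intro j p hp h16
    have k1 := hu'' j p hp h16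
    have k2 := abs_le.1 (hu'b j (F.b j (F.f p)) (by linarith))
    set X := u' j (F.b j (F.f p)) - t / T * F.K j (F.b j (F.f p)) with hX
    have k3 : A * η * X ≤ A * η * B := mul_le_mul_of_nonneg_left k2.2 (by positivity)
    have k4 : η * nsq (F.b j (F.f p)) ≤ η * 16 := mul_le_mul_of_nonneg_left h16 hη0.le
    change F.Phi t p ≤ (1 - A * η) * X - η * nsq (F.b j (F.f p)) + _ * sd
    have k5 : 0 ≤ (B + 25 * C₀ + (C₁ + 1 + A * C₀ * B)) * sd := by positivity
    have k6 : A * η * B + η * 16 = C₀ * (A * B + 16) * sd := by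
      rw [hη]
      ring
    nlinarith
  · intro j
    refine ((hu' j).diff sd hsd0).trans (ENNReal.ofReal_le_ofReal ?_)
    apply Gl.small_vol hd0 (by positivity)
    · rw [le_div_iff₀ hsd0]
      linarith
    · rw [le_div_iff₀ hsd0]
      rw [le_div_iff₀ (by positivity)] at hsdS
      nlinarith
  · intro y' hy' hE
    have k0 : nsq (F.yb y') < 25 := by linarith
    have k1 : u' (F.lb y') (F.yb y') ≤
        q (F.lb y') (F.yb y') + t / T * F.K (F.lb y') (F.yb y') + sd := by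
      by_contra hcon
      exact hE ⟨k0, not_le.1 hcon⟩
    have k2 := hq.le y' (by linarith)
    have k3 := abs_le.1 (hu'b (F.lb y') (F.yb y') (by linarith))
    set X := u' (F.lb y') (F.yb y') - t / T * F.K (F.lb y') (F.yb y') with hX
    change (1 - A * η) * X - η * nsq (F.yb y') ≤ F.Mx t y' + _ * sd
    have k4 : -(A * η * B) ≤ A * η * X := by
      have := mul_le_mul_of_nonneg_left k3.1 (show 0 ≤ A * η by positivity)
      linarith
    have k5 : 0 ≤ η * nsq (F.yb y') := mul_nonneg hη0.le (Gap.nsq_nonneg _)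
    have k6 : X ≤ F.Mx t y' + C₁ * d + sd := by
      rw [hX]
      linarith
    have k7 : C₁ * d ≤ C₁ * sd :=
      mul_le_mul_of_nonneg_left (Gl.le_sqrt hd0.le (by
        have : sd * sd = d := Real.mul_self_sqrt hd0.le
        nlinarith)) hC₁
    have k8 : 0 ≤ (B + 25 * C₀ + (C₃ + C₀ * (A * B + 16))) * sd := by positivity
    have k9 : A * η * B = A * C₀ * B * sd := by
      rw [hη]
      ring
    nlinarith

end Mod

end Pool.Agent.KRFX
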