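import Pool.Agent.Work.MP_a2bf38_gt.X.Setup

/-!
# Data for the gluing
-/

open scoped ContDiff ENNReal ComplexOrder Topology
open Set MeasureTheory Filter Pool.Agent.ToricKRF Pool.Agent.ToricKRF.G Pool.Agent.KRFS
  Pool.Agent.KRFF Pool.Agent.KRFG

namespace Pool.Agent.KRFX

/-- `u'` is a regularization of `u` at the scale `ρ` -/
structure IsReg {m : ℕ} (L C S ρ : ℝ) (u u' : Cn m → ℝ) : Prop where
  smooth : ContDiffOn ℝ ∞ u' {y | nsq y < 36}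
  lev : ∀ y, nsq y < 36 → ∀ v, 0 ≤ levz u' v y
  le : ∀ y, nsq y < 36 → u y ≤ u' y
  up : ∀ y, nsq y < 36 → ∀ (E : Set (Cn m)) (c : ℝ), -S ≤ c →
    (∀ y', nsq (y' - y) ≤ ρ ^ 2 → y' ∉ E → u y' ≤ c) →
    u' y ≤ c + C * S * (ρ ^ (2 * m))⁻¹ * volume.real (E ∩ {y' | nsq (y' - y) ≤ ρ ^ 2})
  near : ∀ y y', nsq y < 36 → nsq (y' - y) ≤ (L * ρ) ^ 2 →
    u y' ≤ u' y + C * S / Real.log (1 / ρ)
  diff : ∀ s > 0, volume {y | nsq y < 25 ∧ u y + s < u' y} ≤ ENNReal.ofReal (C * S * ρ / s)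

section Mod

variable {n m l : ℕ} {M Y Y' W : Type} [TopologicalSpace M] [TopologicalSpace Y]
  [TopologicalSpace Y'] [TopologicalSpace W] {κ P P' ι : Type} {T : ℝ}
  (F : Mod n m l M Y Y' W κ P P' ι T)

/-- the result of `X/Desc.lean` -/
structure Mod.IsDesc (C S t : ℝ) (q : P → Cn m → ℝ) : Prop where
  psh : ∀ j, PshC (fun y => q j y + t / T * F.K j y) {y | nsq y < 49}
  bound : ∀ j y, nsq y < 49 → |q j y| ≤ S
  le : ∀ y', nsq (F.yb y') < 49 → q (F.lb y') (F.yb y') ≤ F.Mx t y' + C * (T - t)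
  ge : ∀ y', nsq (F.yb y') < 49 → F.g (F.lb y') (F.yb y') ≠ 0 →
    F.Mx t y' - C * (T - t) * (1 + |Real.log (nsq (F.g (F.lb y') (F.yb y')))|) ≤
      q (F.lb y') (F.yb y')

end Mod

end Pool.Agent.KRFX
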