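import Pool.Agent.Work.MP_a2bf38_gt.X.GlueDefs

/-!
# The parts of the gluing (statements only; nothing may import this file)
-/

open scoped ContDiff ENNReal ComplexOrder Topology
open Set MeasureTheory Filter Pool.Agent.ToricKRF Pool.Agent.ToricKRF.G Pool.Agent.KRFS
  Pool.Agent.KRFF Pool.Agent.KRFG

namespace Pool.Agent.KRFX

section Mod

variable {n m l : ℕ} {M Y Y' W : Type} [TopologicalSpace M] [CompactSpace M] [T2Space M]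
  [TopologicalSpace Y] [T2Space Y] [TopologicalSpace Y'] [T2Space Y'] [TopologicalSpace W]
  [T2Space W] {κ P P' ι : Type} [Finite P] [Finite P'] [Fintype ι] {T : ℝ}
  (F : Mod n m l M Y Y' W κ P P' ι T)

/-- `X/GlueA.lean`: bounds of the potentials of the base -/
theorem Mod.K_bound : ∃ C : ℝ, 1 ≤ C ∧ (∀ j, ∀ y : Cn m, nsq y ≤ 49 →
    |F.K j y| ≤ C ∧ nsq (F.g j y) ≤ C ∧ ∀ v, nsq v ≤ C * levz (F.K j) v y) ∧
    ∀ j, ∀ y y' : Cn m, nsq y ≤ 36 → nsq y' ≤ 36 →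
      |F.K j y - F.K j y'| ≤ C * √(nsq (y - y')) := sorry

/-- `X/GlueA.lean`: the transition maps are Lipschitz -/
theorem Mod.trans_lip : ∃ L r : ℝ, 1 ≤ L ∧ 0 < r ∧ ∀ i j, ∀ y ∈ (F.b i).source,
    y ∈ (F.b j).source → nsq (F.b i y) ≤ 16 → nsq (F.b j y) ≤ 16 →
    ∀ v, nsq (v - F.b i y) ≤ r ^ 2 → nsq v ≤ 25 ∧ (F.b i).symm v ∈ (F.b j).source ∧
      nsq (F.b j ((F.b i).symm v)) ≤ 25 ∧
      nsq (F.b j ((F.b i).symm v) - F.b j y) ≤ L ^ 2 * nsq (v - F.b i y) := sorry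

/-- `X/GlueA.lean`: volumes and the transition maps -/
theorem Mod.trans_vol : ∃ C : ℝ, 0 ≤ C ∧ ∀ i j (A : Set (Cn m)),
    volume {v : Cn m | nsq v ≤ 25 ∧ (F.b i).symm v ∈ (F.b j).source ∧
      nsq (F.b j ((F.b i).symm v)) ≤ 25 ∧ F.b j ((F.b i).symm v) ∈ A} ≤
      ENNReal.ofReal C * volume A := sorry

/-- `X/GlueA.lean`: `f` is Lipschitz in the charts -/
theorem Mod.f_lip {c : κ} {z₀ : Cn n} (hz₀ : z₀ ∈ (F.e c).target) : ∃ L r : ℝ, 1 ≤ L ∧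
    0 < r ∧ {z | nsq (z - z₀) ≤ (2 * r) ^ 2} ⊆ (F.e c).target ∧ ∀ j z, nsq (z - z₀) ≤ r ^ 2 →
      F.f ((F.e c).symm z) ∈ (F.b j).source → nsq (F.b j (F.f ((F.e c).symm z))) ≤ 16 →
      ∀ w, nsq (w - z) ≤ r ^ 2 → F.f ((F.e c).symm w) ∈ (F.b j).source ∧
        nsq (F.b j (F.f ((F.e c).symm w))) ≤ 25 ∧
        nsq (F.b j (F.f ((F.e c).symm w)) - F.b j (F.f ((F.e c).symm z))) ≤
          L ^ 2 * nsq (w - z) := sorry

/-- `X/GlueB.lean`: off the poles the maxima are those of the fibres of `f` -/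
theorem Mod.Mx_eq {t : ℝ} {y' : Y'} (h1 : nsq (F.yb y') ≤ 49)
    (h2 : F.g (F.lb y') (F.yb y') ≠ 0) :
    F.Mx t y' = sSup (F.Phi t '' (F.f ⁻¹' {F.σ y'})) := sorry

/-- `X/GlueB.lean`: the regularizations in two charts -/
theorem Mod.compare (C S L Cr : ℝ) (hC : 0 ≤ C) (hS : 0 ≤ S) (hCr : 0 ≤ Cr) (hL : 1 ≤ L)
    {r : ℝ} (hr : 0 < r) (htr : ∀ i j, ∀ y ∈ (F.b i).source,
      y ∈ (F.b j).source → nsq (F.b i y) ≤ 16 → nsq (F.b j y) ≤ 16 →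
      ∀ v, nsq (v - F.b i y) ≤ r ^ 2 → nsq v ≤ 25 ∧ (F.b i).symm v ∈ (F.b j).source ∧
        nsq (F.b j ((F.b i).symm v)) ≤ 25 ∧
        nsq (F.b j ((F.b i).symm v) - F.b j y) ≤ L ^ 2 * nsq (v - F.b i y)) :
    ∃ C' d₀ : ℝ, 0 ≤ C' ∧ 0 < d₀ ∧ ∀ t ∈ Ico 0 T, T - t < d₀ → ∀ q u' : P → Cn m → ℝ,
      F.IsDesc C S t q →
      (∀ j y, nsq y < 49 → |q j y + t / T * F.K j y| ≤ S) →
      (∀ j, IsReg L Cr S (Real.exp (-(1 / √(T - t)))) (fun y => q j y + t / T * F.K j y) (u' j)) →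
      ∀ i j, ∀ y ∈ (F.b i).source, y ∈ (F.b j).source → nsq (F.b i y) ≤ 16 →
        nsq (F.b j y) ≤ 16 → u' i (F.b i y) - t / T * F.K i (F.b i y) ≤
          u' j (F.b j y) - t / T * F.K j (F.b j y) + C' * √(T - t) := sorry

/-- `X/GlueUp.lean`: the upper bound, from `ball_good` (L/BallM.lean), `vol_M`, `f_lip` -/
theorem Mod.glue_upper (C S Cr : ℝ) (hC : 0 ≤ C) (hS : 0 ≤ S) (hCr : 0 ≤ Cr) :
    ∃ C' d₀ : ℝ, 0 ≤ C' ∧ 0 < d₀ ∧ ∀ t ∈ Ico 0 T, T - t < d₀ → ∀ q u' : P → Cn m → ℝ,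
      F.IsDesc C S t q →
      (∀ j, IsReg 1 Cr S (Real.exp (-(1 / √(T - t)))) (fun y => q j y + t / T * F.K j y) (u' j)) →
      ∀ j p, F.f p ∈ (F.b j).source → nsq (F.b j (F.f p)) ≤ 16 →
        F.Phi t p ≤ u' j (F.b j (F.f p)) - t / T * F.K j (F.b j (F.f p)) +
          C' * √(T - t) := sorry

end Mod

end Pool.Agent.KRFX
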