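import Pool.Agent.Work.MP_a2bf38_gt.X.Loc

/-!
# The three circles inequality for continuous functions with the sub-mean value property
-/

open scoped ContDiff ENNReal ComplexOrder Topology
open Set MeasureTheory Filter Pool.Agent.ToricKRF Pool.Agent.ToricKRF.G Pool.Agent.KRFS
  Pool.Agent.KRFF Pool.Agent.KRFG

namespace Pool.Agent.KRFX

namespace Loc

variable {m : ℕ}

/-- a maximum principle on compact sets -/
theorem max_le_compact {K : Set ℂ} (hK : IsCompact K) {D : ℂ → ℝ} (hD : ContinuousOn D K) {c : ℝ}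
    (h : ∀ a ∈ K, D a ≤ c ∨ ∃ r > (0 : ℝ), (∀ θ : ℝ, a + (r : ℂ) * Complex.exp (θ * Complex.I) ∈ K)
      ∧ D a ≤ cavg (fun ξ => D (a + ξ)) r) : ∀ z ∈ K, D z ≤ c := by
  intro z hz
  obtain ⟨a, ha, hmax⟩ := hK.exists_isMaxOn ⟨z, hz⟩ hD
  have hmax' : ∀ z ∈ K, D z ≤ D a := fun z hz => hmax hz
  have hS : IsCompact (K ∩ D ⁻¹' {D a}) :=
    hK.of_isClosed_subset (hD.preimage_isClosed_of_isClosed hK.isClosed
      isClosed_singleton) inter_subset_left
  obtain ⟨b, ⟨hb, hba⟩, hbmax⟩ := hS.exists_isMaxOn ⟨a, ha, rfl⟩ continuous_norm.continuousOn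
  have hba' : D b = D a := hba
  have hbmax' : ∀ z ∈ K, D z = D a → ‖z‖ ≤ ‖b‖ :=
    fun z hz hz' => hbmax ⟨hz, hz'⟩
  rcases h b hb with h1 | ⟨r, hr0', hin, hr⟩
  · exact (hmax' z hz).trans (hba' ▸ h1)
  · exfalso
    have hcont : Continuous fun θ : ℝ => D (b + (r : ℂ) * Complex.exp (θ * Complex.I)) :=
      hD.comp_continuous (by fun_prop) hin
    obtain ⟨θ, hθ, hθb⟩ := exists_angle b
    have hpos : 0 < ∫ θ in (0 : ℝ)..2 * Real.pi,
        (D a - D (b + (r : ℂ) * Complex.exp (θ * Complex.I))) := by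
      refine intervalIntegral.integral_pos Real.two_pi_pos
        (continuous_const.sub hcont).continuousOn
        (fun θ _ => sub_nonneg.2 (hmax' _ (hin θ))) ⟨θ, hθ, sub_pos.2 ?_⟩
      refine lt_of_le_of_ne (hmax' _ (hin θ)) fun hne => ?_
      have h2 := hbmax' _ (hin θ) hne
      have h3 : b + (r : ℂ) * Complex.exp (θ * Complex.I) =
          ((‖b‖ + r : ℝ) : ℂ) * Complex.exp (θ * Complex.I) := by
        nth_rewrite 1 [← hθb]
        push_cast
        ring
      rw [h3, norm_mul, Complex.norm_exp_ofReal_mul_I, mul_one, Complex.norm_real,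
        Real.norm_eq_abs, abs_of_nonneg (by positivity)] at h2
      linarith
    rw [intervalIntegral.integral_sub (by simp) (hcont.intervalIntegrable _ _),
      intervalIntegral.integral_const, sub_zero, smul_eq_mul] at hpos
    unfold cavg at hr
    rw [hba'] at hr
    have h4 : 2 * Real.pi * D a ≤
        ∫ θ in (0 : ℝ)..2 * Real.pi, D (b + (r : ℂ) * Complex.exp (θ * Complex.I)) := by
      calc 2 * Real.pi * D a ≤ 2 * Real.pi * ((2 * Real.pi)⁻¹ *
          ∫ θ in (0 : ℝ)..2 * Real.pi, D (b + (r : ℂ) * Complex.exp (θ * Complex.I))) :=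
            mul_le_mul_of_nonneg_left hr Real.two_pi_pos.le
        _ = _ := by rw [← mul_assoc, mul_inv_cancel₀ Real.two_pi_pos.ne', one_mul]
    linarith

/-- the mean value of the logarithm -/
theorem cavg_log_norm {a : ℂ} {r : ℝ} (hr : 0 < r) (hra : r ≤ ‖a‖) :
    cavg (fun ξ => Real.log ‖a + ξ‖) r = Real.log ‖a‖ := by
  have ha : 0 < ‖a‖ := hr.trans_le hra
  rw [cavg_eq]
  have h1 := circleAverage_log_norm_sub_const_eq_log_radius_add_posLog (c := (0 : ℂ)) (a := -a)
    hr.ne'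
  have h2 : (fun ξ : ℂ => Real.log ‖a + ξ‖) = fun ξ => Real.log ‖ξ - -a‖ := by
    funext ξ
    rw [sub_neg_eq_add, add_comm]
  rw [h2, h1, zero_sub, neg_neg, Real.posLog_eq_log, Real.log_mul (inv_ne_zero hr.ne') ha.ne',
    Real.log_inv]
  · ring
  · rw [abs_of_nonneg (by positivity)]
    rw [inv_mul_eq_div, le_div_iff₀ hr, one_mul]
    exact hra

/-- the Euclidean length -/
noncomputable def toE (z : Cn m) : EuclideanSpace ℝ (Fin m ⊕ Fin m) :=
  WithLp.toLp 2 (Sum.elim z.1 z.2)

theorem toE_add (a b : Cn m) : toE (a + b) = toE a + toE b := by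
  unfold toE
  ext i
  rcases i with i | i <;> simp

theorem nsq_eq_norm (z : Cn m) : nsq z = ‖toE z‖ ^ 2 := by
  rw [EuclideanSpace.norm_eq, Real.sq_sqrt (by positivity), Fintype.sum_sum_type]
  unfold nsq toE
  simp [dotProduct, sq]

theorem nsq_add_lt {a b : Cn m} {r s : ℝ} (hr : 0 ≤ r) (hs : 0 ≤ s) (ha : nsq a < r ^ 2)
    (hb : nsq b ≤ s ^ 2) : nsq (a + b) < (r + s) ^ 2 := by
  rw [nsq_eq_norm] at ha hb ⊢
  have h1 := abs_lt_of_sq_lt_sq ha hr
  have h2 := abs_le_of_sq_le_sq hb hs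
  rw [abs_of_nonneg (norm_nonneg _)] at h1 h2
  have h3 := norm_add_le (toE a) (toE b)
  rw [← toE_add] at h3
  exact pow_lt_pow_left₀ (by linarith) (norm_nonneg _) two_ne_zero

theorem nsq_lineL (v : Cn m) (ζ : ℂ) : nsq (lineL v ζ) = ‖ζ‖ ^ 2 * nsq v := by
  rw [← Complex.normSq_eq_norm_sq, Complex.normSq_apply, lineL_apply]
  unfold nsq J
  simp only [Prod.fst_add, Prod.snd_add, Prod.smul_fst, Prod.smul_snd, dotProduct_add,
    add_dotProduct, smul_dotProduct, dotProduct_smul, smul_eq_mul, neg_dotProduct, dotProduct_neg]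
  rw [dotProduct_comm v.2 v.1]
  ring

/-- small discs -/
theorem PshC.small {u : Cn m → ℝ} {V : Set (Cn m)} (hu : PshC u V) {z v : Cn m} {r : ℝ}
    (hr : 0 ≤ r) (hz : ∀ ζ : ℂ, ‖ζ‖ ≤ r → line z v ζ ∈ V) :
    u z ≤ cavg (fun ζ => u (line z v ζ)) r := by
  have h1 : ∀ ζ : ℂ, line z (r • v) ζ = line z v (r * ζ) := by
    intro ζ
    rw [line_eq, line_eq, lineL_apply, lineL_apply]
    have h2 : J (r • v) = r • J v := by
      unfold J
      ext i <;> simp
    rw [h2, smul_smul, smul_smul, Complex.re_ofReal_mul, Complex.im_ofReal_mul, mul_comm ζ.re,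
      mul_comm ζ.im]
  have h2 := hu.2 z (r • v) fun ζ hζ => by
    rw [h1]
    refine hz _ ?_
    rw [norm_mul, Complex.norm_real, Real.norm_eq_abs, abs_of_nonneg hr]
    exact mul_le_of_le_one_right hr hζ
  refine h2.trans (le_of_eq ?_)
  unfold cavg
  congr 1
  refine intervalIntegral.integral_congr fun θ _ => ?_
  simp only [h1, Complex.ofReal_one, one_mul]

theorem cont_nsq : Continuous (nsq : Cn m → ℝ) := by
  unfold nsq dotProduct
  fun_prop

theorem isCompact_ball (y : Cn m) (r : ℝ) : IsCompact {x : Cn m | nsq (x - y) ≤ r ^ 2} := by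
  refine Metric.isCompact_of_isClosed_isBounded
    (isClosed_le (cont_nsq.comp (continuous_id.sub continuous_const)) continuous_const) ?_
  refine (Metric.isBounded_closedBall (x := y) (r := |r|)).subset fun x hx => ?_
  have hx' : nsq (x - y) ≤ r ^ 2 := hx
  rw [mem_closedBall_iff_norm, Prod.norm_def, sup_le_iff]
  have hi : ∀ i, ((x - y).1 i) ^ 2 ≤ r ^ 2 ∧ ((x - y).2 i) ^ 2 ≤ r ^ 2 := by
    intro i
    have h1 : ((x - y).1 i) ^ 2 ≤ (x - y).1 ⬝ᵥ (x - y).1 := by
      unfold dotProduct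
      rw [sq]
      exact Finset.single_le_sum (f := fun i => (x - y).1 i * (x - y).1 i)
        (fun j _ => mul_self_nonneg _) (Finset.mem_univ i)
    have h2 : ((x - y).2 i) ^ 2 ≤ (x - y).2 ⬝ᵥ (x - y).2 := by
      unfold dotProduct
      rw [sq]
      exact Finset.single_le_sum (f := fun i => (x - y).2 i * (x - y).2 i)
        (fun j _ => mul_self_nonneg _) (Finset.mem_univ i)
    have h3 : 0 ≤ (x - y).1 ⬝ᵥ (x - y).1 := Finset.sum_nonneg fun j _ => mul_self_nonneg _
    have h4 : 0 ≤ (x - y).2 ⬝ᵥ (x - y).2 := Finset.sum_nonneg fun j _ => mul_self_nonneg _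
    unfold nsq at hx'
    constructor <;> linarith
  constructor
  · rw [pi_norm_le_iff_of_nonneg (abs_nonneg _)]
    intro i
    rw [Real.norm_eq_abs]
    exact sq_le_sq.1 (hi i).1
  · rw [pi_norm_le_iff_of_nonneg (abs_nonneg _)]
    intro i
    rw [Real.norm_eq_abs]
    exact sq_le_sq.1 (hi i).2

end Loc

/-- Hadamard three circles: the maximum over a ball is attained, up to `C S / log (1 / ρ)`, already
on the ball of radius `ρ / 2`. -/
theorem hadamard (m : ℕ) {L : ℝ} (hL : 1 ≤ L) : ∃ C : ℝ, 0 ≤ C ∧ ∀ (u : Cn m → ℝ) (S ρ : ℝ),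
    PshC u {y : Cn m | nsq y < 49} → (∀ y, nsq y < 49 → |u y| ≤ S) → 0 < ρ → L * ρ ≤ 1 / 10 →
    ∀ y, nsq y < 36 → ∃ x, nsq (x - y) ≤ (ρ / 2) ^ 2 ∧
      ∀ y', nsq (y' - y) ≤ (2 * L * ρ) ^ 2 → u y' ≤ u x + C * S / Real.log (1 / ρ) := by
  have hL4 : 0 ≤ Real.log (4 * L) := Real.log_nonneg (by linarith)
  refine ⟨2 * Real.log (4 * L), by positivity, fun u S ρ hu hS hρ hLρ y hy => ?_⟩
  have hρ1 : ρ ≤ 1 / 10 := by nlinarith
  have hinV : ∀ w : Cn m, nsq (w - y) ≤ 1 → nsq w < 49 := by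
    intro w hw
    have h1 := Loc.nsq_add_lt (a := y) (b := w - y) (r := 6) (s := 1) (by norm_num) (by norm_num)
      (by norm_num; exact hy) (by norm_num; exact hw)
    rw [add_sub_cancel] at h1
    norm_num at h1
    exact h1
  have hS0 : 0 ≤ S := (abs_nonneg _).trans (hS y (by linarith))
  have hlog1 : 0 < Real.log (1 / ρ) := Real.log_pos (by
    rw [lt_div_iff₀ hρ]
    linarith)
  have hlog2 : Real.log (1 / ρ) ≤ -Real.log (ρ / 2) := by
    rw [← Real.log_inv]
    refine Real.log_le_log (by positivity) ?_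
    rw [inv_div]
    gcongr
    norm_num
  have hline : ∀ (w : Cn m) (ζ : ℂ), nsq w = 1 → nsq (line y w ζ - y) = ‖ζ‖ ^ 2 := by
    intro w ζ hw
    rw [line_eq, add_sub_cancel_left, Loc.nsq_lineL, hw, mul_one]
  obtain ⟨x, hx, hmax⟩ := (Loc.isCompact_ball y (ρ / 2)).exists_isMaxOn ⟨y, by
    change nsq (y - y) ≤ _
    rw [sub_self, Loc.nsq_eq_norm]
    have : Loc.toE (0 : Cn m) = 0 := by
      unfold Loc.toE
      ext i
      rcases i with i | i <;> simp
    rw [this, norm_zero, zero_pow two_ne_zero]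
    exact sq_nonneg _⟩ (hu.1.mono fun w hw => hinV w (by
      have hw' : nsq (w - y) ≤ (ρ / 2) ^ 2 := hw
      nlinarith))
  have hx' : nsq (x - y) ≤ (ρ / 2) ^ 2 := hx
  have hmax' : ∀ w, nsq (w - y) ≤ (ρ / 2) ^ 2 → u w ≤ u x := fun w hw => hmax hw
  have hux : |u x| ≤ S := hS x (hinV x (by nlinarith))
  refine ⟨x, hx', fun y' hy' => ?_⟩
  rcases le_or_gt (nsq (y' - y)) ((ρ / 2) ^ 2) with hc | hc
  · exact (hmax' y' hc).trans (le_add_of_nonneg_right (by positivity))
  set r := √(nsq (y' - y)) with hr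
  have hr2 : r ^ 2 = nsq (y' - y) := Real.sq_sqrt (by
    rw [Loc.nsq_eq_norm]
    positivity)
  have hr0 : ρ / 2 < r := by
    have h1 : (ρ / 2) ^ 2 < r ^ 2 := by rw [hr2]; exact hc
    exact lt_of_pow_lt_pow_left₀ 2 (Real.sqrt_nonneg _) h1
  have hr1 : r ≤ 2 * L * ρ := by
    have h1 : r ^ 2 ≤ (2 * L * ρ) ^ 2 := by rw [hr2]; exact hy'
    exact le_of_sq_le_sq h1 (by positivity)
  have hrpos : 0 < r := by linarith [half_pos hρ]
  set w : Cn m := r⁻¹ • (y' - y) with hw
  have hw1 : nsq w = 1 := by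
    have h1 : nsq w = (r⁻¹) ^ 2 * nsq (y' - y) := by
      rw [hw]
      unfold nsq
      simp only [Prod.smul_fst, Prod.smul_snd, smul_dotProduct, dotProduct_smul, smul_eq_mul]
      ring
    rw [h1, ← hr2]
    field_simp
  have hyw : line y w (r : ℂ) = y' := by
    rw [line_eq, lineL_apply, Complex.ofReal_re, Complex.ofReal_im, zero_smul, add_zero, hw,
      smul_smul, mul_inv_cancel₀ hrpos.ne', one_smul, add_sub_cancel]
  set β := (S - u x) / (-Real.log (ρ / 2)) with hβ
  have hlog3 : 0 < -Real.log (ρ / 2) := hlog1.trans_le hlog2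
  have hβ0 : 0 ≤ β := div_nonneg (by linarith [(abs_le.1 hux).2]) hlog3.le
  have hβ1 : β ≤ 2 * S / Real.log (1 / ρ) := by
    refine (div_le_div_of_nonneg_right (c := -Real.log (ρ / 2)) (b := 2 * S) ?_ hlog3.le).trans ?_
    · linarith [(abs_le.1 hux).1]
    · exact div_le_div_of_nonneg_left (by positivity) hlog1 hlog2
  set K : Set ℂ := {ζ : ℂ | ρ / 2 ≤ ‖ζ‖ ∧ ‖ζ‖ ≤ 1} with hK
  have hKc : IsCompact K := by
    refine (isCompact_closedBall (0 : ℂ) 1).of_isClosed_subset ?_ ?_
    · exact (isClosed_le continuous_const continuous_norm).inter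
        (isClosed_le continuous_norm continuous_const)
    · intro ζ hζ
      simpa using hζ.2
  have hKV : ∀ ζ : ℂ, ‖ζ‖ ≤ 1 → line y w ζ ∈ {y : Cn m | nsq y < 49} := by
    intro ζ hζ
    refine hinV _ ?_
    rw [hline w ζ hw1]
    exact pow_le_one₀ (norm_nonneg _) hζ
  have hne : ∀ ζ ∈ K, ‖ζ‖ ≠ 0 := fun ζ hζ => (lt_of_lt_of_le (half_pos hρ) hζ.1).ne'
  have huK : ContinuousOn (fun ζ : ℂ => u (line y w ζ)) (Metric.closedBall 0 1) :=
    hu.1.comp (contDiff_line y w).continuous.continuousOn fun ζ hζ => hKV ζ (by simpa using hζ)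
  have hlK : ContinuousOn (fun ζ : ℂ => Real.log ‖ζ‖) K :=
    continuous_norm.continuousOn.log hne
  have hmain := Loc.max_le_compact hKc
    (D := fun ζ => u (line y w ζ) - β * (Real.log ‖ζ‖ - Real.log (ρ / 2))) (c := u x)
    ((huK.mono fun ζ hζ => by simpa using hζ.2).sub
      (continuousOn_const.mul (hlK.sub continuousOn_const))) (by
    intro a ha
    rcases ha.1.eq_or_lt with h1 | h1
    · left
      change u (line y w a) - β * (Real.log ‖a‖ - Real.log (ρ / 2)) ≤ u x
      rw [← h1, sub_self, mul_zero, sub_zero]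
      refine hmax' _ ?_
      rw [hline w a hw1, ← h1]
    rcases ha.2.eq_or_lt with h2 | h2
    · left
      change u (line y w a) - β * (Real.log ‖a‖ - Real.log (ρ / 2)) ≤ u x
      have h3 : β * (Real.log ‖a‖ - Real.log (ρ / 2)) = S - u x := by
        rw [h2, Real.log_one, zero_sub, hβ, div_mul_cancel₀ _ hlog3.ne']
      rw [h3]
      have h4 := (abs_le.1 (hS (line y w a) (hKV a ha.2))).2
      linarith
    · right
      set r' := min (‖a‖ - ρ / 2) (1 - ‖a‖) with hr'
      have hr'0 : 0 < r' := lt_min (sub_pos.2 h1) (sub_pos.2 h2)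
      have hr'1 : r' ≤ ‖a‖ - ρ / 2 := min_le_left _ _
      have hr'2 : r' ≤ 1 - ‖a‖ := min_le_right _ _
      have hnr : ∀ θ : ℝ, ‖(r' : ℂ) * Complex.exp (θ * Complex.I)‖ = r' := by
        intro θ
        rw [norm_mul, Complex.norm_exp_ofReal_mul_I, mul_one, Complex.norm_real,
          Real.norm_eq_abs, abs_of_pos hr'0]
      have hin : ∀ θ : ℝ, a + (r' : ℂ) * Complex.exp (θ * Complex.I) ∈ K := by
        intro θ
        have h3 := norm_add_le a ((r' : ℂ) * Complex.exp (θ * Complex.I))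
        have h4 := norm_sub_le (a + (r' : ℂ) * Complex.exp (θ * Complex.I))
          ((r' : ℂ) * Complex.exp (θ * Complex.I))
        rw [add_sub_cancel_right] at h4
        rw [hnr] at h3 h4
        exact ⟨by linarith, by linarith⟩
      refine ⟨r', hr'0, hin, ?_⟩
      have hc1 : Continuous fun θ : ℝ =>
          u (line y w (a + (r' : ℂ) * Complex.exp (θ * Complex.I))) :=
        huK.comp_continuous (by fun_prop) fun θ => by simpa using (hin θ).2
      have hc2 : Continuous fun θ : ℝ =>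
          Real.log ‖a + (r' : ℂ) * Complex.exp (θ * Complex.I)‖ :=
        hlK.comp_continuous (by fun_prop) hin
      have h3 : cavg (fun ξ => u (line y w (a + ξ)) -
          β * (Real.log ‖a + ξ‖ - Real.log (ρ / 2))) r' =
          cavg (fun ξ => u (line y w (a + ξ))) r' -
            β * (cavg (fun ξ => Real.log ‖a + ξ‖) r' - Real.log (ρ / 2)) := by
        unfold cavg
        have hc3 : Continuous fun θ : ℝ =>
            β * (Real.log ‖a + (r' : ℂ) * Complex.exp (θ * Complex.I)‖ - Real.log (ρ / 2)) :=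
          continuous_const.mul (hc2.sub continuous_const)
        rw [intervalIntegral.integral_sub (hc1.intervalIntegrable _ _)
          (hc3.intervalIntegrable _ _),
          intervalIntegral.integral_const_mul,
          intervalIntegral.integral_sub (hc2.intervalIntegrable _ _) (by simp),
          intervalIntegral.integral_const, sub_zero, smul_eq_mul]
        have hpi : (2 * Real.pi)⁻¹ * (2 * Real.pi) = 1 := inv_mul_cancel₀ Real.two_pi_pos.ne'
        linear_combination (β * Real.log (ρ / 2)) * hpi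
      rw [h3, Loc.cavg_log_norm hr'0 (by linarith [half_pos hρ])]
      have h4 := Loc.PshC.small hu (z := line y w a) (v := w) hr'0.le (by
        intro ζ hζ
        have h5 : line (line y w a) w ζ = line y w (a + ζ) := by
          rw [line_add, line_eq (line y w a) w ζ]
        rw [h5]
        refine hKV _ ?_
        have := norm_add_le a ζ
        linarith)
      have h6 : (fun ζ => u (line (line y w a) w ζ)) = fun ξ => u (line y w (a + ξ)) := by
        funext ξ
        rw [line_add, line_eq (line y w a) w ξ]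
      rw [h6] at h4
      exact sub_le_sub_right h4 _) (r : ℂ) (by
    have h1 : ‖(r : ℂ)‖ = r := by rw [Complex.norm_real, Real.norm_eq_abs, abs_of_pos hrpos]
    exact ⟨by rw [h1]; exact hr0.le, by rw [h1]; linarith⟩)
  have hmain' : u y' - β * (Real.log r - Real.log (ρ / 2)) ≤ u x := by
    have h1 : ‖(r : ℂ)‖ = r := by rw [Complex.norm_real, Real.norm_eq_abs, abs_of_pos hrpos]
    have h2 : u (line y w (r : ℂ)) - β * (Real.log ‖(r : ℂ)‖ - Real.log (ρ / 2)) ≤ u x := hmain
    rw [hyw, h1] at h2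
    exact h2
  have hlr : Real.log r - Real.log (ρ / 2) ≤ Real.log (4 * L) := by
    rw [← Real.log_div hrpos.ne' (half_pos hρ).ne']
    refine Real.log_le_log (by positivity) ?_
    rw [div_le_iff₀ (half_pos hρ)]
    linarith
  have h5 : β * (Real.log r - Real.log (ρ / 2)) ≤ β * Real.log (4 * L) :=
    mul_le_mul_of_nonneg_left hlr hβ0
  have h6 : β * Real.log (4 * L) ≤ 2 * S / Real.log (1 / ρ) * Real.log (4 * L) :=
    mul_le_mul_of_nonneg_right hβ1 hL4
  have h7 : 2 * S / Real.log (1 / ρ) * Real.log (4 * L) =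
      2 * Real.log (4 * L) * S / Real.log (1 / ρ) := by ring
  linarith

end Pool.Agent.KRFX
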