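import Pool.Agent.Work.MP_a2bf38_gt.X.Setup
import Pool.Agent.Work.MP_a2bf38_gt.I.Line

/-!
# The sub-mean value property is local
-/

open scoped ContDiff ENNReal ComplexOrder Topology
open Set MeasureTheory Filter Pool.Agent.ToricKRF Pool.Agent.ToricKRF.G Pool.Agent.KRFS
  Pool.Agent.KRFF Pool.Agent.KRFG

namespace Pool.Agent.KRFX

namespace Loc

open Polynomial

/-- continuous functions on the circle are approximated by real parts of polynomials -/
theorem exists_poly_re {G : ℂ → ℝ} (hG : ContinuousOn G (Metric.sphere 0 1)) {ε : ℝ}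
    (hε : 0 < ε) : ∃ P : ℂ[X], ∀ z : ℂ, ‖z‖ = 1 → |G z - (P.eval z).re| < ε := by
  haveI : Fact ((0 : ℝ) < 2 * Real.pi) := ⟨Real.two_pi_pos⟩
  have hc : Continuous fun x : AddCircle (2 * Real.pi) => G ((x.toCircle : Circle) : ℂ) :=
    hG.comp_continuous (continuous_subtype_val.comp AddCircle.continuous_toCircle) fun x => by
      simp
  let g : C(AddCircle (2 * Real.pi), ℂ) :=
    ⟨fun x => ((G ((x.toCircle : Circle) : ℂ) : ℝ) : ℂ), Complex.continuous_ofReal.comp hc⟩
  have hspan : ∀ p ∈ Submodule.span ℂ (range (@fourier (2 * Real.pi))), ∃ P Q : ℂ[X],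
      ∀ x : AddCircle (2 * Real.pi), p x = P.eval ((x.toCircle : Circle) : ℂ) +
        (starRingEnd ℂ) (Q.eval ((x.toCircle : Circle) : ℂ)) := by
    intro p hp
    induction hp using Submodule.span_induction with
    | mem p hp =>
      obtain ⟨n, rfl⟩ := hp
      have hnat : ∀ (k : ℕ) (x : AddCircle (2 * Real.pi)),
          fourier (k : ℤ) x = ((x.toCircle : Circle) : ℂ) ^ k := by
        intro k x
        rw [fourier_apply, AddCircle.toCircle_zsmul]
        simp
      rcases Int.eq_nat_or_neg n with ⟨k, rfl | rfl⟩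
      · refine ⟨X ^ k, 0, fun x => ?_⟩
        rw [hnat]
        simp
      · refine ⟨0, X ^ k, fun x => ?_⟩
        rw [fourier_neg, hnat]
        simp
    | zero => exact ⟨0, 0, fun x => by simp⟩
    | add p q _ _ hp hq =>
      obtain ⟨P, Q, h⟩ := hp
      obtain ⟨P', Q', h'⟩ := hq
      refine ⟨P + P', Q + Q', fun x => ?_⟩
      rw [ContinuousMap.add_apply, h, h', eval_add, eval_add, map_add]
      ring
    | smul a p _ hp =>
      obtain ⟨P, Q, h⟩ := hp
      refine ⟨C a * P, C ((starRingEnd ℂ) a) * Q, fun x => ?_⟩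
      rw [ContinuousMap.smul_apply, h, eval_mul, eval_mul, eval_C, eval_C, map_mul,
        Complex.conj_conj, smul_eq_mul]
      ring
  have hg : g ∈ closure ((Submodule.span ℂ (range (@fourier (2 * Real.pi)))) :
      Set C(AddCircle (2 * Real.pi), ℂ)) := by
    have h1 : g ∈ (Submodule.span ℂ (range (@fourier (2 * Real.pi)))).topologicalClosure := by
      rw [span_fourier_closure_eq_top]
      exact Submodule.mem_top
    exact h1
  obtain ⟨p, hp, hpd⟩ := Metric.mem_closure_iff.1 hg ε hε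
  obtain ⟨P, Q, hPQ⟩ := hspan p hp
  refine ⟨P + Q, fun z hz => ?_⟩
  obtain ⟨x, hx⟩ : ∃ x : AddCircle (2 * Real.pi), ((AddCircle.toCircle x : Circle) : ℂ) = z := by
    refine ⟨((z.arg : ℝ) : AddCircle (2 * Real.pi)), ?_⟩
    rw [AddCircle.toCircle_apply_mk, Circle.coe_exp]
    have h2 := Complex.norm_mul_exp_arg_mul_I z
    rw [hz, Complex.ofReal_one, one_mul] at h2
    rw [div_self Real.two_pi_pos.ne', one_mul, h2]
  have h3 : ‖g x - p x‖ < ε := lt_of_le_of_lt (by
        rw [← dist_eq_norm]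
        exact ContinuousMap.dist_apply_le_dist _) hpd
  have h4 := Complex.abs_re_le_norm (g x - p x)
  refine lt_of_le_of_lt ?_ h3
  refine le_trans (le_of_eq ?_) h4
  rw [hPQ, hx]
  change _ = |(((G ((AddCircle.toCircle x : Circle) : ℂ) : ℝ) : ℂ) - _).re|
  rw [hx, Complex.sub_re, Complex.add_re, Complex.conj_re, Complex.ofReal_re, eval_add,
    Complex.add_re]

theorem cavg_eq (G : ℂ → ℝ) (r : ℝ) : cavg G r = Real.circleAverage G 0 r := by
  unfold cavg Real.circleAverage
  rw [smul_eq_mul]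
  congr 1
  refine intervalIntegral.integral_congr fun θ _ => ?_
  simp only [circleMap, zero_add]

theorem cavg_poly (P : ℂ[X]) (a : ℂ) (r : ℝ) :
    cavg (fun ξ => (P.eval (a + ξ)).re) r = (P.eval a).re := by
  have hd : Differentiable ℂ fun ξ : ℂ => P.eval (a + ξ) :=
    P.differentiable.comp ((differentiable_const a).add differentiable_id)
  have h1 : Real.circleAverage (fun ξ : ℂ => P.eval (a + ξ)) 0 r = P.eval (a + 0) :=
    DiffContOnCl.circleAverage hd.diffContOnCl
  rw [cavg_eq]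
  have h2 := ContinuousLinearMap.circleAverage_comp_comm (c := (0 : ℂ)) (R := r)
    (f := fun ξ : ℂ => P.eval (a + ξ)) Complex.reCLM
    (hd.continuous.continuousOn.circleIntegrable')
  have h3 : (fun ξ : ℂ => (P.eval (a + ξ)).re) = Complex.reCLM ∘ fun ξ : ℂ => P.eval (a + ξ) := rfl
  rw [h3, h2, h1, add_zero]
  rfl

/-- some angle in `[0, 2π]` -/
theorem exists_angle (a : ℂ) : ∃ θ ∈ Icc (0 : ℝ) (2 * Real.pi),
    (‖a‖ : ℂ) * Complex.exp (θ * Complex.I) = a := by
  have h2 := Complex.norm_mul_exp_arg_mul_I a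
  rcases le_or_gt 0 a.arg with h | h
  · exact ⟨a.arg, ⟨h, by linarith [Complex.arg_le_pi a, Real.pi_pos]⟩, h2⟩
  · refine ⟨a.arg + 2 * Real.pi, ⟨by linarith [Complex.neg_pi_lt_arg a], by linarith⟩, ?_⟩
    rw [Complex.ofReal_add, add_mul]
    have h3 : Complex.exp ((a.arg : ℂ) * Complex.I + ((2 * Real.pi : ℝ) : ℂ) * Complex.I) =
        Complex.exp (a.arg * Complex.I) := by
      have := Complex.exp_periodic ((a.arg : ℂ) * Complex.I)
      rw [← this]
      congr 1
      push_cast
      ring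
    rw [h3, h2]

/-- the maximum of a function with the local sub-mean value property is attained on the circle -/
theorem max_le {D : ℂ → ℝ} (hD : ContinuousOn D (Metric.closedBall 0 1))
    (h : ∀ a ∈ Metric.ball (0 : ℂ) 1, ∀ᶠ r in 𝓝[>] (0 : ℝ), D a ≤ cavg (fun ξ => D (a + ξ)) r)
    {c : ℝ} (hc : ∀ z : ℂ, ‖z‖ = 1 → D z ≤ c) : ∀ z ∈ Metric.closedBall (0 : ℂ) 1, D z ≤ c := by
  have hK : IsCompact (Metric.closedBall (0 : ℂ) 1) := isCompact_closedBall 0 1
  obtain ⟨a, ha, hmax⟩ := hK.exists_isMaxOn ⟨0, by simp⟩ hD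
  have hmax' : ∀ z ∈ Metric.closedBall (0 : ℂ) 1, D z ≤ D a := fun z hz => hmax hz
  have hS : IsCompact (Metric.closedBall (0 : ℂ) 1 ∩ D ⁻¹' {D a}) :=
    hK.of_isClosed_subset (hD.preimage_isClosed_of_isClosed Metric.isClosed_closedBall
      isClosed_singleton) inter_subset_left
  obtain ⟨b, ⟨hb, hba⟩, hbmax⟩ := hS.exists_isMaxOn ⟨a, ha, rfl⟩ continuous_norm.continuousOn
  have hba' : D b = D a := hba
  have hbmax' : ∀ z ∈ Metric.closedBall (0 : ℂ) 1, D z = D a → ‖z‖ ≤ ‖b‖ :=
    fun z hz hz' => hbmax ⟨hz, hz'⟩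
  have hb1 : ‖b‖ ≤ 1 := by simpa using hb
  rcases hb1.eq_or_lt with h1 | h1
  · intro z hz
    exact (hmax' z hz).trans (hba' ▸ hc b h1)
  · exfalso
    have hb2 : b ∈ Metric.ball (0 : ℂ) 1 := by simpa using h1
    have hr1 : ∀ᶠ r in 𝓝[>] (0 : ℝ), r < 1 - ‖b‖ :=
      (eventually_lt_nhds (sub_pos.2 h1)).filter_mono nhdsWithin_le_nhds
    obtain ⟨r, ⟨hr, hrb⟩, hr0⟩ := (((h b hb2).and hr1).and self_mem_nhdsWithin).exists
    have hr0' : 0 < r := hr0
    have hin : ∀ θ : ℝ, b + (r : ℂ) * Complex.exp (θ * Complex.I) ∈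
        Metric.closedBall (0 : ℂ) 1 := by
      intro θ
      rw [mem_closedBall_zero_iff]
      refine (norm_add_le _ _).trans ?_
      rw [norm_mul, Complex.norm_exp_ofReal_mul_I, mul_one, Complex.norm_real, Real.norm_eq_abs,
        abs_of_pos hr0']
      linarith
    have hcont : Continuous fun θ : ℝ => D (b + (r : ℂ) * Complex.exp (θ * Complex.I)) :=
      hD.comp_continuous (by fun_prop) hin
    obtain ⟨θ, hθ, hθb⟩ := exists_angle b
    have hpos : 0 < ∫ θ in (0 : ℝ)..2 * Real.pi,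
        (D a - D (b + (r : ℂ) * Complex.exp (θ * Complex.I))) := by
      refine intervalIntegral.integral_pos Real.two_pi_pos
        (continuous_const.sub hcont).continuousOn
        (fun θ _ => sub_nonneg.2 (hmax' _ (hin θ))) ⟨θ, hθ, sub_pos.2 ?_⟩
      refine lt_of_le_of_ne (hmax' _ (hin θ)) fun hne => ?_
      have h2 := hbmax' _ (hin θ) hne
      have h3 : b + (r : ℂ) * Complex.exp (θ * Complex.I) =
          ((‖b‖ + r : ℝ) : ℂ) * Complex.exp (θ * Complex.I) := by
        nth_rewrite 1 [← hθb]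
        push_cast
        ring
      rw [h3, norm_mul, Complex.norm_exp_ofReal_mul_I, mul_one, Complex.norm_real,
        Real.norm_eq_abs, abs_of_nonneg (by positivity)] at h2
      linarith
    rw [intervalIntegral.integral_sub (by simp) (hcont.intervalIntegrable _ _),
      intervalIntegral.integral_const, sub_zero, smul_eq_mul] at hpos
    unfold cavg at hr
    rw [hba'] at hr
    have h4 : 2 * Real.pi * D a ≤
        ∫ θ in (0 : ℝ)..2 * Real.pi, D (b + (r : ℂ) * Complex.exp (θ * Complex.I)) := by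
      calc 2 * Real.pi * D a ≤ 2 * Real.pi * ((2 * Real.pi)⁻¹ *
          ∫ θ in (0 : ℝ)..2 * Real.pi, D (b + (r : ℂ) * Complex.exp (θ * Complex.I))) :=
            mul_le_mul_of_nonneg_left hr Real.two_pi_pos.le
        _ = _ := by rw [← mul_assoc, mul_inv_cancel₀ Real.two_pi_pos.ne', one_mul]
    linarith

/-- the one variable statement -/
theorem disc_le {G : ℂ → ℝ} (hG : ContinuousOn G (Metric.closedBall 0 1))
    (h : ∀ a ∈ Metric.ball (0 : ℂ) 1, ∀ᶠ r in 𝓝[>] (0 : ℝ), G a ≤ cavg (fun ξ => G (a + ξ)) r) :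
    G 0 ≤ cavg G 1 := by
  refine le_of_forall_pos_le_add fun ε hε => ?_
  obtain ⟨P, hP⟩ := exists_poly_re (hG.mono Metric.sphere_subset_closedBall)
    (half_pos hε)
  have hPc : Continuous fun z : ℂ => (P.eval z).re := Complex.continuous_re.comp P.continuous
  have hcirc : ∀ θ : ℝ, (((1 : ℝ) : ℂ) * Complex.exp (θ * Complex.I)) ∈
      Metric.closedBall (0 : ℂ) 1 := by
    intro θ
    rw [mem_closedBall_zero_iff, norm_mul, Complex.norm_exp_ofReal_mul_I]
    simp
  have h1 := max_le (D := fun z => G z - (P.eval z).re) (hG.sub hPc.continuousOn) (by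
    intro a ha
    have hr1 : ∀ᶠ r in 𝓝[>] (0 : ℝ), r < 1 - ‖a‖ :=
      (eventually_lt_nhds (sub_pos.2 (by simpa using ha))).filter_mono nhdsWithin_le_nhds
    filter_upwards [h a ha, hr1, self_mem_nhdsWithin] with r hr hra hr0
    have hr0' : 0 < r := hr0
    have hin : ∀ θ : ℝ, a + (r : ℂ) * Complex.exp (θ * Complex.I) ∈
        Metric.closedBall (0 : ℂ) 1 := by
      intro θ
      rw [mem_closedBall_zero_iff]
      refine (norm_add_le _ _).trans ?_
      rw [norm_mul, Complex.norm_exp_ofReal_mul_I, mul_one, Complex.norm_real, Real.norm_eq_abs,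
        abs_of_pos hr0']
      linarith
    have hc1 : Continuous fun θ : ℝ => G (a + (r : ℂ) * Complex.exp (θ * Complex.I)) :=
      hG.comp_continuous (by fun_prop) hin
    have hc2 : Continuous fun θ : ℝ => (P.eval (a + (r : ℂ) * Complex.exp (θ * Complex.I))).re :=
      hPc.comp (by fun_prop)
    have h2 := cavg_poly P a r
    have h3 : cavg (fun ξ => G (a + ξ) - (P.eval (a + ξ)).re) r =
        cavg (fun ξ => G (a + ξ)) r - cavg (fun ξ => (P.eval (a + ξ)).re) r := by
      unfold cavg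
      rw [intervalIntegral.integral_sub (hc1.intervalIntegrable _ _)
        (hc2.intervalIntegrable _ _), mul_sub]
    rw [h3, h2]
    linarith) (c := ε / 2) (fun z hz => (le_abs_self _).trans (hP z hz).le) 0 (by simp)
  have h2 := cavg_poly P 0 1
  simp only [zero_add] at h2
  have h3 : cavg (fun ξ => (P.eval ξ).re) 1 ≤ cavg G 1 + ε / 2 := by
    have hc1 : Continuous fun θ : ℝ => G (((1 : ℝ) : ℂ) * Complex.exp (θ * Complex.I)) :=
      hG.comp_continuous (by fun_prop) hcirc
    have hc2 : Continuous fun θ : ℝ =>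
        (P.eval (((1 : ℝ) : ℂ) * Complex.exp (θ * Complex.I))).re :=
      hPc.comp (by fun_prop)
    unfold cavg
    have h4 : ∫ θ in (0 : ℝ)..2 * Real.pi,
        (P.eval (((1 : ℝ) : ℂ) * Complex.exp (θ * Complex.I))).re ≤
        ∫ θ in (0 : ℝ)..2 * Real.pi,
          (G (((1 : ℝ) : ℂ) * Complex.exp (θ * Complex.I)) + ε / 2) := by
      refine intervalIntegral.integral_mono_on Real.two_pi_pos.le (hc2.intervalIntegrable _ _)
        ((hc1.add continuous_const).intervalIntegrable _ _) fun θ _ => ?_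
      have h5 := hP (((1 : ℝ) : ℂ) * Complex.exp (θ * Complex.I)) (by
        rw [norm_mul, Complex.norm_exp_ofReal_mul_I]
        simp)
      have h6 := neg_abs_le (G (((1 : ℝ) : ℂ) * Complex.exp (θ * Complex.I)) -
        (P.eval (((1 : ℝ) : ℂ) * Complex.exp (θ * Complex.I))).re)
      linarith
    rw [intervalIntegral.integral_add (hc1.intervalIntegrable _ _) (by simp),
      intervalIntegral.integral_const, sub_zero, smul_eq_mul] at h4
    calc _ ≤ (2 * Real.pi)⁻¹ * ((∫ θ in (0 : ℝ)..2 * Real.pi,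
          G (((1 : ℝ) : ℂ) * Complex.exp (θ * Complex.I))) + 2 * Real.pi * (ε / 2)) :=
            mul_le_mul_of_nonneg_left h4 (inv_nonneg.2 Real.two_pi_pos.le)
      _ = _ := by
        rw [mul_add, ← mul_assoc, inv_mul_cancel₀ Real.two_pi_pos.ne', one_mul]
  have h5 : G 0 - (P.eval 0).re ≤ ε / 2 := h1
  linarith

end Loc

/-- the sub-mean value property is local -/
theorem pshC_of_local {m : ℕ} {u : Cn m → ℝ} {V : Set (Cn m)} (hV : IsOpen V)
    (hu : ContinuousOn u V)
    (h : ∀ z ∈ V, ∀ v : Cn m, ∀ᶠ r in 𝓝[>] (0 : ℝ), u z ≤ cavg (fun ζ => u (line z v ζ)) r) :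
    PshC u V := by
  refine ⟨hu, fun z v hz => ?_⟩
  have h1 := Loc.disc_le (G := fun ζ => u (line z v ζ))
    (hu.comp (contDiff_line z v).continuous.continuousOn fun ζ hζ => hz ζ (by simpa using hζ)) (by
      intro a ha
      have h2 := h (line z v a) (hz a (by
        have : ‖a‖ < 1 := by simpa using ha
        exact this.le)) v
      have h3 : (fun ζ => u (line (line z v a) v ζ)) = fun ξ => u (line z v (a + ξ)) := by
        funext ξ
        rw [line_add, line_eq (line z v a) v ξ]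
      rw [h3] at h2
      exact h2)
  rw [line_zero] at h1
  exact h1

end Pool.Agent.KRFX
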