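import Pool.Agent.Work.MP_a2bf38_gt.X.NatTop
import Pool.Agent.Work.MP_a2bf38_gt.X.Setup
import Pool.Agent.Work.MP_a2bf38_gt.K.NatLim

/-!
# The flow and the semistable models over the modification
-/

open scoped ContDiff ENNReal ComplexOrder Topology
open Set Filter Pool.Agent.ToricKRF Pool.Agent.ToricKRF.G Pool.Agent.KRFS Pool.Agent.KRFF
  Pool.Agent.KRFG

namespace Pool.Agent.KRFX

theorem exists_mod_x {n m : ℕ} {M Y : Type} [TopologicalSpace M] [CompactSpace M]
    [TopologicalSpace Y] {κ P : Type} {T : ℝ} {e : κ → OpenPartialHomeomorph M (Cn n)}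
    {b : P → OpenPartialHomeomorph Y (Cn m)} {f : M → Y} {ψ : κ → ℝ × Cn n → ℝ}
    {Ω : κ → Cn n → ℝ} {K : P → Cn m → ℝ} (hT : 0 < T) (he : IsAtlas e) (hb : IsAtlas b)
    (hf : IsHolOnto e b f) (hmod : ∀ y, Nonempty (ModifAt e b f y)) (hψ : IsKRF e T ψ)
    (hl : IsPullbackLimit e b f T ψ Ω K) :
    ∃ (l : ℕ) (P₁ P₂ ι Y' W : Type) (_ : Finite P₁) (_ : Finite P₂) (_ : Fintype ι)
      (_ : TopologicalSpace Y') (_ : T2Space Y') (_ : TopologicalSpace W) (_ : T2Space W)
      (F : Mod n m l M Y Y' W κ P₁ P₂ ι T), F.e = e ∧ F.ψ = ψ := by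
  obtain ⟨l, P₁, P₂, ι, Y', W, iP₁, iP₂, iι, iY, iY2, iW, iW2, b', ρ, zz, σ, lb, la, g, a, al, lab,
    π, h, τ, N, pc, s, row, y₀, r, hat, hmap, hmodif, hmodel, hr, hsrc, htar, haff⟩ :=
    exists_model_x hb hf hmod
  have h0 : (0 : ℝ) ∈ Ico 0 T := ⟨le_rfl, hT⟩
  -- the potentials
  have hlev : ∀ j, ∀ y ∈ (b' j).target, ∀ u,
      levz (fun y => K (ρ j) (y₀ j + r j • y)) u y = levz (K (ρ j)) (r j • u) (y₀ j + r j • y) := by
    intro j y hy u
    have h := levz_comp (b (ρ j)).open_target (hl.kahler.smooth (ρ j)) isOpen_univ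
      (NT.hol_scale (r j) (y₀ j) univ) (mem_univ y) (htar j y hy) u
    rw [h]
    congr 1
    rw [fderiv_const_add]
    have h2 : fderiv ℝ (fun z : Cn m => r j • z) y = r j • ContinuousLinearMap.id ℝ (Cn m) :=
      (r j • ContinuousLinearMap.id ℝ (Cn m)).fderiv
    rw [h2]
    simp
  have hlim : IsLimit e b' f T ψ Ω fun j y => K (ρ j) (y₀ j + r j • y) := by
    refine ⟨hl.volume, fun j => ?_, fun j y hy u hu => ?_, fun c j z hz hfz u => ?_⟩
    · exact (hl.kahler.smooth (ρ j)).comp (by fun_prop) (htar j)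
    · rw [hlev j y hy]
      exact hl.kahler.pos _ _ (htar j y hy) _ (smul_ne_zero (hr j).ne' hu)
    · rw [hl.eq c (ρ j) z ⟨hz, by rw [← hsrc]; exact hfz⟩ u]
      have h1 : (fun z => K (ρ j) (cmap e b f c (ρ j) z)) = fun z =>
          K (ρ j) (y₀ j + r j • b' j (f ((e c).symm z))) := by
        funext z
        rw [← haff]
        rfl
      rw [h1]
  -- the function `Θ`
  have hψ0 : ∀ c, ContDiffOn ℝ ∞ (fun z => ψ c (0, z)) (e c).target := by
    intro c
    obtain ⟨U, hU, hsub, hs⟩ := hψ.smooth c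
    exact hs.comp (contDiff_const.prodMk contDiff_id).contDiffOn fun z hz => hsub ⟨h0, hz⟩
  have hΩ : ∀ c, ContDiffOn ℝ ∞ (fun z => Real.log (Ω c z)) (e c).target := fun c =>
    (hl.volume.smooth c).log fun z hz => (hl.volume.pos c z hz).ne'
  have hΘ : ∀ c, ContDiffOn ℝ ∞ (fun z => ψ c (0, z) + T * Real.log (Ω c z)) (e c).target :=
    fun c => (hψ0 c).add (contDiffOn_const.mul (hΩ c))
  have htheta : ∀ c, ∀ z ∈ (e c).target, ∀ u,
      lev (ψ c) u (0, z) + T * levz (fun z => Real.log (Ω c z)) u z =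
        levz (fun z => ψ c (0, z) + T * Real.log (Ω c z)) u z := by
    intro c z hz u
    have hC : ∀ {g : Cn n → ℝ}, ContDiffOn ℝ ∞ g (e c).target → ContDiffAt ℝ 2 g z := fun hg =>
      (hg.contDiffAt ((e c).open_target.mem_nhds hz)).of_le two_le_infty
    obtain ⟨U, hU, hsub, hs⟩ := hψ.smooth c
    rw [Bd.levz_add (hC (hψ0 c)) (hC (contDiffOn_const.mul (hΩ c))),
      Bd.levz_const_mul T (hC (hΩ c)), levz_slice hU hs (hsub ⟨h0, hz⟩)]
  have hpsh : ∀ c, ∀ z ∈ (e c).target, ∀ u,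
      0 ≤ levz (fun z => ψ c (0, z) + T * Real.log (Ω c z)) u z := by
    intro c z hz u
    rw [← htheta c z hz u]
    obtain ⟨j, hj, -⟩ := hmap.cover (f ((e c).symm z))
    rw [hlim.eq c j z hz hj u]
    have hop : IsOpen (cdom e b' f c j) := NT.isOpen_cdom hmap.cont c j
    have h1 := levz_comp (b' j).open_target (hlim.smooth j) hop (hmap.holo c j)
      (z := z) ⟨hz, hj⟩ ((b' j).map_source hj) u
    have h2 : levz (fun z => K (ρ j) (y₀ j + r j • b' j (f ((e c).symm z)))) u z = _ := h1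
    rw [h2]
    by_cases hu : fderiv ℝ (fun z => b' j (f ((e c).symm z))) z u = 0
    · rw [hu]
      simp [levz, D, J, Prod.mk_zero_zero]
    · exact (hlim.psh j _ ((b' j).map_source hj) _ hu).le
  let F : Mod n m l M Y Y' W κ P₁ P₂ ι T :=
    { e := e
      ψ := ψ
      Ω := Ω
      Θ := fun c z => ψ c (0, z) + T * Real.log (Ω c z)
      atlas := he
      krf := hψ
      vol := hl.volume
      smooth := hΘ
      psh := hpsh
      theta := htheta
      b := b'
      f := f
      z := zz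
      σ := σ
      lb := lb
      la := la
      g := g
      a := a
      al := al
      lab := lab
      π := π
      h := h
      τ := τ
      N := N
      pc := pc
      s := s
      row := row
      K := fun j y => K (ρ j) (y₀ j + r j • y)
      atlasY := hat
      hol := hmap
      modif := hmodif
      model := hmodel
      lim := hlim
      Θ_eq := fun c z => rfl }
  exact ⟨l, P₁, P₂, ι, Y', W, iP₁, iP₂, iι, iY, iY2, iW, iW2, F, rfl, rfl⟩

end Pool.Agent.KRFX
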