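import Pool.Agent.Work.MP_a2bf38_gt.I.Path
import Pool.Agent.Work.MP_a2bf38_gt.X.NatLim
import Pool.Agent.Work.MP_a2bf38_gt.X.Drop

/-!
# The theorem for fibrations with semistable models over a modification of the base
-/

open scoped ContDiff ENNReal ComplexOrder Topology
open Set Filter Pool.Agent.ToricKRF Pool.Agent.ToricKRF.G Pool.Agent.KRFS Pool.Agent.KRFF
  Pool.Agent.KRFG

namespace Pool.Agent.KRFX

theorem diam_bounded_of_modif {n m : ℕ} {M Y : Type} [TopologicalSpace M] [CompactSpace M]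
    [T2Space M] [ConnectedSpace M] [TopologicalSpace Y] [T2Space Y] {κ P : Type} {T : ℝ}
    {e : κ → OpenPartialHomeomorph M (Cn n)} {b : P → OpenPartialHomeomorph Y (Cn m)} {f : M → Y}
    {ψ : κ → ℝ × Cn n → ℝ} {Ω : κ → Cn n → ℝ} {K : P → Cn m → ℝ}
    (he : IsAtlas e) (hb : IsAtlas b) (hf : IsHolOnto e b f)
    (hmod : ∀ y, Nonempty (ModifAt e b f y))
    (hψ : IsKRF e T ψ) (hl : IsPullbackLimit e b f T ψ Ω K) :
    ⨆ t ∈ Ico 0 T, rdiam e ψ t < ⊤ := by
  by_cases hT : 0 < T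
  swap
  · have : Ico (0 : ℝ) T = ∅ := Ico_eq_empty hT
    simp [this]
  obtain ⟨l, P₁, P₂, ι, Y', W, _, _, _, _, _, _, _, F, rfl, rfl⟩ :=
    exists_mod_x hT he hb hf hmod hψ hl
  exact F.toFlow.diam_of_local fun p =>
    F.toFlow.two_points (by norm_num) (by norm_num) F.drop p

end Pool.Agent.KRFX
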