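import Pool.Agent.Work.MP_a2bf38_gt.X.NatModif
import Pool.Agent.Work.MP_a2bf38_gt.K.GapOf

/-!
# The semistable models over the modification
-/

open scoped ContDiff ENNReal ComplexOrder Topology
open Set Filter Pool.Agent.ToricKRF Pool.Agent.ToricKRF.G Pool.Agent.KRFS Pool.Agent.KRFF
  Pool.Agent.KRFG

namespace Pool.Agent.KRFX.NX

section Total

variable {M Y : Type} [TopologicalSpace M] [TopologicalSpace Y] {n m : ℕ} {κ P : Type}
  {e : κ → OpenPartialHomeomorph M (Cn n)} {b : P → OpenPartialHomeomorph Y (Cn m)} {f : M → Y}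
  {I : Type} {y₀ : I → Y} (D : ∀ i, YData e b f (y₀ i))

/-- the part of `W` -/
def labT (w : WT D) : PT D := w.1.1

/-- the map to `M` -/
def π₀ (p : Σ a : PT D, (KK D a).W) : M := (KK D p.1).π p.2

/-- the map to `M` -/
def πT (w : WT D) : M := π₀ D w.1

/-- the map to `Y'` -/
def h₀ (p : Σ a : PT D, (KK D a).W) : Σ i, (D i).S.Y' := ⟨p.1.1, (KK D p.1).h p.2⟩

theorem QY_h₀ (p : Σ a : PT D, (KK D a).W) (hp : QW D p) : QY D (h₀ D p) := by
  have h1 := (((D p.1.1).Z p.1.2).sub _ hp).2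
  rw [(KK D p.1).z.left_inv ((KK D p.1).base p.2).1] at h1
  exact h1

/-- the map to `Y'` -/
def hT (w : WT D) : YT D := ⟨h₀ D w.1, QY_h₀ D w.1 w.2⟩

/-- the scaling factors -/
noncomputable def σs (a : PT D) (i : Fin m) : ℝ := (rr D a)⁻¹ ^ ((1 : ℝ) / ((KK D a).N i : ℝ))

/-- the map to `ℂ^m` -/
noncomputable def τ₀ (p : Σ a : PT D, (KK D a).W) : Cn m := NK.scal (σs D p.1) ((KK D p.1).τ p.2)

/-- the map to `ℂ^m` -/
noncomputable def τT (w : WT D) : Cn m := τ₀ D w.1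

theorem σs_pos (a : PT D) (i : Fin m) : 0 < σs D a i :=
  Real.rpow_pos_of_pos (by have := rr_pos D a; positivity) _

theorem σs_pow (a : PT D) (i : Fin m) : σs D a i ^ (KK D a).N i = (rr D a)⁻¹ := by
  rw [σs, ← Real.rpow_natCast, ← Real.rpow_mul (by have := rr_pos D a; positivity), one_div,
    inv_mul_cancel₀ (by exact_mod_cast ((KK D a).N_pos i).ne'), Real.rpow_one]

theorem σsC_pow (a : PT D) (i : Fin m) :
    ((σs D a i : ℝ) : ℂ) ^ (KK D a).N i = (((rr D a)⁻¹ : ℝ) : ℂ) := by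
  rw [← σs_pow D a i]
  push_cast
  rfl

/-- the point of `ℂ^m` in the unscaled coordinates -/
noncomputable def t₀ (a : PT D) (t : Cn m) : Cn m := NK.scal (fun i => (σs D a i)⁻¹) t

theorem scal_t₀ (a : PT D) (t : Cn m) : NK.scal (σs D a) (t₀ D a t) = t := by
  apply NK.cc_ext
  intro i
  rw [t₀, NK.cc_scal, NK.cc_scal, ← mul_assoc, ← Complex.ofReal_mul,
    mul_inv_cancel₀ (σs_pos D a i).ne', Complex.ofReal_one, one_mul]

theorem t₀_scal (a : PT D) (t : Cn m) : t₀ D a (NK.scal (σs D a) t) = t := by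
  apply NK.cc_ext
  intro i
  rw [t₀, NK.cc_scal, NK.cc_scal, ← mul_assoc, ← Complex.ofReal_mul,
    inv_mul_cancel₀ (σs_pos D a i).ne', Complex.ofReal_one, one_mul]

theorem powC_t₀ (a : PT D) {t y : Cn m}
    (h : ∀ i, cc t i ^ (KK D a).N i = cc ((rr D a)⁻¹ • y) i) : powC (KK D a).N (t₀ D a t) = y := by
  refine NK.cc_ext fun i => ?_
  have h1 := σsC_pow D a i
  have h2 : ((rr D a : ℝ) : ℂ) ≠ 0 := by exact_mod_cast (rr_pos D a).ne'
  rw [cc_powC, t₀, NK.cc_scal, mul_pow, h i, NK.cc_smul, Complex.ofReal_inv, inv_pow, h1,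
    Complex.ofReal_inv, inv_inv, mul_inv_cancel_left₀ h2]

/-- the points of `Γ` lift -/
theorem lift_core (a : PT D) {y' : (D a.1).S.Y'} {p : M} (hy : (y', p) ∈ (D a.1).S.Γ)
    (hys : y' ∈ (KK D a).z.source) (hyr : (KK D a).z y' ∈ (opd (r1 D a) : Set (Cn m)))
    (h25 : nsq ((rr D a)⁻¹ • (KK D a).z y') ≤ 25) {t : Cn m}
    (ht : ∀ i, cc t i ^ (KK D a).N i = cc ((rr D a)⁻¹ • (KK D a).z y') i) :
    ∃ w : WT D, labT D w = a ∧ τT D w = t ∧ πT D w = p ∧ (hT D w).1 = ⟨a.1, y'⟩ := by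
  have h1 := powC_t₀ D a ht
  have hrr := rr_pos D a
  have h2 : ∀ i, ‖cc (t₀ D a t) i‖ ^ (KK D a).N i ≤ ((D a.1).Z a.2).D.R := fun i => by
    have h3 : cc (t₀ D a t) i ^ (KK D a).N i = cc ((KK D a).z y') i := by
      rw [← cc_powC, h1]
    rw [← norm_pow, h3]
    have h4 := NK.norm_cc_le (r := 5) (by norm_num) (u := (rr D a)⁻¹ • (KK D a).z y')
      (by linarith) i
    rw [NK.cc_smul, norm_mul, Complex.norm_real, Real.norm_of_nonneg (by positivity),
      inv_mul_le_iff₀ hrr] at h4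
    have h5 := ((D a.1).Z a.2).five
    linarith
  obtain ⟨w, hw1, hw2⟩ := (KK D a).lift y' p hy hys (t₀ D a t) (((D a.1).Z a.2).D.small _ h2)
    fun i => by rw [← cc_powC, h1]
  have h3 : (KK D a).z ((KK D a).h w) = (KK D a).z y' := by
    rw [z_h, hw1, h1]
  have h4 : (KK D a).h w = y' := (KK D a).z.injOn ((KK D a).base w).1 hys h3
  refine ⟨⟨⟨a, w⟩, ?_⟩, rfl, ?_, hw2, ?_⟩
  · show (KK D a).z ((KK D a).h w) ∈ (opd (r1 D a) : Set (Cn m))
    rw [h3]
    exact hyr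
  · show NK.scal (σs D a) ((KK D a).τ w) = t
    rw [hw1, scal_t₀]
  · show (⟨a.1, (KK D a).h w⟩ : Σ i, (D i).S.Y') = ⟨a.1, y'⟩
    rw [h4]

variable (T : Tot D)

theorem lift_source {a : PT D} {q : YT D} {p : M} (hq : q ∈ (T.z a).source)
    (hΓ : ∀ y', q.1 = ⟨a.1, y'⟩ → (y', p) ∈ (D a.1).S.Γ) (h25 : nsq (T.z a q) ≤ 25) {t : Cn m}
    (ht : ∀ i, cc t i ^ (KK D a).N i = cc (T.z a q) i) :
    ∃ w : WT D, labT D w = a ∧ τT D w = t ∧ πT D w = p ∧ hT D w = q := by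
  obtain ⟨y', h1, h2, h3⟩ := (T.z_source a q).1 hq
  obtain ⟨q, hQ⟩ := q
  obtain rfl : q = ⟨a.1, y'⟩ := h3
  rw [T.z_apply a y' hQ] at h25
  simp only [T.z_apply a y' hQ] at ht
  obtain ⟨w, hw1, hw2, hw3, hw4⟩ := lift_core D a (hΓ y' rfl) h1 h2 h25 ht
  exact ⟨w, hw1, hw2, hw3, Subtype.ext hw4⟩

theorem isModel {L : ℕ} (hL : ∀ i, (D i).S.q ≤ L) :
    IsModel e (bT D) f T.z (σT D) (lbT D) (gT D L) T.c
      (fun i => ((D i.1.1).Z i.1.2).D.al i.2) (labT D) (πT D) (hT D) (τT D)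
      (fun a => (KK D a).N) (fun i => i.1)
      (fun i k => σs D i.1 k * ((D i.1.1).Z i.1.2).D.s i.2 k)
      (fun i => ((D i.1.1).Z i.1.2).D.row i.2) := by
  classical
  have hz : ∀ w : WT D, T.z (labT D w) (hT D w) =
      (rr D w.1.1)⁻¹ • (KK D w.1.1).z ((KK D w.1.1).h w.1.2) := fun w =>
    T.z_apply w.1.1 _ (QY_h₀ D w.1 w.2)
  refine ⟨?_, ?_, ?_, ?_, ?_, ?_, ?_, ?_, ?_, ?_, ?_, ?_, ?_, ?_, ?_, ?_⟩
  · -- base
    intro w
    refine ⟨(T.z_source _ _).2 ⟨(KK D w.1.1).h w.1.2, ((KK D w.1.1).base w.1.2).1, w.2, rfl⟩,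
      fun i => ?_⟩
    rw [hz, NK.cc_smul, ((KK D w.1.1).base w.1.2).2 i]
    show _ = cc (NK.scal (σs D w.1.1) ((KK D w.1.1).τ w.1.2)) i ^ (KK D w.1.1).N i
    rw [NK.cc_scal, mul_pow, σsC_pow]
  · -- comm
    intro w
    exact (D w.1.1.1).S.comm _ _ ((KK D w.1.1).main w.1.2)
  · exact fun a i => (KK D a).N_pos i
  · exact T.c_target
  · -- lab_eq
    intro i w hw
    obtain ⟨w', -, h⟩ := (T.c_source i w).1 hw
    show w.1.1 = i.1
    rw [h]
  · exact fun i k => mul_pos (σs_pos D _ _) (((D i.1.1).Z i.1.2).D.s_pos _ _)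
  · exact fun i k => ((D i.1.1).Z i.1.2).D.row_ne i.2 k
  · -- mono
    intro i w hw k
    obtain ⟨w', hw', h⟩ := (T.c_source i w).1 hw
    obtain ⟨w, hQ⟩ := w
    obtain rfl : w = ⟨i.1, w'⟩ := h
    rw [T.c_apply i w' hQ]
    show cc (NK.scal (σs D i.1) ((KK D i.1).τ w')) k = _
    rw [NK.cc_scal, ((D i.1.1).Z i.1.2).D.mono i.2 w' hw' k]
    push_cast
    ring
  · -- mem
    intro i w hw
    obtain ⟨w', hw', h⟩ := (T.c_source i w).1 hw
    obtain ⟨w, hQ⟩ := w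
    obtain rfl : w = ⟨i.1, w'⟩ := h
    exact ((D i.1.1).Z i.1.2).D.mem i.2 w' hw'
  · -- holo
    intro i
    refine NT.hol_congr (NT.isOpen_opd 10) (((D i.1.1).Z i.1.2).D.holo i.2) fun x hx => ?_
    show e _ (π₀ D ((T.c i).symm x).1) = _
    rw [T.c_symm i x hx]
    rfl
  · -- cover
    intro w hw
    obtain ⟨⟨a, w⟩, hQ⟩ := w
    have hrr := rr_pos D a
    have h1 : nsq ((rr D a)⁻¹ • (KK D a).z ((KK D a).h w)) ≤ 25 := by
      rw [hz] at hw
      exact hw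
    obtain ⟨i, hi, hi'⟩ := ((D a.1).Z a.2).D.cover w fun i => by
      have h4 := NK.norm_cc_le (r := 5) (by norm_num)
        (u := (rr D a)⁻¹ • (KK D a).z ((KK D a).h w)) (by linarith) i
      rw [NK.cc_smul, norm_mul, Complex.norm_real, Real.norm_of_nonneg (by positivity),
        inv_mul_le_iff₀ hrr, ((KK D a).base w).2 i, norm_pow] at h4
      have h5 := ((D a.1).Z a.2).five
      exact h4.trans (by linarith)
    refine ⟨⟨a, i⟩, (T.c_source _ _).2 ⟨w, hi, rfl⟩, ?_⟩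
    rw [T.c_apply ⟨a, i⟩ w hQ]
    exact hi'
  · -- surj
    rintro a t ⟨q, hq, h25, ht⟩
    obtain ⟨y', h1, h2, h3⟩ := (T.z_source a q).1 hq
    obtain ⟨p, hp⟩ := (D a.1).S.onto_base y'
    obtain ⟨w, hw1, hw2, -, -⟩ := lift_source D T hq (fun y'' hy'' => by
      rw [h3] at hy''
      obtain rfl : y' = y'' := by simpa using hy''
      exact hp) h25 ht
    exact ⟨w, hw1, hw2⟩
  · -- onto
    intro a w₀ hq h25 t ht
    obtain ⟨w, hw1, hw2, hw3, -⟩ := lift_source D T (p := πT D w₀) hq (fun y'' hy'' => by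
      obtain ⟨⟨⟨i, a₀⟩, w⟩, hQ⟩ := w₀
      obtain ⟨i', a'⟩ := a
      have h1 : (⟨i, (KK D ⟨i, a₀⟩).h w⟩ : Σ i, (D i).S.Y') = ⟨i', y''⟩ := hy''
      obtain rfl : i = i' := congrArg Sigma.fst h1
      obtain rfl : (KK D ⟨i, a₀⟩).h w = y'' := by simpa using h1
      exact (KK D ⟨i, a₀⟩).main w) h25 ht
    exact ⟨w, hw1, hw2, hw3⟩
  · -- full
    intro p q hσ h49 hg
    obtain ⟨a, ha, hqa, hq1⟩ := cover_YT D T q (by rw [hσ]; exact h49)
    obtain ⟨t, ht⟩ := exists_root (KK D a).N (KK D a).N_pos (T.z a q)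
    obtain ⟨w, -, -, hw3, hw4⟩ := lift_source D T (p := p) hqa (fun y'' hy'' => by
      obtain ⟨q, hQ⟩ := q
      obtain rfl : q = ⟨a.1, y''⟩ := hy''
      refine (D a.1).S.full y'' p hσ ?_
      have h5 : gT D L a.1 (bT D a.1 (f p)) ≠ 0 := hg
      rw [gT_bT] at h5
      exact (pad_ne_zero (hL a.1)).1 h5) (by linarith) ht
    exact ⟨w, hw4, hw3⟩
  · -- all
    intro i p hp h49
    have hR := (D i).R_pos
    have h1 : nsq (b (D i).S.j (f p) - yc D i) ≤ (7 * (D i).R) ^ 2 :=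
      (nsq_bT D i (f p) (s := 7)).1 (by linarith)
    have h2 : nsq (b (D i).S.j (f p) - yc D i) < (10 * (D i).R) ^ 2 :=
      lt_of_le_of_lt h1 (by nlinarith [mul_pos hR hR])
    obtain ⟨y', hy'⟩ := (D i).S.onto_top p hp ((D i).sub _ h2).2
    have h3 := (D i).S.comm y' p hy'
    have hQ : QY D ⟨i, y'⟩ := by
      show nsq (b (D i).S.j ((D i).S.σ y') - yc D i) < (10 * (D i).R) ^ 2
      rw [h3]
      exact h2
    obtain ⟨a, ha, hqa, hq1⟩ := cover_YT D T ⟨⟨i, y'⟩, hQ⟩ (by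
      show nsq (bT D i ((D i).S.σ y')) ≤ 49
      rw [h3]
      exact h49)
    obtain ⟨t, ht⟩ := exists_root (KK D a).N (KK D a).N_pos (T.z a ⟨⟨i, y'⟩, hQ⟩)
    obtain ⟨w, -, -, hw3, hw4⟩ := lift_source D T (p := p) hqa (fun y'' hy'' => by
      obtain ⟨i', a'⟩ := a
      have h6 : (⟨i, y'⟩ : Σ i, (D i).S.Y') = ⟨i', y''⟩ := hy''
      obtain rfl : i = i' := congrArg Sigma.fst h6
      obtain rfl : y' = y'' := by simpa using h6
      exact hy') (by linarith) ht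
    refine ⟨w, ?_, hw3⟩
    rw [hw4]
    rfl
  · -- connected
    intro a t ht
    by_cases hr : powC (KK D a).N (t₀ D a t) ∈ (opd (r1 D a) : Set (Cn m))
    · have h1 : ∀ i, cc (t₀ D a t) i ≠ 0 := by
        intro i
        rw [t₀, NK.cc_scal]
        exact mul_ne_zero (by exact_mod_cast (inv_pos.2 (σs_pos D a i)).ne') (ht i)
      have h2 := (KK D a).connected _ h1
      rw [isPreconnected_iff_preconnectedSpace] at h2
      have hQ : ∀ w : {w | (KK D a).τ w = t₀ D a t}, QW D ⟨a, w.1⟩ := fun w => by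
        show (KK D a).z ((KK D a).h w.1) ∈ (opd (r1 D a) : Set (Cn m))
        rw [z_h, show (KK D a).τ w.1 = t₀ D a t from w.2]
        exact hr
      set φ : {w | (KK D a).τ w = t₀ D a t} → WT D := fun w => ⟨⟨a, w.1⟩, hQ w⟩ with hφ
      have hc : Continuous φ := by
        refine Continuous.subtype_mk ?_ _
        exact (continuous_sigmaMk (σ := fun a : PT D => (KK D a).W)).comp continuous_subtype_val
      have h3 := isPreconnected_range hc
      convert h3 using 1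
      ext w
      constructor
      · rintro ⟨hw1, hw2⟩
        obtain ⟨⟨a', w⟩, hQ'⟩ := w
        obtain rfl : a' = a := hw1
        have h4 : NK.scal (σs D a') ((KK D a').τ w) = t := hw2
        exact ⟨⟨w, by
          show (KK D a').τ w = t₀ D a' t
          rw [← h4, t₀_scal]⟩, rfl⟩
      · rintro ⟨w, rfl⟩
        refine ⟨rfl, ?_⟩
        show NK.scal (σs D a) ((KK D a).τ w.1) = t
        rw [show (KK D a).τ w.1 = t₀ D a t from w.2, scal_t₀]
    · convert isPreconnected_empty using 1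
      refine eq_empty_iff_forall_notMem.2 ?_
      rintro ⟨⟨a', w⟩, hQ⟩ ⟨hw1, hw2⟩
      obtain rfl : a' = a := hw1
      have h4 : NK.scal (σs D a') ((KK D a').τ w) = t := hw2
      have h5 : (KK D a').z ((KK D a').h w) ∈ (opd (r1 D a') : Set (Cn m)) := hQ
      rw [← h4, t₀_scal] at hr
      rw [z_h] at h5
      exact hr h5

end Total

end Pool.Agent.KRFX.NX
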