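import Pool.Agent.Work.MP_a2bf38_gt.X.NatTot
import Pool.Agent.Work.MP_a2bf38_gt.I.NatFlow

/-!
# The modification
-/

open scoped ContDiff ENNReal ComplexOrder Topology
open Set Filter Pool.Agent.ToricKRF Pool.Agent.ToricKRF.G Pool.Agent.KRFS Pool.Agent.KRFF
  Pool.Agent.KRFG

namespace Pool.Agent.KRFX.NX

section Total

variable {M Y : Type} [TopologicalSpace M] [TopologicalSpace Y] {n m : ℕ} {κ P : Type}
  {e : κ → OpenPartialHomeomorph M (Cn n)} {b : P → OpenPartialHomeomorph Y (Cn m)} {f : M → Y}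
  {I : Type} {y₀ : I → Y} (D : ∀ i, YData e b f (y₀ i))

/-- the charts of `Y` -/
noncomputable def bT (i : I) : OpenPartialHomeomorph Y (Cn m) :=
  (b (D i).S.j).transHomeomorph (NT.affH (yc D i) (D i).R⁻¹ (inv_ne_zero (D i).R_pos.ne'))

/-- the map to `Y` -/
def σ₀ (p : Σ i, (D i).S.Y') : Y := (D p.1).S.σ p.2

/-- the map to `Y` -/
def σT (p : YT D) : Y := σ₀ D p.1

/-- the part of `Y'` -/
def lbT (p : YT D) : I := p.1.1

/-- the part of a chart of `Y'` -/
def laT (a : PT D) : I := a.1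

/-- the functions `g` -/
noncomputable def gT (L : ℕ) (i : I) : Cn m → Cn L := gS L (D i).S.g (yc D i) (D i).R

theorem bT_apply (i : I) (y : Y) : bT D i y = (D i).R⁻¹ • (b (D i).S.j y - yc D i) := rfl

theorem bT_source (i : I) : (bT D i).source = (b (D i).S.j).source := rfl

theorem bT_symm (i : I) (u : Cn m) : (bT D i).symm u = (b (D i).S.j).symm (yc D i + (D i).R • u) := by
  have h1 : (bT D i).symm u = (b (D i).S.j).symm (yc D i + (D i).R⁻¹⁻¹ • u) := rfl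
  rw [h1, inv_inv]

theorem bT_target (i : I) (u : Cn m) :
    u ∈ (bT D i).target ↔ yc D i + (D i).R • u ∈ (b (D i).S.j).target := by
  have h1 : u ∈ (bT D i).target ↔ yc D i + (D i).R⁻¹⁻¹ • u ∈ (b (D i).S.j).target := Iff.rfl
  rw [h1, inv_inv]

theorem bT_inv (i : I) (y : Y) : yc D i + (D i).R • bT D i y = b (D i).S.j y := by
  rw [bT_apply, smul_smul, mul_inv_cancel₀ (D i).R_pos.ne', one_smul, add_sub_cancel]

theorem nsq_bT (i : I) (y : Y) {s : ℝ} :
    nsq (bT D i y) ≤ s ^ 2 ↔ nsq (b (D i).S.j y - yc D i) ≤ (s * (D i).R) ^ 2 := by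
  rw [bT_apply, NK.nsq_smul, inv_pow, inv_mul_le_iff₀ (by have := (D i).R_pos; positivity), mul_pow,
    mul_comm]

theorem nsq_bT_lt (i : I) (y : Y) {s : ℝ} :
    nsq (bT D i y) < s ^ 2 ↔ nsq (b (D i).S.j y - yc D i) < (s * (D i).R) ^ 2 := by
  rw [bT_apply, NK.nsq_smul, inv_pow, inv_mul_lt_iff₀ (by have := (D i).R_pos; positivity), mul_pow,
    mul_comm]

theorem ball_sub (i : I) {u : Cn m} (hu : nsq u < 100) :
    yc D i + (D i).R • u ∈ (b (D i).S.j).target ∧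
      yc D i + (D i).R • u - yc D i ∈ (opd (D i).S.r : Set (Cn m)) := by
  refine (D i).sub _ ?_
  rw [add_sub_cancel_left, NK.nsq_smul]
  have := (D i).R_pos
  have h2 : 0 < (D i).R ^ 2 := by positivity
  nlinarith

theorem gT_bT {L : ℕ} (i : I) (y : Y) :
    gT D L i (bT D i y) = (pad ((D i).S.g (b (D i).S.j y)) : Cn L) := by
  show pad ((D i).S.g (yc D i + (D i).R • bT D i y)) = _
  rw [bT_inv]

theorem isHolMap (hf : IsHolOnto e b f)
    (hcov : ∀ y, ∃ i, y ∈ (b (D i).S.j).source ∧ nsq (b (D i).S.j y - yc D i) < (D i).R ^ 2) :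
    IsHolMap e (bT D) f := by
  refine ⟨hf.continuous, hf.surj, ?_, ?_, ?_⟩
  · intro c i
    have h1 : (fun z => bT D i (f ((e c).symm z))) = fun z =>
        (-((D i).R⁻¹ • yc D i) : Cn m) + (D i).R⁻¹ • b (D i).S.j (f ((e c).symm z)) := by
      funext z
      rw [bT_apply, smul_sub]
      abel
    rw [h1]
    exact NT.hol_add_smul (NT.isOpen_cdom hf.continuous c (D i).S.j) (hf.holo c (D i).S.j) _ _
  · intro i u hu
    exact (bT_target D i u).2 (ball_sub D i hu).1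
  · intro y
    obtain ⟨i, hi, hi'⟩ := hcov y
    refine ⟨i, hi, ?_⟩
    have h1 := (nsq_bT_lt D i y (s := 1)).2 (by rw [one_mul]; exact hi')
    linarith

theorem isAtlas (hb : IsAtlas b)
    (hcov : ∀ y, ∃ i, y ∈ (b (D i).S.j).source ∧ nsq (b (D i).S.j y - yc D i) < (D i).R ^ 2) :
    IsAtlas (bT D) := by
  refine refine_atlas (σ := fun i => (D i).S.j) hb ⟨fun y => ?_, fun i => subset_rfl, fun i => ?_,
    fun i => ?_⟩
  · obtain ⟨i, hi, -⟩ := hcov y
    exact ⟨i, hi⟩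
  · refine NT.hol_congr (bT D i).open_target (NT.hol_scale (D i).R (yc D i) _) fun u hu => ?_
    simp only [bT_symm]
    exact (b (D i).S.j).right_inv ((bT_target D i u).1 hu)
  · have h1 : IsOpen {z | z ∈ (b (D i).S.j).target ∧ (b (D i).S.j).symm z ∈ (bT D i).source} :=
      (b (D i).S.j).symm.isOpen_inter_preimage (bT D i).open_source
    refine NT.hol_congr h1 (NT.hol_scale (D i).R⁻¹ (-((D i).R⁻¹ • yc D i)) _) fun z hz => ?_
    simp only [bT_apply]
    rw [(b (D i).S.j).right_inv hz.1, smul_sub]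
    abel

variable (T : Tot D)

/-- the map to `Y` in the coordinates at the point with the index `a` -/
noncomputable def GG (a : PT D) (x : Cn m) : Cn m :=
  b (D a.1).S.j ((D a.1).S.σ ((KK D a).z.symm x))

theorem ball_r1 (a : PT D) {x : Cn m} (hx : nsq x < 100) :
    rr D a • x ∈ (opd (r1 D a) : Set (Cn m)) := by
  have h0 := rr_pos D a
  have h1 := rr_le D a
  refine (NK.mem_opd_iff (by linarith)).2 fun i => ?_
  have h2 := NK.norm_cc_lt (r := 10) (by norm_num) (u := x) (by linarith) i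
  rw [NK.cc_smul, norm_mul, Complex.norm_real, Real.norm_of_nonneg h0.le]
  nlinarith

theorem ball_target (a : PT D) {x : Cn m} (hx : nsq x < 100) : rr D a • x ∈ (KK D a).z.target :=
  (((D a.1).Z a.2).sub _ (ball_r1 D a hx)).1

theorem sgm_eq (a : PT D) {x : Cn m} (hx : rr D a • x ∈ (opd (r1 D a) : Set (Cn m))) :
    sgm (bT D) T.z (σT D) (laT D) a x = sgS (GG D a) (yc D a.1) (rr D a) (D a.1).R x := by
  show (D a.1).R⁻¹ • (b (D a.1).S.j (σ₀ D ((T.z a).symm x).1) - yc D a.1) = _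
  rw [T.z_symm a x hx]
  rfl

theorem isOpen_ball100 : IsOpen {x : Cn m | nsq x < 100} :=
  isOpen_lt continuous_nsq continuous_const

theorem sgm_eventually (a : PT D) {x : Cn m} (hx : nsq x < 100) :
    sgm (bT D) T.z (σT D) (laT D) a =ᶠ[𝓝 x] sgS (GG D a) (yc D a.1) (rr D a) (D a.1).R := by
  filter_upwards [isOpen_ball100.mem_nhds hx] with x' hx' using sgm_eq D T a (ball_r1 D a hx')

theorem sgm_fderiv (a : PT D) {x : Cn m} (hx : nsq x < 100) :
    fderiv ℝ (sgm (bT D) T.z (σT D) (laT D) a) x =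
      ((D a.1).R⁻¹ * rr D a) • fderiv ℝ (GG D a) (rr D a • x) := by
  rw [(sgm_eventually D T a hx).fderiv_eq]
  exact fderiv_sgS (KK D a).z.open_target (KK D a).holo (ball_target D a hx)

theorem gT_sgm {L : ℕ} (a : PT D) {x : Cn m} (hx : nsq x < 100) :
    gT D L (laT D a) (sgm (bT D) T.z (σT D) (laT D) a x) =
      (pad ((D a.1).S.g (GG D a (rr D a • x))) : Cn L) := by
  rw [sgm_eq D T a (ball_r1 D a hx)]
  exact gS_sgS (D a.1).R_pos.ne'

/-- the points over the ball of radius `7` are in the core of a chart of `Y'` -/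
theorem cover_YT (p : YT D) (hp : nsq (bT D (lbT D p) (σT D p)) ≤ 49) :
    ∃ a : PT D, laT D a = lbT D p ∧ p ∈ (T.z a).source ∧ nsq (T.z a p) ≤ 1 := by
  obtain ⟨⟨i, y'⟩, hQ⟩ := p
  have h1 : nsq (b (D i).S.j ((D i).S.σ y') - yc D i) ≤ (7 * (D i).R) ^ 2 := by
    have h2 := (nsq_bT D i ((D i).S.σ y') (s := 7)).1 (by
      have h3 : nsq (bT D i ((D i).S.σ y')) ≤ 49 := hp
      linarith)
    exact h2
  obtain ⟨a, ha, ha'⟩ := (D i).cover y' h1
  have h0 := rr_pos D ⟨i, a⟩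
  have h10 := rr_le D ⟨i, a⟩
  have h4 : (KK D ⟨i, a⟩).z y' ∈ (opd (r1 D ⟨i, a⟩) : Set (Cn m)) := by
    refine (NK.mem_opd_iff (by linarith)).2 fun k => ?_
    have h5 := NK.norm_cc_lt h0.le (u := (KK D ⟨i, a⟩).z y') ha' k
    linarith
  refine ⟨⟨i, a⟩, rfl, (T.z_source _ _).2 ⟨y', ha, h4, rfl⟩, ?_⟩
  rw [T.z_apply ⟨i, a⟩ y' hQ, NK.nsq_smul, inv_pow, inv_mul_le_iff₀ (by positivity), mul_one]
  exact ha'.le

/-- `g ∘ σ` in the coordinates of the model -/
theorem gG_hol (a : PT D) : HolOn (fun x => (D a.1).S.g (GG D a x)) (KK D a).z.target := by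
  have ho : IsOpen {y | y ∈ (b (D a.1).S.j).target ∧ y - b (D a.1).S.j (y₀ a.1) ∈
      (opd (D a.1).S.r : Set (Cn m))} :=
    (b (D a.1).S.j).open_target.inter ((NT.isOpen_opd _).preimage (by fun_prop))
  refine NT.hol_comp (KK D a).z.open_target ho (D a.1).S.holo (KK D a).holo fun x _ => ?_
  have h1 := (D a.1).S.range ((KK D a).z.symm x)
  exact ⟨(b (D a.1).S.j).map_source h1.1, h1.2⟩

theorem levz_gT {L : ℕ} (hL : ∀ i, (D i).S.q ≤ L) (a : PT D) {x : Cn m} (hx : nsq x < 100)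
    (h0 : (D a.1).S.g (GG D a (rr D a • x)) ≠ 0) (v : Cn m) :
    levz (fun x => Real.log (nsq (gT D L (laT D a)
        (sgm (bT D) T.z (σT D) (laT D) a x)))) v x =
      levz (fun x => Real.log (nsq ((D a.1).S.g (GG D a x)))) (rr D a • v) (rr D a • x) := by
  obtain ⟨h1, h2⟩ := log_smooth (KK D a).z.open_target (gG_hol D a)
  have h3 := levz_scale (KK D a).z.open_target (gG_hol D a) (ball_target D a hx) h0 v
  rw [Bd.levz_smul h1 h2 ⟨ball_target D a hx, h0⟩, ← h3]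
  refine Bd.levz_congr ?_ v
  filter_upwards [isOpen_ball100.mem_nhds hx] with x' hx'
  rw [gT_sgm D T a hx', nsq_pad (hL a.1)]

/-- the estimate from below of `i ∂ ∂bar log |g ∘ σ|^2 + |dσ|^2` at one chart -/
theorem pos_one {L : ℕ} (hL : ∀ i, (D i).S.q ≤ L) (a : PT D) {x : Cn m} (hx : nsq x < 100)
    (h0 : (D a.1).S.g (GG D a (rr D a • x)) ≠ 0) (v : Cn m) :
    0 ≤ levz (fun x => Real.log (nsq (gT D L (laT D a)
        (sgm (bT D) T.z (σT D) (laT D) a x)))) v x +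
      nsq (fderiv ℝ (sgm (bT D) T.z (σT D) (laT D) a) x v) ∧
    nsq v ≤ (KK D a).A / rr D a ^ 2 * (levz (fun x => Real.log (nsq (gT D L (laT D a)
        (sgm (bT D) T.z (σT D) (laT D) a x)))) v x +
      nsq (fderiv ℝ (sgm (bT D) T.z (σT D) (laT D) a) x v)) := by
  have hρ := rr_pos D a
  have hR := (D a.1).R_pos
  have hR1 := (D a.1).R_le
  rw [levz_gT D T hL a hx h0, sgm_fderiv D T a hx]
  have h1 : nsq (rr D a • v) ≤ (KK D a).A *
      (levz (fun x => Real.log (nsq ((D a.1).S.g (GG D a x)))) (rr D a • v) (rr D a • x) +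
        nsq (fderiv ℝ (GG D a) (rr D a • x) (rr D a • v))) :=
    (KK D a).pos _ (ball_target D a hx) h0 (rr D a • v)
  have h2 : nsq (((((D a.1).R⁻¹ * rr D a) • fderiv ℝ (GG D a) (rr D a • x)) : Cn m →L[ℝ] Cn m) v) =
      ((D a.1).R⁻¹) ^ 2 * nsq (fderiv ℝ (GG D a) (rr D a • x) (rr D a • v)) := by
    rw [smul_apply, mul_smul, NK.nsq_smul, map_smul]
  rw [h2]
  have h3 : nsq (fderiv ℝ (GG D a) (rr D a • x) (rr D a • v)) ≤
      ((D a.1).R⁻¹) ^ 2 * nsq (fderiv ℝ (GG D a) (rr D a • x) (rr D a • v)) := by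
    refine le_mul_of_one_le_left (nsq_nonneg _) (one_le_pow₀ ((one_le_inv₀ hR).2 hR1))
  rw [NK.nsq_smul] at h1
  set X := levz (fun x => Real.log (nsq ((D a.1).S.g (GG D a x)))) (rr D a • v) (rr D a • x) with hX
  set Z := nsq (fderiv ℝ (GG D a) (rr D a • x) (rr D a • v)) with hZ
  have h4 : rr D a ^ 2 * nsq v ≤ (KK D a).A * (X + ((D a.1).R⁻¹) ^ 2 * Z) :=
    h1.trans (mul_le_mul_of_nonneg_left (by linarith) (KK D a).A_nonneg)
  have hρ2 : 0 < rr D a ^ 2 := by positivity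
  refine ⟨?_, ?_⟩
  · by_cases hv : v = 0
    · obtain ⟨h5, h6⟩ := log_smooth (KK D a).z.open_target (gG_hol D a)
      have h7 : X = 0 := by
        have h8 := Bd.levz_smul h5 h6 ⟨ball_target D a hx, h0⟩ 0 v
        rw [hX, hv, smul_zero]
        rw [zero_smul] at h8
        rw [h8]
        ring
      rw [h7, zero_add]
      exact mul_nonneg (sq_nonneg _) (nsq_nonneg _)
    · have h5 : 0 < nsq v := lt_of_le_of_ne (nsq_nonneg v) fun h => hv (nsq_eq_zero.1 h.symm)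
      by_contra h6
      have h7 := mul_nonpos_of_nonneg_of_nonpos (KK D a).A_nonneg (not_le.1 h6).le
      have h8 := mul_pos hρ2 h5
      linarith
  · rw [div_mul_eq_mul_div, le_div_iff₀ hρ2, mul_comm]
    exact h4

/-- the estimate of `|g|^2` and of the Jacobian from below at one chart -/
theorem low_one {L : ℕ} (hL : ∀ i, (D i).S.q ≤ L) (a : PT D) :
    ∃ c : ℝ, 0 < c ∧ ∀ x, nsq x < 100 →
      c * (∏ i, ‖cc x i‖) ^ (KK D a).B ≤
        nsq (gT D L (laT D a) (sgm (bT D) T.z (σT D) (laT D) a x)) ∧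
      c * (∏ i, ‖cc x i‖) ^ (KK D a).B ≤
        |(fderiv ℝ (sgm (bT D) T.z (σT D) (laT D) a) x).det| := by
  have hρ := rr_pos D a
  have hR := (D a.1).R_pos
  have hc := (KK D a).c_pos
  refine ⟨min ((KK D a).c * (rr D a ^ m) ^ (KK D a).B)
    (((D a.1).R⁻¹ * rr D a) ^ (2 * m) * ((KK D a).c * (rr D a ^ m) ^ (KK D a).B)),
    lt_min (by positivity) (by positivity), fun x hx => ?_⟩
  obtain ⟨h1, h2⟩ := (KK D a).low _ (ball_target D a hx)
  rw [prod_smul hρ.le, mul_pow, ← mul_assoc] at h1 h2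
  have h3 : 0 ≤ (∏ i, ‖cc x i‖) ^ (KK D a).B := by positivity
  refine ⟨?_, ?_⟩
  · rw [gT_sgm D T a hx, nsq_pad (hL a.1)]
    exact (mul_le_mul_of_nonneg_right (min_le_left _ _) h3).trans h1
  · have h4 : fderiv ℝ (sgm (bT D) T.z (σT D) (laT D) a) x =
        fderiv ℝ (sgS (GG D a) (yc D a.1) (rr D a) (D a.1).R) x :=
      (sgm_eventually D T a hx).fderiv_eq
    have h5 : |(fderiv ℝ (sgS (GG D a) (yc D a.1) (rr D a) (D a.1).R) x).det| =
        ((D a.1).R⁻¹ * rr D a) ^ (2 * m) * |(fderiv ℝ (GG D a) (rr D a • x)).det| :=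
      det_sgS (KK D a).z.open_target (KK D a).holo (ball_target D a hx) hρ hR
    rw [h4, h5]
    refine (mul_le_mul_of_nonneg_right (min_le_right _ _) h3).trans ?_
    rw [mul_assoc]
    exact mul_le_mul_of_nonneg_left h2 (by positivity)

theorem prod_le_ten {x : Cn m} (hx : nsq x < 100) : ∏ i, ‖cc x i‖ ≤ 10 ^ m := by
  have h1 : ∏ i, ‖cc x i‖ ≤ ∏ _i : Fin m, (10 : ℝ) :=
    Finset.prod_le_prod (fun i _ => norm_nonneg _) fun i _ =>
      (NK.norm_cc_lt (r := 10) (by norm_num) (u := x) (by linarith) i).le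
  simpa using h1

theorem isModif [Finite I] {L : ℕ} (hL : ∀ i, (D i).S.q ≤ L) (hf : IsHolOnto e b f) :
    IsModif (bT D) T.z (σT D) (lbT D) (laT D) (gT D L) := by
  classical
  have : ∀ i, Finite (D i).A := fun i => (D i).fin
  have : Finite (PT D) := inferInstance
  have := Fintype.ofFinite (PT D)
  refine ⟨?_, ?_, ?_, ?_, ?_, ?_, ?_, ?_, ?_, ?_, ?_⟩
  · -- mem
    rintro ⟨⟨i, y'⟩, hQ⟩
    refine ⟨((D i).S.range y').1, ?_⟩
    have h1 := (nsq_bT_lt D i ((D i).S.σ y') (s := 10)).2 hQ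
    have h2 : nsq (bT D i ((D i).S.σ y')) < 100 := by linarith
    exact h2
  · -- target
    intro a x hx
    exact (T.z_target a x).2 (ball_r1 D a hx)
  · -- lb_eq
    intro a p hp
    obtain ⟨y', -, -, h⟩ := (T.z_source a p).1 hp
    show p.1.1 = a.1
    rw [h]
  · -- cover
    intro p hp
    obtain ⟨a, -, h1, h2⟩ := cover_YT D T p hp
    exact ⟨a, h1, h2⟩
  · -- holo
    intro a
    refine NT.hol_congr isOpen_ball100 (NT.hol_mono (sgS_hol (yc := yc D a.1) (ρ := rr D a)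
      (R := (D a.1).R) (KK D a).z.open_target (KK D a).holo) fun x hx => ball_target D a hx)
      fun x hx => sgm_eq D T a (ball_r1 D a hx)
  · -- surj
    intro i y hy hy'
    obtain ⟨p, rfl⟩ := hf.surj y
    have h1 : nsq (b (D i).S.j (f p) - yc D i) ≤ (7 * (D i).R) ^ 2 :=
      (nsq_bT D i (f p) (s := 7)).1 (by linarith)
    have hR := (D i).R_pos
    have h2 : nsq (b (D i).S.j (f p) - yc D i) < (10 * (D i).R) ^ 2 :=
      lt_of_le_of_lt h1 (by nlinarith [mul_pos hR hR])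
    obtain ⟨y', hy''⟩ := (D i).S.onto_top p hy ((D i).sub _ h2).2
    have h3 := (D i).S.comm y' p hy''
    refine ⟨⟨⟨i, y'⟩, ?_⟩, rfl, h3⟩
    show nsq (b (D i).S.j ((D i).S.σ y') - yc D i) < (10 * (D i).R) ^ 2
    rw [h3]
    exact h2
  · -- g_holo
    intro i
    have ho : IsOpen {y | y ∈ (b (D i).S.j).target ∧ y - b (D i).S.j (y₀ i) ∈
        (opd (D i).S.r : Set (Cn m))} :=
      (b (D i).S.j).open_target.inter ((NT.isOpen_opd _).preimage (by fun_prop))
    exact NT.hol_mono (gS_hol ho (D i).S.holo) fun u hu => ball_sub D i hu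
  · -- inj
    rintro ⟨⟨i, y₁⟩, h₁⟩ ⟨⟨i', y₂⟩, h₂⟩ hlb hσ hg
    obtain rfl : i = i' := hlb
    have h3 : (D i).S.σ y₁ = (D i).S.σ y₂ := hσ
    have h4 : (D i).S.g (b (D i).S.j ((D i).S.σ y₁)) ≠ 0 := by
      have h5 : gT D L i (bT D i ((D i).S.σ y₁)) ≠ 0 := hg
      rw [gT_bT] at h5
      exact (pad_ne_zero (hL i)).1 h5
    obtain rfl := (D i).S.inj y₁ y₂ h3 h4
    rfl
  · -- dinj
    intro a x hx hg
    rw [gT_sgm D T a hx] at hg
    have h1 := (KK D a).inj _ (ball_target D a hx) ((pad_ne_zero (hL a.1)).1 hg)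
    rw [sgm_fderiv D T a hx]
    intro u v huv
    refine h1 ?_
    have h2 : (D a.1).R⁻¹ * rr D a ≠ 0 :=
      mul_ne_zero (inv_ne_zero (D a.1).R_pos.ne') (rr_pos D a).ne'
    exact smul_right_injective _ h2 huv
  · -- pos
    refine ⟨∑ a : PT D, (KK D a).A / rr D a ^ 2,
      Finset.sum_nonneg fun a _ => div_nonneg (KK D a).A_nonneg (sq_nonneg _),
      fun a x hx hg v => ?_⟩
    rw [gT_sgm D T a hx] at hg
    obtain ⟨h1, h2⟩ := pos_one D T hL a hx ((pad_ne_zero (hL a.1)).1 hg) v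
    refine h2.trans (mul_le_mul_of_nonneg_right ?_ h1)
    exact Finset.single_le_sum (f := fun a : PT D => (KK D a).A / rr D a ^ 2)
      (fun a _ => div_nonneg (KK D a).A_nonneg (sq_nonneg _)) (Finset.mem_univ a)
  · -- low
    choose c hc hlow using fun a => low_one D T hL a
    set B := Finset.univ.sup fun a : PT D => (KK D a).B with hB
    obtain ⟨c₀, hc₀, hc₁⟩ := NT.exists_pos_le Finset.univ c hc
    refine ⟨c₀ * ((10 ^ m) ^ B)⁻¹, B, by positivity, fun a x hx => ?_⟩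
    obtain ⟨h1, h2⟩ := hlow a x hx
    have h3 : (KK D a).B ≤ B := Finset.le_sup (f := fun a : PT D => (KK D a).B) (Finset.mem_univ a)
    have h4 : 0 ≤ ∏ i, ‖cc x i‖ := by positivity
    have h5 := prod_le_ten hx
    have h6 : ((10 ^ m) ^ B)⁻¹ * (∏ i, ‖cc x i‖) ^ B ≤ (∏ i, ‖cc x i‖) ^ (KK D a).B := by
      rw [inv_mul_le_iff₀ (by positivity)]
      obtain ⟨k, hk⟩ := Nat.exists_eq_add_of_le h3
      rw [hk, pow_add, mul_comm]
      refine mul_le_mul_of_nonneg_right ?_ (by positivity)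
      calc (∏ i, ‖cc x i‖) ^ k ≤ ((10 : ℝ) ^ m) ^ k := pow_le_pow_left₀ h4 h5 k
        _ ≤ ((10 : ℝ) ^ m) ^ ((KK D a).B + k) :=
          pow_le_pow_right₀ (one_le_pow₀ (by norm_num)) (Nat.le_add_left _ _)
    have h7 : c₀ * ((10 ^ m) ^ B)⁻¹ * (∏ i, ‖cc x i‖) ^ B ≤
        c a * (∏ i, ‖cc x i‖) ^ (KK D a).B := by
      rw [mul_assoc]
      exact mul_le_mul (hc₁ a (Finset.mem_univ a)) h6 (by positivity) (hc a).le
    exact ⟨h7.trans h1, h7.trans h2⟩

end Total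

end Pool.Agent.KRFX.NX
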