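import Pool.Agent.Work.MP_a2bf38_gt.X.NatDefs
import Pool.Agent.Work.MP_a2bf38_gt.K.NatTop
import Pool.Agent.Work.MP_a2bf38_gt.H.BoundCalc

/-!
# Scaled coordinates
-/

open scoped ContDiff ENNReal ComplexOrder Topology
open Set Filter Pool.Agent.ToricKRF Pool.Agent.ToricKRF.G Pool.Agent.KRFS Pool.Agent.KRFF
  Pool.Agent.KRFG

namespace Pool.Agent.KRFX.NX

theorem nsq_nonneg {n : ℕ} (v : Cn n) : 0 ≤ nsq v := by
  rw [NK.nsq_eq_sum]
  positivity

theorem nsq_eq_zero {n : ℕ} {v : Cn n} : nsq v = 0 ↔ v = 0 := by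
  constructor
  · intro h
    rw [NK.nsq_eq_sum, Finset.sum_eq_zero_iff_of_nonneg fun i _ => sq_nonneg _] at h
    refine NK.cc_ext fun i => ?_
    have h1 := h i (Finset.mem_univ i)
    rw [NK.cc_zero]
    exact norm_eq_zero.1 (by nlinarith [norm_nonneg (cc v i)])
  · rintro rfl
    simp [nsq]

section Pad

variable {q L : ℕ}

/-- padding with zeros -/
def pad (u : Cn q) : Cn L :=
  (fun i => if h : i.1 < q then u.1 ⟨i.1, h⟩ else 0, fun i => if h : i.1 < q then u.2 ⟨i.1, h⟩ else 0)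

theorem nsq_pad (h : q ≤ L) (u : Cn q) : nsq (pad u : Cn L) = nsq u := by
  obtain ⟨k, rfl⟩ := Nat.exists_eq_add_of_le h
  unfold nsq dotProduct pad
  simp only [Fin.sum_univ_add]
  congr 1
  · simp
  · simp

theorem pad_ne_zero (h : q ≤ L) {u : Cn q} : (pad u : Cn L) ≠ 0 ↔ u ≠ 0 := by
  rw [not_iff_not, ← nsq_eq_zero, nsq_pad h, nsq_eq_zero]

/-- padding as a linear map -/
noncomputable def padL (q L : ℕ) : Cn q →L[ℝ] Cn L :=
  LinearMap.toContinuousLinearMap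
    { toFun := pad
      map_add' := fun u v => by
        ext i
        · simp only [pad, Prod.fst_add, Pi.add_apply]
          split_ifs <;> simp
        · simp only [pad, Prod.snd_add, Pi.add_apply]
          split_ifs <;> simp
      map_smul' := fun c u => by
        ext i
        · simp only [pad, Prod.smul_fst, Pi.smul_apply, RingHom.id_apply]
          split_ifs <;> simp
        · simp only [pad, Prod.smul_snd, Pi.smul_apply, RingHom.id_apply]
          split_ifs <;> simp }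

theorem padL_apply (u : Cn q) : padL q L u = pad u := rfl

theorem padL_J (u : Cn q) : padL q L (J u) = J (padL q L u) := by
  rw [padL_apply, padL_apply]
  ext i
  · simp only [pad, J, Pi.neg_apply]
    split_ifs <;> simp
  · simp only [pad, J]

theorem pad_hol {n : ℕ} {g : Cn n → Cn q} {S : Set (Cn n)} (hS : IsOpen S) (hg : HolOn g S) :
    HolOn (fun y => (pad (g y) : Cn L)) S := by
  have h1 : HolOn (fun u : Cn q => (0 : Cn L) + padL q L u) univ :=
    NT.hol_affine (padL q L) padL_J 0 univ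
  have h2 := NT.hol_comp hS isOpen_univ h1 hg (mapsTo_univ _ _)
  simpa only [zero_add, padL_apply] using h2

end Pad

section Scale

variable {m q L : ℕ} {G : Cn m → Cn m} {g : Cn m → Cn q} {U : Set (Cn m)} {yc : Cn m} {ρ R : ℝ}
  {x : Cn m}

/-- the map `G` in scaled coordinates -/
noncomputable def sgS (G : Cn m → Cn m) (yc : Cn m) (ρ R : ℝ) (x : Cn m) : Cn m :=
  R⁻¹ • (G (ρ • x) - yc)

/-- the functions `g` in scaled coordinates -/
noncomputable def gS (L : ℕ) (g : Cn m → Cn q) (yc : Cn m) (R : ℝ) (y : Cn m) : Cn L :=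
  pad (g (yc + R • y))

theorem gS_sgS (hR : R ≠ 0) : gS L g yc R (sgS G yc ρ R x) = pad (g (G (ρ • x))) := by
  unfold gS sgS
  rw [smul_smul, mul_inv_cancel₀ hR, one_smul, add_sub_cancel]

theorem isOpen_scale (hU : IsOpen U) : IsOpen {x : Cn m | ρ • x ∈ U} :=
  hU.preimage (by fun_prop)

theorem comp_scale_hol {l : ℕ} {G : Cn m → Cn l} (hU : IsOpen U) (hG : HolOn G U) :
    HolOn (fun x => G (ρ • x)) {x | ρ • x ∈ U} := by
  have h1 : HolOn (fun x : Cn m => (0 : Cn m) + ρ • x) {x | ρ • x ∈ U} := NT.hol_scale ρ 0 _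
  have h2 := NT.hol_comp (isOpen_scale hU) hU hG h1 fun x hx => by
    show (0 : Cn m) + ρ • x ∈ U
    rw [zero_add]
    exact hx
  simpa only [zero_add] using h2

theorem sgS_hol (hU : IsOpen U) (hG : HolOn G U) :
    HolOn (sgS G yc ρ R) {x | ρ • x ∈ U} := by
  have h1 := NT.hol_add_smul (isOpen_scale hU) (comp_scale_hol (ρ := ρ) hU hG) R⁻¹ (-(R⁻¹ • yc))
  refine NT.hol_congr (isOpen_scale hU) h1 fun x _ => ?_
  unfold sgS
  rw [smul_sub]
  abel

theorem gS_hol (hU : IsOpen U) (hg : HolOn g U) :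
    HolOn (gS L g yc R) {y | yc + R • y ∈ U} := by
  have ho : IsOpen {y : Cn m | yc + R • y ∈ U} := hU.preimage (by fun_prop)
  have h1 : HolOn (fun y : Cn m => yc + R • y) {y | yc + R • y ∈ U} := NT.hol_scale R yc _
  exact pad_hol ho (NT.hol_comp ho hU hg h1 fun y hy => hy)

theorem fderiv_sgS (hU : IsOpen U) (hG : HolOn G U) (hx : ρ • x ∈ U) :
    fderiv ℝ (sgS G yc ρ R) x = (R⁻¹ * ρ) • fderiv ℝ G (ρ • x) := by
  have h1 : HasFDerivAt G (fderiv ℝ G (ρ • x)) (ρ • x) := (NT.hol_diff hU hG hx).hasFDerivAt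
  have h2 : HasFDerivAt (fun x : Cn m => ρ • x) (ρ • ContinuousLinearMap.id ℝ (Cn m)) x :=
    (ρ • ContinuousLinearMap.id ℝ (Cn m)).hasFDerivAt
  have h3 := ((h1.comp x h2).sub_const yc).const_smul R⁻¹
  have h4 : fderiv ℝ (sgS G yc ρ R) x = _ := h3.fderiv
  rw [h4]
  ext v
  all_goals simp [mul_assoc]

theorem det_sgS (hU : IsOpen U) (hG : HolOn G U) (hx : ρ • x ∈ U) (hρ : 0 < ρ) (hR : 0 < R) :
    |(fderiv ℝ (sgS G yc ρ R) x).det| = (R⁻¹ * ρ) ^ (2 * m) * |(fderiv ℝ G (ρ • x)).det| := by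
  rw [fderiv_sgS hU hG hx]
  have h1 : ((R⁻¹ * ρ) • fderiv ℝ G (ρ • x)).det =
      (R⁻¹ * ρ) ^ (2 * m) * (fderiv ℝ G (ρ • x)).det := by
    have h2 : Module.finrank ℝ (Cn m) = 2 * m := by
      rw [Module.finrank_prod, Module.finrank_fin_fun]
      ring
    rw [← h2]
    exact LinearMap.det_smul _ _
  rw [h1, abs_mul, abs_of_pos (by positivity)]

theorem prod_smul (hρ : 0 ≤ ρ) (x : Cn m) : ∏ i, ‖cc (ρ • x) i‖ = ρ ^ m * ∏ i, ‖cc x i‖ := by
  have h1 : ∀ i, ‖cc (ρ • x) i‖ = ρ * ‖cc x i‖ := fun i => by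
    rw [NK.cc_smul, norm_mul, Complex.norm_real, Real.norm_of_nonneg hρ]
  simp only [h1, Finset.prod_mul_distrib, Finset.prod_const, Finset.card_univ, Fintype.card_fin]

/-- the logarithm of `|g|^2` is smooth where `g` is not `0` -/
theorem log_smooth {l : ℕ} {G : Cn m → Cn l} (hU : IsOpen U) (hG : HolOn G U) :
    IsOpen {x | x ∈ U ∧ G x ≠ 0} ∧
      ContDiffOn ℝ ∞ (fun x => Real.log (nsq (G x))) {x | x ∈ U ∧ G x ≠ 0} := by
  have h1 : IsOpen {x | x ∈ U ∧ G x ≠ 0} := by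
    have h2 := (NT.hol_cont hG).isOpen_inter_preimage hU (isOpen_compl_singleton (x := (0 : Cn l)))
    exact h2
  refine ⟨h1, ?_⟩
  have h3 : ContDiff ℝ ∞ (nsq : Cn l → ℝ) := by
    unfold nsq dotProduct
    fun_prop
  refine (h3.comp_contDiffOn (hG.1.mono fun x hx => hx.1)).log fun x hx => ?_
  exact fun h => hx.2 (nsq_eq_zero.1 h)

theorem levz_scale {l : ℕ} {G : Cn m → Cn l} (hU : IsOpen U) (hG : HolOn G U) (hx : ρ • x ∈ U)
    (h0 : G (ρ • x) ≠ 0) (v : Cn m) :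
    levz (fun x => Real.log (nsq (G (ρ • x)))) v x =
      ρ ^ 2 * levz (fun x => Real.log (nsq (G x))) v (ρ • x) := by
  obtain ⟨h1, h2⟩ := log_smooth hU hG
  have h3 : HolOn (fun x : Cn m => (0 : Cn m) + ρ • x) univ := NT.hol_scale ρ 0 _
  have h4 := levz_comp h1 h2 isOpen_univ h3 (mem_univ x) (by
    rw [zero_add]
    exact ⟨hx, h0⟩) v
  simp only [zero_add] at h4
  rw [h4]
  have h5 : fderiv ℝ (fun x : Cn m => ρ • x) x = ρ • ContinuousLinearMap.id ℝ (Cn m) :=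
    (ρ • ContinuousLinearMap.id ℝ (Cn m)).fderiv
  rw [h5]
  exact Bd.levz_smul h1 h2 ⟨hx, h0⟩ ρ v

end Scale

end Pool.Agent.KRFX.NX
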