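import Pool.Agent.Work.MP_a2bf38_gt.X.NatModel

/-!
# From local modifications to the setup
-/

open scoped ContDiff ENNReal ComplexOrder Topology
open Set Filter Pool.Agent.ToricKRF Pool.Agent.ToricKRF.G Pool.Agent.KRFS Pool.Agent.KRFF
  Pool.Agent.KRFG

namespace Pool.Agent.KRFX

namespace NX

section

variable {M Y : Type} [TopologicalSpace M] [TopologicalSpace Y] {n m : ℕ} {κ P : Type}
  {e : κ → OpenPartialHomeomorph M (Cn n)} {b : P → OpenPartialHomeomorph Y (Cn m)} {f : M → Y}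

theorem exists_cover [CompactSpace M] (hf : IsHolOnto e b f)
    (hmod : ∀ y, Nonempty (ModifAt e b f y)) :
    ∃ (I : Type) (_ : Finite I) (y₀ : I → Y) (D : ∀ i, YData e b f (y₀ i)),
      ∀ y, ∃ i, y ∈ (b (D i).S.j).source ∧ nsq (b (D i).S.j y - yc D i) < (D i).R ^ 2 := by
  classical
  have D : ∀ y : Y, YData e b f y := fun y => (exists_ydata (hmod y).some).some
  set U : Y → Set Y := fun y => (b (D y).S.j).source ∩ (b (D y).S.j) ⁻¹'
    {z | nsq (z - b (D y).S.j y) < (D y).R ^ 2} with hU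
  have hUo : ∀ y, IsOpen (U y) := fun y => (b (D y).S.j).isOpen_inter_preimage
    (isOpen_lt (continuous_nsq.comp (by fun_prop)) continuous_const)
  have hyU : ∀ y, y ∈ U y := fun y => ⟨(D y).S.mem, by
    show nsq (b (D y).S.j y - b (D y).S.j y) < _
    rw [sub_self, nsq_eq_zero.2 rfl]
    have := (D y).R_pos
    positivity⟩
  have hcpt : IsCompact (univ : Set Y) := by
    rw [← hf.surj.range_eq]
    exact isCompact_range hf.continuous
  obtain ⟨t, ht⟩ := hcpt.elim_finite_subcover U hUo (fun y _ => mem_iUnion.2 ⟨y, hyU y⟩)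
  refine ⟨{y : Y // y ∈ t}, inferInstance, fun i => i.1, fun i => D i.1, fun y => ?_⟩
  obtain ⟨y', hy', hyy'⟩ := mem_iUnion₂.1 (ht (mem_univ y))
  exact ⟨⟨y', hy'⟩, hyy'.1, hyy'.2⟩

theorem exists_bound {I : Type} [Finite I] {y₀ : I → Y} (D : ∀ i, YData e b f (y₀ i)) :
    ∃ L : ℕ, ∀ i, (D i).S.q ≤ L := by
  have := Fintype.ofFinite I
  exact ⟨Finset.univ.sup fun i => (D i).S.q, fun i => Finset.le_sup (f := fun i => (D i).S.q)
    (Finset.mem_univ i)⟩

end

end NX

open NX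

theorem exists_model_x {n m : ℕ} {M Y : Type} [TopologicalSpace M] [CompactSpace M]
    [TopologicalSpace Y] {κ P : Type} {e : κ → OpenPartialHomeomorph M (Cn n)}
    {b : P → OpenPartialHomeomorph Y (Cn m)} {f : M → Y} (hb : IsAtlas b)
    (hf : IsHolOnto e b f) (hmod : ∀ y, Nonempty (ModifAt e b f y)) :
    ∃ (l : ℕ) (P₁ P₂ ι Y' W : Type) (_ : Finite P₁) (_ : Finite P₂) (_ : Fintype ι)
      (_ : TopologicalSpace Y') (_ : T2Space Y') (_ : TopologicalSpace W) (_ : T2Space W)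
      (b' : P₁ → OpenPartialHomeomorph Y (Cn m)) (ρ : P₁ → P)
      (z : P₂ → OpenPartialHomeomorph Y' (Cn m)) (σ : Y' → Y) (lb : Y' → P₁) (la : P₂ → P₁)
      (g : P₁ → Cn m → Cn l) (a : ι → OpenPartialHomeomorph W (Cn n)) (al : ι → κ)
      (lab : W → P₂) (π : W → M) (h : W → Y') (τ : W → Cn m) (N : P₂ → Fin m → ℕ) (pc : ι → P₂)
      (s : ι → Fin m → ℝ) (row : ι → Fin n → Option (Fin m)) (y₀ : P₁ → Cn m) (r : P₁ → ℝ),
      IsAtlas b' ∧ IsHolMap e b' f ∧ IsModif b' z σ lb la g ∧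
      IsModel e b' f z σ lb g a al lab π h τ N pc s row ∧ (∀ j, 0 < r j) ∧
      (∀ j, (b' j).source = (b (ρ j)).source) ∧
      (∀ j y, y ∈ (b' j).target → y₀ j + r j • y ∈ (b (ρ j)).target) ∧
      ∀ j p, b (ρ j) p = y₀ j + r j • b' j p := by
  classical
  obtain ⟨I, iI, y₁, D, hcov⟩ := exists_cover hf hmod
  obtain ⟨L, hL⟩ := exists_bound D
  obtain ⟨Tt⟩ := exists_tot D
  have iA : ∀ i, Finite (D i).A := fun i => (D i).fin
  have iP : Finite (PT D) := inferInstance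
  have iι' : ∀ a : PT D, Fintype ((D a.1).Z a.2).D.ι := fun a => ((D a.1).Z a.2).D.fin
  have iPf := Fintype.ofFinite (PT D)
  have iι : Fintype (Σ a : PT D, ((D a.1).Z a.2).D.ι) := inferInstance
  exact ⟨L, I, PT D, _, YT D, WT D, iI, iP, iι, inferInstance, inferInstance, inferInstance,
    inferInstance, bT D, fun i => (D i).S.j, Tt.z, σT D, lbT D, laT D, gT D L, Tt.c,
    fun i => ((D i.1.1).Z i.1.2).D.al i.2, labT D, πT D, NX.hT D, τT D, fun a => (KK D a).N,
    fun i => i.1, fun i k => σs D i.1 k * ((D i.1.1).Z i.1.2).D.s i.2 k,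
    fun i => ((D i.1.1).Z i.1.2).D.row i.2, fun i => yc D i, fun i => (D i).R,
    isAtlas D hb hcov, isHolMap D hf hcov, isModif D Tt hL hf, isModel D Tt hL,
    fun i => (D i).R_pos, fun i => rfl, fun i y hy => (bT_target D i y).1 hy,
    fun i p => (bT_inv D i p).symm⟩

end Pool.Agent.KRFX
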