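import Pool.Agent.Work.MP_a2bf38_gt.X.NatY

/-!
# The total spaces
-/

open scoped ContDiff ENNReal ComplexOrder Topology
open Set Filter Pool.Agent.ToricKRF Pool.Agent.ToricKRF.G Pool.Agent.KRFS Pool.Agent.KRFF
  Pool.Agent.KRFG

namespace Pool.Agent.KRFX.NX

section Total

variable {M Y : Type} [TopologicalSpace M] [TopologicalSpace Y] {n m : ℕ} {κ P : Type}
  {e : κ → OpenPartialHomeomorph M (Cn n)} {b : P → OpenPartialHomeomorph Y (Cn m)} {f : M → Y}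
  {I : Type} {y₀ : I → Y} (D : ∀ i, YData e b f (y₀ i))

/-- the indices of the charts of `Y'` -/
abbrev PT : Type := Σ i, (D i).A

/-- the centre -/
abbrev yc (i : I) : Cn m := b (D i).S.j (y₀ i)

/-- the model at the point with the index `a` -/
abbrev KK (a : PT D) := ((D a.1).Z a.2).K

/-- the radius -/
abbrev rr (a : PT D) : ℝ := ((D a.1).Z a.2).ρ

/-- the large radius -/
abbrev r1 (a : PT D) : ℝ := ((D a.1).Z a.2).ρ₁

theorem rr_pos (a : PT D) : 0 < rr D a := ((D a.1).Z a.2).ρ_pos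

theorem rr_le (a : PT D) : 10 * rr D a ≤ r1 D a := ((D a.1).Z a.2).ten

/-- the points over the ball of radius `10` -/
def QY (p : Σ i, (D i).S.Y') : Prop := p.2 ∈ Oset (D p.1).S (D p.1).R

/-- the space `Y'` -/
abbrev YT : Type := {p : Σ i, (D i).S.Y' // QY D p}

/-- the points of the model over the polydisc -/
def QW (p : Σ a : PT D, (KK D a).W) : Prop :=
  (KK D p.1).z ((KK D p.1).h p.2) ∈ (opd (r1 D p.1) : Set (Cn m))

/-- the space `W` -/
abbrev WT : Type := {p : Σ a : PT D, (KK D a).W // QW D p}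

theorem isOpen_QY : IsOpen {p | QY D p} := by
  rw [isOpen_sigma_iff]
  exact fun i => isOpen_Oset (D i).S (D i).R

theorem isOpen_QW : IsOpen {p | QW D p} := by
  rw [isOpen_sigma_iff]
  exact fun a => isOpen_V (D a.1).S (KK D a) (r1 D a)

/-- the charts of the total spaces -/
structure Tot where
  z : PT D → OpenPartialHomeomorph (YT D) (Cn m)
  z_target : ∀ a x, x ∈ (z a).target ↔ rr D a • x ∈ (opd (r1 D a) : Set (Cn m))
  z_source : ∀ a p, p ∈ (z a).source ↔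
    ∃ y' : (D a.1).S.Y', y' ∈ (KK D a).z.source ∧ (KK D a).z y' ∈ (opd (r1 D a) : Set (Cn m)) ∧ p.1 = ⟨a.1, y'⟩
  z_apply : ∀ (a : PT D) (y' : (D a.1).S.Y') (h : QY D ⟨a.1, y'⟩),
    z a ⟨⟨a.1, y'⟩, h⟩ = (rr D a)⁻¹ • (KK D a).z y'
  z_symm : ∀ a x, rr D a • x ∈ (opd (r1 D a) : Set (Cn m)) →
    ((z a).symm x).1 = ⟨a.1, (KK D a).z.symm (rr D a • x)⟩
  c : (Σ a : PT D, ((D a.1).Z a.2).D.ι) → OpenPartialHomeomorph (WT D) (Cn n)
  c_target : ∀ i, (c i).target = opd 10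
  c_source : ∀ i p, p ∈ (c i).source ↔ ∃ w' ∈ (((D i.1.1).Z i.1.2).D.a i.2).source, p.1 = ⟨i.1, w'⟩
  c_apply : ∀ (i : Σ a : PT D, ((D a.1).Z a.2).D.ι) (w' : (KK D i.1).W) (h : QW D ⟨i.1, w'⟩), c i ⟨⟨i.1, w'⟩, h⟩ = ((D i.1.1).Z i.1.2).D.a i.2 w'
  c_symm : ∀ i, ∀ x ∈ (opd 10 : Set (Cn n)),
    ((c i).symm x).1 = ⟨i.1, (((D i.1.1).Z i.1.2).D.a i.2).symm x⟩

theorem exists_tot : Nonempty (Tot D) := by
  have h1 := fun a : PT D => exists_scaled (KK D a).z (rr_pos D a)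
    (fun w hw => (((D a.1).Z a.2).sub w hw).1)
  choose E hEt hEs hEa hEsymm using h1
  have hne : ∀ a, (E a).source.Nonempty := fun a => by
    refine ⟨(D a.1).pt a.2, (hEs a _).2 ⟨(KK D a).mem, ?_⟩⟩
    rw [(KK D a).center]
    exact NT.zero_mem_opd (by have := rr_pos D a; have := rr_le D a; linarith)
  have hQ : ∀ a, ∀ w ∈ (E a).source, QY D ⟨a.1, w⟩ := fun a w hw => by
    obtain ⟨hw1, hw2⟩ := (hEs a w).1 hw
    have h2 := (((D a.1).Z a.2).sub _ hw2).2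
    rw [(KK D a).z.left_inv hw1] at h2
    exact h2
  have h2 := fun a : PT D => exists_sub_chart (X := fun i => (D i).S.Y') (isOpen_QY D) a.1 (E a)
    (hne a) (hQ a)
  choose z hzt hzs hza hzsymm using h2
  have hQW : ∀ i : (Σ a : PT D, ((D a.1).Z a.2).D.ι), ∀ w ∈ (((D i.1.1).Z i.1.2).D.a i.2).source,
      QW D ⟨i.1, w⟩ := fun i w hw => ((D i.1.1).Z i.1.2).D.sub i.2 hw
  have h3 := fun i : (Σ a : PT D, ((D a.1).Z a.2).D.ι) =>
    exists_sub_chart (X := fun a : PT D => (KK D a).W) (isOpen_QW D) i.1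
      (((D i.1.1).Z i.1.2).D.a i.2) (((D i.1.1).Z i.1.2).D.nonempty i.2) (hQW i)
  choose c hct hcs hca hcsymm using h3
  refine ⟨⟨z, fun a x => ?_, fun a p => ?_, fun a y' h => ?_, fun a x hx => ?_, c, fun i => ?_,
    fun i p => hcs i p, fun i w' h => hca i w' h, fun i x hx => ?_⟩⟩
  · rw [hzt, hEt]
  · rw [hzs]
    constructor
    · rintro ⟨w', hw', hp⟩
      obtain ⟨h4, h5⟩ := (hEs a w').1 hw'
      exact ⟨w', h4, h5, hp⟩
    · rintro ⟨w', h4, h5, hp⟩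
      exact ⟨w', (hEs a w').2 ⟨h4, h5⟩, hp⟩
  · rw [hza, hEa]
  · rw [hzsymm a x ((hEt a x).2 hx), hEsymm]
  · rw [hct, ((D i.1.1).Z i.1.2).D.target]
  · exact hcsymm i x (by rw [((D i.1.1).Z i.1.2).D.target]; exact hx)

end Total

end Pool.Agent.KRFX.NX
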