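import Pool.Agent.Work.MP_a2bf38_gt.K.NatTop
import Pool.Agent.Work.MP_a2bf38_gt.X.NatDefs

/-!
# A finite part of a semistable model
-/

open scoped ContDiff ENNReal ComplexOrder Topology
open Set Filter Pool.Agent.ToricKRF Pool.Agent.ToricKRF.G Pool.Agent.KRFS Pool.Agent.KRFF
  Pool.Agent.KRFG

namespace Pool.Agent.KRFX

/-- a finite part of a semistable model -/
structure WData {W M : Type} [TopologicalSpace W] [TopologicalSpace M] {n m : ℕ} {κ : Type}
    (e : κ → OpenPartialHomeomorph M (Cn n)) (π : W → M) (τ : W → Cn m) (N : Fin m → ℕ) (r : ℝ)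
    (V : Set W) where
  R : ℝ
  R_pos : 0 < R
  ι : Type
  fin : Fintype ι
  a : ι → OpenPartialHomeomorph W (Cn n)
  al : ι → κ
  row : ι → Fin n → Option (Fin m)
  s : ι → Fin m → ℝ
  s_pos : ∀ i k, 0 < s i k
  target : ∀ i, (a i).target = opd 10
  nonempty : ∀ i, (a i).source.Nonempty
  sub : ∀ i, (a i).source ⊆ V
  row_ne : ∀ i k, ∃ l, row i l = some k
  mem : ∀ i, ∀ w ∈ (a i).source, π w ∈ (e (al i)).source
  holo : ∀ i, HolOn (fun x => e (al i) (π ((a i).symm x))) (opd 10)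
  mono : ∀ i, ∀ w ∈ (a i).source, ∀ k, cc (τ w) k = s i k * prow (row i) k (a i w)
  cover : ∀ w, (∀ i, ‖cc (τ w) i‖ ^ N i ≤ R) → ∃ i, w ∈ (a i).source ∧ a i w ∈ cpd 1
  small : ∀ t : Cn m, (∀ i, ‖cc t i‖ ^ N i ≤ R) → t ∈ opd r

theorem exists_wdata {W M : Type} [TopologicalSpace W] [TopologicalSpace M] {n m : ℕ} {κ : Type}
    {e : κ → OpenPartialHomeomorph M (Cn n)} {π : W → M} {τ : W → Cn m} {N : Fin m → ℕ} {r : ℝ}
    {V : Set W} (hr0 : 0 < r) (hN : ∀ i, 0 < N i) (cont : Continuous τ)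
    (proper : ∀ s, 0 ≤ s → s < r → IsCompact {w | τ w ∈ cpd s})
    (chart : ∀ w, τ w = 0 → ∃ (a : OpenPartialHomeomorph W (Cn n)) (c : κ)
      (row : Fin n → Option (Fin m)), w ∈ a.source ∧ a w = 0 ∧ (∀ i, ∃ l, row l = some i) ∧
        (∀ w' ∈ a.source, π w' ∈ (e c).source) ∧
        HolOn (fun x => e c (π (a.symm x))) a.target ∧
        ∀ w' ∈ a.source, ∀ i, cc (τ w') i = prow row i (a w'))
    (hV : IsOpen V) (hV0 : ∀ w, τ w = 0 → w ∈ V) : Nonempty (WData e π τ N r V) := by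
  classical
  have hch : ∀ w : {w // τ w = 0}, ∃ (a : OpenPartialHomeomorph W (Cn n)) (c : κ)
    (row : Fin n → Option (Fin m)), w.1 ∈ a.source ∧ a w.1 = 0 ∧ (∀ i, ∃ l, row l = some i) ∧
      (∀ w' ∈ a.source, π w' ∈ (e c).source) ∧
      HolOn (fun x => e c (π (a.symm x))) a.target ∧
      ∀ w' ∈ a.source, ∀ i, cc (τ w') i = prow row i (a w') := fun w => chart w.1 w.2
  choose a₁ c row hwa₁ ha0₁ hrow hmem₁ hholo₁ hmono₁ using hch
  -- restrict to `V`
  set a₀ : {w // τ w = 0} → OpenPartialHomeomorph W (Cn n) := fun w => (a₁ w).restr V with ha₀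
  have hsrc : ∀ w, (a₀ w).source = (a₁ w).source ∩ V := fun w => by
    rw [ha₀]
    simp only [OpenPartialHomeomorph.restr_source, hV.interior_eq]
  have hcoe : ∀ w x, a₀ w x = a₁ w x := fun w x => rfl
  have hsym : ∀ w x, (a₀ w).symm x = (a₁ w).symm x := fun w x => rfl
  have htgt : ∀ w, (a₀ w).target ⊆ (a₁ w).target := fun w x hx => by
    have h1 : (a₀ w).symm x ∈ (a₀ w).source := (a₀ w).map_target hx
    rw [hsrc] at h1
    have h2 : a₀ w ((a₀ w).symm x) = x := (a₀ w).right_inv hx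
    have h3 := (a₁ w).map_source h1.1
    rw [← hcoe, h2] at h3
    exact h3
  have hwa : ∀ w, w.1 ∈ (a₀ w).source := fun w => by
    rw [hsrc]
    exact ⟨hwa₁ w, hV0 w.1 w.2⟩
  have ha0 : ∀ w, a₀ w w.1 = 0 := fun w => ha0₁ w
  have hmem : ∀ w, ∀ w' ∈ (a₀ w).source, π w' ∈ (e (c w)).source := fun w w' hw' =>
    hmem₁ w w' (by rw [hsrc] at hw'; exact hw'.1)
  have hholo : ∀ w, HolOn (fun x => e (c w) (π ((a₀ w).symm x))) (a₀ w).target := fun w =>
    ⟨(hholo₁ w).1.mono (htgt w), fun z hz u => (hholo₁ w).2 z (htgt w hz) u⟩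
  have hmono : ∀ w, ∀ w' ∈ (a₀ w).source, ∀ i, cc (τ w') i = prow (row w) i (a₀ w w') :=
    fun w w' hw' => hmono₁ w w' (by rw [hsrc] at hw'; exact hw'.1)
  have hrad : ∀ w : {w // τ w = 0}, ∃ r > 0, ∀ x : Cn n, x - 0 ∈ opd r → x ∈ (a₀ w).target :=
    fun w => NT.exists_opd (a₀ w).open_target (by rw [← ha0 w]; exact (a₀ w).map_source (hwa w))
  choose ρ hr hra using hrad
  have hbase := fun w => NT.exists_base (a₀ w) 0 (hr w) (hra w)
  choose a hat has hav hasymm using hbase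
  -- the finite cover of `τ = 0`
  set U : {w // τ w = 0} → Set W := fun w => (a₀ w).source ∩ (a₀ w) ⁻¹' (opd (ρ w / 10)) with hU
  have hUo : ∀ w, IsOpen (U w) := fun w => (a₀ w).isOpen_inter_preimage (NT.isOpen_opd _)
  have hwU : ∀ w, w.1 ∈ U w := fun w => ⟨hwa w, by
    rw [mem_preimage, ha0 w]
    exact NT.zero_mem_opd (by have := hr w; positivity)⟩
  have hc1 : IsCompact {w | τ w ∈ cpd (r / 2)} := proper _ (by linarith) (by linarith)
  have hclosed : IsClosed {w | τ w = 0} := isClosed_singleton.preimage cont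
  have hc0 : IsCompact {w | τ w = 0} := hc1.of_isClosed_subset hclosed fun w hw => by
    show τ w ∈ cpd (r / 2)
    rw [show τ w = 0 from hw]
    exact NT.zero_mem_cpd _
  obtain ⟨t, ht⟩ := hc0.elim_finite_subcover U hUo
    (fun w hw => mem_iUnion.2 ⟨⟨w, hw⟩, hwU ⟨w, hw⟩⟩)
  set U' : Set W := ⋃ w ∈ t, U w with hU'
  have hU'o : IsOpen U' := isOpen_biUnion fun w _ => hUo w
  -- a neighbourhood of `τ = 0` is covered
  obtain ⟨ε, hε, hεr, hεU⟩ : ∃ ε > 0, ε ≤ r / 2 ∧ ∀ w, τ w ∈ cpd ε → w ∈ U' := by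
    have hC : IsCompact ({w | τ w ∈ cpd (r / 2)} \ U') := hc1.diff hU'o
    rcases ({w | τ w ∈ cpd (r / 2)} \ U').eq_empty_or_nonempty with hemp | hne
    · refine ⟨r / 2, by positivity, le_rfl, fun w hw => ?_⟩
      by_contra h
      have : w ∈ {w | τ w ∈ cpd (r / 2)} \ U' := ⟨hw, h⟩
      rw [hemp] at this
      exact this
    · obtain ⟨w₁, hw₁, hmin⟩ := hC.exists_isMinOn hne (f := fun w => ‖τ w‖)
        cont.norm.continuousOn
      have hpos : 0 < ‖τ w₁‖ := norm_pos_iff.2 fun h => hw₁.2 (ht h)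
      refine ⟨min (r / 2) (‖τ w₁‖ / 2), lt_min (by positivity)
        (by positivity), min_le_left _ _, fun w hw => ?_⟩
      by_contra h
      have hw2 : τ w ∈ cpd (r / 2) := fun i => (hw i).trans
        (pow_le_pow_left₀ (le_min (by positivity) (by positivity))
          (min_le_left _ _) 2)
      have h1 : ‖τ w₁‖ ≤ ‖τ w‖ := hmin ⟨hw2, h⟩
      have h2 : ‖τ w‖ ≤ ‖τ w₁‖ / 2 := by
        rw [Prod.norm_def, max_le_iff, pi_norm_le_iff_of_nonneg (by positivity),
          pi_norm_le_iff_of_nonneg (by positivity)]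
        have h3 : ∀ i, (τ w).1 i ^ 2 + (τ w).2 i ^ 2 ≤ (‖τ w₁‖ / 2) ^ 2 := fun i =>
          (hw i).trans (pow_le_pow_left₀ (le_min (by positivity) (by positivity))
            (min_le_right _ _) 2)
        refine ⟨fun i => ?_, fun i => ?_⟩
        · rw [Real.norm_eq_abs]
          exact abs_le_of_sq_le_sq (by nlinarith [h3 i, sq_nonneg ((τ w).2 i)]) (by positivity)
        · rw [Real.norm_eq_abs]
          exact abs_le_of_sq_le_sq (by nlinarith [h3 i, sq_nonneg ((τ w).1 i)]) (by positivity)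
      linarith
  -- the radius `R`
  obtain ⟨R, hRpos, hR₁N⟩ := NT.exists_pos_le (Finset.univ : Finset (Fin m))
    (fun i => ε ^ N i) (fun i => by positivity)
  have hRN : ∀ t' : Cn m, (∀ i, ‖cc t' i‖ ^ N i ≤ R) → t' ∈ cpd ε := by
    intro t' ht'
    rw [NK.mem_cpd_iff hε.le]
    intro i
    exact le_of_pow_le_pow_left₀ (hN i).ne' hε.le
      ((ht' i).trans (hR₁N i (Finset.mem_univ i)))
  have hs := fun (w : {w : {w // τ w = 0} // w ∈ t}) (k : Fin m) =>
    NK.prow_smul (row w) k (q := ρ w / 10) (by have := hr w; positivity)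
  choose s hspos hss using hs
  refine ⟨⟨R, hRpos, {w : {w // τ w = 0} // w ∈ t}, inferInstance, fun w => a w,
    fun w => c w, fun w => row w, s, hspos, fun w => hat w, ?_, ?_, fun w => hrow w, ?_, ?_, ?_, ?_,
    ?_⟩⟩
  · intro w
    refine ⟨w.1.1, (has w _).2 ⟨hwa w, ?_⟩⟩
    rw [ha0, sub_zero]
    exact NT.zero_mem_opd (hr w)
  · intro w w' hw'
    have h1 := ((has w w').1 hw').1
    rw [hsrc] at h1
    exact h1.2
  · intro w w' hw'
    exact hmem w w' ((has w w').1 hw').1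
  · intro w
    have h1 : (fun x => e (c w) (π ((a w).symm x))) = fun x =>
        e (c w) (π ((a₀ w).symm (0 + (ρ w / 10) • x))) := by
      funext x
      rw [hasymm]
    rw [h1]
    refine NT.hol_comp (G := fun x => e (c w) (π ((a₀ w).symm x))) (NT.isOpen_opd 10)
      (a₀ w).open_target (hholo w) (NT.hol_scale (ρ w / 10) 0 _) ?_
    intro x hx
    refine hra w _ ?_
    show (0 : Cn n) + (ρ w / 10) • x - 0 ∈ opd (ρ w)
    rw [zero_add, sub_zero]
    have h4 := NT.smul_mem_opd (c := ρ w / 10) (r := 10) (u := x) (by have := hr w; positivity)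
    have h5 : ρ w / 10 * 10 = ρ w := by ring
    rw [h5] at h4
    exact h4.2 hx
  · intro w w' hw' k
    rw [hmono w w' ((has w w').1 hw').1 k, ← hss]
    congr 1
    rw [hav, sub_zero, smul_smul]
    have h5 : ρ w / 10 * (10 / ρ w) = 1 := by
      have := (hr w).ne'
      field_simp
    rw [h5, one_smul]
  · intro w hw
    obtain ⟨w', hw', hww'⟩ := mem_iUnion₂.1 (hεU w (hRN _ hw))
    refine ⟨⟨w', hw'⟩, (has w' w).2 ⟨hww'.1, ?_⟩, ?_⟩
    · rw [sub_zero]
      exact NT.opd_mono (by have := hr w'; positivity) (by have := hr w'; linarith) hww'.2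
    · rw [hav, sub_zero]
      have h4 := NT.smul_mem_cpd (c := 10 / ρ w') (r := ρ w' / 10) (u := a₀ w' w)
        (by have := hr w'; positivity)
      have h5 : 10 / ρ w' * (ρ w' / 10) = 1 := by
        have := (hr w').ne'
        field_simp
      rw [h5] at h4
      exact h4.2 (NT.opd_subset_cpd _ hww'.2)
  · intro t' ht'
    have h1 := hRN t' ht'
    intro i
    refine lt_of_le_of_lt (h1 i) (pow_lt_pow_left₀ (by linarith) hε.le (by norm_num))

/-- a chart of an open part of a disjoint union -/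
theorem exists_sub_chart {J : Type} {X : J → Type} [∀ j, TopologicalSpace (X j)] {n : ℕ}
    {Q : (Σ j, X j) → Prop} (hQ : IsOpen {p | Q p}) (j : J)
    (a : OpenPartialHomeomorph (X j) (Cn n)) (ha : a.source.Nonempty)
    (haQ : ∀ w ∈ a.source, Q ⟨j, w⟩) : ∃ a' : OpenPartialHomeomorph {p // Q p} (Cn n),
      a'.target = a.target ∧ (∀ p, p ∈ a'.source ↔ ∃ w' ∈ a.source, p.1 = ⟨j, w'⟩) ∧
      (∀ w' (h : Q ⟨j, w'⟩), a' ⟨⟨j, w'⟩, h⟩ = a w') ∧
      ∀ x ∈ a.target, (a'.symm x).1 = ⟨j, a.symm x⟩ := by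
  obtain ⟨w₀, hw₀⟩ := ha
  obtain ⟨a₁, h1t, h1s, h1v, h1y⟩ := NK.exists_sigma_chart j a ⟨w₀, hw₀⟩
  have : Nonempty {p // Q p} := ⟨⟨⟨j, w₀⟩, haQ w₀ hw₀⟩⟩
  set E : OpenPartialHomeomorph {p // Q p} (Σ j, X j) :=
    Topology.IsOpenEmbedding.toOpenPartialHomeomorph Subtype.val hQ.isOpenEmbedding_subtypeVal
    with hE
  have hEs : E.source = univ := rfl
  have hEt : E.target = {p | Q p} := by simp [hE]
  have hEa : ∀ p, E p = p.1 := fun p => rfl
  refine ⟨E.trans a₁, ?_, ?_, ?_, ?_⟩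
  · rw [OpenPartialHomeomorph.trans_target, h1t]
    refine inter_eq_left.2 fun x hx => ?_
    rw [mem_preimage, hEt, mem_setOf_eq, h1y]
    exact haQ _ (a.map_target hx)
  · intro p
    rw [OpenPartialHomeomorph.trans_source, hEs, univ_inter, mem_preimage, hEa, h1s]
  · intro w' h
    rw [OpenPartialHomeomorph.coe_trans, Function.comp_apply, hEa]
    exact h1v w'
  · intro x hx
    rw [OpenPartialHomeomorph.coe_trans_symm, Function.comp_apply]
    have h2 : a₁.symm x ∈ E.target := by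
      rw [hEt, mem_setOf_eq, h1y]
      exact haQ _ (a.map_target hx)
    have h3 := E.right_inv h2
    rw [hEa] at h3
    rw [h3, h1y]

end Pool.Agent.KRFX
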