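import Pool.Agent.Work.MP_a2bf38_gt.X.NatZ

/-!
# The data at one point of the base
-/

open scoped ContDiff ENNReal ComplexOrder Topology
open Set Filter Pool.Agent.ToricKRF Pool.Agent.ToricKRF.G Pool.Agent.KRFS Pool.Agent.KRFF
  Pool.Agent.KRFG

namespace Pool.Agent.KRFX.NX

section

variable {M Y : Type} [TopologicalSpace M] [TopologicalSpace Y] {n m : ℕ} {κ P : Type}
  {e : κ → OpenPartialHomeomorph M (Cn n)} {b : P → OpenPartialHomeomorph Y (Cn m)} {f : M → Y}
  {y₀ : Y}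

theorem continuous_nsq {m : ℕ} : Continuous (nsq : Cn m → ℝ) := by
  unfold nsq dotProduct
  fun_prop

/-- the part of `Y'` over the ball of radius `10 R` -/
def Oset (S : ModifAt e b f y₀) (R : ℝ) : Set S.Y' :=
  {y' | nsq (b S.j (S.σ y') - b S.j y₀) < (10 * R) ^ 2}

theorem continuous_base (S : ModifAt e b f y₀) :
    Continuous fun y' : S.Y' => b S.j (S.σ y') - b S.j y₀ := by
  refine Continuous.sub ?_ continuous_const
  refine (b S.j).continuousOn.comp_continuous S.cont fun y' => (S.range y').1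

theorem isOpen_Oset (S : ModifAt e b f y₀) (R : ℝ) : IsOpen (Oset S R) :=
  isOpen_lt (continuous_nsq.comp (continuous_base S)) continuous_const

variable (e b f y₀) in
/-- the data at the point `y₀` of `Y` -/
structure YData where
  S : ModifAt e b f y₀
  R : ℝ
  R_pos : 0 < R
  R_le : R ≤ 1
  sub : ∀ u, nsq (u - b S.j y₀) < (10 * R) ^ 2 →
    u ∈ (b S.j).target ∧ u - b S.j y₀ ∈ (opd S.r : Set (Cn m))
  A : Type
  fin : Finite A
  pt : A → S.Y'
  mem : ∀ a, pt a ∈ Oset S R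
  Z : ∀ a : A, ZData S (Oset S R) (pt a)
  cover : ∀ y', nsq (b S.j (S.σ y') - b S.j y₀) ≤ (7 * R) ^ 2 →
    ∃ a, y' ∈ (Z a).K.z.source ∧ nsq ((Z a).K.z y') < (Z a).ρ ^ 2

theorem exists_ydata (S : ModifAt e b f y₀) : Nonempty (YData e b f y₀) := by
  classical
  obtain ⟨R₀, hR₀, hR₀b⟩ := NT.exists_opd (b S.j).open_target ((b S.j).map_source S.mem)
  set R : ℝ := min 1 (min (R₀ / 10) (S.r / 10)) with hR
  have hSr := S.r_pos
  have hRpos : 0 < R := lt_min one_pos (lt_min (by positivity) (by positivity))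
  have hR1 : R ≤ 1 := min_le_left _ _
  have hR2 : 10 * R ≤ R₀ := by
    have : R ≤ R₀ / 10 := (min_le_right _ _).trans (min_le_left _ _)
    linarith
  have hR3 : 10 * R ≤ S.r := by
    have : R ≤ S.r / 10 := (min_le_right _ _).trans (min_le_right _ _)
    linarith
  have hball : ∀ u : Cn m, nsq u < (10 * R) ^ 2 → u ∈ (opd (10 * R) : Set (Cn m)) := fun u hu =>
    (NK.mem_opd_iff (by positivity)).2 fun i => NK.norm_cc_lt (by positivity) hu i
  have hsub : ∀ u, nsq (u - b S.j y₀) < (10 * R) ^ 2 →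
      u ∈ (b S.j).target ∧ u - b S.j y₀ ∈ (opd S.r : Set (Cn m)) := fun u hu =>
    ⟨hR₀b u (NT.opd_mono (by positivity) hR2 (hball _ hu)),
      NT.opd_mono (by positivity) hR3 (hball _ hu)⟩
  have Z : ∀ y' : Oset S R, ZData S (Oset S R) y'.1 := fun y' =>
    (exists_zdata S (isOpen_Oset S R) y'.2).some
  set U : Oset S R → Set S.Y' := fun y' => (Z y').K.z.source ∩
    (Z y').K.z ⁻¹' {x | nsq x < (Z y').ρ ^ 2} with hU
  have hUo : ∀ y', IsOpen (U y') := fun y' => (Z y').K.z.isOpen_inter_preimage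
    (isOpen_lt continuous_nsq continuous_const)
  have hyU : ∀ y' : Oset S R, y'.1 ∈ U y' := fun y' => ⟨(Z y').K.mem, by
    show nsq ((Z y').K.z y'.1) < _
    rw [(Z y').K.center]
    have h0 : nsq (0 : Cn m) = 0 := by simp [nsq]
    rw [h0]
    have := (Z y').ρ_pos
    positivity⟩
  have hK : IsCompact {y' : S.Y' | nsq (b S.j (S.σ y') - b S.j y₀) ≤ (7 * R) ^ 2} := by
    refine (S.proper (7 * R) (by positivity) (by linarith)).of_isClosed_subset
      (isClosed_le (continuous_nsq.comp (continuous_base S)) continuous_const) fun y' hy' => ?_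
    exact (NK.mem_cpd_iff (by positivity)).2 fun i => NK.norm_cc_le (by positivity) hy' i
  obtain ⟨t, ht⟩ := hK.elim_finite_subcover U hUo (fun y' hy' => by
    have h0 : (7 * R) ^ 2 < (10 * R) ^ 2 := by nlinarith [mul_pos hRpos hRpos]
    have h2 : nsq (b S.j (S.σ y') - b S.j y₀) ≤ (7 * R) ^ 2 := hy'
    have h1 : y' ∈ Oset S R := lt_of_le_of_lt h2 h0
    exact mem_iUnion.2 ⟨⟨y', h1⟩, hyU ⟨y', h1⟩⟩)
  refine ⟨⟨S, R, hRpos, hR1, hsub, {y' : Oset S R // y' ∈ t}, inferInstance, fun a => a.1.1,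
    fun a => a.1.2, fun a => Z a.1, fun y' hy' => ?_⟩⟩
  obtain ⟨y₁, hy₁, hy'₁⟩ := mem_iUnion₂.1 (ht hy')
  exact ⟨⟨y₁, hy₁⟩, hy'₁⟩

end

end Pool.Agent.KRFX.NX
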