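import Pool.Agent.Work.MP_a2bf38_gt.X.NatScale
import Pool.Agent.Work.MP_a2bf38_gt.X.NatW

/-!
# The data at one point of the modification
-/

open scoped ContDiff ENNReal ComplexOrder Topology
open Set Filter Pool.Agent.ToricKRF Pool.Agent.ToricKRF.G Pool.Agent.KRFS Pool.Agent.KRFF
  Pool.Agent.KRFG

namespace Pool.Agent.KRFX

attribute [instance] ModifAt.top ModifAt.t2 SemistableOver.top SemistableOver.t2

namespace NX

/-- the powers of the coordinates -/
noncomputable def powC {m : ℕ} (N : Fin m → ℕ) (t : Cn m) : Cn m := ofC fun i => cc t i ^ N i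

theorem cc_ofC {m : ℕ} (z : Fin m → ℂ) (i : Fin m) : cc (ofC z) i = z i := by
  apply Complex.ext <;> simp [cc, ofC]

theorem cc_powC {m : ℕ} (N : Fin m → ℕ) (t : Cn m) (i : Fin m) : cc (powC N t) i = cc t i ^ N i :=
  cc_ofC _ i

theorem continuous_cc {m : ℕ} (i : Fin m) : Continuous fun t : Cn m => cc t i := by
  have h : (fun t : Cn m => cc t i) = fun t : Cn m =>
      ((t.1 i : ℝ) : ℂ) + ((t.2 i : ℝ) : ℂ) * Complex.I := by
    funext t
    apply Complex.ext <;> simp [cc]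
  rw [h]
  fun_prop

theorem continuous_powC {m : ℕ} (N : Fin m → ℕ) : Continuous (powC N) := by
  unfold powC ofC
  refine Continuous.prodMk (continuous_pi fun i => ?_) (continuous_pi fun i => ?_)
  · exact Complex.continuous_re.comp ((continuous_cc i).pow _)
  · exact Complex.continuous_im.comp ((continuous_cc i).pow _)

theorem powC_zero {m : ℕ} {N : Fin m → ℕ} (hN : ∀ i, 0 < N i) : powC N (0 : Cn m) = 0 := by
  refine NK.cc_ext fun i => ?_
  rw [cc_powC, NK.cc_zero, zero_pow (hN i).ne']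

section

variable {M Y : Type} [TopologicalSpace M] [TopologicalSpace Y] {n m : ℕ} {κ P : Type}
  {e : κ → OpenPartialHomeomorph M (Cn n)} {b : P → OpenPartialHomeomorph Y (Cn m)} {f : M → Y}
  {y₀ : Y}

/-- the data at the point `y'` -/
structure ZData (S : ModifAt e b f y₀) (O : Set S.Y') (y' : S.Y') where
  K : SemistableOver e b S.j S.g S.σ S.Γ y'
  ρ₁ : ℝ
  sub : ∀ x ∈ (opd ρ₁ : Set (Cn m)), x ∈ K.z.target ∧ K.z.symm x ∈ O
  ρ : ℝ
  ρ_pos : 0 < ρ
  ten : 10 * ρ ≤ ρ₁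
  D : WData e K.π K.τ K.N K.r {w | K.z (K.h w) ∈ (opd ρ₁ : Set (Cn m))}
  five : 5 * ρ ≤ D.R

theorem z_h (S : ModifAt e b f y₀) {y' : S.Y'} (K : SemistableOver e b S.j S.g S.σ S.Γ y')
    (w : K.W) : K.z (K.h w) = powC K.N (K.τ w) :=
  NK.cc_ext fun i => by rw [(K.base w).2 i, cc_powC]

theorem isOpen_V (S : ModifAt e b f y₀) {y' : S.Y'} (K : SemistableOver e b S.j S.g S.σ S.Γ y')
    (ρ₁ : ℝ) : IsOpen {w | K.z (K.h w) ∈ (opd ρ₁ : Set (Cn m))} := by
  have h1 : {w | K.z (K.h w) ∈ (opd ρ₁ : Set (Cn m))} =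
      (fun w => powC K.N (K.τ w)) ⁻¹' (opd ρ₁) := by
    ext w
    simp only [mem_ofPred_eq, mem_preimage, z_h S K w]
  rw [h1]
  exact (NT.isOpen_opd ρ₁).preimage ((continuous_powC K.N).comp K.cont)

theorem exists_zdata (S : ModifAt e b f y₀) {O : Set S.Y'} (hO : IsOpen O) {y' : S.Y'}
    (hy : y' ∈ O) : Nonempty (ZData S O y') := by
  obtain ⟨K⟩ := S.model y'
  have ho : IsOpen {x | x ∈ K.z.target ∧ K.z.symm x ∈ O} := K.z.symm.isOpen_inter_preimage hO
  have h0 : (0 : Cn m) ∈ {x | x ∈ K.z.target ∧ K.z.symm x ∈ O} := by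
    rw [← K.center]
    refine ⟨K.z.map_source K.mem, ?_⟩
    rw [K.z.left_inv K.mem]
    exact hy
  obtain ⟨ρ₁, hρ₁, hsub⟩ := NT.exists_opd ho h0
  have hV := isOpen_V S K ρ₁
  obtain ⟨D⟩ := exists_wdata (e := e) (π := K.π) K.r_pos K.N_pos K.cont K.proper K.chart hV
    (fun w hw => by
      show K.z (K.h w) ∈ (opd ρ₁ : Set (Cn m))
      rw [z_h S K w, hw, powC_zero K.N_pos]
      exact NT.zero_mem_opd hρ₁)
  refine ⟨⟨K, ρ₁, fun x hx => hsub x (by rwa [sub_zero]), min (ρ₁ / 10) (D.R / 5), ?_, ?_, D, ?_⟩⟩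
  · exact lt_min (by positivity) (by have := D.R_pos; positivity)
  · have := min_le_left (ρ₁ / 10) (D.R / 5)
    linarith
  · have := min_le_right (ρ₁ / 10) (D.R / 5)
    linarith

/-! ### The scaled chart -/

/-- the chart `E`, restricted to a polydisc, and scaled -/
theorem exists_scaled {X : Type} [TopologicalSpace X] {n : ℕ} (E : OpenPartialHomeomorph X (Cn n))
    {ρ ρ₁ : ℝ} (hρ : 0 < ρ) (h : ∀ w ∈ (opd ρ₁ : Set (Cn n)), w ∈ E.target) :
    ∃ E' : OpenPartialHomeomorph X (Cn n), (∀ x, x ∈ E'.target ↔ ρ • x ∈ (opd ρ₁ : Set (Cn n))) ∧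
      (∀ p, p ∈ E'.source ↔ p ∈ E.source ∧ E p ∈ (opd ρ₁ : Set (Cn n))) ∧
      (∀ p, E' p = ρ⁻¹ • E p) ∧ ∀ x, E'.symm x = E.symm (ρ • x) := by
  have hs : ρ⁻¹ ≠ 0 := by positivity
  refine ⟨((E.trans (OpenPartialHomeomorph.ofSet _ (NT.isOpen_opd ρ₁))).transHomeomorph
    (NT.affH 0 _ hs)), ?_, ?_, ?_, ?_⟩
  · intro x
    have h1 : (NT.affH 0 ρ⁻¹ hs).symm x = 0 + ρ⁻¹⁻¹ • x := rfl
    simp only [OpenPartialHomeomorph.transHomeomorph_target, mem_preimage,
      OpenPartialHomeomorph.trans_target, OpenPartialHomeomorph.ofSet_target,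
      OpenPartialHomeomorph.ofSet_symm, OpenPartialHomeomorph.ofSet_apply, mem_inter_iff, id, h1,
      zero_add, inv_inv]
    exact ⟨fun h' => h'.1, fun h' => ⟨h', h _ h'⟩⟩
  · intro p
    simp
  · intro p
    show ρ⁻¹ • (E p - 0) = _
    rw [sub_zero]
  · intro x
    have h1 : (NT.affH 0 ρ⁻¹ hs).symm x = 0 + ρ⁻¹⁻¹ • x := rfl
    simp only [OpenPartialHomeomorph.transHomeomorph_symm_apply,
      OpenPartialHomeomorph.coe_trans_symm, OpenPartialHomeomorph.ofSet_symm, Function.comp_apply,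
      h1, zero_add, inv_inv]
    rfl

end

end NX

end Pool.Agent.KRFX
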