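import Pool.Agent.Work.MP_a2bf38_gt.K.DecayA

/-!
# Volumes of preimages under products of power maps (helper52)
-/

open scoped ContDiff ENNReal ComplexOrder Topology NNReal
open Set MeasureTheory Filter Pool.Agent.ToricKRF Pool.Agent.ToricKRF.G Pool.Agent.KRFS
  Pool.Agent.KRFF Pool.Agent.KRFG

namespace Pool.Agent.KRFX.Pull

noncomputable section

/-- the sector of `t` -/
def sect (N : ℕ) (t : ℂ) : ℤ := ⌊(N : ℝ) * (Complex.arg t / (2 * Real.pi))⌋

theorem sect_mem (N : ℕ) (t : ℂ) : sect N t ∈ Finset.Icc (-(N : ℤ)) N := by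
  have hpi := Real.pi_pos
  have h1 : |Complex.arg t / (2 * Real.pi)| ≤ 1 := by
    rw [abs_div, abs_of_pos (by positivity : 0 < 2 * Real.pi), div_le_one (by positivity)]
    exact (Complex.abs_arg_le_pi t).trans (by linarith)
  obtain ⟨h2, h3⟩ := abs_le.1 h1
  have hN : (0 : ℝ) ≤ N := Nat.cast_nonneg N
  rw [Finset.mem_Icc, sect]
  constructor
  · rw [Int.le_floor]
    push_cast
    nlinarith
  · have : (N : ℝ) * (Complex.arg t / (2 * Real.pi)) ≤ ((N : ℤ) : ℝ) := by
      push_cast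
      nlinarith
    exact (Int.floor_le_floor this).trans (by rw [Int.floor_intCast])

theorem measurable_sect (N : ℕ) : Measurable (sect N) := by
  unfold sect
  exact Int.measurable_floor.comp (measurable_const.mul (Complex.measurable_arg.div_const _))

theorem sect_inj {N : ℕ} (hN : 0 < N) {t s : ℂ} (ht : t ≠ 0) (hs : s ≠ 0)
    (h : sect N t = sect N s) (hp : t ^ N = s ^ N) : t = s := by
  have hN0 : (0 : ℝ) < N := by exact_mod_cast hN
  have hpi := Real.pi_pos
  have hnorm : ‖t‖ = ‖s‖ := by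
    have := congr_arg norm hp
    rw [norm_pow, norm_pow] at this
    exact (pow_left_inj₀ (norm_nonneg _) (norm_nonneg _) hN.ne').1 this
  have h1 : Complex.exp (((N : ℝ) * (Complex.arg t - Complex.arg s) : ℝ) * Complex.I) = 1 := by
    have ht1 := Complex.norm_mul_exp_arg_mul_I t
    have hs1 := Complex.norm_mul_exp_arg_mul_I s
    have e1 : t ^ N = (‖t‖ : ℂ) ^ N * Complex.exp ((N : ℝ) * Complex.arg t * Complex.I) := by
      conv_lhs => rw [← ht1]
      rw [mul_pow, ← Complex.exp_nat_mul]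
      congr 2
      push_cast
      ring
    have e2 : s ^ N = (‖t‖ : ℂ) ^ N * Complex.exp ((N : ℝ) * Complex.arg s * Complex.I) := by
      conv_lhs => rw [← hs1]
      rw [mul_pow, ← Complex.exp_nat_mul, hnorm]
      congr 2
      push_cast
      ring
    have hne : (‖t‖ : ℂ) ^ N ≠ 0 := pow_ne_zero _ (by exact_mod_cast norm_ne_zero_iff.2 ht)
    have e3 : Complex.exp ((N : ℝ) * Complex.arg t * Complex.I) =
        Complex.exp ((N : ℝ) * Complex.arg s * Complex.I) :=
      mul_left_cancel₀ hne (by rw [← e1, ← e2, hp])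
    have e4 : (((N : ℝ) * (Complex.arg t - Complex.arg s) : ℝ) : ℂ) * Complex.I =
        (N : ℝ) * Complex.arg t * Complex.I - (N : ℝ) * Complex.arg s * Complex.I := by
      push_cast
      ring
    rw [e4, Complex.exp_sub, e3, div_self (Complex.exp_ne_zero _)]
  obtain ⟨k, hk⟩ := Complex.exp_eq_one_iff.1 h1
  have hk' : (N : ℝ) * (Complex.arg t - Complex.arg s) = k * (2 * Real.pi) := by
    have h2 : (((N : ℝ) * (Complex.arg t - Complex.arg s) : ℝ) : ℂ) * Complex.I =
        ((k * (2 * Real.pi) : ℝ) : ℂ) * Complex.I := by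
      rw [hk]
      push_cast
      ring
    exact_mod_cast mul_right_cancel₀ Complex.I_ne_zero h2
  have h3 : (N : ℝ) * (Complex.arg t / (2 * Real.pi)) =
      (N : ℝ) * (Complex.arg s / (2 * Real.pi)) + (k : ℤ) := by
    field_simp
    linarith
  have hk0 : k = 0 := by
    unfold sect at h
    rw [h3, Int.floor_add_intCast] at h
    omega
  have harg : Complex.arg t = Complex.arg s := by
    rw [hk0, Int.cast_zero, add_zero] at h3
    have h4 := mul_left_cancel₀ hN0.ne' h3
    exact (div_left_inj' (by positivity)).1 h4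
  rw [← Complex.norm_mul_exp_arg_mul_I t, ← Complex.norm_mul_exp_arg_mul_I s, hnorm, harg]

theorem hasFDerivAt_pow (N : ℕ) (a t : ℂ) :
    HasFDerivAt (fun t : ℂ => a * t ^ N)
      ((LinearMap.mul ℝ ℂ (a * (N * t ^ (N - 1)))).toContinuousLinearMap) t := by
  have h1 : HasDerivAt (fun t : ℂ => a * t ^ N) (a * (N * t ^ (N - 1))) t :=
    (hasDerivAt_pow N t).const_mul a
  have h2 := h1.hasFDerivAt.restrictScalars ℝ
  have h3 : (LinearMap.mul ℝ ℂ (a * (N * t ^ (N - 1)))).toContinuousLinearMap =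
      ContinuousLinearMap.restrictScalars ℝ
        (ContinuousLinearMap.toSpanSingleton ℂ (a * (N * t ^ (N - 1)))) := by
    refine ContinuousLinearMap.ext fun v => ?_
    change a * (N * t ^ (N - 1)) * v = v • (a * (N * t ^ (N - 1)))
    rw [smul_eq_mul, mul_comm]
  rw [h3]
  exact h2

theorem det_mul (a : ℂ) : ((LinearMap.mul ℝ ℂ a).toContinuousLinearMap).det = ‖a‖ ^ 2 := by
  have h := Algebra.norm_complex_apply a
  rw [Algebra.norm_apply] at h
  rw [Complex.normSq_eq_norm_sq] at h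
  exact h

/-- the volume of the preimage of a set of `ℂ` under `t ↦ a t^N` -/
theorem vol_pow_le {N : ℕ} (hN : 0 < N) {a : ℂ} (ha : a ≠ 0) {δ : ℝ} (hδ : 0 < δ) {E : Set ℂ}
    (hE : MeasurableSet E) :
    volume {t : ℂ | δ ≤ ‖t‖ ∧ a * t ^ N ∈ E} ≤
      ENNReal.ofReal ((2 * N + 1) * ((‖a‖ * δ ^ (N - 1)) ^ 2)⁻¹) * volume E := by
  classical
  set S : ℤ → Set ℂ := fun j => {t : ℂ | (δ ≤ ‖t‖ ∧ a * t ^ N ∈ E) ∧ sect N t = j} with hS
  have hsub : {t : ℂ | δ ≤ ‖t‖ ∧ a * t ^ N ∈ E} ⊆ ⋃ j ∈ Finset.Icc (-(N : ℤ)) N, S j := by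
    intro t ht
    simp only [mem_iUnion]
    exact ⟨sect N t, sect_mem N t, ht, rfl⟩
  set K : ℝ := (‖a‖ * δ ^ (N - 1)) ^ 2 with hK
  have hKpos : 0 < K := by
    have := norm_pos_iff.2 ha
    positivity
  have hone : ∀ j, volume (S j) ≤ ENNReal.ofReal K⁻¹ * volume E := by
    intro j
    have hms : MeasurableSet (S j) := by
      refine ((measurableSet_le measurable_const measurable_norm).inter ?_).inter ?_
      · exact (by fun_prop : Measurable fun t : ℂ => a * t ^ N) hE
      · exact measurable_sect N (measurableSet_singleton j)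
    have hne : ∀ t ∈ S j, t ≠ 0 := fun t ht h0 => by
      have := ht.1.1
      rw [h0, norm_zero] at this
      exact absurd this (not_le.2 hδ)
    have hinj : InjOn (fun t : ℂ => a * t ^ N) (S j) := by
      intro t ht s hs hts
      exact sect_inj hN (hne t ht) (hne s hs) (ht.2.trans hs.2.symm)
        (mul_left_cancel₀ ha hts)
    have h1 := lintegral_abs_det_fderiv_eq_addHaar_image volume hms
      (fun t _ => (hasFDerivAt_pow N a t).hasFDerivWithinAt) hinj
    have h2 : (fun t : ℂ => a * t ^ N) '' S j ⊆ E := by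
      rintro _ ⟨t, ht, rfl⟩
      exact ht.1.2
    have h3 : ENNReal.ofReal K * volume (S j) ≤ volume E := by
      calc ENNReal.ofReal K * volume (S j) = ∫⁻ _ in S j, ENNReal.ofReal K := by
            rw [setLIntegral_const]
        _ ≤ ∫⁻ t in S j, ENNReal.ofReal
            |((LinearMap.mul ℝ ℂ (a * (N * t ^ (N - 1)))).toContinuousLinearMap).det| := by
            refine setLIntegral_mono' hms fun t ht => ENNReal.ofReal_le_ofReal ?_
            rw [det_mul, abs_of_nonneg (sq_nonneg _), hK]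
            refine pow_le_pow_left₀ (by positivity) ?_ 2
            rw [norm_mul, norm_mul, norm_pow, Complex.norm_natCast]
            refine mul_le_mul_of_nonneg_left ?_ (norm_nonneg _)
            have hN1 : (1 : ℝ) ≤ N := by exact_mod_cast hN
            calc δ ^ (N - 1) ≤ ‖t‖ ^ (N - 1) := pow_le_pow_left₀ hδ.le ht.1.1 _
              _ ≤ N * ‖t‖ ^ (N - 1) := le_mul_of_one_le_left (by positivity) hN1
        _ = volume ((fun t : ℂ => a * t ^ N) '' S j) := h1
        _ ≤ volume E := measure_mono h2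
    calc volume (S j) = ENNReal.ofReal K⁻¹ * (ENNReal.ofReal K * volume (S j)) := by
          rw [← mul_assoc, ← ENNReal.ofReal_mul (by positivity), inv_mul_cancel₀ hKpos.ne',
            ENNReal.ofReal_one, one_mul]
      _ ≤ ENNReal.ofReal K⁻¹ * volume E := mul_le_mul_right h3 _
  calc volume {t : ℂ | δ ≤ ‖t‖ ∧ a * t ^ N ∈ E}
      ≤ volume (⋃ j ∈ Finset.Icc (-(N : ℤ)) N, S j) := measure_mono hsub
    _ ≤ ∑ j ∈ Finset.Icc (-(N : ℤ)) N, volume (S j) := measure_biUnion_finset_le _ _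
    _ ≤ ∑ _j ∈ Finset.Icc (-(N : ℤ)) N, ENNReal.ofReal K⁻¹ * volume E :=
        Finset.sum_le_sum fun j _ => hone j
    _ = ENNReal.ofReal ((2 * N + 1) * K⁻¹) * volume E := by
        rw [Finset.sum_const, Int.card_Icc, nsmul_eq_mul, ← mul_assoc,
          ENNReal.ofReal_mul (by positivity)]
        congr 2
        have : ((N : ℤ) + 1 - -(N : ℤ)).toNat = 2 * N + 1 := by omega
        rw [this]
        rw [← ENNReal.ofReal_natCast]
        push_cast
        rfl

/-- monotonicity of product measures -/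
theorem pi_le_smul {ι : Type} [Fintype ι] {α : ι → Type} [∀ i, MeasurableSpace (α i)]
    (μ ν : ∀ i, Measure (α i)) [∀ i, SigmaFinite (μ i)] [∀ i, SigmaFinite (ν i)] (c : ι → ℝ≥0∞)
    (hc0 : ∀ i, c i ≠ 0) (hc : ∀ i, c i ≠ ⊤) (h : ∀ i, ν i ≤ c i • μ i) :
    Measure.pi ν ≤ (∏ i, c i) • Measure.pi μ := by
  have hp0 : ∏ i, c i ≠ 0 := Finset.prod_ne_zero_iff.2 fun i _ => hc0 i
  have hp : ∏ i, c i ≠ ⊤ := ENNReal.prod_ne_top fun i _ => hc i
  have h1 : ((∏ i, c i)⁻¹ • Measure.pi ν).toOuterMeasure ≤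
      OuterMeasure.pi fun i => (μ i).toOuterMeasure := by
    rw [OuterMeasure.le_pi]
    intro s _
    change (∏ i, c i)⁻¹ * Measure.pi ν (pi univ s) ≤ ∏ i, μ i (s i)
    calc (∏ i, c i)⁻¹ * Measure.pi ν (pi univ s) ≤ (∏ i, c i)⁻¹ * ∏ i, ν i (s i) := by
          rw [Measure.pi_pi]
      _ ≤ (∏ i, c i)⁻¹ * ∏ i, (c i * μ i (s i)) := by
          refine mul_le_mul_right (Finset.prod_le_prod' fun i _ => ?_) _
          exact h i (s i)
      _ = ∏ i, μ i (s i) := by
          rw [Finset.prod_mul_distrib, ← mul_assoc, ENNReal.inv_mul_cancel hp0 hp, one_mul]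
  refine Measure.le_iff.2 fun E hE => ?_
  have h2 : Measure.pi μ E = (OuterMeasure.pi fun i => (μ i).toOuterMeasure) E := by
    rw [Measure.pi, toMeasure_apply _ _ hE]
  have h3 : (∏ i, c i)⁻¹ * Measure.pi ν E ≤ Measure.pi μ E := by
    rw [h2]
    exact h1 E
  calc Measure.pi ν E = (∏ i, c i) * ((∏ i, c i)⁻¹ * Measure.pi ν E) := by
        rw [← mul_assoc, ENNReal.mul_inv_cancel hp0 hp, one_mul]
    _ ≤ (∏ i, c i) * Measure.pi μ E := mul_le_mul_right h3 _

/-- the constant -/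
def Kc (N : ℕ) (a : ℂ) (δ : ℝ) : ℝ := (2 * N + 1) * ((‖a‖ * δ ^ (N - 1)) ^ 2)⁻¹

theorem Kc_pos {N : ℕ} {a : ℂ} (ha : a ≠ 0) {δ : ℝ} (hδ : 0 < δ) : 0 < Kc N a δ := by
  have := norm_pos_iff.2 ha
  unfold Kc
  positivity

/-- the volume of the preimage of a set of `ℂ^m` under `u ↦ (a_k u_k^(N_k))_k` -/
theorem vol_diag_pi {m : ℕ} {N : Fin m → ℕ} (hN : ∀ k, 0 < N k) {a : Fin m → ℂ}
    (ha : ∀ k, a k ≠ 0) {δ : ℝ} (hδ : 0 < δ) {E : Set (Fin m → ℂ)} (hE : MeasurableSet E) :
    volume {u : Fin m → ℂ | (∀ k, δ ≤ ‖u k‖) ∧ (fun k => a k * u k ^ N k) ∈ E} ≤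
      (∏ k, ENNReal.ofReal (Kc (N k) (a k) δ)) * volume E := by
  have hD : MeasurableSet {t : ℂ | δ ≤ ‖t‖} := measurableSet_le measurable_const measurable_norm
  set μ : Fin m → Measure ℂ := fun _ => (volume : Measure ℂ).restrict {t : ℂ | δ ≤ ‖t‖} with hμ
  have hfm : ∀ k, Measurable fun t : ℂ => a k * t ^ N k := fun k => by fun_prop
  set ν : Fin m → Measure ℂ := fun k => (μ k).map fun t : ℂ => a k * t ^ N k with hν
  have hle : ∀ k, ν k ≤ ENNReal.ofReal (Kc (N k) (a k) δ) • (volume : Measure ℂ) := fun k => by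
    refine Measure.le_iff.2 fun A hA => ?_
    rw [hν, Measure.map_apply (hfm k) hA, hμ, Measure.restrict_apply (hfm k hA)]
    have h1 : (fun t : ℂ => a k * t ^ N k) ⁻¹' A ∩ {t : ℂ | δ ≤ ‖t‖} =
        {t : ℂ | δ ≤ ‖t‖ ∧ a k * t ^ N k ∈ A} := by
      ext t
      simp only [mem_inter_iff, mem_preimage, mem_setOf_eq, and_comm]
    rw [h1]
    exact vol_pow_le (hN k) (ha k) hδ hA
  have hsf : ∀ k, SigmaFinite (ν k) := fun k => by
    have h2 : SigmaFinite (ENNReal.ofReal (Kc (N k) (a k) δ) • (volume : Measure ℂ)) := by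
      change SigmaFinite ((Real.toNNReal (Kc (N k) (a k) δ)) • (volume : Measure ℂ))
      infer_instance
    exact Measure.sigmaFinite_of_le _ (hle k)
  have hF : Measurable fun (u : Fin m → ℂ) (k : Fin m) => a k * u k ^ N k := by fun_prop
  have hmap : (Measure.pi μ).map (fun (u : Fin m → ℂ) (k : Fin m) => a k * u k ^ N k) =
      Measure.pi ν := Measure.pi_map_pi fun k => (hfm k).aemeasurable
  have h3 : volume {u : Fin m → ℂ | (∀ k, δ ≤ ‖u k‖) ∧ (fun k => a k * u k ^ N k) ∈ E} =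
      Measure.pi ν E := by
    rw [← hmap, Measure.map_apply hF hE]
    have h4 : Measure.pi μ = (volume : Measure (Fin m → ℂ)).restrict
        (pi univ fun _ => {t : ℂ | δ ≤ ‖t‖}) :=
      (Measure.restrict_pi_pi (fun _ : Fin m => (volume : Measure ℂ)) _).symm
    rw [h4, Measure.restrict_apply (hF hE)]
    congr 1
    ext u
    simp only [mem_setOf_eq, mem_inter_iff, mem_preimage, Set.mem_pi, mem_univ, forall_true_left,
      and_comm]
  rw [h3]
  exact (pi_le_smul (fun _ : Fin m => (volume : Measure ℂ)) ν _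
    (fun k => by
      have := Kc_pos (N := N k) (ha k) hδ
      exact (ENNReal.ofReal_pos.2 this).ne')
    (fun k => ENNReal.ofReal_ne_top) hle) E

/-- `ℂ^m` as a measurable space -/
def eC (m : ℕ) : Cn m ≃ᵐ (Fin m → ℂ) :=
  (MeasurableEquiv.arrowProdEquivProdArrow ℝ ℝ (Fin m)).symm.trans
    (MeasurableEquiv.piCongrRight fun _ => Complex.measurableEquivRealProd.symm)

theorem eC_apply {m : ℕ} (u : Cn m) : eC m u = fun k => cc u k := rfl

theorem eC_symm_apply {m : ℕ} (u : Fin m → ℂ) : (eC m).symm u = ofC u := rfl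

theorem mp_eC (m : ℕ) : MeasurePreserving (eC m) volume volume := by
  have h1 := (volume_measurePreserving_arrowProdEquivProdArrow ℝ ℝ (Fin m)).symm
  have h2 : MeasurePreserving (MeasurableEquiv.piCongrRight fun _ : Fin m =>
      Complex.measurableEquivRealProd.symm) volume volume :=
    volume_preserving_pi fun _ => Complex.volume_preserving_equiv_real_prod.symm
  exact h2.comp h1

theorem vol_diag {m : ℕ} {N : Fin m → ℕ} (hN : ∀ k, 0 < N k) {a : Fin m → ℂ}
    (ha : ∀ k, a k ≠ 0) {δ : ℝ} (hδ : 0 < δ) {E : Set (Cn m)} (hE : MeasurableSet E) :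
    volume {u : Cn m | (∀ k, δ ≤ ‖cc u k‖) ∧ ofC (fun k => a k * cc u k ^ N k) ∈ E} ≤
      (∏ k, ENNReal.ofReal (Kc (N k) (a k) δ)) * volume E := by
  have h1 := vol_diag_pi hN ha hδ ((eC m).symm.measurable hE)
  have h2 : volume ((eC m).symm ⁻¹' E) = volume E :=
    (mp_eC m).symm.measure_preimage_equiv E
  rw [h2] at h1
  have h3 : {u : Cn m | (∀ k, δ ≤ ‖cc u k‖) ∧ ofC (fun k => a k * cc u k ^ N k) ∈ E} =
      eC m ⁻¹' {u : Fin m → ℂ | (∀ k, δ ≤ ‖u k‖) ∧ (fun k => a k * u k ^ N k) ∈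
        (eC m).symm ⁻¹' E} := rfl
  rw [h3, (mp_eC m).measure_preimage_equiv]
  exact h1

end

end Pool.Agent.KRFX.Pull
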