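import Pool.Agent.Work.MP_a2bf38_gt.X.PullA

/-!
# Volumes of preimages under products of coordinates (helper52)
-/

open scoped ContDiff ENNReal ComplexOrder Topology NNReal
open Set MeasureTheory Filter Pool.Agent.ToricKRF Pool.Agent.ToricKRF.G Pool.Agent.KRFS
  Pool.Agent.KRFF Pool.Agent.KRFG Pool.Agent.KRFG.Decay

namespace Pool.Agent.KRFX.Pull

variable {n m : ℕ}

noncomputable section

theorem continuous_ccP (l : Fin n) : Continuous fun u : Cn n => cc u l := by
  have : (fun u : Cn n => cc u l) = fun u => (u.1 l : ℂ) + (u.2 l : ℂ) * Complex.I := by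
    funext u
    exact Complex.mk_eq_add_mul_I _ _
  rw [this]
  fun_prop

theorem continuous_ofC : Continuous (ofC : (Fin n → ℂ) → Cn n) := by
  unfold ofC
  fun_prop

theorem continuous_prowP (row : Fin n → Option (Fin m)) (i : Fin m) :
    Continuous fun x : Cn n => prow row i x := by
  unfold prow
  refine continuous_finset_prod _ fun l _ => ?_
  split_ifs
  · exact continuous_ccP l
  · exact continuous_const

theorem sq_norm_ccP (u : Cn n) (l : Fin n) : ‖cc u l‖ ^ 2 = u.1 l ^ 2 + u.2 l ^ 2 := by
  rw [Complex.sq_norm]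
  simp only [cc, Complex.normSq_mk]
  ring

theorem mem_cpdP {u : Cn n} {r : ℝ} (hr : 0 ≤ r) : u ∈ cpd (k := n) r ↔ ∀ l, ‖cc u l‖ ≤ r := by
  constructor
  · intro h l
    have := h l
    rw [← sq_norm_ccP] at this
    exact le_of_sq_le_sq this hr
  · intro h l
    rw [← sq_norm_ccP]
    exact pow_le_pow_left₀ (norm_nonneg _) (h l) 2

/-- the embedding in the pivot coordinates -/
def sel {A : Type} [Zero A] (row : Fin n → Option (Fin m)) (piv : Fin m → Fin n) (v : Fin m → A)
    (l : Fin n) : A :=
  match row l with
  | none => 0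
  | some k => if l = piv k then v k else 0

def Jp (row : Fin n → Option (Fin m)) (piv : Fin m → Fin n) (w : Cn m) : Cn n :=
  (sel row piv w.1, sel row piv w.2)

theorem continuous_sel (row : Fin n → Option (Fin m)) (piv : Fin m → Fin n) :
    Continuous fun v : Fin m → ℝ => sel row piv v := by
  refine continuous_pi fun l => ?_
  unfold sel
  cases row l with
  | none => exact continuous_const
  | some k =>
    simp only
    split_ifs
    · exact continuous_apply k
    · exact continuous_const

theorem continuous_Jp (row : Fin n → Option (Fin m)) (piv : Fin m → Fin n) :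
    Continuous (Jp row piv) :=
  ((continuous_sel row piv).comp continuous_fst).prodMk
    ((continuous_sel row piv).comp continuous_snd)

theorem cc_Jp (row : Fin n → Option (Fin m)) (piv : Fin m → Fin n) (w : Cn m) (l : Fin n) :
    cc (Jp row piv w) l = sel row piv (fun k => cc w k) l := by
  simp only [Jp, cc, sel]
  cases row l with
  | none => rfl
  | some k =>
    simp only
    split_ifs
    · rfl
    · rfl

theorem cc_addP (u v : Cn n) (l : Fin n) : cc (u + v) l = cc u l + cc v l :=
  Complex.ext rfl rfl

theorem sel_piv (row : Fin n → Option (Fin m)) (piv : Fin m → Fin n)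
    (hp : ∀ k, row (piv k) = some k) (v : Fin m → ℂ) (k : Fin m) : sel row piv v (piv k) = v k := by
  simp only [sel, hp k, if_true]

theorem sel_ne (row : Fin n → Option (Fin m)) (piv : Fin m → Fin n) (v : Fin m → ℂ) {l : Fin n}
    (h : ∀ k, l ≠ piv k) : sel row piv v l = 0 := by
  simp only [sel]
  cases row l with
  | none => rfl
  | some k => simp only [if_neg (h k)]

theorem measurableSet_cpdP (r : ℝ) : MeasurableSet (cpd (k := n) r) :=
  (isCompact_cpd r).isClosed.measurableSet

/-- averaging over the translations of the pivot coordinates -/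
theorem vol_avg (row : Fin n → Option (Fin m)) (piv : Fin m → Fin n) {B : Set (Cn n)}
    (hB : MeasurableSet B) (hB1 : B ⊆ cpd 1) {α : ℝ≥0∞}
    (h : ∀ x ∈ cpd (k := n) 3, volume {w : Cn m | x + Jp row piv w ∈ B} ≤ α) :
    volume (cpd (k := m) 2) * volume B ≤ volume (cpd (k := n) 3) * α := by
  have hn := haar n
  set S : Set (Cn n × Cn m) := {p | p.2 ∈ cpd (k := m) 2 ∧ p.1 + Jp row piv p.2 ∈ B} with hS
  have hadd : Measurable fun p : Cn n × Cn m => p.1 + Jp row piv p.2 :=
    (continuous_fst.add ((continuous_Jp row piv).comp continuous_snd)).measurable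
  have hSm : MeasurableSet S := (measurable_snd (measurableSet_cpdP 2)).inter (hadd hB)
  have h1 : (volume.prod volume) S = volume (cpd (k := m) 2) * volume B := by
    rw [Measure.prod_apply_symm hSm]
    have h2 : ∀ w : Cn m, volume ((fun x => (x, w)) ⁻¹' S) =
        (cpd (k := m) 2).indicator (fun _ => volume B) w := by
      intro w
      by_cases hw : w ∈ cpd (k := m) 2
      · rw [indicator_of_mem hw]
        have : (fun x : Cn n => (x, w)) ⁻¹' S = (fun x => x + Jp row piv w) ⁻¹' B := by
          ext x
          simp only [hS, mem_preimage, mem_setOf_eq, hw, true_and]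
        rw [this, measure_preimage_add_right]
      · rw [indicator_of_notMem hw]
        have : (fun x : Cn n => (x, w)) ⁻¹' S = ∅ := by
          ext x
          simp only [hS, mem_preimage, mem_setOf_eq, hw, false_and, mem_empty_iff_false]
        rw [this, measure_empty]
    simp only [h2]
    rw [lintegral_indicator (measurableSet_cpdP 2), lintegral_const,
      Measure.restrict_apply_univ, mul_comm]
  have h3 : (volume.prod volume) S ≤ volume (cpd (k := n) 3) * α := by
    rw [Measure.prod_apply hSm]
    calc ∫⁻ x, volume (Prod.mk x ⁻¹' S) ≤ ∫⁻ x, (cpd (k := n) 3).indicator (fun _ => α) x := by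
          refine lintegral_mono fun x => ?_
          by_cases hx : x ∈ cpd (k := n) 3
          · rw [indicator_of_mem hx]
            refine (measure_mono ?_).trans (h x hx)
            intro w hw
            exact hw.2
          · have : Prod.mk x ⁻¹' S = ∅ := by
              ext w
              simp only [hS, mem_preimage, mem_setOf_eq, mem_empty_iff_false, iff_false, not_and]
              intro hw hB'
              apply hx
              have h4 := hB1 hB'
              rw [mem_cpdP (by norm_num)] at hw h4 ⊢
              intro l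
              have h5 := h4 l
              rw [cc_addP, cc_Jp] at h5
              have h6 : ‖sel row piv (fun k => cc w k) l‖ ≤ 2 := by
                simp only [sel]
                cases row l with
                | none => simp
                | some k =>
                  simp only
                  split_ifs
                  · exact hw k
                  · simp
              have h7 : cc x l = (cc x l + sel row piv (fun k => cc w k) l) -
                  sel row piv (fun k => cc w k) l := by ring
              rw [h7]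
              exact (norm_sub_le _ _).trans (by linarith)
            rw [this, measure_empty]
            exact zero_le
      _ = volume (cpd (k := n) 3) * α := by
          rw [lintegral_indicator (measurableSet_cpdP 3), lintegral_const,
            Measure.restrict_apply_univ, mul_comm]
  rw [h1] at h3
  exact h3

/-- the product of the nonpivot coordinates of the row `k` -/
def rest (row : Fin n → Option (Fin m)) (piv : Fin m → Fin n) (k : Fin m) (x : Cn n) : ℂ :=
  ∏ l, if row l = some k ∧ l ≠ piv k then cc x l else 1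

theorem prow_eq (row : Fin n → Option (Fin m)) (piv : Fin m → Fin n)
    (hp : ∀ k, row (piv k) = some k) (k : Fin m) (x : Cn n) :
    prow row k x = cc x (piv k) * rest row piv k x := by
  unfold prow rest
  rw [← Finset.mul_prod_erase Finset.univ _ (Finset.mem_univ (piv k)),
    ← Finset.mul_prod_erase Finset.univ (fun l => if row l = some k ∧ l ≠ piv k then cc x l else 1)
      (Finset.mem_univ (piv k))]
  rw [if_pos (hp k), if_neg (by simp), one_mul]
  congr 1
  refine Finset.prod_congr rfl fun l hl => ?_
  have := Finset.ne_of_mem_erase hl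
  simp only [this, ne_eq, not_false_eq_true, and_true]

theorem rest_add (row : Fin n → Option (Fin m)) (piv : Fin m → Fin n)
    (hp : ∀ k, row (piv k) = some k) (k : Fin m) (x : Cn n) (w : Cn m) :
    rest row piv k (x + Jp row piv w) = rest row piv k x := by
  unfold rest
  refine Finset.prod_congr rfl fun l _ => ?_
  split_ifs with h
  · rw [cc_addP, cc_Jp, sel_ne row piv _ (fun k' hk' => ?_), add_zero]
    have h1 := hp k'
    rw [← hk', h.1] at h1
    have h2 : k = k' := Option.some_injective _ h1
    exact h.2 (by rw [hk', h2])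
  · rfl

theorem le_norm_rest (row : Fin n → Option (Fin m)) (piv : Fin m → Fin n) (k : Fin m) {x : Cn n}
    {η : ℝ} (hη : η ∈ Ioc (0 : ℝ) 1) (h : ∀ l, (∀ k', l ≠ piv k') → η ≤ ‖cc x l‖)
    (hp : ∀ k, row (piv k) = some k) : η ^ n ≤ ‖rest row piv k x‖ := by
  unfold rest
  rw [norm_prod]
  calc η ^ n = ∏ _l : Fin n, η := by simp
    _ ≤ _ := by
      refine Finset.prod_le_prod (fun _ _ => hη.1.le) fun l _ => ?_
      split_ifs with h1
      · refine h l fun k' hk' => ?_
        have h2 := hp k'
        rw [← hk', h1.1] at h2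
        have h3 : k = k' := Option.some_injective _ h2
        exact h1.2 (by rw [hk', h3])
      · rw [norm_one]
        exact hη.2

theorem le_norm_prow (row : Fin n → Option (Fin m)) (k : Fin m) {x : Cn n}
    {η : ℝ} (hη : η ∈ Ioc (0 : ℝ) 1) (h : ∀ l, η ≤ ‖cc x l‖) : η ^ n ≤ ‖prow row k x‖ := by
  unfold prow
  rw [norm_prod]
  calc η ^ n = ∏ _l : Fin n, η := by simp
    _ ≤ _ := by
      refine Finset.prod_le_prod (fun _ _ => hη.1.le) fun l _ => ?_
      split_ifs
      · exact h l
      · rw [norm_one]
        exact hη.2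

/-- the coordinates `(s_k prow_k(x))^(N_k)` -/
def Zm (row : Fin n → Option (Fin m)) (s : Fin m → ℝ) (N : Fin m → ℕ) (x : Cn n) : Cn m :=
  ofC fun k => ((s k : ℂ) * prow row k x) ^ N k

theorem continuous_Zm (row : Fin n → Option (Fin m)) (s : Fin m → ℝ) (N : Fin m → ℕ) :
    Continuous (Zm row s N) := by
  unfold Zm
  exact continuous_ofC.comp (continuous_pi fun k =>
    (continuous_const.mul (continuous_prowP row k)).pow (N k))

theorem haarP (k : ℕ) : (volume : Measure (Cn k)).IsAddHaarMeasure := haar k

/-- preimages under `Zm` in the set where all coordinates are `≥ η` -/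
theorem vol_Zm (row : Fin n → Option (Fin m)) (s : Fin m → ℝ) (N : Fin m → ℕ)
    (hs : ∀ k, 0 < s k) (hN : ∀ k, 0 < N k) (hrow : ∀ k, ∃ l, row l = some k) :
    ∃ (C : ℝ) (B : ℕ), 0 ≤ C ∧ ∀ η ∈ Ioc (0 : ℝ) 1, ∀ E : Set (Cn m), MeasurableSet E →
      volume {x : Cn n | x ∈ cpd 1 ∧ (∀ l, η ≤ ‖cc x l‖) ∧ Zm row s N x ∈ E} ≤
        ENNReal.ofReal (C * (η ^ B)⁻¹) * volume E := by
  choose piv hp using hrow
  set V2 : ℝ≥0∞ := volume (cpd (k := m) 2) with hV2
  set V3 : ℝ≥0∞ := volume (cpd (k := n) 3) with hV3
  have hV3t : V3 ≠ ⊤ := (isCompact_cpd 3).measure_lt_top.ne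
  have hV2t : V2 ≠ ⊤ := (isCompact_cpd 2).measure_lt_top.ne
  have hV20 : V2 ≠ 0 := by
    have hm := haar m
    have hsub : opd (k := m) 2 ⊆ cpd 2 := fun u hu i => (hu i).le
    have hop : IsOpen (opd (k := m) 2) := by
      have : (opd 2 : Set (Cn m)) = ⋂ i, {u | u.1 i ^ 2 + u.2 i ^ 2 < 2 ^ 2} := by
        ext u
        simp [opd]
      rw [this]
      exact isOpen_iInter_of_finite fun i => isOpen_lt (by fun_prop) continuous_const
    have h0 : (0 : Cn m) ∈ opd (k := m) 2 := fun i => by norm_num
    exact ((hop.measure_pos volume ⟨0, h0⟩).trans_le (measure_mono hsub)).ne'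
  -- the constants
  set c₁ : ℝ := ∏ k, (2 * (N k : ℝ) + 1) * ((s k ^ N k) ^ 2)⁻¹ with hc₁
  set B : ℕ := ∑ k, 2 * (n * N k + (N k - 1)) with hBdef
  have hc₁0 : 0 ≤ c₁ := Finset.prod_nonneg fun k _ => by
    have := hs k
    positivity
  refine ⟨(V3 / V2).toReal * c₁, B, by positivity, fun η hη E hE => ?_⟩
  set A : Set (Cn n) := {x : Cn n | x ∈ cpd 1 ∧ (∀ l, η ≤ ‖cc x l‖) ∧ Zm row s N x ∈ E} with hA
  have hAm : MeasurableSet A := by
    refine (measurableSet_cpdP 1).inter (MeasurableSet.inter ?_ ?_)
    · have : {x : Cn n | ∀ l, η ≤ ‖cc x l‖} = ⋂ l, {x | η ≤ ‖cc x l‖} := by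
        ext x
        simp
      change MeasurableSet {x : Cn n | ∀ l, η ≤ ‖cc x l‖}
      rw [this]
      exact MeasurableSet.iInter fun l =>
        measurableSet_le measurable_const (continuous_ccP l).norm.measurable
    · exact (continuous_Zm row s N).measurable hE
  have hA1 : A ⊆ cpd 1 := fun x hx => hx.1
  have key : ∀ x ∈ cpd (k := n) 3, volume {w : Cn m | x + Jp row piv w ∈ A} ≤
      ENNReal.ofReal (c₁ * (η ^ B)⁻¹) * volume E := by
    intro x _
    rcases eq_empty_or_nonempty {w : Cn m | x + Jp row piv w ∈ A} with he | ⟨w₀, hw₀⟩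
    · rw [he, measure_empty]
      exact zero_le
    -- the coefficients
    have hx : ∀ l, (∀ k', l ≠ piv k') → η ≤ ‖cc x l‖ := fun l hl => by
      have := hw₀.2.1 l
      rwa [cc_addP, cc_Jp, sel_ne row piv _ hl, add_zero] at this
    set a : Fin m → ℂ := fun k => ((s k : ℂ) * rest row piv k x) ^ N k with ha
    have hrest := fun k => le_norm_rest row piv k hη hx hp
    have hna : ∀ k, (s k * η ^ n) ^ N k ≤ ‖a k‖ := fun k => by
      rw [ha, norm_pow, norm_mul, Complex.norm_real, Real.norm_eq_abs, abs_of_pos (hs k)]
      have := hs k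
      have := hη.1
      gcongr
      exact hrest k
    have hpos : ∀ k, 0 < (s k * η ^ n) ^ N k := fun k => by
      have := hs k
      have := hη.1
      positivity
    have ha0 : ∀ k, a k ≠ 0 := fun k => norm_pos_iff.1 ((hpos k).trans_le (hna k))
    set xp : Cn m := (fun k => x.1 (piv k), fun k => x.2 (piv k)) with hxp
    have hccp : ∀ k, cc xp k = cc x (piv k) := fun k => rfl
    have hsub : {w : Cn m | x + Jp row piv w ∈ A} ⊆ (fun w => w + xp) ⁻¹'
        {u : Cn m | (∀ k, η ≤ ‖cc u k‖) ∧ ofC (fun k => a k * cc u k ^ N k) ∈ E} := by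
      intro w hw
      have h1 : ∀ k, cc (x + Jp row piv w) (piv k) = cc (w + xp) k := fun k => by
        rw [cc_addP, cc_addP, cc_Jp, sel_piv row piv hp, hccp, add_comm]
      refine ⟨fun k => ?_, ?_⟩
      · rw [← h1]
        exact hw.2.1 (piv k)
      · have h2 := hw.2.2
        have h3 : Zm row s N (x + Jp row piv w) = ofC (fun k => a k * cc (w + xp) k ^ N k) := by
          unfold Zm
          congr 1
          funext k
          rw [prow_eq row piv hp, rest_add row piv hp, h1, ha]
          ring
        rw [h3] at h2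
        exact h2
    have hm := haar m
    calc volume {w : Cn m | x + Jp row piv w ∈ A}
        ≤ volume {u : Cn m | (∀ k, η ≤ ‖cc u k‖) ∧ ofC (fun k => a k * cc u k ^ N k) ∈ E} := by
          refine (measure_mono hsub).trans (le_of_eq ?_)
          exact measure_preimage_add_right volume xp _
      _ ≤ (∏ k, ENNReal.ofReal (Kc (N k) (a k) η)) * volume E := vol_diag hN ha0 hη.1 hE
      _ ≤ ENNReal.ofReal (c₁ * (η ^ B)⁻¹) * volume E := by
          refine mul_le_mul_left ?_ _
          rw [← ENNReal.ofReal_prod_of_nonneg fun k _ => (Kc_pos (ha0 k) hη.1).le]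
          refine ENNReal.ofReal_le_ofReal ?_
          have h1 : ∀ k, Kc (N k) (a k) η ≤ (2 * (N k : ℝ) + 1) * ((s k ^ N k) ^ 2)⁻¹ *
              (η ^ (2 * (n * N k + (N k - 1))))⁻¹ := fun k => by
            have hsk := hs k
            have hη1 := hη.1
            unfold Kc
            rw [mul_assoc]
            refine mul_le_mul_of_nonneg_left ?_ (by positivity)
            rw [← mul_inv]
            refine inv_anti₀ (by positivity) ?_
            calc (s k ^ N k) ^ 2 * η ^ (2 * (n * N k + (N k - 1)))
                = ((s k * η ^ n) ^ N k * η ^ (N k - 1)) ^ 2 := by ring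
              _ ≤ (‖a k‖ * η ^ (N k - 1)) ^ 2 := by
                refine pow_le_pow_left₀ (by positivity) ?_ 2
                exact mul_le_mul_of_nonneg_right (hna k) (by positivity)
          refine (Finset.prod_le_prod (fun k _ => (Kc_pos (ha0 k) hη.1).le) fun k _ => h1 k).trans
            (le_of_eq ?_)
          rw [Finset.prod_mul_distrib, Finset.prod_inv_distrib, Finset.prod_pow_eq_pow_sum]
  have h2 := vol_avg row piv hAm hA1 key
  calc volume A = V2⁻¹ * (V2 * volume A) := by
        rw [← mul_assoc, ENNReal.inv_mul_cancel hV20 hV2t, one_mul]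
    _ ≤ V2⁻¹ * (V3 * (ENNReal.ofReal (c₁ * (η ^ B)⁻¹) * volume E)) := mul_le_mul_right h2 _
    _ = ENNReal.ofReal ((V3 / V2).toReal * c₁ * (η ^ B)⁻¹) * volume E := by
        have e1 : ENNReal.ofReal ((V3 / V2).toReal * c₁ * (η ^ B)⁻¹) =
            V2⁻¹ * V3 * ENNReal.ofReal (c₁ * (η ^ B)⁻¹) := by
          rw [mul_assoc (V3 / V2).toReal, ENNReal.ofReal_mul ENNReal.toReal_nonneg,
            ENNReal.ofReal_toReal (ENNReal.div_ne_top hV3t hV20), ENNReal.div_eq_inv_mul]
        rw [e1]
        ring

end

end Pool.Agent.KRFX.Pull
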