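import Pool.Agent.Work.MP_a2bf38_gt.X.Setup

/-!
# The tasks of Part V (statements only; nothing may import this file)
-/

open scoped ContDiff ENNReal ComplexOrder Topology
open Set MeasureTheory Filter Pool.Agent.ToricKRF Pool.Agent.ToricKRF.G Pool.Agent.KRFS
  Pool.Agent.KRFF Pool.Agent.KRFG

namespace Pool.Agent.KRFX

/-! ## A. Continuous psh functions (no manifold) -/

/-- `X/Loc.lean`: the sub-mean value property is local -/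
theorem pshC_of_local {m : ℕ} {u : Cn m → ℝ} {V : Set (Cn m)} (hV : IsOpen V)
    (hu : ContinuousOn u V)
    (h : ∀ z ∈ V, ∀ v : Cn m, ∀ᶠ r in 𝓝[>] (0 : ℝ), u z ≤ cavg (fun ζ => u (line z v ζ)) r) :
    PshC u V := sorry

/-- `X/Loc.lean` -/
theorem pshC_comp {n m : ℕ} {u : Cn m → ℝ} {V : Set (Cn m)} (hV : IsOpen V) (hu : PshC u V)
    {H : Cn n → Cn m} {V' : Set (Cn n)} (hV' : IsOpen V') (hH : HolOn H V')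
    (hm : MapsTo H V' V) : PshC (fun x => u (H x)) V' := sorry

/-- `X/Reg.lean`: regularization at the scale `ρ` -/
theorem regularize (m : ℕ) {L : ℝ} (hL : 1 ≤ L) : ∃ C : ℝ, 0 ≤ C ∧ ∀ (u : Cn m → ℝ) (S ρ : ℝ),
    PshC u {y : Cn m | nsq y < 49} → (∀ y, nsq y < 49 → |u y| ≤ S) → 0 < ρ → L * ρ ≤ 1 / 10 →
    ∃ u' : Cn m → ℝ, ContDiffOn ℝ ∞ u' {y | nsq y < 36} ∧
      (∀ y, nsq y < 36 → ∀ v, 0 ≤ levz u' v y) ∧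
      (∀ y, nsq y < 36 → u y ≤ u' y) ∧
      (∀ y, nsq y < 36 → ∀ (E : Set (Cn m)) (c : ℝ), -S ≤ c →
        (∀ y', nsq (y' - y) ≤ ρ ^ 2 → y' ∉ E → u y' ≤ c) →
        u' y ≤ c + C * S * (ρ ^ (2 * m))⁻¹ * volume.real (E ∩ {y' | nsq (y' - y) ≤ ρ ^ 2})) ∧
      (∀ y y', nsq y < 36 → nsq (y' - y) ≤ (L * ρ) ^ 2 → u y' ≤ u' y + C * S / Real.log (1 / ρ)) ∧
      (∀ s > 0, volume {y | nsq y < 25 ∧ u y + s < u' y} ≤ ENNReal.ofReal (C * S * ρ / s)) := sorry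

section Mod

variable {n m l : ℕ} {M Y Y' W : Type} [TopologicalSpace M] [CompactSpace M] [T2Space M]
  [TopologicalSpace Y] [T2Space Y] [TopologicalSpace Y'] [T2Space Y'] [TopologicalSpace W]
  [T2Space W] {κ P P' ι : Type} [Finite P] [Finite P'] [Fintype ι] {T : ℝ}
  (F : Mod n m l M Y Y' W κ P P' ι T)

/-! ## B. The maximum over the fibres of `W → Y'` -/

/-- `X/Sup.lean` -/
theorem Mod.Mx_spec {t : ℝ} (ht : t ∈ Ico 0 T) {a : P'} {y' : Y'} (hy : y' ∈ (F.z a).source)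
    (hy' : nsq (F.z a y') ≤ 25) :
    (∃ w, F.lab w = a ∧ F.h w = y' ∧ F.Phi t (F.π w) = F.Mx t y') ∧
      ∀ w, F.h w = y' → F.Phi t (F.π w) ≤ F.Mx t y' := sorry

theorem Mod.Mx_continuousOn {t : ℝ} (ht : t ∈ Ico 0 T) (a : P') :
    ContinuousOn (fun x => F.Mx t ((F.z a).symm x)) {x | nsq x < 25} := sorry

/-- `X/Touch.lean`: the maximum is touched from below -/
theorem Mod.touch : ∃ C ε : ℝ, 0 ≤ C ∧ 0 < ε ∧ ε ≤ 1 ∧ ∀ t ∈ Ico 0 T, ∀ a, ∀ x : Cn m,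
    nsq x < 25 → (∀ i, cc x i ≠ 0) → ∀ v : Cn m, ∃ q : ℂ → ℝ, ContDiffAt ℝ 2 q 0 ∧
      q 0 = F.Mx t ((F.z a).symm x) ∧
      (∀ᶠ ζ in 𝓝 (0 : ℂ), q ζ ≤ F.Mx t ((F.z a).symm (line x v ζ))) ∧
      -(4 * (t / T) * levz (fun x => F.K (F.la a) (F.sg a x)) v x) - 4 * (1 - t / T) * (C *
        ∑ i, (x.1 i ^ 2 + x.2 i ^ 2) ^ (ε - 1) * (v.1 i ^ 2 + v.2 i ^ 2)) ≤ lapC q 0 := sorry

/-- `X/Base.lean`: from `touch`, `K/HB.lean` and `K/PshC.lean` -/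
theorem Mod.base_psh : ∃ C₁ A B C₃ ε d₀ : ℝ, 0 ≤ C₁ ∧ 0 ≤ A ∧ 0 < B ∧ 0 ≤ C₃ ∧ 0 < ε ∧ 0 < d₀ ∧
    (∀ x : Cn m, nsq x ≤ 1 → -A ≤ hB C₁ A ε x) ∧
    (∀ x : Cn m, 9 ≤ nsq x → nsq x ≤ 16 → hB C₁ A ε x < -A) ∧
    ∀ t ∈ Ico 0 T, T - t < d₀ → C₃ * (1 - t / T) ≤ 1 / 2 ∧ ∀ a,
      PshC (fun x => (1 - C₃ * (1 - t / T)) * (F.Mx t ((F.z a).symm x) +
        (1 - t / T) * (hB C₁ A ε x + B * Real.log (nsq (F.g (F.la a) (F.sg a x))))) +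
        t / T * F.K (F.la a) (F.sg a x))
        {x : Cn m | nsq x < 25 ∧ F.g (F.la a) (F.sg a x) ≠ 0} := sorry

/-! ## C. Down to `Y` -/

/-- `X/Desc.lean`: from `base_psh`, `pshC_of_local`, `pshC_comp` -/
theorem Mod.desc : ∃ C S d₀ : ℝ, 0 ≤ C ∧ 0 ≤ S ∧ 0 < d₀ ∧ ∀ t ∈ Ico 0 T, T - t < d₀ →
    ∃ q : P → Cn m → ℝ,
      (∀ j, PshC (fun y => q j y + t / T * F.K j y) {y | nsq y < 49}) ∧
      (∀ j y, nsq y < 49 → |q j y| ≤ S) ∧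
      (∀ y', nsq (F.yb y') < 49 → q (F.lb y') (F.yb y') ≤ F.Mx t y' + C * (T - t)) ∧
      (∀ y', nsq (F.yb y') < 49 → F.g (F.lb y') (F.yb y') ≠ 0 →
        F.Mx t y' - C * (T - t) * (1 + |Real.log (nsq (F.g (F.lb y') (F.yb y')))|) ≤
          q (F.lb y') (F.yb y')) := sorry

/-- `X/Vol.lean`: the sets where `g` is small, in `Y` and in `M` -/
theorem Mod.vol_Y : ∃ C c : ℝ, 0 ≤ C ∧ 0 < c ∧ ∀ j, ∀ s ∈ Ioc (0 : ℝ) 1,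
    volume {y : Cn m | nsq y ≤ 49 ∧ nsq (F.g j y) ≤ s} ≤ ENNReal.ofReal (C * s ^ c) := sorry

theorem Mod.vol_M (c : κ) {A : Set (Cn n)} (hA : IsCompact A) (hAt : A ⊆ (F.e c).target) :
    ∃ C c₁ : ℝ, 0 ≤ C ∧ 0 < c₁ ∧ ∀ j, ∀ s ∈ Ioc (0 : ℝ) 1,
    volume {x ∈ A | F.f ((F.e c).symm x) ∈ (F.b j).source ∧
      nsq (F.b j (F.f ((F.e c).symm x))) ≤ 49 ∧
      nsq (F.g j (F.b j (F.f ((F.e c).symm x)))) ≤ s} ≤ ENNReal.ofReal (C * s ^ c₁) := sorry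

/-- `X/Pull.lean`: the preimages in `W` of small sets of `Y` -/
theorem Mod.pull : ∃ (C c : ℝ) (B : ℕ), 0 ≤ C ∧ 0 < c ∧ ∀ (i : ι) (E : Set (Cn m)),
    ∀ η ∈ Ioc (0 : ℝ) 1,
    volume {x : Cn n | x ∈ cpd 1 ∧ nsq (F.zc i x) ≤ 1 ∧ nsq (F.yc i x) < 25 ∧ F.yc i x ∈ E} ≤
      ENNReal.ofReal (C * η ^ c) + ENNReal.ofReal (C * (η ^ B)⁻¹) * volume E := sorry

/-- `X/Glue.lean`: smooth functions on the balls `nsq y < 25` of `Y` which can be glued, from `desc`,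
`regularize`, `vol_Y`, `vol_M` -/
theorem Mod.glue : ∃ C d₀ : ℝ, 0 ≤ C ∧ 0 < d₀ ∧ ∀ t ∈ Ico 0 T, T - t < d₀ →
    ∃ (R : P → Cn m → ℝ) (E : P → Set (Cn m)),
      (∀ j, ContDiffOn ℝ ∞ (R j) {y | nsq y < 25}) ∧
      (∀ j y, nsq y < 25 → |R j y| ≤ C) ∧
      (∀ j y, nsq y < 25 → ∀ v, 0 ≤ levz (R j) v y + t / T * levz (F.K j) v y) ∧
      (∀ i j y, y ∈ (F.b i).source → y ∈ (F.b j).source → 9 ≤ nsq (F.b i y) →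
        nsq (F.b i y) ≤ 16 → nsq (F.b j y) ≤ 1 → R i (F.b i y) < R j (F.b j y)) ∧
      (∀ j p, F.f p ∈ (F.b j).source → nsq (F.b j (F.f p)) ≤ 16 →
        F.Phi t p ≤ R j (F.b j (F.f p)) + C * √(T - t)) ∧
      (∀ j, volume (E j) ≤ ENNReal.ofReal (Real.exp (-(T - t) ^ (-(1 / 4) : ℝ)))) ∧
      (∀ y', nsq (F.yb y') ≤ 16 → F.yb y' ∉ E (F.lb y') →
        R (F.lb y') (F.yb y') ≤ F.Mx t y' + C * √(T - t)) := sorry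

/-! ## D. The fibres -/

/-- `X/Fib.lean`: `φ` on the fibres, in a chart of `W`. -/
theorem Mod.fib_psh : ∃ C : ℝ, 0 ≤ C ∧ ∀ t ∈ Ico 0 T, ∀ c, ∀ q ∈ opd (k := n) 9, ∀ M₀ : ℝ,
    ∀ piv : Fin m → Fin n, (∀ i, F.row c (piv i) = some i) → ∀ w,
    Em (F.row c) piv q w ∈ opd 9 → ∀ u,
    0 ≤ levz (fun w => F.Phi t (F.π ((F.a c).symm (Em (F.row c) piv q w))) - M₀ +
      C * (1 - t / T) * (nsq (Em (F.row c) piv q w) - 81 * n)) u w := sorry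

theorem Mod.smooth_W {t : ℝ} (ht : t ∈ Ico 0 T) (c : ι) :
    ContDiffOn ℝ ∞ (fun x => F.Phi t (F.π ((F.a c).symm x))) (opd 10) := sorry

/-- `X/Overlap.lean`: the radius of the overlaps -/
theorem Mod.overlap : ∃ r : ℝ, 0 < r ∧ ∀ c c' : ι, ∀ w,
    w ∈ (F.a c).source → w ∈ (F.a c').source → F.a c w ∈ cpd (3 / 2) →
    F.a c' w ∈ cpd (3 / 2) → ∀ x, x - F.a c w ∈ cpd (k := n) r →
    (F.a c).symm x ∈ (F.a c').source ∧ F.a c' ((F.a c).symm x) ∈ cpd 2 := sorry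

/-- `X/Chain.lean` -/
theorem Mod.chain : ∃ (C r : ℝ) (B : ℕ), 1 ≤ C ∧ 0 < r ∧ r ≤ 1 ∧ ∀ t ∈ Ico 0 T, ∀ c,
    ∀ piv : Fin m → Fin n, (∀ i, F.row c (piv i) = some i) →
    ∀ q ∈ cpd (k := n) (3 / 2), (∀ i, prow (F.row c) i q ≠ 0) → nsq (F.zc c q) ≤ 20 →
    (∀ w ∈ cpd (k := n) r, Em (F.row c) piv q w ∈ opd 9) ∧
    ∫ w in cpd (k := n) r, -F.gc t c (Em (F.row c) piv q w) ≤
      C * (T - t) * (1 + ∑ i, |Real.log ‖prow (F.row c) i q‖|) ^ B := sorry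

/-- `X/Decay.lean` -/
theorem Mod.small {η : ℝ} (hη : 0 < η) : ∃ d₀ > 0, ∀ t ∈ Ico 0 T, T - t < d₀ → ∀ c,
    volume {x : Cn n | x ∈ cpd 1 ∧ nsq (F.zc c x) ≤ 16 ∧ F.gc t c x < -√(T - t)} ≤
      ENNReal.ofReal (η * (T - t) ^ (2 * n)) := sorry

/-- `X/Up.lean`: volumes in `M` and in `W` -/
theorem Mod.up (c : κ) {A : Set (Cn n)} (hA : IsCompact A) (hAt : A ⊆ (F.e c).target) :
    ∃ C : ℝ, 0 ≤ C ∧ ∀ S ⊆ A, ∀ B : ι → Set (Cn n), (∀ i, B i ⊆ cpd 1) →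
      (∀ z ∈ S, ∃ i, ∃ x ∈ B i, F.π ((F.a i).symm x) = (F.e c).symm z) →
      volume S ≤ ENNReal.ofReal C * ∑ i, volume (B i) := sorry

/-! ## E. The end -/

/-- `X/Dom.lean`: **functions of `Y` which are `≤ φ(t₀) + s` off a small set are
`≤ φ(t) + s + C √(T - t₀)`** -/
theorem Mod.dom (C₀ : ℝ) : ∃ (c C d₀ : ℝ) (A : κ → Set (Cn n)), 0 < c ∧ 0 ≤ C ∧ 0 < d₀ ∧
    {c | (A c).Nonempty}.Finite ∧ (∀ c, IsCompact (A c) ∧ A c ⊆ (F.e c).target) ∧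
    ∀ t₀ ∈ Ico 0 T, T - t₀ < d₀ → ∀ (R : P → Cn m → ℝ) (s : ℝ), 0 ≤ s →
      (∀ j, ContDiffOn ℝ ∞ (R j) {y | nsq y < 25}) →
      (∀ j y, nsq y < 25 → |R j y| ≤ C₀) →
      (∀ j y, nsq y < 25 → ∀ v, 0 ≤ levz (R j) v y + t₀ / T * levz (F.K j) v y) →
      (∀ i j y, y ∈ (F.b i).source → y ∈ (F.b j).source → 9 ≤ nsq (F.b i y) →
        nsq (F.b i y) ≤ 16 → nsq (F.b j y) ≤ 1 → R i (F.b i y) < R j (F.b j y)) →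
      (∀ c' j, ∀ S ⊆ A c', (∀ x ∈ S, F.f ((F.e c').symm x) ∈ (F.b j).source ∧
        nsq (F.b j (F.f ((F.e c').symm x))) ≤ 16 ∧
        F.Phi t₀ ((F.e c').symm x) < R j (F.b j (F.f ((F.e c').symm x))) - s) →
        volume S < ENNReal.ofReal (c * (T - t₀) ^ (2 * n))) →
      ∀ t ∈ Ico t₀ T, ∀ j p, F.f p ∈ (F.b j).source → nsq (F.b j (F.f p)) ≤ 16 →
        R j (F.b j (F.f p)) ≤ F.Phi t p + s + C * √(T - t₀) := sorry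

/-- `X/Drop.lean`: from `glue`, `small`, `pull`, `up`, `dom` -/
theorem Mod.drop : F.toFlow.Drop (1 / 2) := sorry

end Mod

end Pool.Agent.KRFX
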