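import Pool.Agent.Work.MP_a2bf38_gt.X.Setup
import Pool.Agent.Work.MP_a2bf38_gt.K.TouchA

/-!
# The charts of `W`
-/

open scoped ContDiff ENNReal ComplexOrder Topology
open Set Filter Pool.Agent.ToricKRF Pool.Agent.ToricKRF.G Pool.Agent.KRFS
  Pool.Agent.KRFF Pool.Agent.KRFG Pool.Agent.KRFG.Touch

namespace Pool.Agent.KRFX

section Mod

variable {n m l : ℕ} {M Y Y' W : Type} [TopologicalSpace M] [TopologicalSpace Y]
  [TopologicalSpace Y'] [TopologicalSpace W]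
  {κ P P' ι : Type} {T : ℝ} (F : Mod n m l M Y Y' W κ P P' ι T)

/-- the coordinates in `M` of the point `x` of the chart `c` of `W` -/
noncomputable def Mod.Hc (c : ι) (x : Cn n) : Cn n := F.e (F.al c) (F.π ((F.a c).symm x))

theorem Mod.Hc_holOn (c : ι) : HolOn (F.Hc c) (opd 10) := F.model.holo c

theorem Mod.mem_W {c : ι} {x : Cn n} (hx : x ∈ opd (k := n) 10) :
    (F.a c).symm x ∈ (F.a c).source :=
  (F.a c).map_target (by rwa [F.model.target c])

theorem Mod.a_symm {c : ι} {x : Cn n} (hx : x ∈ opd (k := n) 10) : F.a c ((F.a c).symm x) = x :=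
  (F.a c).right_inv (by rwa [F.model.target c])

theorem Mod.pi_mem {c : ι} {x : Cn n} (hx : x ∈ opd (k := n) 10) :
    F.π ((F.a c).symm x) ∈ (F.e (F.al c)).source := F.model.mem c _ (F.mem_W hx)

theorem Mod.Hc_mem {c : ι} {x : Cn n} (hx : x ∈ opd (k := n) 10) :
    F.Hc c x ∈ (F.e (F.al c)).target := (F.e (F.al c)).map_source (F.pi_mem hx)

theorem Mod.Phi_Hc {c : ι} {x : Cn n} (hx : x ∈ opd (k := n) 10) {t : ℝ} (ht : t ∈ Ico 0 T) :
    F.Phi t (F.π ((F.a c).symm x)) = F.phi (F.al c) (t, F.Hc c x) :=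
  F.toFlow.Phi_eq ht (F.pi_mem hx)

/-- the coordinates in `Y'` in a chart of `W` -/
theorem Mod.base_eq {c : ι} {x : Cn n} (hx : x ∈ opd (k := n) 10) :
    F.h ((F.a c).symm x) ∈ (F.z (F.pc c)).source ∧
      ∀ i, cc (F.z (F.pc c) (F.h ((F.a c).symm x))) i =
        (F.s c i * prow (F.row c) i x) ^ F.N (F.pc c) i := by
  have h1 := F.model.base ((F.a c).symm x)
  have h2 := F.model.lab_eq c _ (F.mem_W hx)
  rw [h2] at h1
  refine ⟨h1.1, fun i => ?_⟩
  rw [h1.2 i, F.model.mono c _ (F.mem_W hx) i, F.a_symm hx]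

/-- `f ∘ π = σ ∘ h` lies in the chart `la a` of `Y` over the chart `a` of `Y'` -/
theorem Mod.f_pi_mem {w : W} {a : P'} (hw : F.h w ∈ (F.z a).source) :
    F.f (F.π w) ∈ (F.b (F.la a)).source := by
  rw [← F.model.comm w, ← F.modif.lb_eq a _ hw]
  exact (F.modif.mem (F.h w)).1

/-- `π^* ω(0)` is bounded in the charts of `W` -/
theorem Mod.omega_le [Finite ι] (hT : 0 < T) : ∃ C : ℝ, 0 ≤ C ∧ ∀ c, ∀ x ∈ cpd (k := n) 1,
    ∀ ξ, lev (F.ψ (F.al c)) (fderiv ℝ (F.Hc c) x ξ) (0, F.Hc c x) ≤ C * nsq ξ := by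
  have h0 : (0 : ℝ) ∈ Ico 0 T := ⟨le_rfl, hT⟩
  have hsub : cpd (k := n) 1 ⊆ opd 10 := cpd_subset_opd (by norm_num) (by norm_num)
  have hsm : ∀ c, ContDiffOn ℝ ∞ (fun x => F.ψ (F.al c) (0, F.Hc c x)) (opd 10) := fun c =>
    (Touch.psi_slice F.toFlow (F.al c) h0).comp (F.Hc_holOn c).1 fun x hx => F.Hc_mem hx
  have key : ∀ c, ∃ C : ℝ, 0 ≤ C ∧ ∀ x ∈ cpd (k := n) 1, ∀ ξ,
      levz (fun x => F.ψ (F.al c) (0, F.Hc c x)) ξ x ≤ C * nsq ξ := by
    intro c
    refine quad_le (isCompact_cpd 1) (fun x ξ => levz (fun x => F.ψ (F.al c) (0, F.Hc c x)) ξ x)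
      (fun _ ξ => nsq ξ) ?_ ?_ ?_ ?_ ?_
    · exact (levz_continuousOn (isOpen_opd 10) (hsm c)).mono
        (prod_mono hsub le_rfl)
    · refine Continuous.continuousOn ?_
      unfold nsq dotProduct
      fun_prop
    · intro x hx r ξ
      exact Bd.levz_smul (isOpen_opd 10) (hsm c) (hsub hx) r ξ
    · intro x hx r ξ
      simp only [nsq, Prod.smul_fst, Prod.smul_snd, dotProduct_smul, smul_dotProduct, smul_eq_mul]
      ring
    · intro x hx ξ hξ
      have h1 : 0 ≤ nsq ξ := by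
        rw [nsq_eq]
        exact Finset.sum_nonneg fun l _ => Complex.normSq_nonneg _
      refine lt_of_le_of_ne h1 fun h => hξ ?_
      rw [nsq_eq] at h
      refine ext_cc fun l => ?_
      have h2 := (Finset.sum_eq_zero_iff_of_nonneg fun l _ => Complex.normSq_nonneg _).1 h.symm l
        (Finset.mem_univ l)
      rw [Complex.normSq_eq_zero.1 h2]
      simp [cc, Complex.ext_iff]
  choose C hC hC' using key
  obtain ⟨B, hB⟩ := (Set.finite_range C).bddAbove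
  refine ⟨max B 0, le_max_right _ _, fun c x hx ξ => ?_⟩
  have h1 := hC' c x hx ξ
  have hm := F.Hc_mem (c := c) (hsub hx)
  obtain ⟨U, hU, hsubU, hs⟩ := F.krf.smooth (F.al c)
  have h2 : levz (fun x => F.ψ (F.al c) (0, F.Hc c x)) ξ x =
      levz (fun z => F.ψ (F.al c) (0, z)) (fderiv ℝ (F.Hc c) x ξ) (F.Hc c x) :=
    levz_comp (F.e (F.al c)).open_target (Touch.psi_slice F.toFlow (F.al c) h0) (isOpen_opd 10)
      (F.Hc_holOn c) (hsub hx) hm ξ
  have h3 : levz (fun z => F.ψ (F.al c) (0, z)) (fderiv ℝ (F.Hc c) x ξ) (F.Hc c x) =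
      lev (F.ψ (F.al c)) (fderiv ℝ (F.Hc c) x ξ) (0, F.Hc c x) :=
    levz_slice hU hs (hsubU ⟨h0, hm⟩) _
  rw [h2, h3] at h1
  have h4 : 0 ≤ nsq ξ := by
    rw [nsq_eq]
    exact Finset.sum_nonneg fun l _ => Complex.normSq_nonneg _
  exact h1.trans (mul_le_mul_of_nonneg_right ((hB ⟨c, rfl⟩).trans (le_max_left _ _)) h4)

end Mod

end Pool.Agent.KRFX
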